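import Pool.Agent.NIPFields.RB.HasL

set_option autoImplicit false

/-!
# An algebraically closed subfield
-/

namespace Pool.Agent.NIPFields.RB

open FirstOrder FirstOrder.Language FirstOrder.Ring Set
open Pool.Agent.NIPFields.FI Pool.Agent.NIPFields.LG

universe u

variable {p : ℕ} [hp : Fact p.Prime] {K : Type u} [Field K] [CompatibleRing K] [CharP K p]
  [Infinite K]

/-- An element which is integral over the prime field satisfies `x ^ (p ^ n) = x` for some
`n ≠ 0`. -/
private theorem exists_pow_eq {p : ℕ} [Fact p.Prime] {Ω : Type*} [Field Ω] [Algebra (ZMod p) Ω]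
    {x : Ω} (hx : IsIntegral (ZMod p) x) : ∃ n : ℕ, n ≠ 0 ∧ x ^ p ^ n = x := by
  have : FiniteDimensional (ZMod p) (IntermediateField.adjoin (ZMod p) {x}) :=
    IntermediateField.adjoin.finiteDimensional hx
  have : Finite (IntermediateField.adjoin (ZMod p) {x}) := Module.finite_of_finite (ZMod p)
  have := Fintype.ofFinite (IntermediateField.adjoin (ZMod p) {x})
  refine ⟨Module.finrank (ZMod p) (IntermediateField.adjoin (ZMod p) {x}),
    Module.finrank_pos.ne', ?_⟩
  have h1 := FiniteField.pow_card (IntermediateField.AdjoinSimple.gen (ZMod p) x)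
  rw [Module.card_eq_pow_finrank (K := ZMod p), ZMod.card] at h1
  have h2 := congrArg (algebraMap (IntermediateField.adjoin (ZMod p) {x}) Ω) h1
  rw [map_pow, IntermediateField.AdjoinSimple.algebraMap_gen] at h2
  exact h2

/-- The subfield `k` of the elements which are algebraic over the prime field (all `x` with
`x ^ (p ^ n) = x` for some `n ≠ 0`) is algebraically closed: let `f` be a polynomial of positive degree
over `k`, and let `α` be a root of `f` in an algebraic closure `Ω` of `K`. Then `α` is algebraic over
the prime field, so `α ^ (p ^ n) = α` for some `n ≠ 0`; but all the `p ^ n` solutions of this equation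
are in `K` by `has_all`. -/
theorem exists_algClosed (p : ℕ) [Fact p.Prime] [CharP K p] (hK : NIP K) :
    ∃ k : Subfield K, IsAlgClosed k := by
  let _ : Algebra (ZMod p) K := ZMod.algebra K p
  let k := algebraicClosure (ZMod p) K
  refine ⟨k.toSubfield, ?_⟩
  have hmain : IsAlgClosed k := by
    refine IsAlgClosed.of_exists_root k fun f _ hirr => ?_
    obtain ⟨α, hα⟩ := IsAlgClosed.exists_aeval_eq_zero (AlgebraicClosure k) f
      (Polynomial.degree_pos_of_irreducible hirr).ne'
    have : Algebra.IsAlgebraic (ZMod p) (AlgebraicClosure k) :=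
      Algebra.IsAlgebraic.trans (ZMod p) k (AlgebraicClosure k)
    have hint : IsIntegral (ZMod p) α := Algebra.IsIntegral.isIntegral α
    obtain ⟨n, hn, hαn⟩ := exists_pow_eq hint
    obtain ⟨σ⟩ := has_all (p := p) hK hn
    have : CharP k p := charP_of_injective_algebraMap (algebraMap (ZMod p) k).injective p
    have : CharP (AlgebraicClosure k) p :=
      charP_of_injective_algebraMap (algebraMap k (AlgebraicClosure k)).injective p
    have hσ : ∀ y, σ y ∈ k.toSubring := by
      intro y
      have h1 : σ y ^ p ^ n = σ y := (mem_range_iff hn σ (σ y)).1 ⟨y, rfl⟩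
      show σ y ∈ algebraicClosure (ZMod p) K
      rw [mem_algebraicClosure_iff]
      refine ⟨Polynomial.X ^ p ^ n - Polynomial.X, ?_, ?_⟩
      · exact FiniteField.X_pow_card_pow_sub_X_ne_zero _ hn (Fact.out : p.Prime).one_lt
      · rw [map_sub, map_pow, Polynomial.aeval_X, h1, sub_self]
    let τ : GaloisField p n →+* k := σ.codRestrict k.toSubring hσ
    obtain ⟨y, hy⟩ := (mem_range_iff hn ((algebraMap k (AlgebraicClosure k)).comp τ) α).2 hαn
    refine ⟨τ y, ?_⟩
    have h2 : algebraMap k (AlgebraicClosure k) (τ y) = α := hy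
    rw [← h2, Polynomial.aeval_algebraMap_apply] at hα
    have h3 := (map_eq_zero_iff _ (algebraMap k (AlgebraicClosure k)).injective).1 hα
    exact h3
  exact hmain

end Pool.Agent.NIPFields.RB
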