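import Pool.Agent.NIPFields.RB.Density
import Pool.Agent.NIPFields.PQ.Ramsey
import Pool.Agent.NIPFields.LV.GPrime

set_option autoImplicit false

/-!
# Finite sets without rainbow translates and the condition `TLS`
-/

namespace Pool.Agent.NIPFields.RB

open Finset Pool.Agent.NIPFields.LV Pool.Agent.NIPFields.LG Pool.Agent.NIPFields.FI

universe u

/-- The Ramsey form of `TLS` with bounded traces. -/
theorem tls_of_ramsey {F : Type*} [Field F] [Infinite F] {H : Set F} (h0 : ∀ x ∈ H, x ≠ 0)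
    (hmul : ∀ x ∈ H, ∀ y ∈ H, x * y ∈ H) (hinv : ∀ x ∈ H, x⁻¹ ∈ H)
    (hone : ∀ b : F, ∃ x : F, x ≠ 0 ∧ 1 + b * x ∈ H) {k : ℕ} (hk : 0 < k) {f : ℕ → ℕ}
    (hf : Filter.Tendsto (fun m : ℕ => (f m : ℝ) / (m : ℝ) ^ k) Filter.atTop (nhds 0))
    (htr : TrLe F H f) {N : ℕ}
    (hN : ∀ A : Finset F, N ≤ A.card → ∃ C ⊆ A, C.card = k ∧
      ∃ δ : F, δ ≠ 0 ∧ ∀ a ∈ C, 1 + a * δ ∈ H) : TLS F H := by
  classical
  obtain ⟨d, rfl⟩ : ∃ d, k = d + 1 := ⟨k - 1, by omega⟩
  intro A
  refine PQ.exists_common H h0 hmul hinv (d + 1) ((N + 1) * (d + 1)) hk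
    (Nat.le_mul_of_pos_left _ (Nat.succ_pos _)) ?_ _ hf htr A
  intro b
  by_cases hcard : N ≤ (univ.image b).card
  · obtain ⟨C, hC, hCn, δ, hδ, hδC⟩ := hN _ hcard
    have hex : ∀ c : C, ∃ i, b i = c := by
      intro c
      obtain ⟨i, _, hi⟩ := mem_image.1 (hC c.2)
      exact ⟨i, hi⟩
    choose g hg using hex
    have hginj : Function.Injective g := by
      intro c c' hcc
      apply Subtype.ext
      rw [← hg c, ← hg c', hcc]
    refine ⟨(univ : Finset C).image g, ?_, δ, hδ, ?_⟩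
    · rw [card_image_of_injective _ hginj, card_univ, Fintype.card_coe, hCn]
    · intro i hi
      obtain ⟨c, _, rfl⟩ := mem_image.1 hi
      rw [hg c]
      exact hδC c c.2
  · push Not at hcard
    have hpos : 0 < (univ.image b).card := by
      rw [card_pos]
      exact ⟨b ⟨0, by positivity⟩, mem_image_of_mem b (mem_univ _)⟩
    obtain ⟨v, _, hv⟩ := exists_lt_card_fiber_of_mul_lt_card_of_maps_to
      (s := (univ : Finset (Fin ((N + 1) * (d + 1))))) (t := univ.image b) (f := b) (n := d)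
      (fun i _ => mem_image_of_mem b (mem_univ i)) (by
        rw [card_univ, Fintype.card_fin]
        nlinarith)
    obtain ⟨I, hI, hIc⟩ := exists_subset_card_eq (Nat.succ_le_of_lt hv)
    obtain ⟨x, hx, hxb⟩ := hone v
    refine ⟨I, hIc, x, hx, fun i hi => ?_⟩
    rw [(mem_filter.1 (hI hi)).2]
    exact hxb

/-- A finite set without rainbow translates and a polynomial bound for the number of traces give
`TLS`. -/
theorem tls_of_noRainbow {F : Type*} [Field F] [Infinite F] {H : Set F} (h0 : ∀ x ∈ H, x ≠ 0)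
    (h1 : (1 : F) ∈ H) (hmul : ∀ x ∈ H, ∀ y ∈ H, x * y ∈ H) (hinv : ∀ x ∈ H, x⁻¹ ∈ H)
    {B : Finset F} (hB : NoRainbow H B) {k : ℕ} (hk : 0 < k) {f : ℕ → ℕ}
    (hf : Filter.Tendsto (fun m : ℕ => (f m : ℝ) / (m : ℝ) ^ k) Filter.atTop (nhds 0))
    (htr : TrLe F H f) : TLS F H := by
  classical
  refine tls_of_ramsey h0 hmul hinv ?_ hk hf htr (N := 2 * B.card ^ 2 * k + 1) ?_
  · intro b
    by_cases hb : b = 0
    · exact ⟨1, one_ne_zero, by rwa [hb, zero_mul, add_zero]⟩
    · obtain ⟨δ, hδ, h⟩ := density hB {b} (by simpa using Ne.symm hb)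
      refine ⟨δ, hδ, ?_⟩
      by_contra hcon
      have h2 : (({b} : Finset F).filter fun a => 1 + a * δ ∈ H) = ∅ := by
        rw [filter_eq_empty_iff]
        intro a ha
        rw [mem_singleton.1 ha]
        exact hcon
      rw [h2, card_empty, mul_zero, card_singleton] at h
      omega
  · intro A hA
    obtain ⟨δ, hδ, h⟩ := density hB (A.erase 0) (by simp)
    have h2 : 2 * B.card ^ 2 * k ≤ (A.erase 0).card := by
      have := pred_card_le_card_erase (s := A) (a := (0 : F))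
      omega
    have h3 := h2.trans h
    by_cases hβ : 2 * B.card ^ 2 = 0
    · exfalso
      have hB0 : B = ∅ := by
        rw [← card_eq_zero]
        have h4 : B.card ^ 2 = 0 := by omega
        exact pow_eq_zero_iff (two_ne_zero) |>.1 h4
      obtain ⟨b, hb, -⟩ := hB 0 (by rw [hB0]; simp)
      rw [hB0] at hb
      exact absurd hb (by simp)
    · obtain ⟨C, hC, hCk⟩ := exists_subset_card_eq
        (Nat.le_of_mul_le_mul_left h3 (Nat.pos_of_ne_zero hβ))
      refine ⟨C, fun c hc => mem_of_mem_erase (mem_filter.1 (hC hc)).1, hCk, δ, hδ, fun a ha => ?_⟩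
      exact (mem_filter.1 (hC ha)).2

end Pool.Agent.NIPFields.RB
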