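import Mathlib

set_option autoImplicit false

/-!
# Finite Galois extensions whose group is an `ℓ`-group
-/

namespace Pool.Agent.NIPFields.RB

open IntermediateField

variable {F Ω : Type*} [Field F] [Field Ω] [Algebra F Ω]

/-- `M` is a finite Galois extension of `F` in `Ω` whose group is an `ℓ`-group. -/
structure Cls (ℓ : ℕ) (M : IntermediateField F Ω) : Prop where
  fin : FiniteDimensional F M
  gal : IsGalois F M
  grp : IsPGroup ℓ (M ≃ₐ[F] M)

/-- The homomorphism `φ` factors through the group of a field in the class. -/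
def FL (ℓ : ℕ) {Q : Type*} [Group Q] (φ : (Ω ≃ₐ[F] Ω) →* Q) : Prop :=
  ∃ M : IntermediateField F Ω, Cls ℓ M ∧ ∀ γ : Ω ≃ₐ[F] Ω, (∀ x ∈ M, γ x = x) → φ γ = 1

theorem Cls.bot (ℓ : ℕ) : Cls ℓ (⊥ : IntermediateField F Ω) := by
  refine ⟨inferInstance, inferInstance, fun g => ⟨0, ?_⟩⟩
  rw [pow_zero, pow_one]
  ext x
  obtain ⟨y, hy⟩ := IntermediateField.mem_bot.1 x.2
  have hx : x = algebraMap F (⊥ : IntermediateField F Ω) y := Subtype.ext hy.symm
  rw [hx, AlgEquiv.commutes, AlgEquiv.commutes]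

private theorem res_pow {ℓ : ℕ} {M N : IntermediateField F Ω} (h : Cls ℓ M) (hMN : M ≤ N)
    (g : N ≃ₐ[F] N) : ∃ k, ∀ j, k ≤ j → ∀ x : Ω, ∀ hx : x ∈ M,
      (g ^ (ℓ ^ j)) ⟨x, hMN hx⟩ = ⟨x, hMN hx⟩ := by
  let _ : Algebra M N := (IntermediateField.inclusion hMN).toRingHom.toAlgebra
  have : IsScalarTower F M N := IsScalarTower.of_algebraMap_eq fun _ => rfl
  have := h.gal
  obtain ⟨k, hk⟩ := h.grp (AlgEquiv.restrictNormalHom M g)
  refine ⟨k, fun j hj x hx => ?_⟩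
  have h1 : AlgEquiv.restrictNormalHom M (g ^ (ℓ ^ j)) = 1 := by
    obtain ⟨i, rfl⟩ := Nat.exists_eq_add_of_le hj
    rw [map_pow, pow_add, pow_mul, hk, one_pow]
  have h2 := AlgEquiv.restrictNormal_commutes (g ^ (ℓ ^ j)) M (⟨x, hx⟩ : M)
  have h3 : AlgEquiv.restrictNormal (g ^ (ℓ ^ j)) M = 1 := h1
  rw [h3] at h2
  exact h2.symm

/-- The group of the compositum is a subgroup of the product. -/
theorem Cls.sup {ℓ : ℕ} {M M' : IntermediateField F Ω} (h : Cls ℓ M) (h' : Cls ℓ M') :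
    Cls ℓ (M ⊔ M') := by
  have := h.fin
  have := h'.fin
  have := h.gal
  have := h'.gal
  refine ⟨IntermediateField.finiteDimensional_sup M M', inferInstance, fun g => ?_⟩
  obtain ⟨k, hk⟩ := res_pow h (le_sup_left : M ≤ M ⊔ M') g
  obtain ⟨k', hk'⟩ := res_pow h' (le_sup_right : M' ≤ M ⊔ M') g
  refine ⟨max k k', ?_⟩
  set σ := g ^ (ℓ ^ max k k') with hσ
  have h1 := hk (max k k') (le_max_left _ _)
  have h2 := hk' (max k k') (le_max_right _ _)
  set E : IntermediateField F (M ⊔ M' : IntermediateField F Ω) :=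
    IntermediateField.fixedField (Subgroup.zpowers σ) with hE
  have hmem : ∀ x : (M ⊔ M' : IntermediateField F Ω), σ x = x → x ∈ E := by
    intro x hx
    rw [hE, IntermediateField.mem_fixedField_iff]
    intro τ hτ
    obtain ⟨n, rfl⟩ := Subgroup.mem_zpowers_iff.1 hτ
    have h3 : ∀ n : ℕ, (σ ^ n) x = x := by
      intro n
      induction n with
      | zero => simp
      | succ n ih => rw [pow_succ, AlgEquiv.mul_apply, hx, ih]
    rcases n with n | n
    · simpa using h3 n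
    · rw [zpow_negSucc]
      calc (σ ^ (n + 1))⁻¹ x = (σ ^ (n + 1))⁻¹ ((σ ^ (n + 1)) x) := by rw [h3]
        _ = x := by rw [← AlgEquiv.mul_apply, inv_mul_cancel]; rfl
  have hle : M ⊔ M' ≤ IntermediateField.lift E := by
    refine sup_le (fun x hx => ?_) (fun x hx => ?_)
    · exact (IntermediateField.mem_lift (⟨x, le_sup_left (a := M) hx⟩ :
        (M ⊔ M' : IntermediateField F Ω))).2 (hmem _ (h1 x hx))
    · exact (IntermediateField.mem_lift (⟨x, le_sup_right (b := M') hx⟩ :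
        (M ⊔ M' : IntermediateField F Ω))).2 (hmem _ (h2 x hx))
  ext x
  have hx : x ∈ E := (IntermediateField.mem_lift x).1 (hle x.2)
  rw [hE, IntermediateField.mem_fixedField_iff] at hx
  have := hx σ (Subgroup.mem_zpowers σ)
  rw [this]
  rfl

/-- products with values in the centre -/
theorem FL.mul {ℓ : ℕ} {Q : Type*} [Group Q] {φ ψ χ : (Ω ≃ₐ[F] Ω) →* Q} (hφ : FL ℓ φ)
    (hψ : FL ℓ ψ) (h : ∀ γ, χ γ = φ γ * ψ γ) : FL ℓ χ := by
  obtain ⟨M, hM, h1⟩ := hφ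
  obtain ⟨M', hM', h2⟩ := hψ
  refine ⟨M ⊔ M', hM.sup hM', fun γ hγ => ?_⟩
  rw [h, h1 γ fun x hx => hγ x ((le_sup_left : M ≤ M ⊔ M') hx),
    h2 γ fun x hx => hγ x ((le_sup_right : M' ≤ M ⊔ M') hx), one_mul]

theorem FL.comp {ℓ : ℕ} {Q Q' : Type*} [Group Q] [Group Q'] {φ : (Ω ≃ₐ[F] Ω) →* Q}
    (hφ : FL ℓ φ) (f : Q →* Q') : FL ℓ (f.comp φ) := by
  obtain ⟨M, hM, h1⟩ := hφ
  refine ⟨M, hM, fun γ hγ => ?_⟩
  rw [MonoidHom.comp_apply, h1 γ hγ, map_one]

end Pool.Agent.NIPFields.RB
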