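import Pool.Agent.NIPFields.RB.Cls

set_option autoImplicit false

/-!
# Adjunction of roots
-/

namespace Pool.Agent.NIPFields.RB

open IntermediateField

variable {F Ω : Type*} [Field F] [Field Ω] [Algebra F Ω]

/-- An `ℓ`-th root of an element of a separable extension is separable. -/
private theorem isSeparable_root {ℓ : ℕ} (hℓF : (ℓ : F) ≠ 0)
    {M : IntermediateField F Ω} [Algebra.IsSeparable F M] {y : Ω} (hy : y ^ ℓ ∈ M) :
    IsSeparable F y := by
  rcases eq_or_ne y 0 with rfl | h0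
  · have := isSeparable_algebraMap (F := F) (K := Ω) (0 : F)
    rwa [map_zero] at this
  refine IsSeparable.of_algebra_isSeparable_of_isSeparable F (E := M) ?_
  have hne : (⟨y ^ ℓ, hy⟩ : M) ≠ 0 := by
    intro h
    exact pow_ne_zero ℓ h0 (congrArg Subtype.val h)
  have hℓM : ((ℓ : ℕ) : M) ≠ 0 := by
    intro h
    apply hℓF
    apply (algebraMap F M).injective
    rw [map_natCast, h, map_zero]
  have hsep := Polynomial.separable_X_pow_sub_C (⟨y ^ ℓ, hy⟩ : M) hℓM hne
  refine Polynomial.Separable.of_dvd hsep (minpoly.dvd M y ?_)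
  simp only [map_sub, map_pow, Polynomial.aeval_X, Polynomial.aeval_C]
  exact sub_self _

/-- Adjunction of an `ℓ`-th root `y` of `θ ∈ M`: let `M₂` be generated by `M` and the elements `y_σ` with
`y_σ ^ ℓ = σ(θ)`, for all `σ` in the group of `M` over `F` (and `y_1 = y`). It is the splitting field over
`F` of a separable polynomial (of the polynomial whose splitting field is `M`, and of the product
of the `X ^ ℓ - σ(θ)`, which has coefficients in `F`; all the roots of `X ^ ℓ - σ(θ)` are `ζ ^ i y_σ`; if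
`θ = 0` take `M₂ = M`). Every `τ` in the group of `M₂` over `F` has a power `τ ^ (ℓ ^ a)` which is the
identity on `M`, so it maps every `y_σ` to `ζ ^ i y_σ`, so its `ℓ`-th power is the identity. -/
theorem Cls.root [IsAlgClosed Ω] {ℓ : ℕ} (hℓ : ℓ.Prime) (hℓF : (ℓ : F) ≠ 0) {ζ : F}
    (hζ : IsPrimitiveRoot ζ ℓ) {M : IntermediateField F Ω} (hM : Cls ℓ M) {y : Ω}
    (hy : y ^ ℓ ∈ M) : ∃ M₂ : IntermediateField F Ω, Cls ℓ M₂ ∧ M ≤ M₂ ∧ y ∈ M₂ := by
  have := hM.fin
  have := hM.gal
  have hsy : IsSeparable F y := isSeparable_root hℓF hy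
  have : FiniteDimensional F F⟮y⟯ := adjoin.finiteDimensional hsy.isIntegral
  have : Algebra.IsSeparable F F⟮y⟯ := (isSeparable_adjoin_simple_iff_isSeparable F Ω).2 hsy
  set K : IntermediateField F Ω := M ⊔ F⟮y⟯ with hK
  have : FiniteDimensional F K := inferInstance
  have : Algebra.IsSeparable F K := inferInstance
  have hKa : K = adjoin F ((M : Set Ω) ∪ {y}) := by
    rw [adjoin_union, adjoin_self]
  have hsplits : ∀ x : K, ((minpoly F x).map (algebraMap F Ω)).Splits := fun x =>
    IsAlgClosed.splits _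
  set N : IntermediateField F Ω := normalClosure F K Ω with hN
  have hNN : IsNormalClosure F K N := Algebra.IsAlgebraic.isNormalClosure_normalClosure hsplits
  have : Normal F N := hNN.normal (K := K)
  have : FiniteDimensional F N := inferInstance
  have hsepN : Algebra.IsSeparable F N := by
    rw [hN, normalClosure_def]
    have : ∀ f : K →ₐ[F] Ω, Algebra.IsSeparable F f.fieldRange := fun f =>
      Algebra.IsSeparable.of_algHom F K (AlgEquiv.ofInjectiveField f).symm.toAlgHom
    infer_instance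
  have hKN : K ≤ N := le_normalClosure K
  have hMK : M ≤ K := le_sup_left
  have hyK : y ∈ K := (le_sup_right : F⟮y⟯ ≤ K) (mem_adjoin_simple_self F y)
  have hMN : M ≤ N := hMK.trans hKN
  refine ⟨N, ⟨inferInstance, ⟨⟩, ?_⟩, hMN, hKN hyK⟩
  let : Algebra M N := (inclusion hMN).toAlgebra
  have : IsScalarTower F M N := IsScalarTower.of_algebraMap_eq fun x => rfl
  intro τ
  obtain ⟨a, ha⟩ := hM.grp (AlgEquiv.restrictNormalHom (F := F) (K₁ := N) M τ)
  refine ⟨a + 1, ?_⟩
  rw [← map_pow] at ha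
  set σ := τ ^ ℓ ^ a with hσ
  have hfix : ∀ n : N, (n : Ω) ∈ M → σ n = n := by
    intro n hn
    have h := AlgEquiv.restrictNormal_commutes σ M ⟨n, hn⟩
    have h2 : σ.restrictNormal M = 1 := ha
    rw [h2] at h
    exact h.symm
  have htop : normalClosure F K N = ⊤ := (Algebra.IsAlgebraic.isNormalClosure_iff.1 hNN).2
  have hζN : IsPrimitiveRoot (algebraMap F N ζ) ℓ := hζ.map_of_injective (algebraMap F N).injective
  have hfr : ∀ (f : K →ₐ[F] N) (x : K), (x : Ω) ∈ M → ((f x : N) : Ω) ∈ M := by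
    intro f x hx
    have h1 := AlgHom.fieldRange_of_normal (E := M) (N.val.comp (f.comp (inclusion hMK)))
    rw [← h1]
    exact ⟨⟨x, hx⟩, rfl⟩
  have key : ∀ f : K →ₐ[F] N, ((σ ^ ℓ : N ≃ₐ[F] N) : N →ₐ[F] N).comp f = f := by
    intro f
    refine algHom_ext_of_eq_adjoin F hKa fun x hx => ?_
    rcases hx with hx | hx
    · have h1 : σ (f ⟨x, _⟩) = f ⟨x, _⟩ := hfix _ (hfr f ⟨x, hMK hx⟩ hx)
      have h2 : ∀ j : ℕ, (σ ^ j) (f ⟨x, hMK hx⟩) = f ⟨x, hMK hx⟩ := by
        intro j
        induction j with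
        | zero => rfl
        | succ j ih => rw [pow_succ, AlgEquiv.mul_apply, h1, ih]
      exact h2 ℓ
    · rw [Set.mem_singleton_iff] at hx
      subst hx
      set w : N := f ⟨x, hyK⟩ with hw
      have h3 : σ (w ^ ℓ) = w ^ ℓ := by
        refine hfix _ ?_
        have h4 := hfr f (⟨x, hyK⟩ ^ ℓ) (by simpa using hy)
        rwa [map_pow] at h4
      rcases eq_or_ne w 0 with h0 | h0
      · change (σ ^ ℓ) w = w
        rw [h0, map_zero]
      · have h5 : (σ w / w) ^ ℓ = 1 := by
          rw [div_pow, ← map_pow, h3, div_self (pow_ne_zero ℓ h0)]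
        have : NeZero ℓ := ⟨hℓ.ne_zero⟩
        obtain ⟨i, -, hi⟩ := hζN.eq_pow_of_pow_eq_one h5
        have h6 : σ w = algebraMap F N (ζ ^ i) * w := by
          rw [map_pow, hi, div_mul_cancel₀ _ h0]
        have h7 : ∀ j : ℕ, (σ ^ j) w = algebraMap F N ((ζ ^ i) ^ j) * w := by
          intro j
          induction j with
          | zero => simp
          | succ j ih =>
            rw [pow_succ, AlgEquiv.mul_apply, h6, map_mul, AlgEquiv.commutes, ih, ← mul_assoc,
              ← map_mul, ← pow_succ']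
        change (σ ^ ℓ) w = w
        rw [h7 ℓ, ← pow_mul, mul_comm i ℓ, pow_mul, hζ.pow_eq_one, one_pow, map_one, one_mul]
  rw [pow_succ, pow_mul]
  rw [← hσ]
  have h8 : (⊤ : IntermediateField F N) ≤ fixedField (Subgroup.zpowers (σ ^ ℓ)) := by
    rw [← htop, normalClosure_def]
    refine iSup_le fun f => ?_
    rintro _ ⟨x, rfl⟩
    rw [mem_fixedField_iff]
    intro g hg
    have h9 : (σ ^ ℓ) (f x) = f x := congrArg (fun φ : K →ₐ[F] N => φ x) (key f)
    have h10 : σ ^ ℓ ∈ MulAction.stabilizer (N ≃ₐ[F] N) (f x) := h9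
    have h11 := (Subgroup.zpowers_le.2 h10) hg
    exact h11
  ext n
  have h12 := h8 (mem_top : n ∈ ⊤)
  rw [mem_fixedField_iff] at h12
  rw [h12 (σ ^ ℓ) (Subgroup.mem_zpowers _)]
  rfl

end Pool.Agent.NIPFields.RB
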