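import Pool.Agent.NIPFields.RB.Tls
import Pool.Agent.NIPFields.LV.FinalP

set_option autoImplicit false

/-!
# The rainbow criterion
-/

namespace Pool.Agent.NIPFields.RB

open FirstOrder FirstOrder.Language FirstOrder.Ring Set Filter IsLocalRing
open Pool.Agent.NIPFields.FI Pool.Agent.NIPFields.LG Pool.Agent.NIPFields.LV

universe u

attribute [local instance] germAlg

/-- The number of traces of the powers in a NIP field. -/
theorem trLe_nip {K : Type u} [Field K] [CompatibleRing K] (hK : NIP K) (ℓ : ℕ) :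
    ∃ d : ℕ, 2 ≤ d ∧ TrLe K (Pw K ℓ) fun m => ∑ k ∈ Finset.range d, m.choose k := by
  obtain ⟨d₀, hd₀⟩ := NIP.vc_lin hK ℓ
  have hvc : ∀ y : Fin d₀ → K, ∃ J : Finset (Fin d₀), ∀ x : K,
      ∃ i, ¬ (1 + y i * x ∈ Pw K ℓ ↔ i ∈ J) := by
    intro y
    obtain ⟨J, hJ⟩ := hd₀ y
    refine ⟨J, fun x => ?_⟩
    obtain ⟨i, hi⟩ := hJ x
    refine ⟨i, fun h' => hi ?_⟩
    rw [col_pow]
    exact h'
  refine ⟨d₀ + 2, by omega, fun m b => (PQ.trLe_of_vc hvc m b).trans ?_⟩
  exact Finset.sum_le_sum_of_subset (Finset.range_mono (by omega))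

/-- Transfer to the ultrapower. -/
theorem NoRainbow.germ {L : Type u} [Field L] [DecidableEq (Germ (UF L : Filter (Finset L)) L)]
    {ℓ : ℕ} {B : Finset L} (hB : NoRainbow (Pw L ℓ) B) :
    NoRainbow (Pw (Germ (UF L : Filter (Finset L)) L) ℓ)
      (B.image (algebraMap L (Germ (UF L : Filter (Finset L)) L))) := by
  classical
  intro c hc
  induction c using Germ.inductionOn with | _ f
  have h1 : ∀ᶠ t in (UF L : Filter (Finset L)), ∀ b ∈ B, f t + b ≠ 0 := by
    rw [Filter.eventually_all_finset]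
    intro b hb
    have h2 := hc _ (Finset.mem_image_of_mem _ hb)
    rw [Ultrafilter.eventually_not]
    intro h3
    apply h2
    have h4 : (↑f + algebraMap L (Germ (UF L : Filter (Finset L)) L) b) =
        ((fun t => f t + b : Finset L → L) : Germ (UF L : Filter (Finset L)) L) := rfl
    rw [h4, ← Germ.coe_zero, Germ.coe_eq]
    exact h3
  have h2 : ∀ᶠ t in (UF L : Filter (Finset L)), ∃ x ∈ ((B ×ˢ B : Finset (L × L)) : Set (L × L)),
      x.1 ≠ x.2 ∧ (f t + x.1) / (f t + x.2) ∈ Pw L ℓ := by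
    filter_upwards [h1] with t ht
    obtain ⟨b, hb, b', hb', hne, h⟩ := hB (f t) ht
    exact ⟨(b, b'), Finset.mem_coe.2 (Finset.mem_product.2 ⟨hb, hb'⟩), hne, h⟩
  rw [Ultrafilter.eventually_exists_mem_iff (Finset.finite_toSet _)] at h2
  obtain ⟨⟨b, b'⟩, hbb, h3⟩ := h2
  obtain ⟨hb, hb'⟩ := Finset.mem_product.1 (Finset.mem_coe.1 hbb)
  refine ⟨_, Finset.mem_image_of_mem _ hb, _, Finset.mem_image_of_mem _ hb', ?_, ?_⟩
  · intro h
    obtain ⟨t, ht⟩ := h3.exists
    exact ht.1 ((algebraMap L (Germ (UF L : Filter (Finset L)) L)).injective h)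
  · have h4 : (↑f + algebraMap L (Germ (UF L : Filter (Finset L)) L) b) /
        (↑f + algebraMap L (Germ (UF L : Filter (Finset L)) L) b') =
        ((fun t => (f t + b) / (f t + b') : Finset L → L) :
          Germ (UF L : Filter (Finset L)) L) := rfl
    rw [h4, mem_Pw_germ]
    filter_upwards [h3] with t ht
    exact ht.2

/-- Transfer to the residue fields of the tower. -/
theorem NoRainbow.residue {p : ℕ} [hp : Fact p.Prime] {K k : Type u} [Field K]
    [CharP K p] [Infinite K] [Field k] [Algebra K k] [CompatibleRing k] [DecidableEq k] {ℓ : ℕ}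
    (hk : NIP k) (hℓ : ℓ.Prime) (hℓp : ℓ ≠ p) (D : LD K k ℓ) {G : Finset k}
    (h1 : (1 : k) ∈ G) (h0 : ∀ g ∈ G, g ≠ 0) [IsLocalRing (D.E G)]
    [DecidableEq (ResidueField (D.E G))] {B : Finset K}
    (hB : NoRainbow (Pw k ℓ) (B.image (algebraMap K k))) :
    NoRainbow (HS k ℓ (D.E G)) (B.image fun b =>
      IsLocalRing.residue (D.E G) ⟨algebraMap K k b, D.algebraMap_mem G b⟩) := by
  intro c hc
  obtain ⟨c, rfl⟩ := residue_surjective c
  have hu : ∀ b ∈ B, IsUnit (c + (⟨algebraMap K k b, D.algebraMap_mem G b⟩ : D.E G)) := by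
    intro b hb
    by_contra hn
    apply hc _ (Finset.mem_image_of_mem _ hb)
    rw [← map_add]
    exact (residue_eq_zero_iff _).2 ((mem_maximalIdeal _).2 hn)
  have hne : ∀ b ∈ B, (c : k) + algebraMap K k b ≠ 0 := by
    intro b hb h
    apply (hu b hb).ne_zero
    exact Subtype.ext h
  obtain ⟨x, hx, x', hx', hxx, h⟩ := hB (c : k) (by
    intro x hx
    obtain ⟨b, hb, rfl⟩ := Finset.mem_image.1 hx
    exact hne b hb)
  obtain ⟨b, hb, rfl⟩ := Finset.mem_image.1 hx
  obtain ⟨b', hb', rfl⟩ := Finset.mem_image.1 hx'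
  obtain ⟨w, hw⟩ := (hu b' hb').exists_right_inv
  set a : D.E G := c + (⟨algebraMap K k b, D.algebraMap_mem G b⟩ : D.E G) with ha
  set a' : D.E G := c + (⟨algebraMap K k b', D.algebraMap_mem G b'⟩ : D.E G) with ha'
  have hw' : (a' : k) * w = 1 := congrArg Subtype.val hw
  have hwu : IsUnit w := IsUnit.of_mul_eq_one a' (by rw [mul_comm]; exact hw)
  refine ⟨_, Finset.mem_image_of_mem _ hb, _, Finset.mem_image_of_mem _ hb', ?_, ?_⟩
  · intro h2
    apply hxx
    let φ : K →+* ResidueField (D.E G) := (IsLocalRing.residue (D.E G)).comp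
      ((algebraMap K k).codRestrict (D.E G) (D.algebraMap_mem G))
    have h3 : φ b = φ b' := h2
    rw [φ.injective h3]
  · rw [← map_add, ← map_add]
    have h2 : (IsLocalRing.residue (D.E G) a')⁻¹ = IsLocalRing.residue (D.E G) w := by
      refine inv_eq_of_mul_eq_one_right ?_
      rw [← map_mul, hw, map_one]
    rw [div_eq_mul_inv, h2, ← map_mul, mem_HS_iff hk hℓ hℓp D h1 h0 ((hu b hb).mul hwu)]
    have h3 : ((a * w : D.E G) : k) = (a : k) / a' := by
      rw [Subring.coe_mul, div_eq_mul_inv, eq_inv_of_mul_eq_one_right hw']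
    rw [h3]
    exact h

/-- **Theorem R.** If some finite subset of `L` has no rainbow translate, then `K` has a definable
henselian valuation. -/
theorem theoremR {p : ℕ} [hp : Fact p.Prime] {K : Type u} [Field K] [Infinite K]
    [CompatibleRing K] (hK : NIP K) [CharP K p] {L : Type u} [Field L] [Algebra K L]
    [FiniteDimensional K L] {ℓ : ℕ} (hℓ : ℓ.Prime) (hℓp : ℓ ≠ p) (ha : ∃ a : L, ∀ y, a ≠ y ^ ℓ)
    {B : Finset L} (hB : NoRainbow (Pw L ℓ) B) :
    ∃ O : ValuationSubring K, O ≠ ⊤ ∧ HenselianLocalRing O ∧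
      (univ : Set K).Definable₁ Language.ring {x | x ∈ O} := by
  classical
  let _ : CompatibleRing L := compatibleRingOfRing L
  have hL : NIP L := hK.finite (Module.finBasis K L)
  have hinf : Infinite L := Infinite.of_injective _ (algebraMap K L).injective
  have hchL : CharP L p := charP_of_injective_algebraMap (algebraMap K L).injective p
  obtain ⟨d, hd, hTrL⟩ := trLe_nip hL ℓ
  have hTL : TL L ℓ := tls_of_noRainbow (fun _ hx => Pw_ne hx) Pw_one
    (fun _ hx _ hy => Pw_mul hx hy) (fun _ hx => Pw_inv hx) hB (by omega) (PQ.tendsto_binom d) hTrL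
  let E := Germ (UF L : Filter (Finset L)) L
  let _ : CompatibleRing E := germCompat (UF L) L
  have hE : NIP E := NIP.germ hL
  have D : LD L E ℓ := ld_germ hL hℓ.ne_zero hTL (by
    obtain ⟨a, ha⟩ := ha
    refine ⟨a, ?_, ?_⟩
    · rintro rfl
      exact ha 0 (zero_pow hℓ.ne_zero).symm
    · rintro ⟨b, _, hb⟩
      exact ha b hb)
  obtain ⟨e, he, hTrE⟩ := trLe_nip hE ℓ
  obtain ⟨O₁, h₁, hd₁⟩ := D.exists_definable_of_val hE hℓ hℓp fun y => by
    by_contra hcon
    rw [not_or] at hcon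
    obtain ⟨G, hloc, h1, h0, hn⟩ := exists_tower_TLS hE hℓ hℓp D hcon.1 hcon.2
    let φ : L →+* ResidueField (D.E G) := (residue (D.E G)).comp
      ((algebraMap L E).codRestrict (D.E G) (D.algebraMap_mem G))
    have hinf' : Infinite (ResidueField (D.E G)) := Infinite.of_injective φ φ.injective
    have hone : (1 : ResidueField (D.E G)) ∈ HS E ℓ (D.E G) := by
      have := HS_pow hE hℓ hℓp D h1 h0 (one_ne_zero (α := ResidueField (D.E G)))
      rwa [one_pow] at this
    exact hn (tls_of_noRainbow (fun x hx => hx.1) hone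
      (fun x hx y hy => HS_mul hE hℓ hℓp D h1 h0 hx hy) (fun x hx => HS_inv hE hℓ hℓp D h1 h0 hx)
      (NoRainbow.residue hE hℓ hℓp D h1 h0 hB.germ) (by omega)
      (Small.add he (PQ.tendsto_binom e)) (trLe_HS hE hℓ hℓp D h1 h0 hTrE))
  obtain ⟨O', hO'1, hO'2⟩ := exists_definable_of_germ O₁ h₁ hd₁
  obtain ⟨O, hO1, hO2⟩ := LC.exists_definable_restrict (K := K) hO'1 hO'2
  exact ⟨O, hO1, hK.henselian_of_definable p hO1 hO2, hO2⟩

end Pool.Agent.NIPFields.RB
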