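import Pool.Agent.NIPFields.RB.CrossedA

set_option autoImplicit false

/-!
# Crossed homomorphisms with given values on a central subgroup

Let `Z = ker π` (central in `Q`). CLAIM: for every subgroup `P` of `Q` with `Z ≤ P` there is
`g : Q → Mˣ` with `g(a b) = g(a) π(a)(g(b))` for `a, b ∈ P`, and `g = ι` on `Z`. Induction on `|P|`.

`P = Z`: `g = ι` on `Z` (and `1` outside); `π` is trivial on `Z`.

`P ≠ Z`: there is a subgroup `P'`, `Z ≤ P' ≤ P`, of index `ℓ` in `P`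
(`Sylow.exists_subgroup_card_pow_prime_le`, in the group `P`), and it is normal in `P`
(`Subgroup.normal_of_index_eq_minFac_card`). Let `ν ∈ P`, `ν ∉ P'`; the quotient `P / P'` has order `ℓ`, so
`P` is the disjoint union of the `P' ν ^ j`, `j < ℓ`, and `ν ^ ℓ ∈ P'`. Use `crossed_step`.
-/

namespace Pool.Agent.NIPFields.RB

/-- a subgroup of index `ℓ` between two subgroups of a finite `ℓ`-group -/
private theorem exists_index_step {ℓ : ℕ} (hℓ : ℓ.Prime) {Q : Type*} [Group Q] [Finite Q]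
    (hQ : IsPGroup ℓ Q) {Z P : Subgroup Q} (hZ : Z < P) :
    ∃ P' : Subgroup Q, ∃ ν : Q, Z ≤ P' ∧ P' < P ∧ ν ∈ P ∧ (∀ n ∈ P', ν * n * ν⁻¹ ∈ P') ∧
      (∀ n ∈ P', ν⁻¹ * n * ν ∈ P') ∧ (∀ x ∈ P, ∃ j < ℓ, ∃ n ∈ P', x = n * ν ^ j) ∧
      (∀ j : ℤ, ν ^ j ∈ P' → (ℓ : ℤ) ∣ j) ∧ ν ^ ℓ ∈ P' ∧ Nat.card P = ℓ * Nat.card P' := by
  have : Fact ℓ.Prime := ⟨hℓ⟩
  obtain ⟨n, hn⟩ := (hQ.to_subgroup P).exists_card_eq
  obtain ⟨m, hm⟩ := (hQ.to_subgroup Z).exists_card_eq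
  have hlt : Nat.card Z < Nat.card P := by
    have h1 : (Z : Set Q) ⊂ P := hZ
    have h2 := Set.ncard_lt_ncard h1 (Set.toFinite _)
    rwa [← Nat.card_coe_set_eq, ← Nat.card_coe_set_eq] at h2
  have hmn : m < n := by
    rw [hm, hn] at hlt
    exact (Nat.pow_lt_pow_iff_right hℓ.one_lt).1 hlt
  obtain ⟨n, rfl⟩ : ∃ k, n = k + 1 := ⟨n - 1, by omega⟩
  have hZc : Nat.card (Z.subgroupOf P) = ℓ ^ m := by
    rw [Nat.card_congr (Subgroup.subgroupOfEquivOfLe hZ.le).toEquiv, hm]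
  obtain ⟨K, hK, hZK⟩ := Sylow.exists_subgroup_card_pow_prime_le ℓ (G := P) (n := m) (m := n)
    (by rw [hn]; exact pow_dvd_pow _ (Nat.le_succ _)) (Z.subgroupOf P) hZc (by omega)
  have hidx : K.index = ℓ := by
    have h1 := K.card_mul_index
    rw [hK, hn, pow_succ] at h1
    exact Nat.eq_of_mul_eq_mul_left (pow_pos hℓ.pos n) h1
  have hmf : K.index = (Nat.card P).minFac := by
    rw [hidx, hn, hℓ.pow_minFac (Nat.succ_ne_zero n)]
  have hKn : K.Normal := Subgroup.normal_of_index_eq_minFac_card hmf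
  have hcq : Nat.card (P ⧸ K) = ℓ := hidx
  have hKt : K ≠ ⊤ := by
    intro h
    rw [h, Subgroup.index_top] at hidx
    exact hℓ.one_lt.ne hidx
  obtain ⟨ν, hν⟩ : ∃ ν : P, ν ∉ K := by
    by_contra h
    push Not at h
    exact hKt ((Subgroup.eq_top_iff' K).2 h)
  have hν1 : (QuotientGroup.mk ν : P ⧸ K) ≠ 1 := fun h => hν ((QuotientGroup.eq_one_iff ν).1 h)
  have hord : orderOf (QuotientGroup.mk ν : P ⧸ K) = ℓ := by
    refine orderOf_eq_prime ?_ hν1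
    rw [← hcq]
    exact pow_card_eq_one'
  refine ⟨K.map P.subtype, ν, ?_, ?_, ν.2, ?_, ?_, ?_, ?_, ?_, ?_⟩
  · intro z hz
    exact ⟨⟨z, hZ.le hz⟩, hZK hz, rfl⟩
  · refine lt_of_le_of_ne ?_ ?_
    · rintro _ ⟨a, -, rfl⟩
      exact a.2
    · intro h
      have h0 : P ≤ K.map P.subtype := h.ge
      obtain ⟨a, ha, h2⟩ := h0 ν.2
      have h3 : a = ν := Subtype.ext h2
      exact hν (h3 ▸ ha)
  · rintro _ ⟨a, ha, rfl⟩
    exact ⟨ν * a * ν⁻¹, hKn.conj_mem a ha ν, rfl⟩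
  · rintro _ ⟨a, ha, rfl⟩
    refine ⟨ν⁻¹ * a * ν, ?_, rfl⟩
    have h1 := hKn.conj_mem a ha ν⁻¹
    rwa [inv_inv] at h1
  · intro x hx
    obtain ⟨j, hj⟩ := mem_powers_of_prime_card hcq hν1 (g' := (QuotientGroup.mk ⟨x, hx⟩ : P ⧸ K))
    refine ⟨j % ℓ, Nat.mod_lt _ hℓ.pos, x * ((ν : Q) ^ (j % ℓ))⁻¹, ?_, by group⟩
    refine ⟨⟨x, hx⟩ * (ν ^ (j % ℓ))⁻¹, ?_, rfl⟩
    rw [SetLike.mem_coe, ← QuotientGroup.eq_one_iff, QuotientGroup.mk_mul, QuotientGroup.mk_inv,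
      QuotientGroup.mk_pow, ← hord, pow_mod_orderOf, ← hj]
    exact mul_inv_cancel _
  · rintro j ⟨a, ha, h1⟩
    have h2 : a = ν ^ j := Subtype.ext h1
    rw [h2, SetLike.mem_coe, ← QuotientGroup.eq_one_iff, QuotientGroup.mk_zpow] at ha
    rw [← hord]
    exact orderOf_dvd_iff_zpow_eq_one.2 ha
  · refine ⟨ν ^ ℓ, ?_, rfl⟩
    rw [SetLike.mem_coe, ← QuotientGroup.eq_one_iff, QuotientGroup.mk_pow, ← hord, pow_orderOf_eq_one]
  · rw [Nat.card_congr (K.equivMapOfInjective P.subtype P.subtype_injective).toEquiv.symm, hK, hn,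
      pow_succ, mul_comm]

theorem exists_crossed {F M : Type*} [Field F] [Field M] [Algebra F M] [FiniteDimensional F M]
    {ℓ : ℕ} (hℓ : ℓ.Prime) (hNS : NormSurj F M ℓ) {Q : Type*} [Group Q] [Finite Q]
    (hQ : IsPGroup ℓ Q) (π : Q →* (M ≃ₐ[F] M)) (hcen : ∀ z ∈ π.ker, ∀ q : Q, q * z = z * q)
    (ι : π.ker →* Mˣ) (hι : ∀ (z : π.ker) (σ : M ≃ₐ[F] M), σ (ι z : M) = ι z) :
    ∃ g : Q → Mˣ, (∀ a b, (g (a * b) : M) = g a * π a (g b)) ∧ ∀ z : π.ker, g z = ι z := by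
  classical
  have claim : ∀ n : ℕ, ∀ P : Subgroup Q, π.ker ≤ P → Nat.card P = n →
      ∃ g : Q → Mˣ, (∀ a ∈ P, ∀ b ∈ P, (g (a * b) : M) = g a * π a (g b)) ∧
        ∀ z : π.ker, g z = ι z := by
    intro n
    induction n using Nat.strong_induction_on with
    | _ n ih =>
      intro P hP hn
      rcases hP.eq_or_lt with h | h
      · refine ⟨fun q => if hq : q ∈ π.ker then ι ⟨q, hq⟩ else 1, ?_, ?_⟩
        · intro a ha b hb
          rw [← h] at ha hb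
          have hab : a * b ∈ π.ker := mul_mem ha hb
          have h1 : ι ⟨a * b, hab⟩ = ι ⟨a, ha⟩ * ι ⟨b, hb⟩ := by
            rw [← map_mul]
            rfl
          simp only [dif_pos hab, dif_pos ha, dif_pos hb]
          rw [h1, Units.val_mul, hι]
        · intro z
          exact dif_pos z.2
      · obtain ⟨P', ν, h1, h2, h3, h4, h5, h6, h7, h8, h9⟩ := exists_index_step hℓ hQ h
        have hlt : Nat.card P' < n := by
          rw [← hn]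
          have h10 := Set.ncard_lt_ncard (h2 : (P' : Set Q) ⊂ P) (Set.toFinite _)
          rwa [← Nat.card_coe_set_eq, ← Nat.card_coe_set_eq] at h10
        obtain ⟨g', hg', hg'ι⟩ := ih _ hlt P' h1 rfl
        exact crossed_step hℓ.pos hNS π hcen ι hι h1 h2.le h3 h4 h5 h6 h7 h8 h9 g' hg' hg'ι
  obtain ⟨g, hg, hgι⟩ := claim _ ⊤ le_top rfl
  exact ⟨g, fun a b => hg a (Subgroup.mem_top a) b (Subgroup.mem_top b), hgι⟩

end Pool.Agent.NIPFields.RB
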