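import Mathlib

set_option autoImplicit false

/-!
# Extension of homomorphisms by a cyclic step
-/

namespace Pool.Agent.NIPFields.RB

/-- Proof: the homomorphisms `φ : P' ⋊ ℤ → P`, `(n, j) ↦ n ν ^ j`, and `ψ : P' ⋊ ℤ → E`,
`(n, j) ↦ s(n) u ^ j` (`ℤ` acts on `P'` by conjugation with the powers of `ν`). `φ` is surjective by `hgen`.
If `(n, j)` is in the kernel of `φ` then `ν ^ j ∈ P'`, so `j = ℓ m`, `n = ν ^ (-ℓ m)` and
`ψ(n, j) = s(ν ^ (-ℓ m)) u ^ (ℓ m) = 1`. So `ψ` factors through `φ`. (Or: `x ↦ s(n) u ^ j` is well defined for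
`x = n ν ^ j`, and multiplicative.) -/
theorem exists_extend {P E : Type*} [Group P] [Group E] {ℓ : ℕ} (P' : Subgroup P)
    (ν : P) (hconj : ∀ n ∈ P', ν * n * ν⁻¹ ∈ P') (hconj' : ∀ n ∈ P', ν⁻¹ * n * ν ∈ P')
    (hgen : ∀ x : P, ∃ j : ℤ, ∃ n ∈ P', x = n * ν ^ j)
    (hord : ∀ j : ℤ, ν ^ j ∈ P' → (ℓ : ℤ) ∣ j) (hνℓ : ν ^ ℓ ∈ P') (s : P' →* E) (u : E)
    (hu : ∀ (n : P) (hn : n ∈ P'), u * s ⟨n, hn⟩ * u⁻¹ = s ⟨ν * n * ν⁻¹, hconj n hn⟩)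
    (huℓ : u ^ ℓ = s ⟨ν ^ ℓ, hνℓ⟩) :
    ∃ s' : P →* E, (∀ n : P', s' n = s n) ∧ s' ν = u := by
  classical
  -- values of `s` at equal elements
  have hcongr : ∀ (a b : P) (ha : a ∈ P') (hb : b ∈ P'), a = b → s ⟨a, ha⟩ = s ⟨b, hb⟩ := by
    intro a b ha hb hab
    subst hab
    rfl
  -- conjugation by all powers
  have hpow : ∀ j : ℤ, ∀ n ∈ P', ∃ h : ν ^ j * n * (ν ^ j)⁻¹ ∈ P',
      ∀ hn : n ∈ P', u ^ j * s ⟨n, hn⟩ * (u ^ j)⁻¹ = s ⟨ν ^ j * n * (ν ^ j)⁻¹, h⟩ := by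
    intro j
    induction j using Int.induction_on with
    | zero =>
      intro n hn
      refine ⟨by simpa using hn, fun hn' => ?_⟩
      rw [zpow_zero, one_mul, inv_one, mul_one]
      exact hcongr _ _ _ _ (by simp)
    | succ i ih =>
      intro n hn
      obtain ⟨h1, h2⟩ := ih n hn
      have e1 : ν ^ ((i : ℤ) + 1) * n * (ν ^ ((i : ℤ) + 1))⁻¹ =
          ν * (ν ^ (i : ℤ) * n * (ν ^ (i : ℤ))⁻¹) * ν⁻¹ := by
        rw [add_comm, zpow_add, zpow_one, mul_inv_rev]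
        group
      have e2 : u ^ ((i : ℤ) + 1) * s ⟨n, hn⟩ * (u ^ ((i : ℤ) + 1))⁻¹ =
          u * (u ^ (i : ℤ) * s ⟨n, hn⟩ * (u ^ (i : ℤ))⁻¹) * u⁻¹ := by
        rw [add_comm, zpow_add, zpow_one, mul_inv_rev]
        group
      refine ⟨by rw [e1]; exact hconj _ h1, fun hn' => ?_⟩
      rw [e2, h2 hn, hu _ h1]
      exact hcongr _ _ _ _ e1.symm
    | pred i ih =>
      intro n hn
      obtain ⟨h1, h2⟩ := ih n hn
      have e1 : ν ^ (-(i : ℤ) - 1) * n * (ν ^ (-(i : ℤ) - 1))⁻¹ =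
          ν⁻¹ * (ν ^ (-(i : ℤ)) * n * (ν ^ (-(i : ℤ)))⁻¹) * ν := by
        rw [sub_eq_add_neg, add_comm (-(i : ℤ)), zpow_add, zpow_neg_one, mul_inv_rev, inv_inv]
        group
      have e2 : u ^ (-(i : ℤ) - 1) * s ⟨n, hn⟩ * (u ^ (-(i : ℤ) - 1))⁻¹ =
          u⁻¹ * (u ^ (-(i : ℤ)) * s ⟨n, hn⟩ * (u ^ (-(i : ℤ)))⁻¹) * u := by
        rw [sub_eq_add_neg, add_comm (-(i : ℤ)), zpow_add, zpow_neg_one, mul_inv_rev, inv_inv]
        group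
      have h3 := hconj' _ h1
      refine ⟨by rw [e1]; exact h3, fun hn' => ?_⟩
      rw [e2, h2 hn]
      have h4 := hu _ h3
      have h5 : s ⟨ν * (ν⁻¹ * (ν ^ (-(i : ℤ)) * n * (ν ^ (-(i : ℤ)))⁻¹) * ν) * ν⁻¹,
          hconj _ h3⟩ = s ⟨ν ^ (-(i : ℤ)) * n * (ν ^ (-(i : ℤ)))⁻¹, h1⟩ :=
        hcongr _ _ _ _ (by group)
      rw [← h5, ← h4]
      rw [hcongr _ _ _ h3 e1]
      group
  -- the powers of `ν` in `P'`
  have hνm : ∀ (m : ℤ) (h : ν ^ ((ℓ : ℤ) * m) ∈ P'), s ⟨ν ^ ((ℓ : ℤ) * m), h⟩ =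
      u ^ ((ℓ : ℤ) * m) := by
    intro m h
    have h1 : (⟨ν ^ ((ℓ : ℤ) * m), h⟩ : P') = (⟨ν ^ ℓ, hνℓ⟩ : P') ^ m := by
      apply Subtype.ext
      rw [Subgroup.coe_zpow]
      change ν ^ ((ℓ : ℤ) * m) = (ν ^ ℓ) ^ m
      rw [zpow_mul, zpow_natCast]
    rw [h1, map_zpow, ← huℓ, zpow_mul, zpow_natCast]
  -- well defined
  have hwd : ∀ (a b : P) (ha : a ∈ P') (hb : b ∈ P') (i j : ℤ), a * ν ^ i = b * ν ^ j →
      s ⟨a, ha⟩ * u ^ i = s ⟨b, hb⟩ * u ^ j := by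
    intro a b ha hb i j hab
    have h1 : b⁻¹ * a = ν ^ (j - i) := by
      rw [zpow_sub, eq_mul_inv_iff_mul_eq, mul_assoc, hab, inv_mul_cancel_left]
    have h2 : ν ^ (j - i) ∈ P' := by
      rw [← h1]
      exact P'.mul_mem (P'.inv_mem hb) ha
    obtain ⟨m, hm⟩ := hord _ h2
    have h3 : s ⟨b, hb⟩ * s ⟨ν ^ (j - i), h2⟩ = s ⟨a, ha⟩ := by
      rw [← map_mul]
      apply congrArg s
      apply Subtype.ext
      change b * ν ^ (j - i) = a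
      rw [← h1, mul_inv_cancel_left]
    have h4 : s ⟨ν ^ (j - i), h2⟩ = u ^ (j - i) := by
      have h5 : ν ^ ((ℓ : ℤ) * m) ∈ P' := by rwa [← hm]
      rw [hcongr _ _ h2 h5 (by rw [hm]), hνm m h5, hm]
    rw [← h3, h4, mul_assoc, ← zpow_add, sub_add_cancel]
  choose J N hN hx using hgen
  have hval : ∀ (x a : P) (ha : a ∈ P') (i : ℤ), x = a * ν ^ i →
      s ⟨N x, hN x⟩ * u ^ J x = s ⟨a, ha⟩ * u ^ i := by
    intro x a ha i hxa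
    exact hwd _ _ _ _ _ _ ((hx x).symm.trans hxa)
  refine ⟨MonoidHom.mk' (fun x => s ⟨N x, hN x⟩ * u ^ J x) ?_, ?_, ?_⟩
  · intro x y
    obtain ⟨h1, h2⟩ := hpow (J x) (N y) (hN y)
    rw [hval (x * y) (N x * (ν ^ J x * N y * (ν ^ J x)⁻¹)) (P'.mul_mem (hN x) h1) (J x + J y) ?_]
    · have h3 : s ⟨N x * (ν ^ J x * N y * (ν ^ J x)⁻¹), P'.mul_mem (hN x) h1⟩ =
          s ⟨N x, hN x⟩ * s ⟨ν ^ J x * N y * (ν ^ J x)⁻¹, h1⟩ := by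
        rw [← map_mul]
        rfl
      rw [h3, ← h2 (hN y), zpow_add]
      group
    · conv_lhs => rw [hx x, hx y]
      rw [zpow_add]
      group
  · intro n
    change s ⟨N n, hN n⟩ * u ^ J n = s n
    rw [hval n n n.2 0 (by rw [zpow_zero, mul_one]), zpow_zero, mul_one]
  · change s ⟨N ν, hN ν⟩ * u ^ J ν = u
    rw [hval ν 1 P'.one_mem 1 (by rw [zpow_one, one_mul]), zpow_one]
    have h1 : (⟨1, P'.one_mem⟩ : P') = 1 := rfl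
    rw [h1, map_one, one_mul]

end Pool.Agent.NIPFields.RB
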