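import Mathlib

set_option autoImplicit false

/-!
# Hilbert 90
-/

namespace Pool.Agent.NIPFields.RB

/-- Hilbert 90 for a finite group which acts through a group of automorphisms of a field. Proof: `f`
is constant on the cosets of the kernel of `π`, so it is a function `f'` on the image of `π`. By the
linear independence of automorphisms (`linearIndependent_monoidHom`) there is `w` such that
`z' = ∑ f'(σ) σ(w)`, the sum over the image of `π`, is not zero. Then `π(a)(z') = f(a)⁻¹ z'`; `z = z'⁻¹`. -/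
theorem h90 {F M : Type*} [Field F] [Field M] [Algebra F M] {P : Type*} [Group P] [Finite P]
    (π : P →* (M ≃ₐ[F] M)) (f : P → M) (hf0 : ∀ a, f a ≠ 0)
    (hf : ∀ a b, f (a * b) = f a * π a (f b)) (hker : ∀ a, π a = 1 → f a = 1) :
    ∃ z : M, z ≠ 0 ∧ ∀ a, π a z = f a * z := by
  classical
  -- `f` only depends on the image
  have hconst : ∀ a b, π a = π b → f a = f b := by
    intro a b h
    have h1 : f (b * (b⁻¹ * a)) = f b * π b (f (b⁻¹ * a)) := hf b (b⁻¹ * a)
    have h2 : π (b⁻¹ * a) = 1 := by rw [map_mul, map_inv, h, inv_mul_cancel]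
    rw [mul_inv_cancel_left, hker _ h2, map_one, mul_one] at h1
    exact h1
  have hfin : Finite π.range := Set.finite_range π
  have : Fintype π.range := Fintype.ofFinite _
  have hsec : ∀ σ : π.range, ∃ a, π a = σ := fun σ => σ.2
  choose s hs using hsec
  have hfs : ∀ (a : P) (σ : π.range), (σ : M ≃ₐ[F] M) = π a → f (s σ) = f a := fun a σ h =>
    hconst _ _ ((hs σ).trans h)
  -- linear independence
  let φ : π.range → (M →* M) := fun σ => (MonoidHomClass.toMonoidHom (σ : M ≃ₐ[F] M))
  have hφ : Function.Injective φ := by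
    intro σ τ h
    apply Subtype.ext
    apply AlgEquiv.ext
    intro x
    exact DFunLike.congr_fun h x
  have hli := (linearIndependent_monoidHom M M).comp φ hφ
  have hne : ∃ w : M, ∑ σ : π.range, f (s σ) * (σ : M ≃ₐ[F] M) w ≠ 0 := by
    by_contra hcon
    push Not at hcon
    have h1 := Fintype.linearIndependent_iff.1 hli (fun σ => f (s σ)) (by
      funext w
      rw [Finset.sum_apply]
      simpa [φ] using hcon w)
    exact hf0 _ (h1 1)
  obtain ⟨w, hw⟩ := hne
  refine ⟨(∑ σ : π.range, f (s σ) * (σ : M ≃ₐ[F] M) w)⁻¹, inv_ne_zero hw, fun a => ?_⟩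
  have key : f a * π a (∑ σ : π.range, f (s σ) * (σ : M ≃ₐ[F] M) w) =
      ∑ σ : π.range, f (s σ) * (σ : M ≃ₐ[F] M) w := by
    let e : π.range ≃ π.range := Equiv.mulLeft ⟨π a, a, rfl⟩
    rw [map_sum, Finset.mul_sum, ← Equiv.sum_comp e
      (fun σ : π.range => f (s σ) * (σ : M ≃ₐ[F] M) w)]
    refine Finset.sum_congr rfl fun σ _ => ?_
    have h1 : ((e σ : π.range) : M ≃ₐ[F] M) = π (a * s σ) := by
      rw [map_mul, hs]
      rfl
    rw [hfs _ (e σ) h1, h1, hf, map_mul, map_mul, hs, AlgEquiv.mul_apply, mul_assoc]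
  rw [map_inv₀]
  have hfa := hf0 a
  have h2 : π a (∑ σ : π.range, f (s σ) * (σ : M ≃ₐ[F] M) w) ≠ 0 :=
    (map_ne_zero_iff _ (π a).injective).2 hw
  rw [inv_eq_iff_eq_inv, mul_inv, inv_inv]
  rw [eq_comm, inv_mul_eq_iff_eq_mul₀ hfa]
  exact key.symm

end Pool.Agent.NIPFields.RB
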