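import Pool.Agent.NIPFields.RB.Tsen
import Pool.Agent.NIPFields.RB.H90
import Pool.Agent.NIPFields.RB.ExtHom

set_option autoImplicit false

/-!
# Crossed homomorphisms: a cyclic step

Let `Z = ker π`, central in `Q`, `Z ≤ P' ≤ P`, and `g'` the given function for `P'`.

(1) `h(q) = π(ν)(g'(ν⁻¹ q ν))` is a crossed homomorphism on `P'`:
`h(q q') = π(ν)(g'(a) π(a)(g'(b)))`, `a = ν⁻¹ q ν`, `b = ν⁻¹ q' ν`, and `π(ν) π(a) = π(q) π(ν)`. On `Z` it is `ι`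
(`Z` is central, the values of `ι` are fixed). So `f = h / g'` satisfies `f(q q') = f(q) π(q)(f(q'))` and is
`1` on `Z`, the kernel of `π` on `P'`. By `h90` there is `y₀ ≠ 0` with `π(q)(y₀) = f(q) y₀` for `q ∈ P'`.

(2) Let `E = Mˣ ⋊ Q` (the semidirect product, `Q` acts through `π`), `s'(q) = (g'(q), q)`, a homomorphism
`P' → E`, and `u = (y, ν)`, `y = y₀ x`, `x` fixed by `π(P')`. Then `u s'(q) u⁻¹ = s'(ν q ν⁻¹)` for `q ∈ P'`: this
is the equation `y π(ν)(g'(q)) = g'(q') π(q')(y)`, `q' = ν q ν⁻¹`, i.e. `f(q') = π(q')(y) / y`.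

(3) `u ^ ℓ = (∏_(i < ℓ) π(ν) ^ i (y), ν ^ ℓ)`; we want `= s'(ν ^ ℓ)`. For `x = 1`, `u₀ = (y₀, ν)`, let
`(a, 1) = s'(ν ^ ℓ) u₀ ^ (-ℓ)`, `a = g'(ν ^ ℓ) / ∏ π(ν) ^ i (y₀)`. It commutes with `s'(q)`, `q ∈ P'`, because
`s'(ν ^ ℓ)` and `u₀ ^ ℓ` both conjugate `s'(q)` to `s'(ν ^ ℓ q ν ^ (-ℓ))`; so `π(q)(a) = a`. It commutes with
`u₀`, because `u₀ s'(ν ^ ℓ) u₀⁻¹ = s'(ν ^ ℓ)`; so `π(ν)(a) = a`. By `NormSurj` (for `N' = π(P')`, `N = π(P)`;
`|N| = |P| / |Z| = ℓ |N'|`) there is `x` fixed by `π(P')` with `∏ π(ν) ^ i (x) = a`.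

(4) By `exists_extend` there is a homomorphism `s : P → E`, `s = s'` on `P'`, `s(ν) = u`; its second
component is the inclusion, and `g(q)` is its first component.
-/

namespace Pool.Agent.NIPFields.RB

/-- the action of `Q` on the units. -/
private def uact {F M : Type*} [Field F] [Field M] [Algebra F M] {Q : Type*} [Group Q]
    (π : Q →* (M ≃ₐ[F] M)) : Q →* MulAut Mˣ where
  toFun q := Units.mapEquiv (π q : M ≃* M)
  map_one' := by ext; simp; rfl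
  map_mul' a b := by ext; simp; rfl

private theorem uact_coe {F M : Type*} [Field F] [Field M] [Algebra F M] {Q : Type*} [Group Q]
    (π : Q →* (M ≃ₐ[F] M)) (q : Q) (y : Mˣ) : ((uact π q y : Mˣ) : M) = π q y := rfl

/-- powers in the semidirect product. -/
private theorem sd_pow {F M : Type*} [Field F] [Field M] [Algebra F M] {Q : Type*} [Group Q]
    (π : Q →* (M ≃ₐ[F] M)) (y : Mˣ) (ν : Q) (n : ℕ) :
    (((⟨y, ν⟩ : Mˣ ⋊[uact π] Q) ^ n).left : M) = ∏ i ∈ Finset.range n, ((π ν) ^ i) (y : M) ∧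
      ((⟨y, ν⟩ : Mˣ ⋊[uact π] Q) ^ n).right = ν ^ n := by
  induction n with
  | zero => simp
  | succ n ih =>
    obtain ⟨h1, h2⟩ := ih
    refine ⟨?_, ?_⟩
    · rw [pow_succ, SemidirectProduct.mul_left, Units.val_mul, h1, Finset.prod_range_succ, h2,
        uact_coe, map_pow]
    · rw [pow_succ, SemidirectProduct.mul_right, h2, pow_succ]

theorem crossed_step {F M : Type*} [Field F] [Field M] [Algebra F M] [FiniteDimensional F M]
    {ℓ : ℕ} (hℓ : 0 < ℓ) (hNS : NormSurj F M ℓ) {Q : Type*} [Group Q] [Finite Q]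
    (π : Q →* (M ≃ₐ[F] M)) (hcen : ∀ z ∈ π.ker, ∀ q : Q, q * z = z * q) (ι : π.ker →* Mˣ)
    (hι : ∀ (z : π.ker) (σ : M ≃ₐ[F] M), σ (ι z : M) = ι z) {P' P : Subgroup Q}
    (hZ : π.ker ≤ P') (hle : P' ≤ P) {ν : Q} (hν : ν ∈ P) (hconj : ∀ n ∈ P', ν * n * ν⁻¹ ∈ P')
    (hconj' : ∀ n ∈ P', ν⁻¹ * n * ν ∈ P') (hgen : ∀ x ∈ P, ∃ j < ℓ, ∃ n ∈ P', x = n * ν ^ j)
    (hord : ∀ j : ℤ, ν ^ j ∈ P' → (ℓ : ℤ) ∣ j) (hνℓ : ν ^ ℓ ∈ P')
    (hcard : Nat.card P = ℓ * Nat.card P') (g' : Q → Mˣ)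
    (hg' : ∀ a ∈ P', ∀ b ∈ P', (g' (a * b) : M) = g' a * π a (g' b))
    (hg'ι : ∀ z : π.ker, g' z = ι z) :
    ∃ g : Q → Mˣ, (∀ a ∈ P, ∀ b ∈ P, (g (a * b) : M) = g a * π a (g b)) ∧
      ∀ z : π.ker, g z = ι z := by
  classical
  -- (1)
  obtain ⟨y₀, hy₀, hy₀f⟩ : ∃ z : M, z ≠ 0 ∧ ∀ a : P',
      (π.comp P'.subtype) a z = (π ν (g' (ν⁻¹ * a * ν)) / g' (a : Q)) * z := by
    refine h90 (π.comp P'.subtype) (fun a => (π ν (g' (ν⁻¹ * a * ν)) / g' (a : Q) : M)) ?_ ?_ ?_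
    · intro a
      refine div_ne_zero ?_ (Units.ne_zero _)
      exact (map_ne_zero (π ν)).2 (Units.ne_zero _)
    · intro a b
      have e1 : ν⁻¹ * ((a * b : P') : Q) * ν = (ν⁻¹ * a * ν) * (ν⁻¹ * b * ν) := by
        rw [Subgroup.coe_mul]; group
      have e2 : π ν (π (ν⁻¹ * a * ν) (g' (ν⁻¹ * b * ν))) = π a (π ν (g' (ν⁻¹ * b * ν))) := by
        rw [← AlgEquiv.mul_apply, ← AlgEquiv.mul_apply, ← map_mul, ← map_mul]
        congr 2
        group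
      show (π ν (g' (ν⁻¹ * ((a * b : P') : Q) * ν)) / g' ((a * b : P') : Q) : M) =
        (π ν (g' (ν⁻¹ * a * ν)) / g' (a : Q)) * π a (π ν (g' (ν⁻¹ * b * ν)) / g' (b : Q))
      rw [e1, hg' _ (hconj' a a.2) _ (hconj' b b.2), map_mul, e2, Subgroup.coe_mul,
        hg' _ a.2 _ b.2, map_div₀]
      have h1 : (g' (a : Q) : M) ≠ 0 := Units.ne_zero _
      have h2 : (π a (g' (b : Q) : M)) ≠ 0 := (map_ne_zero (π a)).2 (Units.ne_zero _)
      field_simp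
    · intro a ha
      have hak : (a : Q) ∈ π.ker := ha
      have e1 : ν⁻¹ * (a : Q) * ν = a := by
        rw [mul_assoc, ← hcen _ hak ν, ← mul_assoc, inv_mul_cancel, one_mul]
      show (π ν (g' (ν⁻¹ * a * ν)) / g' (a : Q) : M) = 1
      rw [e1]
      have e2 := hg'ι ⟨a, hak⟩
      rw [show (g' (a : Q)) = ι ⟨a, hak⟩ from e2, hι]
      exact div_self (Units.ne_zero _)
  set E := Mˣ ⋊[uact π] Q with hE
  have hg1 : g' 1 = 1 := by
    have h := hg' 1 (one_mem _) 1 (one_mem _)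
    rw [mul_one, map_one, AlgEquiv.one_apply] at h
    have h2 : (g' 1 : M) ≠ 0 := Units.ne_zero _
    have h3 : (g' 1 : M) * 1 = g' 1 * g' 1 := by rw [mul_one]; exact h
    exact Units.ext (mul_left_cancel₀ h2 h3).symm
  let s' : P'.subgroupOf P →* E :=
    { toFun := fun q => ⟨g' ((q : P) : Q), ((q : P) : Q)⟩
      map_one' := by
        refine SemidirectProduct.ext ?_ ?_
        · exact hg1
        · rfl
      map_mul' := by
        intro a b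
        refine SemidirectProduct.ext ?_ ?_
        · refine Units.ext ?_
          exact hg' _ (Subgroup.mem_subgroupOf.1 a.2) _ (Subgroup.mem_subgroupOf.1 b.2)
        · rfl }
  -- (2)
  have hkey : ∀ y : Mˣ, (∀ q ∈ P', π q (y : M) = (π ν (g' (ν⁻¹ * q * ν)) / g' q) * y) →
      ∀ q ∈ P', (⟨y, ν⟩ : E) * ⟨g' q, q⟩ = ⟨g' (ν * q * ν⁻¹), ν * q * ν⁻¹⟩ * ⟨y, ν⟩ := by
    intro y hy q hq
    refine SemidirectProduct.ext ?_ ?_
    · refine Units.ext ?_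
      show (y : M) * π ν (g' q) = g' (ν * q * ν⁻¹) * π (ν * q * ν⁻¹) y
      rw [hy _ (hconj q hq)]
      have e1 : ν⁻¹ * (ν * q * ν⁻¹) * ν = q := by group
      rw [e1]
      have h1 : (g' (ν * q * ν⁻¹) : M) ≠ 0 := Units.ne_zero _
      field_simp
    · show ν * q = ν * q * ν⁻¹ * ν
      group
  have hy₀' : ∀ q ∈ P', π q y₀ = (π ν (g' (ν⁻¹ * q * ν)) / g' q) * y₀ := fun q hq =>
    hy₀f ⟨q, hq⟩
  set u₀ : E := ⟨Units.mk0 y₀ hy₀, ν⟩ with hu₀
  have hk0 := hkey (Units.mk0 y₀ hy₀) hy₀'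
  -- the element `c`
  set w : E := ⟨g' (ν ^ ℓ), ν ^ ℓ⟩ * (u₀ ^ ℓ)⁻¹ with hw
  have hwr : w.right = 1 := by
    rw [hw, SemidirectProduct.mul_right, SemidirectProduct.inv_right, (sd_pow π _ ν ℓ).2]
    exact mul_inv_cancel _
  have hwu : w * u₀ ^ ℓ = ⟨g' (ν ^ ℓ), ν ^ ℓ⟩ := by rw [hw, inv_mul_cancel_right]
  have hmulP : ∀ a ∈ P', ∀ b ∈ P', (⟨g' a, a⟩ : E) * ⟨g' b, b⟩ = ⟨g' (a * b), a * b⟩ := by
    intro a ha b hb
    refine SemidirectProduct.ext ?_ ?_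
    · exact Units.ext (hg' a ha b hb).symm
    · rfl
  -- conjugation by powers of u₀
  have hconjn : ∀ n : ℕ, ∀ q ∈ P', ν ^ n * q * (ν ^ n)⁻¹ ∈ P' ∧
      u₀ ^ n * ⟨g' q, q⟩ = ⟨g' (ν ^ n * q * (ν ^ n)⁻¹), ν ^ n * q * (ν ^ n)⁻¹⟩ * u₀ ^ n := by
    intro n
    induction n with
    | zero => intro q hq; simpa using hq
    | succ n ih =>
      intro q hq
      have hq1 := hconj q hq
      obtain ⟨i1, i2⟩ := ih _ hq1
      have e1 : ν ^ n * (ν * q * ν⁻¹) * (ν ^ n)⁻¹ = ν ^ (n + 1) * q * (ν ^ (n + 1))⁻¹ := by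
        rw [pow_succ, mul_inv_rev]; simp only [mul_assoc]
      rw [e1] at i1 i2
      refine ⟨i1, ?_⟩
      rw [pow_succ, mul_assoc, hk0 q hq, ← mul_assoc, i2, mul_assoc, ← pow_succ]
  have hconjn' : ∀ n : ℕ, ∀ q ∈ P', (ν ^ n)⁻¹ * q * ν ^ n ∈ P' := by
    intro n
    induction n with
    | zero => intro q hq; simpa using hq
    | succ n ih =>
      intro q hq
      have h1 := hconj' _ (ih q hq)
      have e1 : ν⁻¹ * ((ν ^ n)⁻¹ * q * ν ^ n) * ν = (ν ^ (n + 1))⁻¹ * q * ν ^ (n + 1) := by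
        rw [pow_succ, mul_inv_rev]; simp only [mul_assoc]
      rwa [e1] at h1
  have hwP : ∀ q ∈ P', w * ⟨g' q, q⟩ = ⟨g' q, q⟩ * w := by
    intro q hq
    have hq1 := hconjn' ℓ q hq
    set r := (ν ^ ℓ)⁻¹ * q * ν ^ ℓ with hr
    have e1 : ν ^ ℓ * r * (ν ^ ℓ)⁻¹ = q := by rw [hr]; group
    have h1 := (hconjn ℓ r hq1).2
    rw [e1] at h1
    -- `w q u₀^ℓ = w u₀^ℓ r = s'(ν^ℓ) s'(r) = s'(ν^ℓ r) = s'(q ν^ℓ) = s'(q) s'(ν^ℓ) = s'(q) w u₀^ℓ`
    have h2 : w * ⟨g' q, q⟩ * u₀ ^ ℓ = ⟨g' q, q⟩ * w * u₀ ^ ℓ := by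
      rw [mul_assoc, ← h1, ← mul_assoc, hwu, hmulP _ hνℓ _ hq1, mul_assoc, hwu,
        hmulP _ hq _ hνℓ]
      have e2 : ν ^ ℓ * r = q * ν ^ ℓ := by rw [hr]; group
      rw [e2]
    exact mul_right_cancel h2
  have hwν : w * u₀ = u₀ * w := by
    have h1 := hk0 _ hνℓ
    have e1 : ν * ν ^ ℓ * ν⁻¹ = ν ^ ℓ := by
      rw [← pow_succ', pow_succ, mul_inv_cancel_right]
    rw [e1] at h1
    have h2 : u₀ * w * u₀ ^ ℓ = w * u₀ * u₀ ^ ℓ := by
      rw [mul_assoc, hwu, mul_assoc, ← pow_succ', pow_succ, ← mul_assoc, hwu]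
      exact h1
    exact (mul_right_cancel h2).symm
  have hcP : ∀ q ∈ P', π q (w.left : M) = w.left := by
    intro q hq
    have h1 := congrArg SemidirectProduct.left (hwP q hq)
    rw [SemidirectProduct.mul_left, SemidirectProduct.mul_left, hwr, map_one] at h1
    have h2 : (w.left : M) * g' q = g' q * π q w.left := congrArg Units.val h1
    have h3 : (g' q : M) ≠ 0 := Units.ne_zero _
    rw [mul_comm] at h2
    exact (mul_left_cancel₀ h3 h2).symm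
  have hcν : π ν (w.left : M) = w.left := by
    have h1 := congrArg SemidirectProduct.left hwν
    rw [SemidirectProduct.mul_left, SemidirectProduct.mul_left, hwr, map_one] at h1
    have h2 : (w.left : M) * y₀ = y₀ * π ν w.left := congrArg Units.val h1
    rw [mul_comm] at h2
    exact (mul_left_cancel₀ hy₀ h2).symm
  have hcνj : ∀ j : ℕ, π (ν ^ j) (w.left : M) = w.left := by
    intro j
    induction j with
    | zero => simp
    | succ j ih => rw [pow_succ, map_mul, AlgEquiv.mul_apply, hcν, ih]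
  -- norm surjectivity
  have hcardim : ∀ R : Subgroup Q, π.ker ≤ R → Nat.card (R.map π) * Nat.card π.ker = Nat.card R := by
    intro R hR
    have h1 := Subgroup.card_mul_index ((π.comp R.subtype).ker)
    have h2 : (π.comp R.subtype).ker.index = Nat.card (R.map π) := by
      rw [Subgroup.index_ker, MonoidHom.range_comp, Subgroup.range_subtype]
    have h3 : Nat.card (π.comp R.subtype).ker = Nat.card π.ker := by
      refine Nat.card_congr ⟨fun x => ⟨((x : R) : Q), x.2⟩, fun x => ⟨⟨x, hR x.2⟩, x.2⟩, ?_, ?_⟩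
      · intro x; rfl
      · intro x; rfl
    rw [← h1, h2, h3, mul_comm]
  obtain ⟨x, hx0, hxP, hxN⟩ := hNS (P'.map π) (P.map π) (π ν) (Subgroup.map_mono hle)
    (Subgroup.mem_map_of_mem π hν)
    (by
      rintro _ ⟨n, hn, rfl⟩
      exact ⟨ν * n * ν⁻¹, hconj n hn, by simp⟩)
    (by
      rintro _ ⟨n, hn, rfl⟩
      obtain ⟨j, hj, m, hm, e⟩ := hgen n hn
      exact ⟨j, hj, π m, ⟨m, hm, rfl⟩, by rw [e, map_mul, map_pow]⟩)
    (by
      have h1 := hcardim P' hZ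
      have h2 := hcardim P (hZ.trans hle)
      rw [hcard, ← h1, ← mul_assoc] at h2
      exact Nat.eq_of_mul_eq_mul_right Nat.card_pos h2)
    (w.left : M) (Units.ne_zero _)
    (by
      rintro _ ⟨n, hn, rfl⟩
      obtain ⟨j, hj, m, hm, e⟩ := hgen n hn
      rw [e, map_mul, AlgEquiv.mul_apply, hcνj, hcP m hm])
  have hxP' : ∀ q ∈ P', π q x = x := fun q hq => hxP _ ⟨q, hq, rfl⟩
  -- the element `u`
  set y : Mˣ := Units.mk0 (y₀ * x) (mul_ne_zero hy₀ hx0) with hy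
  have hyf : ∀ q ∈ P', π q (y : M) = (π ν (g' (ν⁻¹ * q * ν)) / g' q) * y := by
    intro q hq
    show π q (y₀ * x) = (π ν (g' (ν⁻¹ * q * ν)) / g' q) * (y₀ * x)
    rw [map_mul, hxP' q hq, hy₀' q hq, mul_assoc]
  have hk := hkey y hyf
  set u : E := ⟨y, ν⟩ with hu
  have huℓ : u ^ ℓ = ⟨g' (ν ^ ℓ), ν ^ ℓ⟩ := by
    refine SemidirectProduct.ext ?_ ?_
    · refine Units.ext ?_
      have h1 := (sd_pow π y ν ℓ).1
      have h2 := (sd_pow π (Units.mk0 y₀ hy₀) ν ℓ).1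
      have h3 := congrArg SemidirectProduct.left hwu
      rw [SemidirectProduct.mul_left, hwr, map_one] at h3
      have h4 : (w.left : M) * ((u₀ ^ ℓ).left : M) = g' (ν ^ ℓ) := congrArg Units.val h3
      show ((u ^ ℓ).left : M) = g' (ν ^ ℓ)
      rw [← h4, h1, h2, ← hxN, ← Finset.prod_mul_distrib]
      refine Finset.prod_congr rfl fun i _ => ?_
      show ((π ν) ^ i) (y₀ * x) = _
      rw [map_mul, mul_comm]
      rfl
    · exact (sd_pow π y ν ℓ).2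
  -- (4)
  obtain ⟨s, hs1, hs2⟩ := exists_extend (P := P) (E := E) (ℓ := ℓ) (P'.subgroupOf P) ⟨ν, hν⟩
    (fun n hn => Subgroup.mem_subgroupOf.2 (hconj _ (Subgroup.mem_subgroupOf.1 hn)))
    (fun n hn => Subgroup.mem_subgroupOf.2 (hconj' _ (Subgroup.mem_subgroupOf.1 hn)))
    (by
      rintro ⟨p, hp⟩
      obtain ⟨j, hj, m, hm, e⟩ := hgen p hp
      refine ⟨j, ⟨m, hle hm⟩, Subgroup.mem_subgroupOf.2 hm, ?_⟩
      refine Subtype.ext ?_
      simp [e])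
    (by
      intro j hj
      have h1 := Subgroup.mem_subgroupOf.1 hj
      refine hord j ?_
      simpa using h1)
    (Subgroup.mem_subgroupOf.2 (by simpa using hνℓ)) s' u
    (by
      intro n hn
      rw [mul_inv_eq_iff_eq_mul]
      exact hk _ (Subgroup.mem_subgroupOf.1 hn))
    (by
      rw [huℓ]
      rfl)
  have hsr : ∀ p : P, (s p).right = p := by
    rintro ⟨p, hp⟩
    obtain ⟨j, hj, m, hm, e⟩ := hgen p hp
    have e1 : (⟨p, hp⟩ : P) = ⟨m, hle hm⟩ * ⟨ν, hν⟩ ^ j := by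
      refine Subtype.ext ?_
      simp [e]
    rw [e1, map_mul, map_pow, hs2, SemidirectProduct.mul_right]
    have h1 := hs1 ⟨⟨m, hle hm⟩, Subgroup.mem_subgroupOf.2 hm⟩
    have h2 : (s ⟨m, hle hm⟩).right = m := by
      have := congrArg SemidirectProduct.right h1
      exact this
    rw [h2, (sd_pow π y ν j).2]
    simp
  refine ⟨fun q => if h : q ∈ P then (s ⟨q, h⟩).left else 1, ?_, ?_⟩
  · intro a ha b hb
    have hab : a * b ∈ P := mul_mem ha hb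
    simp only [dif_pos ha, dif_pos hb, dif_pos hab]
    have h1 : (⟨a * b, hab⟩ : P) = ⟨a, ha⟩ * ⟨b, hb⟩ := rfl
    rw [h1, map_mul, SemidirectProduct.mul_left, hsr, Units.val_mul]
    rfl
  · intro z
    have hz : (z : Q) ∈ P := hle (hZ z.2)
    simp only [dif_pos hz]
    have h1 := hs1 ⟨⟨z, hz⟩, Subgroup.mem_subgroupOf.2 (hZ z.2)⟩
    have h2 : (s ⟨z, hz⟩).left = g' z := by
      have := congrArg SemidirectProduct.left h1
      exact this
    rw [h2, hg'ι]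

end Pool.Agent.NIPFields.RB
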