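import Pool.Agent.NIPFields.RB.Folner

set_option autoImplicit false

/-!
# Rainbow translates and common solutions
-/

namespace Pool.Agent.NIPFields.RB

open Finset

/-- No translate of `B` is a rainbow: if `0` is not in `c + B`, the ratio of two different elements
of `c + B` is in `H`. -/
def NoRainbow {F : Type*} [Field F] (H : Set F) (B : Finset F) : Prop :=
  ∀ c : F, (∀ b ∈ B, c + b ≠ 0) → ∃ b ∈ B, ∃ b' ∈ B, b ≠ b' ∧ (c + b) / (c + b') ∈ H

open Classical in
theorem density {F : Type*} [Field F] [Infinite F] {H : Set F} {B : Finset F}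
    (hB : NoRainbow H B) (A : Finset F) (hA : (0 : F) ∉ A) :
    ∃ δ : F, δ ≠ 0 ∧ A.card ≤ 2 * B.card ^ 2 * (A.filter fun a => 1 + a * δ ∈ H).card := by
  -- units
  let u : F → Additive Fˣ := fun x => if h : x = 0 then 0 else Additive.ofMul (Units.mk0 x h)
  let v : Additive Fˣ → F := fun x => ((Additive.toMul x : Fˣ) : F)
  have hv0 : ∀ x, v x ≠ 0 := fun x => Units.ne_zero _
  have hvu : ∀ x : F, x ≠ 0 → v (u x) = x := by
    intro x hx
    simp only [v, u, dif_neg hx]
    rfl
  have hvadd : ∀ x y, v (x + y) = v x * v y := by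
    intro x y
    simp only [v, toMul_add, Units.val_mul]
  set β : ℕ := B.card ^ 2 with hβ
  have hβ0 : 0 < β := by
    obtain ⟨b, hb, -⟩ : ∃ b ∈ B, True := by
      obtain ⟨c, hc⟩ := Infinite.exists_notMem_finset (B.image fun b => -b)
      obtain ⟨b, hb, -⟩ := hB c fun b hb h => hc (mem_image.2 ⟨b, hb, by linear_combination -h⟩)
      exact ⟨b, hb, trivial⟩
    exact pow_pos (card_pos.2 ⟨b, hb⟩) 2
  set k : ℕ := 6 * β with hk
  have hk0 : 0 < k := by omega
  obtain ⟨I, _, hI, t, ht⟩ := folner ((A ∪ B.offDiag.image fun x => x.1 - x.2).image u) k hk0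
  obtain ⟨J, _, hJ, c₁, hc₁⟩ := folner
    ((univ ×ˢ B : Finset (I × F)).image fun x => v (t x.1) * x.2) k hk0
  -- a base point
  obtain ⟨c₀, hc₀⟩ := Infinite.exists_notMem_finset
    (((univ ×ˢ (univ ×ˢ B) : Finset (J × I × F)).image fun x =>
      -(c₁ x.1 + v (t x.2.1) * x.2.2)) ∪ (univ : Finset J).image fun j => -c₁ j)
  rw [mem_union, not_or] at hc₀
  have hcB : ∀ j i, ∀ b ∈ B, c₀ + c₁ j + v (t i) * b ≠ 0 := by
    intro j i b hb h
    apply hc₀.1
    refine mem_image.2 ⟨(j, i, b), by simp [hb], ?_⟩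
    linear_combination -h
  have hc0 : ∀ j, c₀ + c₁ j ≠ 0 := by
    intro j h
    apply hc₀.2
    exact mem_image.2 ⟨j, mem_univ _, by linear_combination -h⟩
  let Φ : F → F → Prop := fun c y => 1 + y * c⁻¹ ∈ H
  -- the four counts
  let X : F × F → ℕ := fun p =>
    (univ.filter fun x : J × I => Φ (c₀ + (c₁ x.1 + v (t x.2) * p.2)) (v (t x.2) * (p.1 - p.2))).card
  let Y : F × F → ℕ := fun p =>
    (univ.filter fun x : J × I => Φ (c₀ + c₁ x.1) (v (t x.2) * (p.1 - p.2))).card
  let Z : ℕ := (univ.filter fun x : J × I => Φ (c₀ + c₁ x.1) (v (t x.2))).card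
  let W : F → ℕ := fun a =>
    (univ.filter fun x : J × I => Φ (c₀ + c₁ x.1) (v (t x.2) * a)).card
  have s1 : Fintype.card J * Fintype.card I ≤ ∑ p ∈ B.offDiag, X p := by
    have h1 : (univ : Finset (J × I)) ⊆ B.offDiag.biUnion fun p => univ.filter fun x : J × I =>
        Φ (c₀ + (c₁ x.1 + v (t x.2) * p.2)) (v (t x.2) * (p.1 - p.2)) := by
      intro x _
      have hx := hv0 (t x.2)
      obtain ⟨b, hb, b', hb', hne, h⟩ := hB ((c₀ + c₁ x.1) / v (t x.2)) (by
        intro b hb h
        apply hcB x.1 x.2 b hb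
        field_simp at h
        linear_combination h)
      refine mem_biUnion.2 ⟨(b, b'), mem_offDiag.2 ⟨hb, hb', hne⟩, ?_⟩
      rw [mem_filter]
      refine ⟨mem_univ _, ?_⟩
      show 1 + v (t x.2) * (b - b') * (c₀ + (c₁ x.1 + v (t x.2) * b'))⁻¹ ∈ H
      have h2 := hcB x.1 x.2 b' hb'
      have h3 : c₀ + (c₁ x.1 + v (t x.2) * b') ≠ 0 := by rwa [← add_assoc]
      have h4 : 1 + v (t x.2) * (b - b') * (c₀ + (c₁ x.1 + v (t x.2) * b'))⁻¹ =
          ((c₀ + c₁ x.1) / v (t x.2) + b) / ((c₀ + c₁ x.1) / v (t x.2) + b') := by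
        have h5 : (c₀ + c₁ x.1) / v (t x.2) + b' ≠ 0 := by
          intro h
          apply h2
          field_simp at h
          linear_combination h
        rw [eq_div_iff h5]
        field_simp
        ring
      rw [h4]
      exact h
    have h2 := card_le_card h1
    rw [card_univ, Fintype.card_prod] at h2
    exact h2.trans card_biUnion_le
  -- counts over a product, one factor at a time
  have prodJ : ∀ P : J → I → Prop, (univ.filter fun x : J × I => P x.1 x.2).card =
      ∑ i : I, (univ.filter fun j : J => P j i).card := by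
    intro P
    rw [card_filter, Fintype.sum_prod_type_right]
    exact sum_congr rfl fun i _ => (card_filter _ _).symm
  have prodI : ∀ P : J → I → Prop, (univ.filter fun x : J × I => P x.1 x.2).card =
      ∑ j : J, (univ.filter fun i : I => P j i).card := by
    intro P
    rw [card_filter, Fintype.sum_prod_type]
    exact sum_congr rfl fun i _ => (card_filter _ _).symm
  have s2 : ∀ p ∈ B.offDiag, k * X p ≤ k * Y p + Fintype.card J * Fintype.card I := by
    intro p hp
    have hX : X p = ∑ i : I, (univ.filter fun j : J =>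
        Φ (c₀ + (c₁ j + v (t i) * p.2)) (v (t i) * (p.1 - p.2))).card :=
      prodJ fun j i => Φ (c₀ + (c₁ j + v (t i) * p.2)) (v (t i) * (p.1 - p.2))
    have hY : Y p = ∑ i : I, (univ.filter fun j : J =>
        Φ (c₀ + c₁ j) (v (t i) * (p.1 - p.2))).card :=
      prodJ fun j i => Φ (c₀ + c₁ j) (v (t i) * (p.1 - p.2))
    rw [hX, hY, mul_sum, mul_sum]
    have h1 : ∀ i : I, k * (univ.filter fun j : J =>
        Φ (c₀ + (c₁ j + v (t i) * p.2)) (v (t i) * (p.1 - p.2))).card ≤
        k * (univ.filter fun j : J => Φ (c₀ + c₁ j) (v (t i) * (p.1 - p.2))).card +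
          Fintype.card J := by
      intro i
      exact (hc₁ (v (t i) * p.2) (mem_image.2 ⟨(i, p.2),
        by simp [(mem_offDiag.1 hp).2.1], rfl⟩)
        fun x => Φ (c₀ + x) (v (t i) * (p.1 - p.2))).1
    have h2 := sum_le_sum fun i (_ : i ∈ (univ : Finset I)) => h1 i
    rw [sum_add_distrib, sum_const, card_univ, smul_eq_mul] at h2
    calc _ ≤ _ := h2
      _ = _ := by rw [mul_comm (Fintype.card I)]
  have hZ : Z = ∑ j : J, (univ.filter fun i : I => Φ (c₀ + c₁ j) (v (t i))).card :=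
    prodI fun j i => Φ (c₀ + c₁ j) (v (t i))
  have s3 : ∀ p ∈ B.offDiag, k * Y p ≤ k * Z + Fintype.card J * Fintype.card I := by
    intro p hp
    have hne : p.1 - p.2 ≠ 0 := sub_ne_zero.2 (mem_offDiag.1 hp).2.2
    have hY : Y p = ∑ j : J, (univ.filter fun i : I =>
        Φ (c₀ + c₁ j) (v (t i) * (p.1 - p.2))).card :=
      prodI fun j i => Φ (c₀ + c₁ j) (v (t i) * (p.1 - p.2))
    rw [hZ, hY, mul_sum, mul_sum]
    have h1 : ∀ j : J, k * (univ.filter fun i : I =>
        Φ (c₀ + c₁ j) (v (t i) * (p.1 - p.2))).card ≤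
        k * (univ.filter fun i : I => Φ (c₀ + c₁ j) (v (t i))).card + Fintype.card I := by
      intro j
      have h2 := (ht (u (p.1 - p.2)) (mem_image.2 ⟨p.1 - p.2,
        mem_union_right _ (mem_image.2 ⟨p, hp, rfl⟩), rfl⟩) fun x => Φ (c₀ + c₁ j) (v x)).1
      simpa only [hvadd, hvu _ hne] using h2
    have h2 := sum_le_sum fun i (_ : i ∈ (univ : Finset J)) => h1 i
    rw [sum_add_distrib, sum_const, card_univ, smul_eq_mul] at h2
    exact h2
  have s4 : ∀ a ∈ A, k * Z ≤ k * W a + Fintype.card J * Fintype.card I := by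
    intro a ha
    have hne : a ≠ 0 := fun h => hA (h ▸ ha)
    have hW : W a = ∑ j : J, (univ.filter fun i : I =>
        Φ (c₀ + c₁ j) (v (t i) * a)).card :=
      prodI fun j i => Φ (c₀ + c₁ j) (v (t i) * a)
    rw [hZ, hW, mul_sum, mul_sum]
    have h1 : ∀ j : J, k * (univ.filter fun i : I => Φ (c₀ + c₁ j) (v (t i))).card ≤
        k * (univ.filter fun i : I => Φ (c₀ + c₁ j) (v (t i) * a)).card + Fintype.card I := by
      intro j
      have h2 := (ht (u a) (mem_image.2 ⟨a, mem_union_left _ ha, rfl⟩)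
        fun x => Φ (c₀ + c₁ j) (v x)).2
      simpa only [hvadd, hvu _ hne] using h2
    have h2 := sum_le_sum fun i (_ : i ∈ (univ : Finset J)) => h1 i
    rw [sum_add_distrib, sum_const, card_univ, smul_eq_mul] at h2
    exact h2
  set T : ℕ := Fintype.card J * Fintype.card I with hT
  have hT0 : 0 < T := Nat.mul_pos Fintype.card_pos Fintype.card_pos
  -- the main inequality
  have m1 : 2 * T ≤ 3 * β * Z := by
    have h1 : k * T ≤ ∑ _p ∈ B.offDiag, (k * Z + 2 * T) := by
      calc k * T ≤ k * ∑ p ∈ B.offDiag, X p := Nat.mul_le_mul_left k s1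
        _ = ∑ p ∈ B.offDiag, k * X p := mul_sum _ _ _
        _ ≤ _ := sum_le_sum fun p hp => by
          have h2 := s2 p hp
          have h3 := s3 p hp
          omega
    rw [sum_const, smul_eq_mul] at h1
    have h2 : B.offDiag.card ≤ β := by
      rw [offDiag_card, hβ, sq]
      omega
    have h3 := h1.trans (Nat.mul_le_mul_right _ h2)
    have h4 : β * (6 * T) ≤ β * (6 * (β * Z) + 2 * T) := by
      calc β * (6 * T) = k * T := by rw [hk]; ring
        _ ≤ β * (k * Z + 2 * T) := h3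
        _ = β * (6 * (β * Z) + 2 * T) := by rw [hk]; ring
    have h5 := Nat.le_of_mul_le_mul_left h4 hβ0
    have h6 : 3 * β * Z = 3 * (β * Z) := by ring
    omega
  have m2 : A.card * T ≤ 2 * β * ∑ a ∈ A, W a := by
    have h1 : ∑ _a ∈ A, k * Z ≤ ∑ a ∈ A, (k * W a + T) := sum_le_sum s4
    rw [sum_const, smul_eq_mul, sum_add_distrib, ← mul_sum, sum_const, smul_eq_mul] at h1
    have h2 := Nat.mul_le_mul_left (A.card) m1
    have h3 : A.card * (k * Z) = 2 * (A.card * (3 * β * Z)) := by rw [hk]; ring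
    have h4 : A.card * (2 * T) = 2 * (A.card * T) := by ring
    have h5 : k * ∑ a ∈ A, W a = 3 * (2 * β * ∑ a ∈ A, W a) := by rw [hk]; ring
    omega
  -- some pair
  have m3 : ∑ a ∈ A, W a = ∑ x : J × I, (A.filter fun a =>
      Φ (c₀ + c₁ x.1) (v (t x.2) * a)).card := by
    simp only [W, card_filter]
    exact sum_comm
  by_contra hcon
  push Not at hcon
  have m4 : ∀ x : J × I, 2 * β * (A.filter fun a => Φ (c₀ + c₁ x.1) (v (t x.2) * a)).card + 1 ≤
      A.card := by
    intro x
    have h1 := hcon (v (t x.2) * (c₀ + c₁ x.1)⁻¹)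
      (mul_ne_zero (hv0 _) (inv_ne_zero (hc0 _)))
    have h2 : (A.filter fun a => Φ (c₀ + c₁ x.1) (v (t x.2) * a)) =
        A.filter fun a => 1 + a * (v (t x.2) * (c₀ + c₁ x.1)⁻¹) ∈ H := by
      refine filter_congr fun a _ => ?_
      show 1 + v (t x.2) * a * (c₀ + c₁ x.1)⁻¹ ∈ H ↔ _
      rw [mul_comm (v (t x.2)) a, mul_assoc]
    rw [h2]
    exact h1
  have m5 := sum_le_sum fun x (_ : x ∈ (univ : Finset (J × I))) => m4 x
  rw [sum_add_distrib, ← mul_sum, ← m3, sum_const, sum_const, card_univ, smul_eq_mul, smul_eq_mul,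
    Fintype.card_prod, mul_one, ← hT] at m5
  have m6 : T * A.card = A.card * T := mul_comm _ _
  omega

end Pool.Agent.NIPFields.RB
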