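import Pool.Agent.NIPFields.RB.Density

set_option autoImplicit false

/-!
# Dependent translates and rainbow translates

`H` is a subgroup of `Fˣ` which contains the `ℓ`-th powers. If all translates of a finite set `B`
which do not contain `0` are multiplicatively dependent modulo `H` (with exponents modulo `ℓ`), up to
finitely many constants, then some finite set `B'` has no rainbow translate. Hales-Jewett gives a
monochromatic affine copy of a finite configuration in `F × F`; on it the classes satisfy a linear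
functional equation, and the alternating sum over `ℓ ^ k` steps is a difference of two classes.
-/

namespace Pool.Agent.NIPFields.RB

open Finset Polynomial

/-- Every translate `c + B` with `0 ∉ c + B` is dependent modulo `H`, with exponents modulo `ℓ`, up to
a factor from `C`. -/
def Dependent {F : Type*} [Field F] (ℓ : ℕ) (H : Set F) (B C : Finset F) : Prop :=
  ∀ c : F, (∀ b ∈ B, c + b ≠ 0) →
    ∃ n : F → ℕ, (∃ b ∈ B, ¬ ℓ ∣ n b) ∧ ∃ a ∈ C, a * ∏ b ∈ B, (c + b) ^ n b ∈ H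

/-- The alternating sum over all subsets vanishes if one step is zero. -/
theorem alt_zero {A V : Type*} [AddCommGroup A] [AddCommGroup V] {ι : Type*} [Fintype ι]
    [DecidableEq ι] (g : A → V) (s : A) (a : ι → A) {j : ι} (hj : a j = 0) :
    ∑ S : Finset ι, ((-1 : ℤ) ^ S.card) • g (s + ∑ i ∈ S, a i) = 0 := by
  rw [← powerset_univ, ← insert_erase (mem_univ j), sum_powerset_insert (notMem_erase j univ),
    ← sum_add_distrib]
  refine sum_eq_zero fun S hS => ?_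
  have hj' : j ∉ S := fun h => notMem_erase j univ (mem_powerset.1 hS h)
  rw [sum_insert hj', hj, zero_add, card_insert_of_notMem hj', pow_succ, mul_neg, mul_one,
    neg_smul, add_neg_cancel]

/-- The alternating sum over all subsets, all steps being one. -/
theorem alt_one {ℓ k : ℕ} (hℓ : ℓ.Prime) {F V : Type*} [Field F] [AddCommGroup V]
    (hV : ∀ v : V, ℓ • v = 0) (g : F → V) (s : F)
    (h : ∑ S : Finset (Fin (ℓ ^ k)), ((-1 : ℤ) ^ S.card) • g (s + S.card) = 0) :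
    g (s + (ℓ ^ k : ℕ)) = g s := by
  have h1 := sum_powerset_apply_card (x := (univ : Finset (Fin (ℓ ^ k))))
    (fun m => ((-1 : ℤ) ^ m) • g (s + (m : F)))
  rw [powerset_univ, h, card_univ, Fintype.card_fin] at h1
  obtain ⟨M, hM⟩ : ∃ M, ℓ ^ k = M + 1 := ⟨ℓ ^ k - 1, by have := pow_pos hℓ.pos k; omega⟩
  have h2 : ∀ i ∈ range M, (ℓ ^ k).choose (i + 1) • (((-1 : ℤ) ^ (i + 1)) •
      g (s + ((i + 1 : ℕ) : F))) = 0 := by
    intro i hi
    obtain ⟨t, ht⟩ := hℓ.dvd_choose_pow (n := k) (k := i + 1) (Nat.succ_ne_zero i) (by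
      have := mem_range.1 hi
      omega)
    rw [ht, mul_comm, mul_smul, hV, smul_zero]
  rw [sum_range_succ, hM, sum_range_succ', ← hM, sum_eq_zero h2, zero_add, Nat.choose_zero_right,
    Nat.choose_self, one_smul, one_smul, pow_zero, one_smul, Nat.cast_zero, add_zero] at h1
  rcases hℓ.eq_two_or_odd' with rfl | hodd
  · have h3 : g (s + ((2 ^ k : ℕ) : F)) + g (s + ((2 ^ k : ℕ) : F)) = 0 := by
      have := hV (g (s + ((2 ^ k : ℕ) : F)))
      rwa [two_smul] at this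
    rcases neg_one_pow_eq_or ℤ (2 ^ k) with h4 | h4
    · rw [h4, one_smul] at h1
      rw [eq_neg_of_add_eq_zero_left h1.symm, ← eq_neg_of_add_eq_zero_left h3]
    · rw [h4, neg_smul, one_smul] at h1
      exact (eq_of_sub_eq_zero (by rw [h1]; abel)).symm
  · rw [(hodd.pow).neg_one_pow, neg_smul, one_smul] at h1
    exact (eq_of_sub_eq_zero (by rw [h1]; abel)).symm

/-- Weights in an infinite subfield. -/
theorem exists_weights {F : Type*} [Field F] (k₀ : Subfield F) [Infinite k₀] {ι : Type*}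
    [Fintype ι] (C : Finset (ι → F)) (hC : ∀ c ∈ C, ∃ i, c i ≠ 0) :
    ∃ l : ι → F, (∀ i, l i ∈ k₀) ∧ ∀ c ∈ C, ∑ i, c i * l i ≠ 0 := by
  classical
  let e := Fintype.equivFin ι
  let P : (ι → F) → F[X] := fun c => ∑ i, Polynomial.C (c i) * X ^ (e i : ℕ)
  have hP : ∀ c ∈ C, P c ≠ 0 := by
    intro c hc h
    obtain ⟨i, hi⟩ := hC c hc
    have h1 : (P c).coeff (e i : ℕ) = c i := by
      simp only [P, finsetSum_coeff, coeff_C_mul, coeff_X_pow]
      rw [Finset.sum_eq_single i]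
      · simp
      · intro j _ hj
        rw [if_neg, mul_zero]
        intro h2
        exact hj (e.injective (Fin.ext h2)).symm
      · intro h2
        exact absurd (mem_univ i) h2
    rw [h, coeff_zero] at h1
    exact hi h1.symm
  let Q : F[X] := ∏ c ∈ C, P c
  have hQ : Q ≠ 0 := Finset.prod_ne_zero_iff.2 hP
  obtain ⟨x, hx⟩ := Infinite.exists_notMem_finset
    (Q.roots.toFinset.preimage (Subtype.val : k₀ → F) Subtype.val_injective.injOn)
  have hx' : Q.eval (x : F) ≠ 0 := by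
    intro h
    exact hx (mem_preimage.2 (Multiset.mem_toFinset.2 ((mem_roots hQ).2 h)))
  refine ⟨fun i => (x : F) ^ (e i : ℕ), fun i => pow_mem x.2 _, fun c hc h => hx' ?_⟩
  rw [eval_prod]
  refine Finset.prod_eq_zero hc ?_
  simp only [P, eval_finsetSum, eval_mul, eval_C, eval_pow, eval_X]
  exact h

/-- A finite set in the plane such that every colouring has a monochromatic copy of `T`. -/
theorem exists_affine_copy₂ {F : Type*} [Field F] (k₀ : Subfield F) [Infinite k₀]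
    (T : Finset (F × F)) (hT : ∀ t ∈ T, t.1 ∈ k₀ ∧ t.2 ∈ k₀ ∧ t.2 ≠ 0) (κ : Type*) [Finite κ]
    [Nonempty κ] :
    ∃ W : Finset (F × F), (∀ w ∈ W, w.1 ∈ k₀ ∧ w.2 ∈ k₀ ∧ w.2 ≠ 0) ∧
      ∀ col : F × F → κ, ∃ (u : F × F) (v : F) (c : κ), v ≠ 0 ∧
        ∀ t ∈ T, (u.1 + v * t.1, u.2 + v * t.2) ∈ W ∧ col (u.1 + v * t.1, u.2 + v * t.2) = c := by
  classical
  obtain ⟨ι, hι, hHJ⟩ := Combinatorics.Line.exists_mono_in_high_dimension T κ
  have hne : Nonempty ι := by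
    obtain ⟨c⟩ := ‹Nonempty κ›
    obtain ⟨L, _⟩ := hHJ fun _ => c
    exact ⟨L.proper.choose⟩
  obtain ⟨l, hlk, hl⟩ := exists_weights k₀ (ι := ι)
    (((univ : Finset (Finset ι)).filter fun S => S.Nonempty).image
      (fun S i => if i ∈ S then (1 : F) else 0) ∪
      (univ : Finset (ι → T)).image fun w i => (w i : F × F).2) (by
    intro c hc
    rcases mem_union.1 hc with hc | hc
    · obtain ⟨S, hS, rfl⟩ := mem_image.1 hc
      obtain ⟨i, hi⟩ := (mem_filter.1 hS).2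
      exact ⟨i, by simp [hi]⟩
    · obtain ⟨w, -, rfl⟩ := mem_image.1 hc
      obtain ⟨i⟩ := hne
      exact ⟨i, (hT _ (w i).2).2.2⟩)
  let pt : (ι → T) → F × F := fun w =>
    (∑ i, (w i : F × F).1 * l i, ∑ i, (w i : F × F).2 * l i)
  refine ⟨univ.image pt, ?_, fun col => ?_⟩
  · intro w hw
    obtain ⟨w, -, rfl⟩ := mem_image.1 hw
    refine ⟨sum_mem fun i _ => mul_mem (hT _ (w i).2).1 (hlk i),
      sum_mem fun i _ => mul_mem (hT _ (w i).2).2.1 (hlk i), ?_⟩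
    exact hl _ (mem_union_right _ (mem_image_of_mem (fun (w : ι → T) i => (w i : F × F).2)
      (mem_univ w)))
  · obtain ⟨L, c, hL⟩ := hHJ fun w => col (pt w)
    let S : Finset ι := univ.filter fun i => ¬ (L.idxFun i).isSome
    have hS : S.Nonempty := by
      obtain ⟨i, hi⟩ := L.proper
      exact ⟨i, mem_filter.2 ⟨mem_univ i, by simp [hi]⟩⟩
    have hv : ∑ i ∈ S, l i ≠ 0 := by
      have h1 := hl (fun i => if i ∈ S then (1 : F) else 0) (mem_union_left _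
        (mem_image.2 ⟨S, mem_filter.2 ⟨mem_univ S, hS⟩, rfl⟩))
      intro h
      apply h1
      simp only [ite_mul, one_mul, zero_mul, sum_ite_mem, univ_inter]
      exact h
    refine ⟨(∑ i ∈ univ.filter (fun i => (L.idxFun i).isSome),
      ((L.idxFun i).elim 0 fun t => (t : F × F).1) * l i,
      ∑ i ∈ univ.filter (fun i => (L.idxFun i).isSome),
      ((L.idxFun i).elim 0 fun t => (t : F × F).2) * l i), ∑ i ∈ S, l i, c, hv, ?_⟩
    intro t ht
    have key : ∀ f : F × F → F, ∑ i ∈ univ.filter (fun i => (L.idxFun i).isSome),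
        ((L.idxFun i).elim 0 fun t => f (t : F × F)) * l i + (∑ i ∈ S, l i) * f t =
        ∑ i, f ((L ⟨t, ht⟩ i : T) : F × F) * l i := by
      intro f
      rw [← Finset.sum_filter_add_sum_filter_not univ (fun i => (L.idxFun i).isSome)
        fun i => f ((L ⟨t, ht⟩ i : T) : F × F) * l i]
      congr 1
      · refine Finset.sum_congr rfl fun i hi => ?_
        have hi' := (mem_filter.1 hi).2
        rw [Option.isSome_iff_exists] at hi'
        obtain ⟨b, hb⟩ := hi'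
        have e1 : L ⟨t, ht⟩ i = b := by
          show (L.idxFun i).getD ⟨t, ht⟩ = b
          rw [hb]
          rfl
        rw [e1, hb]
        rfl
      · rw [Finset.sum_mul]
        refine Finset.sum_congr rfl fun i hi => ?_
        have hi' := (mem_filter.1 hi).2
        rw [Option.isSome_iff_exists] at hi'
        have e1 : L ⟨t, ht⟩ i = ⟨t, ht⟩ := by
          show (L.idxFun i).getD ⟨t, ht⟩ = ⟨t, ht⟩
          cases h : L.idxFun i with
          | none => rfl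
          | some b => exact absurd ⟨b, h⟩ hi'
        rw [e1, mul_comm]
    have h1 : pt (L ⟨t, ht⟩) = ((∑ i ∈ univ.filter (fun i => (L.idxFun i).isSome),
        ((L.idxFun i).elim 0 fun t => (t : F × F).1) * l i) + (∑ i ∈ S, l i) * t.1,
        (∑ i ∈ univ.filter (fun i => (L.idxFun i).isSome),
        ((L.idxFun i).elim 0 fun t => (t : F × F).2) * l i) + (∑ i ∈ S, l i) * t.2) := by
      rw [key Prod.fst, key Prod.snd]
    refine ⟨?_, ?_⟩
    · rw [← h1]
      exact mem_image_of_mem pt (mem_univ _)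
    · rw [← h1]
      exact hL ⟨t, ht⟩

theorem exists_mem_notMem {F : Type*} [Field F] (k₀ : Subfield F) [Infinite k₀] (s : Finset F) :
    ∃ x ∈ k₀, x ∉ s := by
  classical
  obtain ⟨x, hx⟩ := Infinite.exists_notMem_finset
    (s.preimage (Subtype.val : k₀ → F) Subtype.val_injective.injOn)
  exact ⟨x, x.2, fun h => hx (mem_preimage.2 h)⟩

theorem exists_surj_fin {α : Type*} [Fintype α] [Nonempty α] {M : ℕ} (h : Fintype.card α ≤ M) :
    ∃ f : Fin M → α, Function.Surjective f := by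
  obtain ⟨e⟩ := Function.Embedding.nonempty_of_card_le (α := α) (β := Fin M) (by simpa using h)
  exact ⟨Function.invFun e, Function.invFun_surjective e.injective⟩

theorem smul_mod {V : Type*} [AddCommGroup V] {ℓ : ℕ} (hV : ∀ v : V, ℓ • v = 0) (n : ℕ) (v : V) :
    (n % ℓ) • v = n • v := by
  conv_rhs => rw [← Nat.mod_add_div n ℓ, add_smul, mul_comm, mul_smul, hV, smul_zero, add_zero]

theorem eq_zero_of_smul {V : Type*} [AddCommGroup V] {ℓ : ℕ} (hℓ : ℓ.Prime)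
    (hV : ∀ v : V, ℓ • v = 0) {n : ℕ} (hn : n < ℓ) (hn0 : n ≠ 0) {v : V} (h : n • v = 0) : v = 0 := by
  have h1 := addOrderOf_dvd_of_nsmul_eq_zero (hV v)
  have h2 := addOrderOf_dvd_of_nsmul_eq_zero h
  rcases (Nat.dvd_prime hℓ).1 h1 with h3 | h3
  · exact AddMonoid.addOrderOf_eq_one_iff.1 h3
  · rw [h3] at h2
    exact absurd (Nat.le_of_dvd (Nat.pos_of_ne_zero hn0) h2) (not_le.2 hn)

/-- The abstract form of the lemma, with classes in an abelian group of exponent `ℓ`. -/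
theorem exists_pair {F : Type*} [Field F] (k₀ : Subfield F) [Infinite k₀] {ℓ : ℕ} (hℓ : ℓ.Prime)
    (hℓF : (ℓ : F) ≠ 0) (B : Finset F) (hBk : ∀ b ∈ B, b ∈ k₀) (hBne : B.Nonempty)
    (Γ : Type _) [Finite Γ] [Nonempty Γ] :
    ∃ B' : Finset F, (∀ b ∈ B', b ∈ k₀) ∧ ∀ (V : Type _) [AddCommGroup V] (_ : ∀ v : V, ℓ • v = 0)
      (q : F → V) (κ : Γ → V) (c : F),
      (∀ x a : F, a ≠ 0 → (∀ b ∈ B, x + a * b ∈ B') → ∃ (m : B → Fin ℓ) (γ : Γ),
        (∃ b, (m b : ℕ) ≠ 0) ∧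
        ∑ b, (m b : ℕ) • q (c + x + a * b) = (∑ b, (m b : ℕ)) • q a + κ γ) →
      ∃ b ∈ B', ∃ b' ∈ B', b ≠ b' ∧ q (c + b) = q (c + b') := by
  classical
  have : NeZero ℓ := ⟨hℓ.ne_zero⟩
  set M : ℕ := ℓ ^ B.card with hM
  have hMF : (M : F) ≠ 0 := by
    rw [hM, Nat.cast_pow]
    exact pow_ne_zero _ hℓF
  -- the steps
  let Sg : F → Finset (F × F) := fun b₀ =>
    insert (1, 0) ((B.erase b₀).image fun b => (-b * (b₀ - b)⁻¹, (b₀ - b)⁻¹))
  have hSgcard : ∀ b₀ ∈ B, (Sg b₀).card ≤ M := by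
    intro b₀ hb₀
    have h1 := card_insert_le ((1 : F), (0 : F))
      ((B.erase b₀).image fun b => (-b * (b₀ - b)⁻¹, (b₀ - b)⁻¹))
    have h2 : ((B.erase b₀).image fun b => (-b * (b₀ - b)⁻¹, (b₀ - b)⁻¹)).card ≤
      (B.erase b₀).card := card_image_le
    rw [card_erase_of_mem hb₀] at h2
    have h3 : 0 < B.card := card_pos.2 ⟨b₀, hb₀⟩
    have h4 : B.card < M := Nat.lt_pow_self hℓ.one_lt
    show (insert _ _ : Finset (F × F)).card ≤ M
    omega
  have hex : ∀ b₀ : B, ∃ f : Fin M → F × F, (∀ j, f j ∈ Sg b₀) ∧ ∀ s ∈ Sg b₀, ∃ j, f j = s := by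
    intro b₀
    have : Nonempty (Sg b₀) := ⟨⟨(1, 0), mem_insert_self _ _⟩⟩
    obtain ⟨f, hf⟩ := exists_surj_fin (α := Sg b₀) (M := M) (by
      rw [Fintype.card_coe]
      exact hSgcard _ b₀.2)
    refine ⟨fun j => (f j : F × F), fun j => (f j).2, fun s hs => ?_⟩
    obtain ⟨j, hj⟩ := hf ⟨s, hs⟩
    exact ⟨j, congrArg Subtype.val hj⟩
  choose σ hσ hσ' using hex
  have hσk : ∀ b₀ j, (σ b₀ j).1 ∈ k₀ ∧ (σ b₀ j).2 ∈ k₀ := by
    intro b₀ j
    rcases mem_insert.1 (hσ b₀ j) with h | h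
    · rw [h]
      exact ⟨one_mem _, zero_mem _⟩
    · obtain ⟨b, hb, h⟩ := mem_image.1 h
      rw [← h]
      have hbk := hBk b (mem_of_mem_erase hb)
      have h1 := inv_mem (sub_mem (hBk b₀ b₀.2) hbk)
      exact ⟨mul_mem (neg_mem hbk) h1, h1⟩
  have hσ1 : ∀ b₀ : B, ∀ j, (σ b₀ j).1 + (σ b₀ j).2 * b₀ = 1 := by
    intro b₀ j
    rcases mem_insert.1 (hσ b₀ j) with h | h
    · rw [h]
      simp
    · obtain ⟨b, hb, h⟩ := mem_image.1 h
      rw [← h]
      have h1 : (b₀ : F) - b ≠ 0 := sub_ne_zero.2 (Ne.symm (ne_of_mem_erase hb))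
      field_simp
      ring
  -- the configuration
  obtain ⟨τ, hτk, hτ⟩ := exists_mem_notMem k₀ ((univ : Finset (B × Finset (Fin M))).image fun z =>
    -∑ j ∈ z.2, (σ z.1 j).2)
  let pt : B → Finset (Fin M) → F × F := fun b₀ S =>
    (∑ j ∈ S, (σ b₀ j).1, τ + ∑ j ∈ S, (σ b₀ j).2)
  obtain ⟨W, hWk, hW⟩ := exists_affine_copy₂ k₀
    ((univ : Finset (B × Finset (Fin M))).image fun z => pt z.1 z.2) (by
      intro t ht
      obtain ⟨⟨b₀, S⟩, -, rfl⟩ := mem_image.1 ht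
      refine ⟨sum_mem fun j _ => (hσk b₀ j).1, add_mem hτk (sum_mem fun j _ => (hσk b₀ j).2), ?_⟩
      intro h
      apply hτ
      exact mem_image.2 ⟨(b₀, S), mem_univ _, by
        show -∑ j ∈ S, (σ b₀ j).2 = τ
        exact (eq_neg_of_add_eq_zero_left h).symm⟩) ((B → Fin ℓ) × Γ)
  refine ⟨(W ×ˢ B).image fun z => z.1.1 + z.1.2 * z.2, ?_, ?_⟩
  · intro b hb
    obtain ⟨⟨w, b⟩, hz, rfl⟩ := mem_image.1 hb
    obtain ⟨hw, hb⟩ := mem_product.1 hz
    exact add_mem (hWk w hw).1 (mul_mem (hWk w hw).2.1 (hBk b hb))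
  intro V _ hV q κ c hq
  have hq' : ∀ w : W, ∃ m : (B → Fin ℓ) × Γ, (∃ b, (m.1 b : ℕ) ≠ 0) ∧
      ∑ b, (m.1 b : ℕ) • q (c + (w : F × F).1 + (w : F × F).2 * b) =
        (∑ b, (m.1 b : ℕ)) • q (w : F × F).2 + κ m.2 := by
    intro w
    obtain ⟨m, γ, h1, h2⟩ := hq (w : F × F).1 (w : F × F).2 (hWk w w.2).2.2 fun b hb =>
      mem_image.2 ⟨(w, b), mem_product.2 ⟨w.2, hb⟩, rfl⟩
    exact ⟨(m, γ), h1, h2⟩
  choose m hm hm' using hq'
  obtain ⟨u, v, ⟨μ, γ⟩, hv, hmono⟩ := hW fun w => if h : w ∈ W then m ⟨w, h⟩ else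
    Classical.arbitrary _
  -- the relation on the configuration
  have hrel : ∀ b₀ S, (u.1 + v * (pt b₀ S).1, u.2 + v * (pt b₀ S).2) ∈ W ∧ (∃ b, (μ b : ℕ) ≠ 0) ∧
      ∑ b, (μ b : ℕ) • q (c + (u.1 + v * (pt b₀ S).1) + (u.2 + v * (pt b₀ S).2) * b) =
        (∑ b, (μ b : ℕ)) • q (u.2 + v * (pt b₀ S).2) + κ γ := by
    intro b₀ S
    obtain ⟨h1, h2⟩ := hmono (pt b₀ S) (mem_image.2 ⟨(b₀, S), mem_univ _, rfl⟩)
    simp only [dif_pos h1] at h2
    have h3 := hm ⟨_, h1⟩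
    have h4 := hm' ⟨_, h1⟩
    rw [h2] at h3 h4
    exact ⟨h1, h3, h4⟩
  obtain ⟨b₁, hb₁⟩ := hBne
  obtain ⟨b₀, hb₀⟩ := (hrel ⟨b₁, hb₁⟩ ∅).2.1
  have hW' : ∀ S, (u.1 + v * (pt b₀ S).1) + (u.2 + v * (pt b₀ S).2) * b₀ ∈
      (W ×ˢ B).image fun z => z.1.1 + z.1.2 * z.2 := fun S =>
    mem_image.2 ⟨((u.1 + v * (pt b₀ S).1, u.2 + v * (pt b₀ S).2), b₀),
      mem_product.2 ⟨(hrel b₀ S).1, b₀.2⟩, rfl⟩
  have harg : ∀ (b : F) (S : Finset (Fin M)),
      (u.1 + v * (pt b₀ S).1) + (u.2 + v * (pt b₀ S).2) * b =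
      u.1 + u.2 * b + v * (τ * b + ∑ j ∈ S, ((σ b₀ j).1 + (σ b₀ j).2 * b)) := by
    intro b S
    rw [sum_add_distrib, ← sum_mul]
    show (u.1 + v * ∑ j ∈ S, (σ b₀ j).1) + (u.2 + v * (τ + ∑ j ∈ S, (σ b₀ j).2)) * b = _
    ring
  -- the alternating sums
  have hsum : ∑ b : B, ∑ S : Finset (Fin M), ((-1 : ℤ) ^ S.card) •
      ((fun s => (μ b : ℕ) • q (c + (u.1 + u.2 * b + v * s)))
        (τ * b + ∑ j ∈ S, ((σ b₀ j).1 + (σ b₀ j).2 * (b : F)))) =
      ∑ S : Finset (Fin M), ((-1 : ℤ) ^ S.card) •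
        ((fun s => (∑ b, (μ b : ℕ)) • q (u.2 + v * s) + κ γ) (τ + ∑ j ∈ S, (σ b₀ j).2)) := by
    rw [sum_comm]
    refine sum_congr rfl fun S _ => ?_
    rw [← smul_sum]
    congr 1
    have h1 := (hrel b₀ S).2.2
    rw [← show (fun s => (∑ b, (μ b : ℕ)) • q (u.2 + v * s) + κ γ) (τ + ∑ j ∈ S, (σ b₀ j).2) =
      (∑ b, (μ b : ℕ)) • q (u.2 + v * (pt b₀ S).2) + κ γ from rfl] at h1
    rw [← h1]
    refine sum_congr rfl fun b _ => ?_
    show (μ b : ℕ) • q _ = (μ b : ℕ) • q _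
    rw [← harg b S, add_assoc c]
  obtain ⟨j₀, hj₀⟩ := hσ' b₀ (1, 0) (mem_insert_self _ _)
  rw [alt_zero (fun s => (∑ b, (μ b : ℕ)) • q (u.2 + v * s) + κ γ) τ (fun j => (σ b₀ j).2) (j := j₀)
    (by simp only [hj₀]), sum_eq_single b₀] at hsum
  · have h1 : ∀ S : Finset (Fin M), ∑ j ∈ S, ((σ b₀ j).1 + (σ b₀ j).2 * (b₀ : F)) = S.card := by
      intro S
      rw [sum_congr rfl fun j _ => hσ1 b₀ j, sum_const, nsmul_eq_mul, mul_one]
    simp only [h1] at hsum
    have h2 := alt_one (k := B.card) hℓ hV (fun s => (μ b₀ : ℕ) • q (c + (u.1 + u.2 * b₀ + v * s)))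
      (τ * b₀) hsum
    have h3 : q (c + (u.1 + u.2 * b₀ + v * (τ * b₀ + (ℓ ^ B.card : ℕ)))) =
        q (c + (u.1 + u.2 * b₀ + v * (τ * b₀))) := by
      have h4 : (μ b₀ : ℕ) • (q (c + (u.1 + u.2 * b₀ + v * (τ * b₀ + (ℓ ^ B.card : ℕ)))) -
          q (c + (u.1 + u.2 * b₀ + v * (τ * b₀)))) = 0 := by
        rw [smul_sub, sub_eq_zero]
        exact h2
      exact sub_eq_zero.1 (eq_zero_of_smul hℓ hV (μ b₀).2 hb₀ h4)
    refine ⟨_, hW' univ, _, hW' ∅, ?_, ?_⟩
    · rw [harg, harg, h1, h1, card_univ, Fintype.card_fin, card_empty, Nat.cast_zero, add_zero]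
      intro h
      have h5 : v * (M : F) = 0 := by linear_combination h
      exact mul_ne_zero hv hMF h5
    · rw [harg, harg, h1, h1, card_univ, Fintype.card_fin, card_empty, Nat.cast_zero, add_zero]
      exact h3
  · intro b _ hb
    obtain ⟨j, hj⟩ := hσ' b₀ (-(b : F) * ((b₀ : F) - (b : F))⁻¹, ((b₀ : F) - (b : F))⁻¹) (mem_insert_of_mem (mem_image.2
      ⟨b, mem_erase.2 ⟨fun h => hb (Subtype.ext h), b.2⟩, rfl⟩))
    refine alt_zero (fun s => (μ b : ℕ) • q (c + (u.1 + u.2 * b + v * s))) (τ * b)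
      (fun j => (σ b₀ j).1 + (σ b₀ j).2 * (b : F)) (j := j) ?_
    simp only [hj]
    ring
  · intro h
    exact absurd (mem_univ _) h

/-- Lemma D with the classes in an abstract group. -/
theorem noRainbow_of_hom {F : Type*} [Field F] (k₀ : Subfield F) [Infinite k₀] {ℓ : ℕ}
    (hℓ : ℓ.Prime) (hℓF : (ℓ : F) ≠ 0) {H : Set F} (h1 : (1 : F) ∈ H) {B C : Finset F}
    (hBk : ∀ b ∈ B, b ∈ k₀) (hC : ∀ a ∈ C, a ≠ 0) (hB : Dependent ℓ H B C) :
    ∃ B' : Finset F, (∀ b ∈ B', b ∈ k₀) ∧ ∀ (V : Type _) [AddCommGroup V]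
      (_ : ∀ v : V, ℓ • v = 0) (q : F → V)
      (_ : ∀ x y, x ≠ 0 → y ≠ 0 → q (x * y) = q x + q y) (_ : ∀ x ∈ H, q x = 0)
      (_ : ∀ x y, x ≠ 0 → y ≠ 0 → q x = q y → x / y ∈ H), ∀ c : F, (∀ b ∈ B', c + b ≠ 0) →
        ∃ b ∈ B', ∃ b' ∈ B', b ≠ b' ∧ (c + b) / (c + b') ∈ H := by
  classical
  have hBne : B.Nonempty := by
    rcases B.eq_empty_or_nonempty with rfl | h
    · obtain ⟨n, ⟨b, hb, -⟩, -⟩ := hB 0 (by simp)
      exact absurd hb (by simp)
    · exact h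
  have hCne : Nonempty C := by
    have hF : Infinite F := Infinite.of_injective (Subtype.val : k₀ → F) Subtype.val_injective
    obtain ⟨c, hc⟩ := Infinite.exists_notMem_finset (B.image fun b => -b)
    obtain ⟨n, -, a, ha, -⟩ := hB c fun b hb h =>
      hc (mem_image.2 ⟨b, hb, by linear_combination -h⟩)
    exact ⟨⟨a, ha⟩⟩
  obtain ⟨B', hB'k, hB'⟩ := exists_pair k₀ hℓ hℓF B hBk hBne C
  refine ⟨B', hB'k, fun V _ hV q hqmul hqH hqeq c hc => ?_⟩
  have hqpow : ∀ x, x ≠ 0 → ∀ n : ℕ, q (x ^ n) = n • q x := by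
    intro x hx n
    induction n with
    | zero => rw [pow_zero, zero_smul, hqH 1 h1]
    | succ n ih => rw [pow_succ, hqmul _ _ (pow_ne_zero _ hx) hx, ih, succ_nsmul]
  have hqprod : ∀ (f : F → F) (n : F → ℕ) (s : Finset F), (∀ b ∈ s, f b ≠ 0) →
      q (∏ b ∈ s, f b ^ n b) = ∑ b ∈ s, n b • q (f b) := by
    intro f n s
    induction s using Finset.induction_on with
    | empty => intro _; rw [prod_empty, sum_empty, hqH 1 h1]
    | insert a s ha ih =>
      intro hs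
      rw [prod_insert ha, sum_insert ha, hqmul _ _ (pow_ne_zero _ (hs a (mem_insert_self a s)))
        (prod_ne_zero_iff.2 fun b hb => pow_ne_zero _ (hs b (mem_insert_of_mem hb))),
        hqpow _ (hs a (mem_insert_self a s)), ih fun b hb => hs b (mem_insert_of_mem hb)]
  obtain ⟨b, hb, b', hb', hne, h⟩ := hB' V hV q (fun γ : C => -q γ) c fun x a ha hx => by
    have hne : ∀ b ∈ B, c + x + a * b ≠ 0 := by
      intro b hb
      rw [add_assoc]
      exact hc _ (hx b hb)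
    have hne' : ∀ b ∈ B, (c + x) / a + b ≠ 0 := by
      intro b hb h
      apply hne b hb
      field_simp at h
      linear_combination h
    obtain ⟨n, ⟨b, hb, hn⟩, γ, hγ, hprod⟩ := hB _ hne'
    refine ⟨fun b => ⟨n b % ℓ, Nat.mod_lt _ hℓ.pos⟩, ⟨γ, hγ⟩,
      ⟨⟨b, hb⟩, fun h => hn (Nat.dvd_of_mod_eq_zero h)⟩, ?_⟩
    have h2 := hqprod (fun b => (c + x) / a + b) n B hne'
    have h2' := hqH _ hprod
    rw [hqmul _ _ (hC γ hγ) (prod_ne_zero_iff.2 fun b hb => pow_ne_zero _ (hne' b hb)), h2] at h2'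
    have h3 : ∀ b ∈ B, q ((c + x) / a + b) + q a = q (c + x + a * b) := by
      intro b hb
      rw [← hqmul _ _ (hne' b hb) ha]
      congr 1
      field_simp
    have h4 : ∑ b ∈ B, n b • q (c + x + a * b) = (∑ b ∈ B, n b) • q a + -q γ := by
      rw [sum_smul, sum_congr rfl fun b hb => by rw [← h3 b hb, smul_add], sum_add_distrib, add_comm,
        ← eq_neg_of_add_eq_zero_right h2']
    have h5 : ∀ v : V, (∑ b : B, n b % ℓ) • v = (∑ b ∈ B, n b) • v := by
      intro v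
      rw [sum_smul, sum_smul, ← sum_coe_sort B]
      exact sum_congr rfl fun b _ => smul_mod hV _ _
    show ∑ b : B, (n b % ℓ) • q (c + x + a * b) = (∑ b : B, n b % ℓ) • q a + -q γ
    rw [h5, ← h4, ← sum_coe_sort B]
    exact sum_congr rfl fun b _ => smul_mod hV _ _
  exact ⟨b, hb, b', hb', hne, hqeq _ _ (hc b hb) (hc b' hb') h⟩

/-- **Lemma D.** If no translate of `B` is independent modulo `H` (up to finitely many constants), then
some finite set has no rainbow translate modulo `H`. -/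
theorem noRainbow_of_dependent {F : Type*} [Field F] (k₀ : Subfield F) [Infinite k₀] {ℓ : ℕ}
    (hℓ : ℓ.Prime) (hℓF : (ℓ : F) ≠ 0) {H : Set F} (h0 : ∀ x ∈ H, x ≠ 0) (h1 : (1 : F) ∈ H)
    (hmul : ∀ x ∈ H, ∀ y ∈ H, x * y ∈ H) (hinv : ∀ x ∈ H, x⁻¹ ∈ H)
    (hpow : ∀ x, x ≠ 0 → x ^ ℓ ∈ H) {B C : Finset F} (hBk : ∀ b ∈ B, b ∈ k₀)
    (hC : ∀ a ∈ C, a ≠ 0) (hB : Dependent ℓ H B C) :
    ∃ B' : Finset F, (∀ b ∈ B', b ∈ k₀) ∧ NoRainbow H B' := by
  classical
  obtain ⟨B', hB'k, hB'⟩ := noRainbow_of_hom k₀ hℓ hℓF h1 hBk hC hB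
  refine ⟨B', hB'k, ?_⟩
  let H' : Subgroup Fˣ :=
    { carrier := {u | (u : F) ∈ H}
      mul_mem' := fun {a b} ha hb => by
        show ((a * b : Fˣ) : F) ∈ H
        rw [Units.val_mul]
        exact hmul _ ha _ hb
      one_mem' := h1
      inv_mem' := fun {a} ha => by
        show ((a⁻¹ : Fˣ) : F) ∈ H
        rw [Units.val_inv_eq_inv_val]
        exact hinv _ ha }
  let q : F → Additive (Fˣ ⧸ H') := fun x =>
    if h : x = 0 then 0 else Additive.ofMul (QuotientGroup.mk (Units.mk0 x h))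
  have hqne : ∀ x (h : x ≠ 0), q x = Additive.ofMul (QuotientGroup.mk (Units.mk0 x h)) :=
    fun x h => dif_neg h
  refine hB' (Additive (Fˣ ⧸ H')) ?_ q ?_ ?_ ?_
  · intro v
    obtain ⟨x, hx⟩ := QuotientGroup.mk_surjective (Additive.toMul v)
    have h2 : (Additive.toMul v) ^ ℓ = 1 := by
      rw [← hx, ← QuotientGroup.mk_pow]
      refine (QuotientGroup.eq_one_iff _).2 ?_
      show ((x ^ ℓ : Fˣ) : F) ∈ H
      rw [Units.val_pow_eq_pow_val]
      exact hpow _ x.ne_zero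
    exact congrArg Additive.ofMul h2
  · intro x y hx hy
    rw [hqne x hx, hqne y hy, hqne _ (mul_ne_zero hx hy), ← ofMul_mul, ← QuotientGroup.mk_mul]
    congr 2
    exact Units.ext rfl
  · intro x hx
    rw [hqne x (h0 x hx), ofMul_eq_zero]
    exact (QuotientGroup.eq_one_iff _).2 hx
  · intro x y hx hy h
    rw [hqne x hx, hqne y hy] at h
    have h2 := QuotientGroup.eq.1 (Additive.ofMul.injective h)
    have h3 : x⁻¹ * y ∈ H := by
      have : ((Units.mk0 x hx)⁻¹ * Units.mk0 y hy : Fˣ) ∈ H' := h2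
      have h4 : (((Units.mk0 x hx)⁻¹ * Units.mk0 y hy : Fˣ) : F) ∈ H := this
      rwa [Units.val_mul, Units.val_inv_eq_inv_val, Units.val_mk0, Units.val_mk0] at h4
    have h4 := hinv _ h3
    rwa [mul_inv, inv_inv, ← div_eq_mul_inv] at h4

end Pool.Agent.NIPFields.RB
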