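import Pool.Agent.NIPFields.RB.Dep
import Pool.Agent.NIPFields.RB.Tls
import Pool.Agent.NIPFields.LG.LargeHens

set_option autoImplicit false

/-!
# Fields in which translates are dependent

In characteristic zero henselian valued fields, separably closed fields and fields whose algebraic
closure has degree two have finite sets all of whose translates are dependent modulo `ℓ`-th powers.
-/

namespace Pool.Agent.NIPFields.RB

open Finset Polynomial IsLocalRing
open Pool.Agent.NIPFields.FI Pool.Agent.NIPFields.LG Pool.Agent.NIPFields.LV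

theorem one_add_pow {R : Type*} [CommRing R] (n : ℕ) :
    ∃ Q : R[X], (1 + X : R[X]) ^ n = 1 + (n : R[X]) * X + X ^ 2 * Q := by
  induction n with
  | zero => exact ⟨0, by simp⟩
  | succ n ih =>
    obtain ⟨Q, hQ⟩ := ih
    refine ⟨(n : R[X]) + Q + X * Q, ?_⟩
    rw [pow_succ, hQ, Nat.cast_succ]
    ring

/-- In a henselian local ring `1 + ℓ² w` is an `ℓ`-th power if `w` is in the maximal ideal. -/
theorem exists_pow_eq_hens {R : Type*} [CommRing R] [HenselianLocalRing R] (ℓ : ℕ) {w : R}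
    (hw : w ∈ maximalIdeal R) : ∃ y : R, y ^ ℓ = 1 + (ℓ : R) ^ 2 * w := by
  obtain ⟨Q, hQ⟩ := one_add_pow (R := R) ℓ
  let h : R[X] := C (-w) + X + X ^ 2 * Q.comp (C (ℓ : R) * X)
  have h0 : h.coeff 0 = -w := by
    simp [h, coeff_zero_eq_eval_zero]
  have h1 : h.coeff 1 = 1 := by
    have : (X ^ 2 * Q.comp (C (ℓ : R) * X)).coeff 1 = 0 := by
      rw [coeff_X_pow_mul', if_neg (by norm_num)]
    simp only [h, coeff_add, this, coeff_C, coeff_X]
    simp
  obtain ⟨z, hz⟩ := exists_root_of_coeff h (by rw [h0]; exact neg_mem hw)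
    (by rw [h1]; exact isUnit_one)
  refine ⟨1 + ℓ * z, ?_⟩
  have h2 := congrArg (eval ((ℓ : R) * z)) hQ
  simp only [eval_pow, eval_add, eval_one, eval_X, eval_mul, eval_natCast] at h2
  have h3 : -w + z + z ^ 2 * Q.eval ((ℓ : R) * z) = 0 := by
    simpa [h, eval_comp] using hz
  rw [h2]
  linear_combination (ℓ : R) ^ 2 * h3

/-- A rainbow free set in a henselian valued field of characteristic different from `ℓ`. -/
theorem noRainbow_of_henselian {K : Type*} [Field K] {ℓ : ℕ} (hℓ : 0 < ℓ) (hℓK : (ℓ : K) ≠ 0)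
    (O : ValuationSubring K) (hO : O ≠ ⊤) (hens : HenselianLocalRing O) :
    ∃ B : Finset K, NoRainbow (Pw K ℓ) B := by
  classical
  obtain ⟨t, ht, ht0⟩ : ∃ t : O, t ∈ maximalIdeal O ∧ (t : K) ≠ 0 := by
    obtain ⟨x, hx⟩ : ∃ x : K, x ∉ O := by
      by_contra hcon
      push Not at hcon
      exact hO (SetLike.ext fun x => ⟨fun _ => trivial, fun _ => hcon x⟩)
    have hx0 : x ≠ 0 := by
      rintro rfl
      exact hx O.zero_mem
    refine ⟨⟨x⁻¹, (O.mem_or_inv_mem x).resolve_left hx⟩, ?_, inv_ne_zero hx0⟩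
    rw [mem_maximalIdeal, mem_nonunits_iff]
    intro hu
    obtain ⟨y, hy⟩ := hu.exists_right_inv
    have h1 : x⁻¹ * (y : K) = 1 := congrArg Subtype.val hy
    have h2 : (y : K) = x := by
      have := congrArg (fun z => x * z) h1
      simpa [← mul_assoc, mul_inv_cancel₀ hx0] using this
    exact hx (h2 ▸ y.2)
  set τ : O := (ℓ : O) ^ 2 * t with hτ
  have hτm : τ ∈ maximalIdeal O := Ideal.mul_mem_left _ _ ht
  have hτ0 : (τ : K) ≠ 0 := by
    rw [hτ]
    push_cast
    exact mul_ne_zero (pow_ne_zero _ hℓK) ht0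
  -- one plus a multiple of `τ`
  have key : ∀ x : K, (∃ r : O, x = τ * r) → 1 + x ∈ Pw K ℓ := by
    rintro x ⟨r, rfl⟩
    obtain ⟨y, hy⟩ := exists_pow_eq_hens ℓ (w := t * r) (Ideal.mul_mem_right _ _ ht)
    have h1 : (y : K) ^ ℓ = 1 + (τ : K) * r := by
      have := congrArg (Subtype.val : O → K) hy
      push_cast at this
      rw [this, hτ]
      push_cast
      ring
    refine ⟨y, ?_, h1.symm⟩
    intro hy0
    rw [hy0, zero_pow hℓ.ne'] at h1
    have h2 : IsUnit (1 + τ * r : O) := by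
      by_contra hn
      have h3 := Ideal.mul_mem_right r _ hτm
      have h4 : (1 : O) ∈ maximalIdeal O := by
        have := sub_mem ((mem_maximalIdeal _).2 hn) h3
        rwa [add_sub_cancel_right] at this
      exact (Ideal.ne_top_iff_one _).1 (maximalIdeal.isMaximal O).ne_top h4
    apply h2.ne_zero
    apply Subtype.ext
    push_cast
    exact h1.symm
  have hpowne : ∀ i j : ℕ, i < j → (τ : K) ^ i ≠ (τ : K) ^ j := by
    intro i j hij h
    obtain ⟨d, rfl⟩ := Nat.exists_eq_add_of_lt hij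
    have h1 : (τ : K) ^ (d + 1) = 1 := by
      have h2 : (τ : K) ^ i * (τ : K) ^ (d + 1) = (τ : K) ^ i * 1 := by
        rw [mul_one, ← pow_add]
        exact h.symm
      exact mul_left_cancel₀ (pow_ne_zero _ hτ0) h2
    have h2 : τ * τ ^ d = 1 := by
      apply Subtype.ext
      push_cast
      rw [← h1]
      ring
    exact (mem_maximalIdeal _).1 hτm (IsUnit.of_mul_eq_one _ h2)
  refine ⟨{1, (τ : K) ^ ℓ, (τ : K) ^ (ℓ + 2), (τ : K) ^ (ℓ + 3)}, ?_⟩
  intro c hc
  by_cases hA : c / (τ : K) ^ (ℓ + 1) ∈ O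
  · refine ⟨1, by simp, (τ : K) ^ ℓ, by simp, ?_, ?_⟩
    · have := hpowne 0 ℓ hℓ
      rwa [pow_zero] at this
    · have h1 : 1 + c ∈ Pw K ℓ := by
        refine key c ⟨τ ^ ℓ * ⟨_, hA⟩, ?_⟩
        push_cast
        field_simp
        ring
      have h2 : 1 + c / (τ : K) ^ ℓ ∈ Pw K ℓ := by
        refine key _ ⟨⟨_, hA⟩, ?_⟩
        show c / (τ : K) ^ ℓ = (τ : K) * (c / (τ : K) ^ (ℓ + 1))
        field_simp
        ring
      have h3 : (c + 1) / (c + (τ : K) ^ ℓ) =
          (1 + c) * (1 + c / (τ : K) ^ ℓ)⁻¹ * (((τ : K)⁻¹) ^ ℓ) := by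
        have h4 := Pw_ne h2
        have h5 : c + (τ : K) ^ ℓ = (1 + c / (τ : K) ^ ℓ) * (τ : K) ^ ℓ := by
          field_simp
          ring
        rw [h5, inv_pow]
        field_simp
        ring
      rw [h3]
      exact Pw_mul (Pw_mul h1 (Pw_inv h2)) ⟨(τ : K)⁻¹, inv_ne_zero hτ0, rfl⟩
  · have hc0 : c ≠ 0 := by
      rintro rfl
      apply hA
      rw [zero_div]
      exact O.zero_mem
    have hB : (τ : K) ^ (ℓ + 1) / c ∈ O := by
      have := (O.mem_or_inv_mem _).resolve_left hA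
      rwa [inv_div] at this
    have h1 : 1 + (τ : K) ^ (ℓ + 2) / c ∈ Pw K ℓ := by
      refine key _ ⟨⟨_, hB⟩, ?_⟩
      show (τ : K) ^ (ℓ + 2) / c = (τ : K) * ((τ : K) ^ (ℓ + 1) / c)
      field_simp
      ring
    have h2 : 1 + (τ : K) ^ (ℓ + 3) / c ∈ Pw K ℓ := by
      refine key _ ⟨τ * ⟨_, hB⟩, ?_⟩
      push_cast
      field_simp
      ring
    refine ⟨(τ : K) ^ (ℓ + 2), by simp, (τ : K) ^ (ℓ + 3), by simp, hpowne _ _ (by omega), ?_⟩
    have h3 : (c + (τ : K) ^ (ℓ + 2)) / (c + (τ : K) ^ (ℓ + 3)) =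
        (1 + (τ : K) ^ (ℓ + 2) / c) * (1 + (τ : K) ^ (ℓ + 3) / c)⁻¹ := by
      have h4 := Pw_ne h2
      have h5 : c + (τ : K) ^ (ℓ + 3) = (1 + (τ : K) ^ (ℓ + 3) / c) * c := by
        field_simp
      have h6 : c + (τ : K) ^ (ℓ + 2) = (1 + (τ : K) ^ (ℓ + 2) / c) * c := by
        field_simp
      rw [h5, h6]
      field_simp
    rw [h3]
    exact Pw_mul h1 (Pw_inv h2)

end Pool.Agent.NIPFields.RB
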