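import Pool.Agent.NIPFields.RB.DepHens
import Pool.Agent.NIPFields.RB.Crit

set_option autoImplicit false

/-!
# Dependent translates and Shelah's conjecture in characteristic zero
-/

namespace Pool.Agent.NIPFields.RB

open Finset FirstOrder FirstOrder.Ring
open Pool.Agent.NIPFields.FI Pool.Agent.NIPFields.LG Pool.Agent.NIPFields.LV

universe u

theorem noRainbow_of_isSepClosed {K : Type*} [Field K] [CharZero K] [IsSepClosed K] {ℓ : ℕ}
    (hℓ : 0 < ℓ) : ∃ B : Finset K, NoRainbow (Pw K ℓ) B := by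
  classical
  refine ⟨{0, 1}, ?_⟩
  intro c hc
  refine ⟨0, by simp, 1, by simp, zero_ne_one, ?_⟩
  have h0 := hc 0 (by simp)
  have h1 := hc 1 (by simp)
  have : NeZero (ℓ : K) := ⟨Nat.cast_ne_zero.2 hℓ.ne'⟩
  obtain ⟨y, hy⟩ := IsSepClosed.exists_pow_nat_eq ((c + 0) / (c + 1)) ℓ
  refine ⟨y, ?_, hy.symm⟩
  rintro rfl
  rw [zero_pow hℓ.ne'] at hy
  exact div_ne_zero h0 h1 hy.symm

private theorem quot_of_not_square {K : Type*} [Field K] [CharZero K]
    (h : Module.finrank K (AlgebraicClosure K) = 2) {a b : K} (ha : ¬ IsSquare a)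
    (hb : ¬ IsSquare b) : ∃ s : K, b = s ^ 2 * a := by
  obtain ⟨α, hα⟩ := IsAlgClosed.exists_pow_nat_eq (algebraMap K (AlgebraicClosure K) a)
    (n := 2) (by norm_num)
  obtain ⟨β, hβ⟩ := IsAlgClosed.exists_pow_nat_eq (algebraMap K (AlgebraicClosure K) b)
    (n := 2) (by norm_num)
  have hαK : ∀ x : K, algebraMap K (AlgebraicClosure K) x ≠ α := by
    intro x hx
    apply ha
    refine ⟨x, ?_⟩
    apply (algebraMap K (AlgebraicClosure K)).injective
    rw [map_mul, hx, ← hα]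
    ring
  have hind : ∀ x y : K, algebraMap K (AlgebraicClosure K) x +
      algebraMap K (AlgebraicClosure K) y * α = 0 → x = 0 ∧ y = 0 := by
    intro x y hxy
    have hy : y = 0 := by
      by_contra hy
      apply hαK (-x / y)
      have hy' : algebraMap K (AlgebraicClosure K) y ≠ 0 := by simpa using hy
      rw [map_div₀, map_neg]
      field_simp
      linear_combination -hxy
    refine ⟨?_, hy⟩
    rw [hy, map_zero, zero_mul, add_zero] at hxy
    simpa using hxy
  have hlin : LinearIndependent K ![(1 : AlgebraicClosure K), α] := by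
    rw [LinearIndependent.pair_iff]
    intro s t hst
    apply hind s t
    rw [Algebra.smul_def, Algebra.smul_def, mul_one] at hst
    exact hst
  have hfin : FiniteDimensional K (AlgebraicClosure K) :=
    Module.finite_of_finrank_pos (by rw [h]; norm_num)
  have hspan := hlin.span_eq_top_of_card_eq_finrank' (by rw [h]; simp)
  have hβm : β ∈ Submodule.span K (Set.range ![(1 : AlgebraicClosure K), α]) := by
    rw [hspan]
    exact Submodule.mem_top
  have hrange : Set.range ![(1 : AlgebraicClosure K), α] = {1, α} := by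
    simp [Set.pair_comm]
  rw [hrange, Submodule.mem_span_pair] at hβm
  obtain ⟨x, y, hxy⟩ := hβm
  rw [Algebra.smul_def, Algebra.smul_def, mul_one] at hxy
  have h1 : algebraMap K (AlgebraicClosure K) (x ^ 2 + y ^ 2 * a - b) +
      algebraMap K (AlgebraicClosure K) (2 * x * y) * α = 0 := by
    simp only [map_add, map_sub, map_mul, map_pow, map_ofNat]
    rw [← hxy] at hβ
    linear_combination hβ - (algebraMap K (AlgebraicClosure K) y) ^ 2 * hα
  obtain ⟨h2, h3⟩ := hind _ _ h1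
  refine ⟨y, ?_⟩
  have hx : x = 0 := by
    by_contra hx
    have hy : y = 0 := by
      rcases mul_eq_zero.1 h3 with h4 | h4
      · rcases mul_eq_zero.1 h4 with h5 | h5
        · exact absurd h5 two_ne_zero
        · exact absurd h5 hx
      · exact h4
    apply hb
    refine ⟨x, ?_⟩
    rw [hy] at h2
    linear_combination -h2
  rw [hx] at h2
  linear_combination -h2

theorem noRainbow_of_finrank_two {K : Type*} [Field K] [CharZero K]
    (h : Module.finrank K (AlgebraicClosure K) = 2) {ℓ : ℕ} (hℓ : ℓ.Prime) :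
    ∃ B : Finset K, NoRainbow (Pw K ℓ) B := by
  classical
  refine ⟨{0, 1, 2}, ?_⟩
  -- nonzero squares
  have hsq : ∀ s : K, s ≠ 0 → s ^ 2 ∈ Pw K ℓ := by
    intro s hs
    obtain ⟨β, hβ⟩ := IsAlgClosed.exists_pow_nat_eq (algebraMap K (AlgebraicClosure K) s) hℓ.pos
    have h1 : Algebra.norm K β ^ ℓ = s ^ 2 := by
      rw [← map_pow, hβ, Algebra.norm_algebraMap, h]
    refine ⟨Algebra.norm K β, ?_, h1.symm⟩
    intro h0
    rw [h0, zero_pow hℓ.ne_zero] at h1
    exact hs (pow_eq_zero_iff two_ne_zero |>.1 h1.symm)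
  have key : ∀ x y : K, x ≠ 0 → y ≠ 0 → (IsSquare x ↔ IsSquare y) → x / y ∈ Pw K ℓ := by
    intro x y hx hy hxy
    by_cases hxs : IsSquare x
    · obtain ⟨u, rfl⟩ := hxs
      obtain ⟨v, rfl⟩ := hxy.1 ⟨u, rfl⟩
      have hu : u ≠ 0 := fun h => hx (by rw [h, mul_zero])
      have hv : v ≠ 0 := fun h => hy (by rw [h, mul_zero])
      have h1 : u * u / (v * v) = (u / v) ^ 2 := by
        field_simp
      rw [h1]
      exact hsq _ (div_ne_zero hu hv)
    · obtain ⟨s, hs⟩ := quot_of_not_square h (fun hys => hxs (hxy.2 hys)) hxs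
      have hs0 : s ≠ 0 := by
        rintro rfl
        apply hx
        rw [hs]
        ring
      have h1 : x / y = s ^ 2 := by
        rw [hs]
        field_simp
      rw [h1]
      exact hsq _ hs0
  intro c hc
  have h0 := hc 0 (by simp)
  have h1 := hc 1 (by simp)
  have h2 := hc 2 (by simp)
  by_cases e01 : IsSquare (c + 0) ↔ IsSquare (c + 1)
  · exact ⟨0, by simp, 1, by simp, zero_ne_one, key _ _ h0 h1 e01⟩
  by_cases e02 : IsSquare (c + 0) ↔ IsSquare (c + 2)
  · exact ⟨0, by simp, 2, by simp, two_ne_zero.symm, key _ _ h0 h2 e02⟩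
  · refine ⟨1, by simp, 2, by simp, ?_, key _ _ h1 h2 ?_⟩
    · norm_num
    · tauto

/-- The conclusion of Shelah's conjecture gives rainbow free sets, in characteristic zero. -/
theorem exists_noRainbow_of_shelah {K : Type*} [Field K] [CharZero K]
    (h : Finite K ∨ IsSepClosed K ∨ Module.finrank K (AlgebraicClosure K) = 2 ∨
      ∃ O : ValuationSubring K, O ≠ ⊤ ∧ HenselianLocalRing O) {ℓ : ℕ} (hℓ : ℓ.Prime) :
    ∃ B : Finset K, NoRainbow (Pw K ℓ) B := by
  rcases h with h | h | h | ⟨O, hO, h⟩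
  · exact absurd h (not_finite_iff_infinite.2 inferInstance)
  · exact noRainbow_of_isSepClosed (K := K) hℓ.pos
  · exact noRainbow_of_finrank_two h hℓ
  · exact noRainbow_of_henselian hℓ.pos (Nat.cast_ne_zero.2 hℓ.ne_zero) O hO h

/-- `L` is covered by the `L`-rational points of finitely many curves
`y ^ ℓ = a ∏ (x + b) ^ (n b)`, `b ∈ B`, where `B ⊆ A` and not all `n b` are divisible by `ℓ`. -/
def Thin (L : Type*) [Field L] (ℓ : ℕ) (A : Set L) : Prop :=
  ∃ (B : Finset L) (F : Finset (L × (L → ℕ))), (∀ b ∈ B, b ∈ A) ∧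
    (∀ f ∈ F, f.1 ≠ 0 ∧ ∃ b ∈ B, ¬ ℓ ∣ f.2 b) ∧
      ∀ x : L, ∃ f ∈ F, ∃ y : L, y ^ ℓ = f.1 * ∏ b ∈ B, (x + b) ^ f.2 b

theorem NoRainbow.thin {K : Type*} [Field K] [Infinite K] {ℓ : ℕ} (hℓ : 1 < ℓ) {B : Finset K}
    (hB : NoRainbow (Pw K ℓ) B) : Thin K ℓ B := by
  classical
  let n : K → K → K → ℕ := fun b b' x => if x = b then 1 else if x = b' then ℓ - 1 else 0
  have hprod : ∀ b ∈ B, ∀ b' ∈ B, b ≠ b' → ∀ x : K,
      ∏ z ∈ B, (x + z) ^ n b b' z = (x + b) * (x + b') ^ (ℓ - 1) := by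
    intro b hb b' hb' hne x
    have h1 : ∏ z ∈ B, (x + z) ^ n b b' z = ∏ z ∈ ({b, b'} : Finset K), (x + z) ^ n b b' z := by
      symm
      refine prod_subset ?_ ?_
      · intro z hz
        rcases mem_insert.1 hz with rfl | hz
        · exact hb
        · rw [mem_singleton.1 hz]
          exact hb'
      · intro z _ hz
        rw [mem_insert, mem_singleton, not_or] at hz
        simp only [n]
        rw [if_neg hz.1, if_neg hz.2, pow_zero]
    have h2 : n b b' b = 1 := if_pos rfl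
    have h3 : n b b' b' = ℓ - 1 := (if_neg (Ne.symm hne)).trans (if_pos rfl)
    rw [h1, prod_pair hne, h2, h3, pow_one]
  refine ⟨B, B.offDiag.image fun p => (1, n p.1 p.2), fun b hb => hb, ?_, ?_⟩
  · intro f hf
    obtain ⟨p, hp, rfl⟩ := mem_image.1 hf
    obtain ⟨h1, h2, h3⟩ := mem_offDiag.1 hp
    refine ⟨one_ne_zero, p.1, h1, ?_⟩
    show ¬ ℓ ∣ (if p.1 = p.1 then 1 else if p.1 = p.2 then ℓ - 1 else 0)
    rw [if_pos rfl]
    intro h
    exact absurd (Nat.le_of_dvd one_pos h) (not_le.2 hℓ)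
  · intro x
    by_cases hx : ∀ b ∈ B, x + b ≠ 0
    · obtain ⟨b, hb, b', hb', hne, y, hy, h⟩ := hB x hx
      refine ⟨(1, n b b'), mem_image.2 ⟨(b, b'), mem_offDiag.2 ⟨hb, hb', hne⟩, rfl⟩,
        y * (x + b'), ?_⟩
      show (y * (x + b')) ^ ℓ = 1 * ∏ z ∈ B, (x + z) ^ n b b' z
      rw [hprod b hb b' hb' hne, one_mul, mul_pow, ← h]
      obtain ⟨m, rfl⟩ : ∃ m, ℓ = m + 1 := ⟨ℓ - 1, by omega⟩
      have h2 := hx b' hb'
      rw [Nat.add_sub_cancel, pow_succ]
      field_simp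
    · push Not at hx
      obtain ⟨b, hb, hx⟩ := hx
      obtain ⟨b', hb', hne⟩ : ∃ b' ∈ B, b ≠ b' := by
        obtain ⟨c, hc⟩ := Infinite.exists_notMem_finset (B.image fun b => -b)
        obtain ⟨z, hz, z', hz', hne, -⟩ := hB c fun b hb h =>
          hc (mem_image.2 ⟨b, hb, by linear_combination -h⟩)
        by_cases h : b = z
        · exact ⟨z', hz', fun h' => hne (h.symm.trans h')⟩
        · exact ⟨z, hz, h⟩
      refine ⟨(1, n b b'), mem_image.2 ⟨(b, b'), mem_offDiag.2 ⟨hb, hb', hne⟩, rfl⟩, 0, ?_⟩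
      show (0 : K) ^ ℓ = 1 * ∏ z ∈ B, (x + z) ^ n b b' z
      rw [hprod b hb b' hb' hne, hx, zero_mul, mul_zero, zero_pow (by omega)]

theorem Thin.exists_noRainbow {K : Type*} [Field K] (k₀ : Subfield K) [Infinite k₀] {ℓ : ℕ}
    (hℓ : ℓ.Prime) (hℓK : (ℓ : K) ≠ 0) (h : Thin K ℓ (k₀ : Set K)) :
    ∃ B : Finset K, (∀ b ∈ B, b ∈ k₀) ∧ NoRainbow (Pw K ℓ) B := by
  classical
  obtain ⟨B, F, hB, hF, hx⟩ := h
  refine noRainbow_of_dependent k₀ hℓ hℓK (H := Pw K ℓ) (C := F.image Prod.fst)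
    (fun _ hx => Pw_ne hx) Pw_one (fun _ hx _ hy => Pw_mul hx hy) (fun _ hx => Pw_inv hx)
    (fun x hx => ⟨x, hx, rfl⟩) hB ?_ ?_
  · intro a ha
    obtain ⟨f, hf, rfl⟩ := mem_image.1 ha
    exact (hF f hf).1
  · intro c hc
    obtain ⟨f, hf, y, hy⟩ := hx c
    refine ⟨f.2, (hF f hf).2, f.1, mem_image_of_mem _ hf, y, ?_, hy.symm⟩
    rintro rfl
    rw [zero_pow hℓ.ne_zero] at hy
    exact mul_ne_zero (hF f hf).1 (prod_ne_zero_iff.2 fun b hb => pow_ne_zero _ (hc b hb)) hy.symm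

theorem infinite_top {K : Type*} [Field K] [Infinite K] : Infinite (⊤ : Subfield K) :=
  Infinite.of_injective (fun x : K => (⟨x, trivial⟩ : (⊤ : Subfield K)))
    fun _ _ h => congrArg Subtype.val h

/-- In an infinite NIP field which is covered by Kummer curves finite sets have common solutions. -/
theorem tl_of_thin {K : Type u} [Field K] [Infinite K] [CompatibleRing K] (hK : NIP K)
    {ℓ : ℕ} (hℓ : ℓ.Prime) (hℓK : (ℓ : K) ≠ 0) (h : Thin K ℓ Set.univ) : TL K ℓ := by
  classical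
  have := infinite_top (K := K)
  obtain ⟨B', -, hB'⟩ := Thin.exists_noRainbow (⊤ : Subfield K) hℓ hℓK (by
    obtain ⟨B, F, -, h1, h2⟩ := h
    exact ⟨B, F, fun _ _ => trivial, h1, h2⟩)
  obtain ⟨d, hd, hTr⟩ := trLe_nip hK ℓ
  exact tls_of_noRainbow (fun _ hx => Pw_ne hx) Pw_one
    (fun _ hx _ hy => Pw_mul hx hy) (fun _ hx => Pw_inv hx) hB' (by omega) (PQ.tendsto_binom d) hTr

end Pool.Agent.NIPFields.RB
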