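import Pool.Agent.NIPFields.LG.Defs

set_option autoImplicit false

/-!
# The second moment of the translates of the `r`-th powers in a finite field

Let `Q = |F|`, `r` a prime with `r ∣ Q - 1`, and let `G = Pw F r` be the group of the nonzero `r`-th
powers; it has `r` cosets `C` in the multiplicative group, each with `(Q - 1) / r` elements.
For `b ∈ F` and a coset `C` let `n(b, C) = #{x ∈ X | x + b ∈ C}`. The sum of `n(b, C) ^ 2` over all `b`,
`C` is the number of the triples `(x, x', b)` such that `x + b`, `x' + b` are not zero and in the same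
coset: `|X| (Q - 1)` for `x = x'`, and for `x ≠ x'` the map `b ↦ (x + b) / (x' + b)` is a bijection from
`F \ {-x'}` to `F \ {1}`, so there are `(Q - 1) / r - 1` such `b` (the ratio must be in `G`). The sum of
`n(b, C)` is `|X| (Q - 1)`. So the sum of `(n(b, C) - |X| / r) ^ 2` over all `b`, `C` is
`|X| ((Q - 1)(1 - 1/r) + 1) - |X| ^ 2 (1 - 1/r) ≤ |X| Q`; keep only the terms with `C = G`.

(In the proof below the cosets are replaced by all `t : Fˣ`, with `n(b, t) = #{x ∈ X | t (x + b) ∈ G}`.)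
-/

namespace Pool.Agent.NIPFields.RB

open Finset Pool.Agent.NIPFields.LG

section

open Classical

variable {F : Type*} [Field F] {r : ℕ}

/-- the indicator function of the group of the nonzero `r`-th powers -/
private noncomputable def fi (r : ℕ) (y : F) : ℝ := if y ∈ Pw F r then 1 else 0

private theorem fi_one : fi r (1 : F) = 1 := if_pos Pw_one

private theorem fi_zero : fi r (0 : F) = 0 := if_neg fun h => Pw_ne h rfl

private theorem fi_sq (y : F) : fi r y * fi r y = fi r y := by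
  unfold fi
  split_ifs <;> simp

private theorem fi_nonneg (y : F) : 0 ≤ fi r y := by
  unfold fi
  split_ifs <;> norm_num

private theorem fi_mul {u u' t : F} : fi r (t * u) * fi r (t * u') = fi r (t * u') * fi r (u / u') := by
  by_cases h' : t * u' ∈ Pw F r
  · have hu' : u' ≠ 0 := fun h => Pw_ne h' (by rw [h, mul_zero])
    have ht : t ≠ 0 := fun h => Pw_ne h' (by rw [h, zero_mul])
    have h1 : t * u ∈ Pw F r ↔ u / u' ∈ Pw F r := by
      constructor
      · intro h
        have h2 := Pw_mul h (Pw_inv h')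
        convert h2 using 1
        field_simp
      · intro h
        have h2 := Pw_mul h h'
        convert h2 using 1
        field_simp
    unfold fi
    rw [if_pos h', mul_one, one_mul]
    by_cases h2 : t * u ∈ Pw F r
    · rw [if_pos h2, if_pos (h1.1 h2)]
    · rw [if_neg h2, if_neg fun h3 => h2 (h1.2 h3)]
  · have h2 : fi r (t * u') = 0 := if_neg h'
    rw [h2, mul_zero, zero_mul]

variable [Fintype F]

/-- the number of the nonzero `r`-th powers -/
private theorem fi_card (hdvd : r ∣ Fintype.card F - 1) :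
    (r : ℝ) * ∑ t : Fˣ, fi r (t : F) = (Fintype.card F : ℝ) - 1 := by
  have h1 : (powMonoidHom r : Fˣ →* Fˣ).range.index = r := by
    rw [IsCyclic.index_powMonoidHom_range, Nat.card_eq_fintype_card, Fintype.card_units]
    exact Nat.gcd_eq_right hdvd
  have h2 := (powMonoidHom r : Fˣ →* Fˣ).range.card_mul_index
  have h3 : ∑ t : Fˣ, fi r (t : F) = Nat.card (powMonoidHom r : Fˣ →* Fˣ).range := by
    unfold fi
    rw [Finset.sum_boole, Nat.card_eq_fintype_card, ← Fintype.card_subtype]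
    congr 1
    apply Fintype.card_congr
    refine Equiv.subtypeEquivRight fun t => ?_
    rw [MonoidHom.mem_range]
    constructor
    · rintro ⟨c, hc, hct⟩
      refine ⟨Units.mk0 c hc, ?_⟩
      ext
      simp [hct]
    · rintro ⟨c, rfl⟩
      exact ⟨c, c.ne_zero, by simp⟩
  rw [h1, Nat.card_eq_fintype_card (α := Fˣ), Fintype.card_units] at h2
  rw [h3]
  have h4 : 1 ≤ Fintype.card F := Fintype.card_pos
  have h5 := congrArg (fun n : ℕ => (n : ℝ)) h2
  simp only [Nat.cast_mul, Nat.cast_sub h4, Nat.cast_one] at h5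
  rw [← h5, mul_comm]

private theorem fi_sum_mul {u : F} (hu : u ≠ 0) :
    ∑ t : Fˣ, fi r ((t : F) * u) = ∑ t : Fˣ, fi r (t : F) := by
  exact Equiv.sum_comp (Equiv.mulRight (Units.mk0 u hu)) fun t : Fˣ => fi r (t : F)

private theorem fi_sum_field : ∑ c : F, fi r c = ∑ t : Fˣ, fi r (t : F) := by
  rw [← Finset.sum_erase (Finset.univ : Finset F) (a := 0) fi_zero]
  symm
  apply Finset.sum_bij (fun (t : Fˣ) _ => (t : F))
  · intro t _
    simp
  · intro a _ c _ h
    exact Units.ext h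
  · intro c hc
    exact ⟨Units.mk0 c (Finset.ne_of_mem_erase hc), Finset.mem_univ _, rfl⟩
  · intro t _
    rfl

/-- one point -/
private theorem fi_s1 (x : F) : ∑ b : F, ∑ t : Fˣ, fi r ((t : F) * (x + b)) =
    ((Fintype.card F : ℝ) - 1) * ∑ t : Fˣ, fi r (t : F) := by
  have h1 : ∀ b : F, ∑ t : Fˣ, fi r ((t : F) * (x + b)) =
      (∑ t : Fˣ, fi r (t : F)) - if b = -x then ∑ t : Fˣ, fi r (t : F) else 0 := by
    intro b
    by_cases h : b = -x
    · subst h
      simp [fi_zero]
    · rw [if_neg h, sub_zero, fi_sum_mul]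
      intro h2
      exact h (eq_neg_of_add_eq_zero_right h2)
  rw [Finset.sum_congr rfl fun b _ => h1 b, Finset.sum_sub_distrib, Finset.sum_const,
    Finset.sum_ite_eq', if_pos (Finset.mem_univ _), Finset.card_univ, nsmul_eq_mul]
  ring

/-- two points -/
private theorem fi_s2 {x x' : F} (hx : x ≠ x') :
    ∑ b : F, ∑ t : Fˣ, fi r ((t : F) * (x + b)) * fi r ((t : F) * (x' + b)) =
    (∑ t : Fˣ, fi r (t : F)) * ((∑ t : Fˣ, fi r (t : F)) - 1) := by
  have h1 : ∀ b : F, ∑ t : Fˣ, fi r ((t : F) * (x + b)) * fi r ((t : F) * (x' + b)) =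
      (∑ t : Fˣ, fi r (t : F)) * fi r ((x + b) / (x' + b)) := by
    intro b
    rw [Finset.sum_congr rfl fun t _ => fi_mul, ← Finset.sum_mul]
    by_cases h : x' + b = 0
    · rw [h, div_zero, fi_zero, mul_zero, mul_zero]
    · rw [fi_sum_mul h]
  rw [Finset.sum_congr rfl fun b _ => h1 b, ← Finset.mul_sum]
  congr 1
  have hd : x - x' ≠ 0 := sub_ne_zero.2 hx
  rw [← Equiv.sum_comp (Equiv.subRight x')]
  have h2 : ∀ s : F, fi r ((x + Equiv.subRight x' s) / (x' + Equiv.subRight x' s)) =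
      fi r (1 + (x - x') * s⁻¹) - if s = 0 then 1 else 0 := by
    intro s
    rw [Equiv.subRight_apply]
    by_cases hs : s = 0
    · subst hs
      rw [if_pos rfl, inv_zero, mul_zero, add_zero, fi_one, sub_self, zero_sub, add_neg_cancel,
        div_zero, fi_zero]
    · rw [if_neg hs, sub_zero]
      congr 1
      have h3 : x' + (s - x') = s := by ring
      rw [h3]
      field_simp
      ring
  rw [Finset.sum_congr rfl fun s _ => h2 s, Finset.sum_sub_distrib, Finset.sum_ite_eq',
    if_pos (Finset.mem_univ _)]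
  congr 1
  rw [← fi_sum_field]
  let e : F ≃ F := (Function.Involutive.toPerm (fun s : F => s⁻¹) inv_inv).trans ((Equiv.mulLeft₀ (x - x') hd).trans (Equiv.addLeft 1))
  exact Equiv.sum_comp e fun c => fi r c

/-- all pairs of points -/
private theorem fi_pairs (X : Finset F) :
    ∑ b : F, ∑ t : Fˣ, (∑ x ∈ X, fi r ((t : F) * (x + b))) ^ 2 =
      (X.card : ℝ) ^ 2 * ((∑ t : Fˣ, fi r (t : F)) * ((∑ t : Fˣ, fi r (t : F)) - 1)) +
      X.card * (((Fintype.card F : ℝ) - 1) * (∑ t : Fˣ, fi r (t : F)) -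
        (∑ t : Fˣ, fi r (t : F)) * ((∑ t : Fˣ, fi r (t : F)) - 1)) := by
  set g := ∑ t : Fˣ, fi r (t : F) with hg
  have h1 : ∀ x x' : F, ∑ b : F, ∑ t : Fˣ, fi r ((t : F) * (x + b)) * fi r ((t : F) * (x' + b)) =
      g * (g - 1) + if x = x' then (((Fintype.card F : ℝ) - 1) * g - g * (g - 1)) else 0 := by
    intro x x'
    by_cases h : x = x'
    · subst h
      rw [if_pos rfl]
      simp only [fi_sq]
      rw [fi_s1]
      ring
    · rw [if_neg h, add_zero, fi_s2 h]
  calc ∑ b : F, ∑ t : Fˣ, (∑ x ∈ X, fi r ((t : F) * (x + b))) ^ 2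
      = ∑ b : F, ∑ t : Fˣ, ∑ x ∈ X, ∑ x' ∈ X,
          fi r ((t : F) * (x + b)) * fi r ((t : F) * (x' + b)) := by
        refine Finset.sum_congr rfl fun b _ => Finset.sum_congr rfl fun t _ => ?_
        rw [pow_two, Finset.sum_mul_sum]
    _ = ∑ x ∈ X, ∑ x' ∈ X, ∑ b : F, ∑ t : Fˣ,
          fi r ((t : F) * (x + b)) * fi r ((t : F) * (x' + b)) := by
        have h2 : ∀ b : F, ∑ t : Fˣ, ∑ x ∈ X, ∑ x' ∈ X,
            fi r ((t : F) * (x + b)) * fi r ((t : F) * (x' + b)) = ∑ x ∈ X, ∑ x' ∈ X, ∑ t : Fˣ,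
            fi r ((t : F) * (x + b)) * fi r ((t : F) * (x' + b)) := by
          intro b
          rw [Finset.sum_comm]
          exact Finset.sum_congr rfl fun x _ => Finset.sum_comm
        rw [Finset.sum_congr rfl fun b _ => h2 b, Finset.sum_comm]
        exact Finset.sum_congr rfl fun x _ => Finset.sum_comm
    _ = ∑ x ∈ X, ∑ x' ∈ X, (g * (g - 1) +
          if x = x' then (((Fintype.card F : ℝ) - 1) * g - g * (g - 1)) else 0) :=
        Finset.sum_congr rfl fun x _ => Finset.sum_congr rfl fun x' _ => h1 x x'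
    _ = _ := by
        have h3 : ∀ x ∈ X, ∑ x' ∈ X, (g * (g - 1) +
            if x = x' then (((Fintype.card F : ℝ) - 1) * g - g * (g - 1)) else 0) =
            X.card * (g * (g - 1)) + (((Fintype.card F : ℝ) - 1) * g - g * (g - 1)) := by
          intro x hx
          rw [Finset.sum_add_distrib, Finset.sum_const, Finset.sum_ite_eq, if_pos hx,
            nsmul_eq_mul]
        rw [Finset.sum_congr rfl h3, Finset.sum_const, nsmul_eq_mul]
        ring

end

open Classical in
theorem second_moment {F : Type*} [Field F] [Fintype F] {r : ℕ} (hr : r.Prime)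
    (hdvd : r ∣ Fintype.card F - 1) (X : Finset F) :
    ∑ b : F, ((r : ℝ) * (X.filter fun x => x + b ∈ Pw F r).card - X.card) ^ 2 ≤
      (r : ℝ) ^ 2 * X.card * Fintype.card F := by
  set g := ∑ t : Fˣ, fi r (t : F) with hg
  set Q : ℝ := (Fintype.card F : ℝ) with hQ
  set m : ℝ := (X.card : ℝ) with hm
  have hgQ : (r : ℝ) * g = Q - 1 := fi_card hdvd
  have hr1 : (1 : ℝ) ≤ r := by exact_mod_cast hr.one_le
  have hm0 : 0 ≤ m := Nat.cast_nonneg _
  have hg1 : 1 ≤ g := by
    have h1 : fi r ((1 : Fˣ) : F) ≤ ∑ t : Fˣ, fi r (t : F) :=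
      Finset.single_le_sum (f := fun t : Fˣ => fi r (t : F)) (fun t _ => fi_nonneg _)
        (Finset.mem_univ 1)
    rwa [Units.val_one, fi_one] at h1
  have hcard : ∀ b : F, ((X.filter fun x => x + b ∈ Pw F r).card : ℝ) = ∑ x ∈ X, fi r (x + b) := by
    intro b
    unfold fi
    rw [Finset.sum_boole]
  -- the full second moment
  have hsq : ∑ b : F, ∑ t : Fˣ, ((r : ℝ) * (∑ x ∈ X, fi r ((t : F) * (x + b))) - m) ^ 2 =
      (r : ℝ) ^ 2 * (m ^ 2 * (g * (g - 1)) + m * ((Q - 1) * g - g * (g - 1))) -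
        2 * r * m * (m * ((Q - 1) * g)) + m ^ 2 * (Q * (Q - 1)) := by
    have h1 : ∀ (b : F) (t : Fˣ), ((r : ℝ) * (∑ x ∈ X, fi r ((t : F) * (x + b))) - m) ^ 2 =
        (r : ℝ) ^ 2 * (∑ x ∈ X, fi r ((t : F) * (x + b))) ^ 2 -
          2 * r * m * (∑ x ∈ X, fi r ((t : F) * (x + b))) + m ^ 2 := by
      intro b t
      ring
    simp only [h1]
    simp only [Finset.sum_add_distrib, Finset.sum_sub_distrib, ← Finset.mul_sum]
    rw [fi_pairs]
    have h2 : ∑ b : F, ∑ t : Fˣ, ∑ x ∈ X, fi r ((t : F) * (x + b)) = m * ((Q - 1) * g) := by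
      have h3 : ∀ b : F, ∑ t : Fˣ, ∑ x ∈ X, fi r ((t : F) * (x + b)) =
          ∑ x ∈ X, ∑ t : Fˣ, fi r ((t : F) * (x + b)) := fun b => Finset.sum_comm
      rw [Finset.sum_congr rfl fun b _ => h3 b, Finset.sum_comm,
        Finset.sum_congr rfl fun x _ => fi_s1 x, Finset.sum_const, nsmul_eq_mul]
    rw [h2]
    have h4 : ∑ b : F, ∑ t : Fˣ, m ^ 2 = m ^ 2 * (Q * (Q - 1)) := by
      simp only [Finset.sum_const, Finset.card_univ, nsmul_eq_mul, Fintype.card_units]
      rw [Nat.cast_sub Fintype.card_pos]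
      push_cast
      ring
    rw [h4]
  -- the terms with `t ∈ G`
  have hlow : g * ∑ b : F, ((r : ℝ) * (X.filter fun x => x + b ∈ Pw F r).card - m) ^ 2 ≤
      ∑ b : F, ∑ t : Fˣ, ((r : ℝ) * (∑ x ∈ X, fi r ((t : F) * (x + b))) - m) ^ 2 := by
    rw [Finset.mul_sum]
    refine Finset.sum_le_sum fun b _ => ?_
    rw [hg, Finset.sum_mul]
    refine Finset.sum_le_sum fun t _ => ?_
    by_cases ht : (t : F) ∈ Pw F r
    · have h1 : fi r (t : F) = 1 := if_pos ht
      have h2 : ∀ x ∈ X, fi r ((t : F) * (x + b)) = fi r (x + b) := by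
        intro x _
        unfold fi
        by_cases h3 : x + b ∈ Pw F r
        · rw [if_pos h3, if_pos (Pw_mul ht h3)]
        · rw [if_neg h3, if_neg]
          intro h4
          apply h3
          have h5 := Pw_mul (Pw_inv ht) h4
          rwa [inv_mul_cancel_left₀ t.ne_zero] at h5
      rw [h1, one_mul, hcard, Finset.sum_congr rfl h2]
    · have h1 : fi r (t : F) = 0 := if_neg ht
      rw [h1, zero_mul]
      positivity
  rw [hsq] at hlow
  have hQ' : Q = r * g + 1 := by linarith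
  set Z := ∑ b : F, ((r : ℝ) * (X.filter fun x => x + b ∈ Pw F r).card - m) ^ 2 with hZ
  have h1 : g * Z ≤ g * (m * r * ((r - 1) * (r * g) + r - m * (r - 1))) := by
    refine hlow.trans (le_of_eq ?_)
    rw [hQ']
    ring
  have h2 : Z ≤ m * r * ((r - 1) * (r * g) + r - m * (r - 1)) :=
    le_of_mul_le_mul_left h1 (by linarith)
  refine h2.trans ?_
  rw [hQ']
  have h3 : (r : ℝ) ^ 2 * m * (r * g + 1) - m * r * ((r - 1) * (r * g) + r - m * (r - 1)) =
      m * r * (r * g + m * (r - 1)) := by ring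
  have h4 : 0 ≤ m * r * (r * g + m * (r - 1)) := by
    have h5 : 0 ≤ m * ((r : ℝ) - 1) := mul_nonneg hm0 (by linarith)
    have h6 : 0 ≤ (r : ℝ) * g := mul_nonneg (by linarith) (by linarith)
    exact mul_nonneg (mul_nonneg hm0 (by linarith)) (by linarith)
  linarith

end Pool.Agent.NIPFields.RB
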