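import Pool.Agent.NIPFields.RB.FinA

set_option autoImplicit false

/-!
# Patterns in finite fields

Let `Q = |F|`, `G = Pw F r`. For `X ⊆ F` let `n(b) = #{x ∈ X | x + b ∈ G}`. By `second_moment` the number
of the `b` with `|n(b) - |X| / r| > |X| / (2 r)` is at most `4 r ^ 2 Q / |X|`. For all other `b` we have
`n(b) ≥ |X| / (2 r)` and `|X| - n(b) ≥ |X| / (2 r)` (as `r ≥ 2`).

INDUCTION on `i ≤ n`: there are `b_1, ..., b_i` such that each of the `2 ^ i` sets
`X_J = {x | ∀ j ≤ i, x + b_j ∈ G ↔ j ∈ J}` has at least `Q / (2 r) ^ i` elements: given `b_1, ..., b_i`, the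
number of the `b` which are bad for some `X_J` is at most `2 ^ i * 4 r ^ 2 * (2 r) ^ i < Q`, if `Q ≥ N`.
-/

namespace Pool.Agent.NIPFields.RB

open Finset Pool.Agent.NIPFields.LG

universe u

open Classical in
private noncomputable def XX {F : Type u} [Field F] [Fintype F] (r : ℕ) {i : ℕ} (b : Fin i → F)
    (J : Fin i → Bool) : Finset F :=
  Finset.univ.filter fun x => ∀ j, (x + b j ∈ Pw F r ↔ J j = true)

open Classical in
private theorem bad_card {F : Type u} [Field F] [Fintype F] {r : ℕ} (hr : r.Prime)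
    (hdvd : r ∣ Fintype.card F - 1) (X : Finset F) (M : ℝ)
    (hX : (Fintype.card F : ℝ) ≤ M * X.card) (hpos : 0 < X.card) :
    ((Finset.univ.filter fun c : F => ((X.card : ℝ) ^ 2 / 4 <
      ((r : ℝ) * (X.filter fun x => x + c ∈ Pw F r).card - X.card) ^ 2)).card : ℝ) ≤
      4 * (r : ℝ) ^ 2 * M := by
  have h1 := second_moment hr hdvd X
  set B := Finset.univ.filter fun c : F => ((X.card : ℝ) ^ 2 / 4 <
      ((r : ℝ) * (X.filter fun x => x + c ∈ Pw F r).card - X.card) ^ 2) with hB
  have h2 : (B.card : ℝ) * ((X.card : ℝ) ^ 2 / 4) ≤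
      ∑ b : F, ((r : ℝ) * (X.filter fun x => x + b ∈ Pw F r).card - X.card) ^ 2 := by
    calc (B.card : ℝ) * ((X.card : ℝ) ^ 2 / 4) = ∑ c ∈ B, (X.card : ℝ) ^ 2 / 4 := by
          rw [Finset.sum_const, nsmul_eq_mul]
      _ ≤ ∑ c ∈ B, ((r : ℝ) * (X.filter fun x => x + c ∈ Pw F r).card - X.card) ^ 2 := by
          apply Finset.sum_le_sum
          intro c hc
          rw [hB, Finset.mem_filter] at hc
          exact hc.2.le
      _ ≤ _ := by
          apply Finset.sum_le_sum_of_subset_of_nonneg (Finset.subset_univ _)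
          intro c _ _
          positivity
  have hx : (0 : ℝ) < X.card := by exact_mod_cast hpos
  have h3 : (B.card : ℝ) * ((X.card : ℝ) ^ 2 / 4) ≤ (r : ℝ) ^ 2 * X.card * (M * X.card) :=
    (h2.trans h1).trans (mul_le_mul_of_nonneg_left hX (by positivity))
  have h4 : (B.card : ℝ) * (X.card : ℝ) ^ 2 ≤ (4 * (r : ℝ) ^ 2 * M) * (X.card : ℝ) ^ 2 := by
    nlinarith [h3]
  exact le_of_mul_le_mul_right h4 (by positivity)

open Classical in
private theorem step {F : Type u} [Field F] [Fintype F] {r : ℕ} (hr : r.Prime)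
    (hdvd : r ∣ Fintype.card F - 1) {i : ℕ} (b : Fin i → F)
    (hb : ∀ J, (Fintype.card F : ℝ) ≤ (2 * (r : ℝ)) ^ i * (XX r b J).card)
    (hQ : (2 : ℝ) ^ i * (4 * (r : ℝ) ^ 2 * (2 * (r : ℝ)) ^ i) < Fintype.card F) :
    ∃ b' : Fin (i + 1) → F,
      ∀ J, (Fintype.card F : ℝ) ≤ (2 * (r : ℝ)) ^ (i + 1) * (XX r b' J).card := by
  have hr2 : (2 : ℝ) ≤ r := by exact_mod_cast hr.two_le
  have hF : (0 : ℝ) < Fintype.card F := by exact_mod_cast Fintype.card_pos
  have hpos : ∀ J, 0 < (XX r b J).card := by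
    intro J
    rcases Nat.eq_zero_or_pos (XX r b J).card with h | h
    · have := hb J
      rw [h] at this
      simp only [Nat.cast_zero, mul_zero] at this
      linarith
    · exact h
  set B : (Fin i → Bool) → Finset F := fun J =>
    Finset.univ.filter fun c : F => (((XX r b J).card : ℝ) ^ 2 / 4 <
      ((r : ℝ) * ((XX r b J).filter fun x => x + c ∈ Pw F r).card - (XX r b J).card) ^ 2) with hB
  have hBc : ∀ J, ((B J).card : ℝ) ≤ 4 * (r : ℝ) ^ 2 * (2 * (r : ℝ)) ^ i := fun J =>
    bad_card hr hdvd (XX r b J) _ (hb J) (hpos J)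
  have hU : ((Finset.univ.biUnion B).card : ℝ) < Fintype.card F := by
    calc ((Finset.univ.biUnion B).card : ℝ) ≤ ((∑ J, (B J).card : ℕ) : ℝ) := by
          exact_mod_cast Finset.card_biUnion_le
      _ = ∑ J, ((B J).card : ℝ) := by push_cast; rfl
      _ ≤ ∑ _J : Fin i → Bool, 4 * (r : ℝ) ^ 2 * (2 * (r : ℝ)) ^ i :=
          Finset.sum_le_sum fun J _ => hBc J
      _ = (2 : ℝ) ^ i * (4 * (r : ℝ) ^ 2 * (2 * (r : ℝ)) ^ i) := by
          rw [Finset.sum_const, nsmul_eq_mul, Finset.card_univ]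
          simp
      _ < _ := hQ
  have hne : ∃ c : F, c ∉ Finset.univ.biUnion B := by
    by_contra hcon
    push Not at hcon
    have : Finset.univ.biUnion B = Finset.univ := Finset.eq_univ_iff_forall.2 hcon
    rw [this, Finset.card_univ] at hU
    exact lt_irrefl _ hU
  obtain ⟨c, hc⟩ := hne
  refine ⟨Fin.snoc b c, ?_⟩
  intro J
  have hcJ : c ∉ B (fun j => J j.castSucc) := by
    intro h
    exact hc (Finset.mem_biUnion.2 ⟨_, Finset.mem_univ _, h⟩)
  set X := XX r b (fun j => J j.castSucc) with hX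
  have hXq := hb (fun j => J j.castSucc)
  rw [← hX] at hXq
  have hgood : ((r : ℝ) * (X.filter fun x => x + c ∈ Pw F r).card - X.card) ^ 2 ≤
      (X.card : ℝ) ^ 2 / 4 := by
    by_contra hcon
    push Not at hcon
    apply hcJ
    rw [hB]
    simp only [Finset.mem_filter, Finset.mem_univ, true_and]
    exact hcon
  have habs : |(r : ℝ) * (X.filter fun x => x + c ∈ Pw F r).card - X.card| ≤
      (X.card : ℝ) / 2 := by
    apply abs_le_of_sq_le_sq _ (by positivity)
    calc _ ≤ (X.card : ℝ) ^ 2 / 4 := hgood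
      _ = ((X.card : ℝ) / 2) ^ 2 := by ring
  rw [abs_le] at habs
  have hsplit : XX r (Fin.snoc b c : Fin (i + 1) → F) J =
      X.filter fun x => (x + c ∈ Pw F r ↔ J (Fin.last i) = true) := by
    ext x
    simp only [hX, XX, Finset.mem_filter, Finset.mem_univ, true_and]
    rw [Fin.forall_fin_succ']
    simp only [Fin.snoc_castSucc, Fin.snoc_last]
  have hge : (X.card : ℝ) ≤ 2 * (r : ℝ) * (XX r (Fin.snoc b c : Fin (i + 1) → F) J).card := by
    rw [hsplit]
    rcases hJ : J (Fin.last i) with _ | _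
    · have h1 : (X.filter fun x => (x + c ∈ Pw F r ↔ false = true)) =
          X.filter fun x => ¬ x + c ∈ Pw F r := by
        apply Finset.filter_congr
        intro x _
        simp
      rw [h1]
      have h2 : ((X.filter fun x => x + c ∈ Pw F r).card : ℝ) +
          (X.filter fun x => ¬ x + c ∈ Pw F r).card = X.card := by
        exact_mod_cast Finset.card_filter_add_card_filter_not (s := X)
          (fun x => x + c ∈ Pw F r)
      have hx0 : (0 : ℝ) ≤ X.card := by positivity
      nlinarith [habs.2, h2, mul_le_mul_of_nonneg_right hr2 hx0]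
    · have h1 : (X.filter fun x => (x + c ∈ Pw F r ↔ true = true)) =
          X.filter fun x => x + c ∈ Pw F r := by
        apply Finset.filter_congr
        intro x _
        simp
      rw [h1]
      linarith [habs.1]
  calc (Fintype.card F : ℝ) ≤ (2 * (r : ℝ)) ^ i * X.card := hXq
    _ ≤ (2 * (r : ℝ)) ^ i * (2 * (r : ℝ) * (XX r (Fin.snoc b c : Fin (i + 1) → F) J).card) :=
        mul_le_mul_of_nonneg_left hge (by positivity)
    _ = _ := by rw [pow_succ]; ring

theorem exists_patterns (n r : ℕ) (hr : r.Prime) : ∃ N : ℕ, ∀ (F : Type u) [Field F] [Fintype F],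
    N ≤ Fintype.card F → r ∣ Fintype.card F - 1 →
      ∃ b : Fin n → F, ∀ J : Finset (Fin n), ∃ x : F, ∀ i, (x + b i ∈ Pw F r ↔ i ∈ J) := by
  classical
  refine ⟨2 ^ n * (4 * r ^ 2 * (2 * r) ^ n) + 1, ?_⟩
  intro F _ _ hN hdvd
  have hr2 : (2 : ℝ) ≤ r := by exact_mod_cast hr.two_le
  have hNR : (2 : ℝ) ^ n * (4 * (r : ℝ) ^ 2 * (2 * (r : ℝ)) ^ n) < Fintype.card F := by
    have : 2 ^ n * (4 * r ^ 2 * (2 * r) ^ n) < Fintype.card F := by omega
    exact_mod_cast this
  have key : ∀ i ≤ n, ∃ b : Fin i → F,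
      ∀ J, (Fintype.card F : ℝ) ≤ (2 * (r : ℝ)) ^ i * (XX r b J).card := by
    intro i
    induction i with
    | zero =>
      intro _
      refine ⟨Fin.elim0, ?_⟩
      intro J
      have : XX r (Fin.elim0 : Fin 0 → F) J = Finset.univ := by
        ext x
        simp only [XX, Finset.mem_filter, Finset.mem_univ, true_and, iff_true]
        exact fun j => j.elim0
      rw [this, Finset.card_univ]
      simp
    | succ i ih =>
      intro hi
      obtain ⟨b, hb⟩ := ih (by omega)
      apply step hr hdvd b hb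
      refine lt_of_le_of_lt ?_ hNR
      have h1 : (2 : ℝ) ^ i ≤ 2 ^ n := pow_le_pow_right₀ (by norm_num) (by omega)
      have h2 : (2 * (r : ℝ)) ^ i ≤ (2 * (r : ℝ)) ^ n :=
        pow_le_pow_right₀ (by linarith) (by omega)
      gcongr
  obtain ⟨b, hb⟩ := key n le_rfl
  refine ⟨b, ?_⟩
  intro J
  have h := hb (fun j => decide (j ∈ J))
  have hF : (0 : ℝ) < Fintype.card F := by exact_mod_cast Fintype.card_pos
  have hne : (XX r b (fun j => decide (j ∈ J))).Nonempty := by
    rw [← Finset.card_pos]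
    rcases Nat.eq_zero_or_pos (XX r b (fun j => decide (j ∈ J))).card with h0 | h0
    · rw [h0] at h
      simp only [Nat.cast_zero, mul_zero] at h
      linarith
    · exact h0
  obtain ⟨x, hx⟩ := hne
  refine ⟨x, ?_⟩
  intro i
  simp only [XX, Finset.mem_filter, Finset.mem_univ, true_and, decide_eq_true_eq] at hx
  exact hx i

end Pool.Agent.NIPFields.RB
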