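import Pool.Agent.NIPFields.RB.Cls

set_option autoImplicit false

/-!
# From surjective homomorphisms to Galois extensions
-/

namespace Pool.Agent.NIPFields.RB

/-- A homomorphism which is trivial on the kernel of a surjective homomorphism factors. -/
private theorem exists_factor {G H Q : Type*} [Group G] [Group H] [Group Q] (r : G →* H)
    (hr : Function.Surjective r) (f : G →* Q) (h : ∀ g, r g = 1 → f g = 1) :
    ∃ ψ : H →* Q, ∀ g, ψ (r g) = f g := by
  refine ⟨MonoidHom.liftOfRightInverse r (Function.surjInv hr) (Function.rightInverse_surjInv hr)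
    ⟨f, fun g hg => h g hg⟩, fun g => ?_⟩
  exact MonoidHom.liftOfRightInverse_comp_apply r (Function.surjInv hr)
    (Function.rightInverse_surjInv hr) ⟨f, fun g hg => h g hg⟩ g

/-- Let `M` be the field of `FL`. The field `N = L M` (`IntermediateField.adjoin L M`) is a finite
Galois extension of `L` (it is generated by the roots of a separable polynomial with coefficients in
`F`). The automorphisms of `N` over `L` extend to `Ω`, and `φ` is trivial on the automorphisms of `Ω` over
`N`, so `φ` induces a surjective homomorphism from the group of `N` over `L` to `Q`. Take the fixed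
field of its kernel in `N` (`IsGalois.normalAutEquivQuotient`). -/
theorem exists_galois {F L Ω : Type*} [Field F] [Field L] [Field Ω] [Algebra F L] [Algebra L Ω]
    [Algebra F Ω] [IsScalarTower F L Ω] [IsAlgClosed Ω] [Algebra.IsAlgebraic L Ω] {ℓ : ℕ}
    {Q : Type} [Group Q] [Finite Q] (φ : (Ω ≃ₐ[F] Ω) →* Q) (hφ : FL ℓ φ)
    (hsurj : ∀ q, ∃ γ : Ω ≃ₐ[L] Ω, φ (γ.restrictScalars F) = q) :
    ∃ M : IntermediateField L Ω, FiniteDimensional L M ∧ IsGalois L M ∧
      Nonempty (Q ≃* (M ≃ₐ[L] M)) := by
  obtain ⟨M, ⟨hfin, hgal, -⟩, h1⟩ := hφ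
  obtain ⟨p, hsep, hsplit⟩ := IsGalois.is_separable_splitting_field F M
  have hM : M = IntermediateField.adjoin F (p.rootSet Ω) :=
    (IntermediateField.isSplittingField_iff.mp hsplit).2
  set q : Polynomial L := p.map (algebraMap F L) with hq
  have hqs : (q.map (algebraMap L Ω)).Splits := IsAlgClosed.splits _
  have hqsep : q.Separable := hsep.map
  set N : IntermediateField L Ω := IntermediateField.adjoin L (q.rootSet Ω) with hN
  have hNs : q.IsSplittingField L N := IntermediateField.adjoin_rootSet_isSplittingField hqs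
  haveI hNf : FiniteDimensional L N := Polynomial.IsSplittingField.finiteDimensional N q
  haveI hNg : IsGalois L N := IsGalois.of_separable_splitting_field hqsep
  haveI : IsAlgClosure L Ω := ⟨inferInstance, inferInstance⟩
  haveI : Normal L Ω := IsAlgClosure.normal L Ω
  -- the restriction
  have hres := AlgEquiv.restrictNormalHom_surjective (F := L) (K₁ := N) Ω
  let f : (Ω ≃ₐ[L] Ω) →* Q :=
    { toFun := fun γ => φ (γ.restrictScalars F)
      map_one' := by
        have : (1 : Ω ≃ₐ[L] Ω).restrictScalars F = 1 := by ext; rfl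
        rw [this, map_one]
      map_mul' := fun γ δ => by
        have : (γ * δ).restrictScalars F = γ.restrictScalars F * δ.restrictScalars F := by
          ext; rfl
        rw [this, map_mul] }
  have hrs : ∀ x ∈ p.rootSet Ω, x ∈ q.rootSet Ω := by
    intro x hx
    rw [Polynomial.mem_rootSet'] at hx ⊢
    rw [hq, Polynomial.map_map, ← IsScalarTower.algebraMap_eq, Polynomial.aeval_map_algebraMap]
    exact hx
  obtain ⟨ψ, hψ⟩ := exists_factor (AlgEquiv.restrictNormalHom N) hres f (by
    intro γ hγ
    refine h1 _ fun x hx => ?_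
    have hfix : ∀ y ∈ N, γ y = y := by
      intro y hy
      have := AlgEquiv.restrictNormalHom_apply N γ ⟨y, hy⟩
      rw [hγ] at this
      exact this.symm
    rw [hM] at hx
    induction hx using IntermediateField.adjoin_induction with
    | mem x hx => exact hfix x (IntermediateField.subset_adjoin L _ (hrs x hx))
    | algebraMap x => exact AlgEquiv.commutes _ x
    | add x y _ _ hx hy => rw [map_add, hx, hy]
    | inv x _ hx => rw [map_inv₀, hx]
    | mul x y _ _ hx hy => rw [map_mul, hx, hy])
  have hψs : Function.Surjective ψ := by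
    intro x
    obtain ⟨γ, hγ⟩ := hsurj x
    exact ⟨AlgEquiv.restrictNormalHom N γ, by rw [hψ]; exact hγ⟩
  let e1 : (N ≃ₐ[L] N) ⧸ ψ.ker ≃* Q := QuotientGroup.quotientKerEquivOfSurjective ψ hψs
  let E : IntermediateField L N := IntermediateField.fixedField ψ.ker
  haveI : IsGalois L E := IsGalois.of_fixedField_normal_subgroup ψ.ker
  let e2 : (N ≃ₐ[L] N) ⧸ ψ.ker ≃* (E ≃ₐ[L] E) := IsGalois.normalAutEquivQuotient ψ.ker
  let e3 : E ≃ₐ[L] (IntermediateField.lift E) := IntermediateField.liftAlgEquiv E
  refine ⟨IntermediateField.lift E, ?_, ?_, ⟨e1.symm.trans (e2.trans (AlgEquiv.autCongr e3))⟩⟩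
  · exact Module.Finite.equiv e3.toLinearEquiv
  · exact IsGalois.of_algEquiv e3

end Pool.Agent.NIPFields.RB
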