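import Pool.Agent.NIPFields.RB.Kummer
import Pool.Agent.NIPFields.LG.Defs

set_option autoImplicit false

/-!
# Different Kummer characters
-/

namespace Pool.Agent.NIPFields.RB

open Pool.Agent.NIPFields.LG

/-- If `a / a'` is not an `ℓ`-th power in `L` then the characters are different on the group of `L`.
Otherwise `w = y / y'` is fixed by all automorphisms of `Ω` over `L`, and it is a root of the separable
polynomial `X ^ ℓ - a / a'`, so its minimal polynomial over `L` is separable and all its roots are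
conjugate to `w`, so `w ∈ L`. -/
theorem char_ne {F L Ω : Type*} [Field F] [Field L] [Field Ω] [Algebra F L] [Algebra L Ω]
    [Algebra F Ω] [IsScalarTower F L Ω] [IsAlgClosed Ω] [Algebra.IsAlgebraic L Ω] {ℓ : ℕ}
    (hℓ : ℓ.Prime) (hℓF : (ℓ : F) ≠ 0) {ζ : F} {a a' : F} (ha : a ≠ 0) (ha' : a' ≠ 0) {y y' : Ω}
    (hy : y ^ ℓ = algebraMap F Ω a) (hy' : y' ^ ℓ = algebraMap F Ω a')
    {χ χ' : (Ω ≃ₐ[F] Ω) →* Multiplicative (ZMod ℓ)} (hχ : IsChar ζ y χ) (hχ' : IsChar ζ y' χ')
    (h : algebraMap F L a / algebraMap F L a' ∉ Pw L ℓ) :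
    ∃ γ : Ω ≃ₐ[L] Ω, χ (γ.restrictScalars F) ≠ χ' (γ.restrictScalars F) := by
  by_contra hcon
  push Not at hcon
  have hay : algebraMap F Ω a ≠ 0 := (map_ne_zero _).2 ha
  have hay' : algebraMap F Ω a' ≠ 0 := (map_ne_zero _).2 ha'
  have hℓ0 : ℓ ≠ 0 := hℓ.ne_zero
  have hy0 : y ≠ 0 := by
    rintro rfl
    rw [zero_pow hℓ0] at hy
    exact hay hy.symm
  have hy0' : y' ≠ 0 := by
    rintro rfl
    rw [zero_pow hℓ0] at hy'
    exact hay' hy'.symm
  set w : Ω := y / y' with hw
  have hw0 : w ≠ 0 := div_ne_zero hy0 hy0'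
  have hfix : ∀ γ : Ω ≃ₐ[L] Ω, γ w = w := by
    intro γ
    have h1 := hχ (γ.restrictScalars F)
    have h2 := hχ' (γ.restrictScalars F)
    rw [hcon γ] at h1
    have h3 : γ y = algebraMap F Ω (ζ ^ (Multiplicative.toAdd
      (χ' (γ.restrictScalars F))).val) * y := h1
    have h4 : γ y' = algebraMap F Ω (ζ ^ (Multiplicative.toAdd
      (χ' (γ.restrictScalars F))).val) * y' := h2
    set c := algebraMap F Ω (ζ ^ (Multiplicative.toAdd (χ' (γ.restrictScalars F))).val) with hc
    have hc0 : c ≠ 0 := by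
      intro h0
      rw [h0, zero_mul] at h4
      exact hy0' ((map_eq_zero γ).1 h4)
    rw [hw, map_div₀, h3, h4, mul_div_mul_left _ _ hc0]
  have hwpow : w ^ ℓ = algebraMap L Ω (algebraMap F L a / algebraMap F L a') := by
    rw [hw, div_pow, hy, hy', map_div₀, ← IsScalarTower.algebraMap_apply,
      ← IsScalarTower.algebraMap_apply]
  have hc0 : algebraMap F L a / algebraMap F L a' ≠ 0 :=
    div_ne_zero ((map_ne_zero _).2 ha) ((map_ne_zero _).2 ha')
  have hℓL : (ℓ : L) ≠ 0 := by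
    rw [← map_natCast (algebraMap F L)]
    exact (map_ne_zero _).2 hℓF
  have hsep : IsSeparable L w := by
    have h1 : (Polynomial.X ^ ℓ - Polynomial.C (algebraMap F L a / algebraMap F L a')).Separable :=
      Polynomial.separable_X_pow_sub_C _ hℓL hc0
    apply h1.of_dvd
    apply minpoly.dvd
    simp [hwpow]
  have hwbot : w ∈ (⊥ : Subalgebra L Ω) := by
    by_contra hnot
    rw [notMem_iff_exists_ne_and_isConjRoot hsep (IsAlgClosed.splits _)] at hnot
    obtain ⟨z, hz, hconj⟩ := hnot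
    have hnorm : Normal L Ω := normal_iff.2 fun x =>
      ⟨(Algebra.IsAlgebraic.isAlgebraic x).isIntegral, IsAlgClosed.splits _⟩
    obtain ⟨σ, hσ⟩ := (isConjRoot_iff_exists_algEquiv).1 hconj
    apply hz
    apply σ.injective
    rw [hσ]
    exact hfix σ
  obtain ⟨v, hv⟩ := Algebra.mem_bot.1 hwbot
  apply h
  refine ⟨v, ?_, ?_⟩
  · rintro rfl
    rw [map_zero] at hv
    exact hw0 hv.symm
  · apply (algebraMap L Ω).injective
    rw [← hwpow, map_pow, hv]

end Pool.Agent.NIPFields.RB
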