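import Pool.Agent.NIPFields.RB.Lift

set_option autoImplicit false

/-!
# Surjective solutions

`Γ` is a subgroup of `Aut(Ω/F)`, and `χ i`, `i < m`, are characters of order `ℓ` of `Aut(Ω/F)` whose
restrictions to `Γ` are pairwise different. Induction on `|Q|`.

`|Q| = 1`: trivial (`Cls.bot`).

Otherwise the centre of the `ℓ`-group `Q` is not trivial (`IsPGroup.center_nontrivial`), let `Z` be a
subgroup of order `ℓ` of it. By induction there is `φ : Aut(Ω/F) → Q/Z`, `φ(Γ) = Q/Z`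
(`ℓ ^ |Q/Z| ≤ ℓ ^ |Q| < m`). Let `φ'` be the lift of `exists_lift`, and let `j` be an isomorphism of
`Multiplicative (ZMod ℓ)` with `Z`. For every `i` let `φ_i(γ) = φ'(γ) j(χ_i(γ))`, a homomorphism (`Z` is
central), `FL ℓ φ_i` (`FL.mul`, `FL.comp`), which also lifts `φ`. If `φ'(Γ) = Q` or `φ_i(Γ) = Q` for some `i`
we are done. Otherwise let `D = φ'(Γ)`, `D_i = φ_i(Γ)`: `D Z = Q`, and `D ∩ Z = 1` (otherwise `Z ≤ D`, because
the order of `Z` is prime, and `D = Q`), in the same way `D_i ∩ Z = 1`. So if `γ ∈ Γ` and `φ'(γ) = 1` then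
`φ_i(γ) = j(χ_i(γ)) ∈ D_i ∩ Z`, so `χ_i(γ) = 1`. So `χ_i` restricted to `Γ` is of the form `ψ_i(φ'(γ))` for a
function `ψ_i : Q → Multiplicative (ZMod ℓ)`. There are only `ℓ ^ |Q| < m` such functions, so
`ψ_i = ψ_i'` for some `i ≠ i'`, contradiction.
-/

namespace Pool.Agent.NIPFields.RB

/-- A homomorphism which lifts `φ` and is not onto is one-to-one in the kernel. -/
private theorem surj_aux {G Q : Type*} [Group G] [Group Q] {ℓ : ℕ} (hℓ : ℓ.Prime)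
    (Z : Subgroup Q) [Z.Normal] (hZ : Nat.card Z = ℓ) (φ : G →* Q ⧸ Z) (Γ : Subgroup G)
    (hφ : ∀ q, ∃ γ ∈ Γ, φ γ = q) (ψ : G →* Q)
    (hψ : ∀ γ, (QuotientGroup.mk (ψ γ) : Q ⧸ Z) = φ γ)
    (hns : ¬ ∀ q, ∃ γ ∈ Γ, ψ γ = q) : ∀ γ ∈ Γ, ψ γ ∈ Z → ψ γ = 1 := by
  intro γ hγ hz
  by_contra hne
  apply hns
  have : Fact ℓ.Prime := ⟨hℓ⟩
  -- the element generates `Z`
  have hgen : ∀ z ∈ Z, z ∈ Γ.map ψ := by
    intro z hzZ
    have h1 : (⟨ψ γ, hz⟩ : Z) ≠ 1 := by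
      intro h
      exact hne (congrArg Subtype.val h)
    have h2 := mem_zpowers_of_prime_card hZ h1 (g' := (⟨z, hzZ⟩ : Z))
    obtain ⟨k, hk⟩ := Subgroup.mem_zpowers_iff.1 h2
    refine ⟨γ ^ k, Γ.zpow_mem hγ k, ?_⟩
    rw [map_zpow]
    exact congrArg Subtype.val hk
  intro q
  obtain ⟨γ', hγ', h3⟩ := hφ (QuotientGroup.mk q)
  have h4 : (ψ γ')⁻¹ * q ∈ Z := by
    rw [← QuotientGroup.eq, hψ, h3]
  obtain ⟨γ'', hγ'', h5⟩ := hgen _ h4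
  refine ⟨γ' * γ'', Γ.mul_mem hγ' hγ'', ?_⟩
  rw [map_mul, h5, mul_inv_cancel_left]

theorem exists_surj {F Ω : Type*} [Field F] [Field Ω] [Algebra F Ω] [IsAlgClosed Ω] {ℓ : ℕ}
    (hℓ : ℓ.Prime) (hℓF : (ℓ : F) ≠ 0) {ζ : F} (hζ : IsPrimitiveRoot ζ ℓ)
    (hNS : ∀ M : IntermediateField F Ω, Cls ℓ M → NormSurj F M ℓ) (Γ : Subgroup (Ω ≃ₐ[F] Ω))
    {m : ℕ} (χ : Fin m → ((Ω ≃ₐ[F] Ω) →* Multiplicative (ZMod ℓ))) (hχ : ∀ i, FL ℓ (χ i))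
    (hne : ∀ i j, i ≠ j → ∃ γ ∈ Γ, χ i γ ≠ χ j γ) :
    ∀ (n : ℕ) (Q : Type) [Group Q] [Finite Q], Nat.card Q = n → IsPGroup ℓ Q → ℓ ^ n < m →
      ∃ φ : (Ω ≃ₐ[F] Ω) →* Q, FL ℓ φ ∧ ∀ q, ∃ γ ∈ Γ, φ γ = q := by
  classical
  have : Fact ℓ.Prime := ⟨hℓ⟩
  intro n
  induction n using Nat.strong_induction_on with
  | _ n ih =>
  intro Q _ _ hn hQ hm
  rcases subsingleton_or_nontrivial Q with hs | hs
  · exact ⟨1, ⟨⊥, Cls.bot ℓ, fun γ _ => rfl⟩, fun q => ⟨1, Γ.one_mem, Subsingleton.elim _ _⟩⟩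
  -- a central subgroup of order `ℓ`
  obtain ⟨Z, hZc, hZ⟩ : ∃ Z : Subgroup Q, Z ≤ Subgroup.center Q ∧ Nat.card Z = ℓ := by
    have h1 : Nontrivial (Subgroup.center Q) := hQ.center_nontrivial
    have h2 : IsPGroup ℓ (Subgroup.center Q) := hQ.to_subgroup _
    obtain ⟨k, hk, h3⟩ := h2.nontrivial_iff_card.1 h1
    obtain ⟨z, hz⟩ := exists_prime_orderOf_dvd_card' (G := Subgroup.center Q) ℓ
      (by rw [h3]; exact dvd_pow_self ℓ hk.ne')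
    refine ⟨Subgroup.zpowers (z : Q), ?_, ?_⟩
    · rw [Subgroup.zpowers_le]
      exact z.2
    · rw [Nat.card_zpowers, Subgroup.orderOf_coe, hz]
  have hcomm : ∀ z ∈ Z, ∀ q : Q, q * z = z * q := fun z hz q =>
    (Subgroup.mem_center_iff.1 (hZc hz)) q
  have hZn : Z.Normal := ⟨fun z hz q => by
    rw [hcomm z hz q, mul_inv_cancel_right]
    exact hz⟩
  have hcard : Nat.card Q = Nat.card (Q ⧸ Z) * Nat.card Z :=
    Subgroup.card_eq_card_quotient_mul_card_subgroup Z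
  have hlt : Nat.card (Q ⧸ Z) < n := by
    rw [← hn, hcard, hZ]
    have h1 : 0 < Nat.card (Q ⧸ Z) := Nat.card_pos
    have h2 := hℓ.two_le
    nlinarith
  obtain ⟨φ, hφ, hφs⟩ := ih (Nat.card (Q ⧸ Z)) hlt (Q ⧸ Z) rfl (hQ.to_quotient Z)
    ((Nat.pow_le_pow_right hℓ.pos hlt.le).trans_lt hm)
  obtain ⟨φ', hφ', hlift⟩ := exists_lift hℓ hℓF hζ hNS hQ Z hZc hZ φ hφ
  by_contra hcon
  push Not at hcon
  let j : Multiplicative (ZMod ℓ) ≃* Z := mulEquivOfPrimeCardEq (p := ℓ) (by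
    rw [Nat.card_congr Multiplicative.toAdd, Nat.card_zmod]) hZ
  -- the twisted lifts
  let ψ : Fin m → ((Ω ≃ₐ[F] Ω) →* Q) := fun i => MonoidHom.mk' (fun γ => φ' γ * (j (χ i γ) : Q)) (by
    intro γ γ'
    have h1 := hcomm (j (χ i γ) : Q) (j (χ i γ)).2 (φ' γ')
    rw [map_mul, map_mul, map_mul, Subgroup.coe_mul]
    calc φ' γ * φ' γ' * ((j (χ i γ) : Q) * (j (χ i γ') : Q)) =
          φ' γ * (φ' γ' * (j (χ i γ) : Q)) * (j (χ i γ') : Q) := by group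
      _ = φ' γ * (j (χ i γ) : Q) * (φ' γ' * (j (χ i γ') : Q)) := by
        rw [h1]
        group)
  have hψ : ∀ i γ, ψ i γ = φ' γ * (j (χ i γ) : Q) := fun _ _ => rfl
  have hψFL : ∀ i, FL ℓ (ψ i) := fun i =>
    FL.mul hφ' ((hχ i).comp (Z.subtype.comp j.toMonoidHom)) fun γ => rfl
  have hψl : ∀ i γ, (QuotientGroup.mk (ψ i γ) : Q ⧸ Z) = φ γ := by
    intro i γ
    rw [hψ, QuotientGroup.mk_mul, hlift, (QuotientGroup.eq_one_iff _).2 (j (χ i γ)).2, mul_one]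
  have hns : ∀ i, ∀ γ ∈ Γ, ψ i γ ∈ Z → ψ i γ = 1 := by
    intro i
    refine surj_aux hℓ Z hZ φ Γ hφs (ψ i) (hψl i) fun hall => ?_
    obtain ⟨q, hq⟩ := hcon (ψ i) (hψFL i)
    obtain ⟨γ, hγ, h1⟩ := hall q
    exact hq γ hγ h1
  have hone : ∀ i, ∀ γ ∈ Γ, φ' γ = 1 → χ i γ = 1 := by
    intro i γ hγ h1
    have h2 : ψ i γ = (j (χ i γ) : Q) := by rw [hψ, h1, one_mul]
    have h3 := hns i γ hγ (by rw [h2]; exact (j (χ i γ)).2)
    rw [h2] at h3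
    have h4 : j (χ i γ) = 1 := Subtype.ext h3
    exact (MulEquiv.map_eq_one_iff j).1 h4
  have hfac : ∀ i, ∀ γ ∈ Γ, ∀ γ' ∈ Γ, φ' γ = φ' γ' → χ i γ = χ i γ' := by
    intro i γ hγ γ' hγ' h1
    have h2 := hone i (γ⁻¹ * γ') (Γ.mul_mem (Γ.inv_mem hγ) hγ') (by
      rw [map_mul, map_inv, h1, inv_mul_cancel])
    rw [map_mul, map_inv, inv_mul_eq_one] at h2
    exact h2
  let Ψ : Fin m → (Q → Multiplicative (ZMod ℓ)) := fun i q =>
    if h : ∃ γ ∈ Γ, φ' γ = q then χ i h.choose else 1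
  have hΨ : ∀ i, ∀ γ ∈ Γ, χ i γ = Ψ i (φ' γ) := by
    intro i γ hγ
    have h : ∃ γ' ∈ Γ, φ' γ' = φ' γ := ⟨γ, hγ, rfl⟩
    show _ = if h : ∃ γ' ∈ Γ, φ' γ' = φ' γ then χ i h.choose else 1
    rw [dif_pos h]
    exact hfac i γ hγ _ h.choose_spec.1 h.choose_spec.2.symm
  have hinj : Function.Injective Ψ := by
    intro i i' h
    by_contra hii
    obtain ⟨γ, hγ, h1⟩ := hne i i' hii
    exact h1 (by rw [hΨ i γ hγ, hΨ i' γ hγ, h])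
  have h1 := Nat.card_le_card_of_injective Ψ hinj
  rw [Nat.card_fun, Nat.card_congr Multiplicative.toAdd, Nat.card_zmod, hn, Nat.card_fin] at h1
  omega

end Pool.Agent.NIPFields.RB
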