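import Pool.Agent.NIPFields.RB.Crit
import Pool.Agent.NIPFields.RB.AlgCl
import Pool.Agent.NIPFields.RB.Surj
import Pool.Agent.NIPFields.RB.KummerB
import Pool.Agent.NIPFields.RB.GalX

set_option autoImplicit false

/-!
# Theorem S
-/

namespace Pool.Agent.NIPFields.RB

open FirstOrder FirstOrder.Language FirstOrder.Ring Set
open Pool.Agent.NIPFields.FI Pool.Agent.NIPFields.LG

universe u

/-- `k(c)` -/
theorem ratGen_adjoin {k L : Type*} [Field k] [Field L] [Algebra k L] {c : L}
    (hc : Transcendental k c) :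
    RatGen k (IntermediateField.adjoin k {c}) (IntermediateField.AdjoinSimple.gen k c) := by
  refine ⟨?_, ?_⟩
  · intro h
    apply hc
    obtain ⟨P, hP, hPc⟩ := h
    refine ⟨P, hP, ?_⟩
    have h1 := congrArg (algebraMap (IntermediateField.adjoin k {c}) L) hPc
    rw [← Polynomial.aeval_algebraMap_apply, map_zero] at h1
    exact h1
  · intro x
    obtain ⟨P, Q, hPQ⟩ := (IntermediateField.mem_adjoin_simple_iff k (x : L)).1 x.2
    have key : ∀ R : Polynomial k, (Polynomial.aeval (IntermediateField.AdjoinSimple.gen k c) R :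
        IntermediateField.adjoin k {c}) = (0 : IntermediateField.adjoin k {c}) ↔
        Polynomial.aeval c R = 0 := by
      intro R
      rw [← map_eq_zero (algebraMap (IntermediateField.adjoin k {c}) L),
        ← Polynomial.aeval_algebraMap_apply]
      rfl
    by_cases hQ : Polynomial.aeval c Q = 0
    · refine ⟨0, 1, ?_, ?_⟩
      · rw [map_one]; exact one_ne_zero
      · apply Subtype.ext
        rw [hPQ, hQ, div_zero, map_zero, zero_div]
        rfl
    · refine ⟨P, Q, fun h => hQ ((key Q).1 h), ?_⟩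
      apply (algebraMap (IntermediateField.adjoin k {c}) L).injective
      rw [map_div₀, ← Polynomial.aeval_algebraMap_apply, ← Polynomial.aeval_algebraMap_apply]
      exact hPQ

/-- Fields in which all finite sets have rainbow translates. -/
theorem exists_group {p : ℕ} [hp : Fact p.Prime] {L : Type u} [Field L] [CharP L p]
    {k : Subfield L} [IsAlgClosed k] {ℓ : ℕ} (hℓ : ℓ.Prime) (hℓp : ℓ ≠ p)
    (hL : ∀ B : Finset L, ¬ NoRainbow (Pw L ℓ) B) {Q : Type} [Group Q] [Finite Q]
    (hQ : IsPGroup ℓ Q) :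
    ∃ (M : Type u) (_ : Field M) (_ : Algebra L M), FiniteDimensional L M ∧ IsGalois L M ∧
      Nonempty (Q ≃* (M ≃ₐ[L] M)) := by
  classical
  have hinf : Infinite k := IsAlgClosed.instInfinite
  set m : ℕ := ℓ ^ Nat.card Q + 2 with hm
  obtain ⟨B, hB⟩ := Infinite.exists_subset_card_eq k m
  have h1 := hL (B.image (algebraMap k L))
  rw [NoRainbow] at h1
  push Not at h1
  obtain ⟨c, hc0, hc⟩ := h1
  have hcB : ∀ b ∈ B, c + algebraMap k L b ≠ 0 := fun b hb => hc0 _ (Finset.mem_image_of_mem _ hb)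
  have hcc : ∀ b ∈ B, ∀ b' ∈ B, b ≠ b' →
      (c + algebraMap k L b) / (c + algebraMap k L b') ∉ Pw L ℓ := by
    intro b hb b' hb' hne
    exact hc _ (Finset.mem_image_of_mem _ hb) _ (Finset.mem_image_of_mem _ hb')
      fun h => hne ((algebraMap k L).injective h)
  -- `c` is transcendental
  have hctr : Transcendental k c := by
    intro halg
    obtain ⟨b, hb, b', hb', hne⟩ := Finset.one_lt_card.1 (by rw [hB]; omega : 1 < B.card)
    apply hcc b hb b' hb' hne
    obtain ⟨c', rfl⟩ : ∃ c' : k, algebraMap k L c' = c :=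
      minpoly.mem_range_of_degree_eq_one k _
        (IsAlgClosed.degree_eq_one_of_irreducible k (minpoly.irreducible halg.isIntegral))
    have e1 := hcB b hb
    have e2 := hcB b' hb'
    rw [← map_add] at e1 e2
    obtain ⟨w, hw⟩ := IsAlgClosed.exists_pow_nat_eq ((c' + b) / (c' + b')) hℓ.pos
    refine ⟨algebraMap k L w, ?_, ?_⟩
    · rw [Ne, map_eq_zero]
      rintro rfl
      rw [zero_pow hℓ.ne_zero, eq_comm, div_eq_zero_iff] at hw
      rcases hw with hw | hw
      · exact e1 (by rw [hw, map_zero])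
      · exact e2 (by rw [hw, map_zero])
    · rw [← map_pow, hw, map_div₀, map_add, map_add]
  -- the field `k(c)`
  have hchk : CharP k p := (algebraMap k L).charP (algebraMap k L).injective p
  have hℓk : (ℓ : k) ≠ 0 := by
    rw [Ne, CharP.cast_eq_zero_iff k p]
    exact fun h => hℓp ((Nat.prime_dvd_prime_iff_eq hp.out hℓ).1 h).symm
  have hne : NeZero (ℓ : k) := ⟨hℓk⟩
  obtain ⟨ζ, hζ⟩ := HasEnoughRootsOfUnity.exists_primitiveRoot k ℓ
  let F := IntermediateField.adjoin k {c}
  let Ω := AlgebraicClosure L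
  let t : F := IntermediateField.AdjoinSimple.gen k c
  have ht : RatGen k F t := ratGen_adjoin hctr
  have hℓF : (ℓ : F) ≠ 0 := by
    rw [← map_natCast (algebraMap k F)]
    exact fun h => hℓk ((map_eq_zero _).1 h)
  have hζF : IsPrimitiveRoot (algebraMap k F ζ) ℓ :=
    hζ.map_of_injective (algebraMap k F).injective
  have hNS : ∀ M : IntermediateField F Ω, Cls ℓ M → NormSurj F M ℓ := by
    intro M hM
    have := hM.fin
    have := hM.gal
    exact normSurj ht hℓ.pos
  let e : Fin m ≃ B := (B.equivFinOfCardEq hB).symm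
  have haF : ∀ i, algebraMap F L (t + algebraMap k F (e i)) = c + algebraMap k L (e i) := fun i => rfl
  have ha0 : ∀ i, t + algebraMap k F (e i) ≠ 0 := by
    intro i h
    apply hcB _ (e i).2
    rw [← haF, h, map_zero]
  have hch : ∀ i, ∃ (y : Ω) (χ : (Ω ≃ₐ[F] Ω) →* Multiplicative (ZMod ℓ)),
      y ^ ℓ = algebraMap F Ω (t + algebraMap k F (e i)) ∧
      IsChar (algebraMap k F ζ) y χ ∧ FL ℓ χ := fun i => exists_char hℓ hℓF hζF (ha0 i)
  choose y χ hy hχ hFL using hch
  obtain ⟨φ, hφ, hsurj⟩ := exists_surj hℓ hℓF hζF hNS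
    (AlgEquiv.restrictScalarsHom F : (Ω ≃ₐ[L] Ω) →* (Ω ≃ₐ[F] Ω)).range χ hFL (by
      intro i j hij
      obtain ⟨γ, hγ⟩ := char_ne (L := L) hℓ hℓF (ha0 i) (ha0 j) (hy i) (hy j) (hχ i) (hχ j) (by
        rw [haF, haF]
        exact hcc _ (e i).2 _ (e j).2 fun h => hij (e.injective (Subtype.ext h)))
      exact ⟨_, ⟨γ, rfl⟩, hγ⟩) (Nat.card Q) Q rfl hQ (by omega)
  obtain ⟨M, h1, h2, h3⟩ := exists_galois (L := L) φ hφ (by
    intro q
    obtain ⟨_, ⟨γ, rfl⟩, hγ⟩ := hsurj q
    exact ⟨γ, hγ⟩)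
  exact ⟨M, inferInstance, inferInstance, h1, h2, h3⟩

/-- **Theorem S.** -/
theorem theoremS {p : ℕ} [hp : Fact p.Prime] {K : Type u} [Field K] [Infinite K]
    [CompatibleRing K] (hK : NIP K) [CharP K p] {L : Type u} [Field L] [Algebra K L]
    [FiniteDimensional K L] {ℓ : ℕ} (hℓ : ℓ.Prime) (hℓp : ℓ ≠ p) (ha : ∃ a : L, ∀ y, a ≠ y ^ ℓ)
    {Q : Type} [Group Q] [Finite Q] (hQ : IsPGroup ℓ Q)
    (hno : ∀ (M : Type u) [Field M] [Algebra L M], FiniteDimensional L M → IsGalois L M →
      IsEmpty (Q ≃* (M ≃ₐ[L] M))) :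
    ∃ O : ValuationSubring K, O ≠ ⊤ ∧ HenselianLocalRing O ∧
      (univ : Set K).Definable₁ Language.ring {x | x ∈ O} := by
  by_cases h : ∃ B : Finset L, NoRainbow (Pw L ℓ) B
  · obtain ⟨B, hB⟩ := h
    exact theoremR hK hℓ hℓp ha hB
  · exfalso
    push Not at h
    let _ : CompatibleRing L := compatibleRingOfRing L
    have hL : NIP L := hK.finite (Module.finBasis K L)
    have hinf : Infinite L := Infinite.of_injective _ (algebraMap K L).injective
    have hchL : CharP L p := charP_of_injective_algebraMap (algebraMap K L).injective p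
    obtain ⟨k, hk⟩ := exists_algClosed (p := p) hL
    obtain ⟨M, _, _, h1, h2, ⟨h3⟩⟩ := exists_group hℓ hℓp h hQ (k := k)
    exact (hno M h1 h2).false h3

end Pool.Agent.NIPFields.RB
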