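import Mathlib

set_option autoImplicit false

/-!
# Averages over boxes in a commutative monoid, and rainbow translates

If a finite subset `B` of an infinite field `F` has no translate `c + B` whose elements are in
different classes (of a set `H` of ratios), then among any finitely many elements `a` of `F` the
positive fraction `1 / (2 |B| ^ 2)` has a common `δ ≠ 0` with `1 + a δ` in `H`.
-/

namespace Pool.Agent.NIPFields.RB

open Finset

open Classical in
/-- Families which are almost invariant under finitely many translations. -/
theorem folner {M : Type*} [AddCommMonoid M] (S : Finset M) (k : ℕ) (hk : 0 < k) :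
    ∃ (I : Type) (_ : Fintype I) (_ : Nonempty I) (t : I → M), ∀ s ∈ S, ∀ P : M → Prop,
      k * (univ.filter fun i => P (t i + s)).card ≤
        k * (univ.filter fun i => P (t i)).card + Fintype.card I ∧
      k * (univ.filter fun i => P (t i)).card ≤
        k * (univ.filter fun i => P (t i + s)).card + Fintype.card I := by
  suffices h : ∃ (I : Type) (_ : Fintype I) (_ : Nonempty I) (t : I → M), ∀ s ∈ S,
      ∀ P : M → Prop, k * (univ.filter fun i => P (t i + s)).card ≤
        k * (univ.filter fun i => P (t i)).card + Fintype.card I by
    obtain ⟨I, _, hI, t, ht⟩ := h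
    refine ⟨I, inferInstance, hI, t, fun s hs P => ⟨ht s hs P, ?_⟩⟩
    have h1 : k * (univ.filter fun i => ¬ P (t i + s)).card ≤
        k * (univ.filter fun i => ¬ P (t i)).card + Fintype.card I := by
      convert ht s hs fun x => ¬ P x
    have h2 := card_filter_add_card_filter_not (s := (univ : Finset I)) fun i => P (t i)
    have h3 := card_filter_add_card_filter_not (s := (univ : Finset I)) fun i => P (t i + s)
    rw [card_univ] at h2 h3
    have h4 : k * (univ.filter fun i => P (t i)).card +
        k * (univ.filter fun i => ¬ P (t i)).card = k * Fintype.card I := by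
      rw [← mul_add, h2]
    have h5 : k * (univ.filter fun i => P (t i + s)).card +
        k * (univ.filter fun i => ¬ P (t i + s)).card = k * Fintype.card I := by
      rw [← mul_add, h3]
    omega
  induction S using Finset.induction_on with
  | empty => exact ⟨Unit, inferInstance, inferInstance, fun _ => 0, fun s hs => absurd hs (by simp)⟩
  | insert s S hs ih =>
    obtain ⟨I, _, hI, t, ht⟩ := ih
    have : Nonempty (Fin k) := ⟨⟨0, hk⟩⟩
    refine ⟨I × Fin k, inferInstance, inferInstance, fun x => t x.1 + (x.2 : ℕ) • s, ?_⟩
    intro s' hs' P
    rw [card_filter, card_filter, Fintype.card_prod, Fintype.card_fin]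
    rcases mem_insert.1 hs' with rfl | hs'
    · rw [Fintype.sum_prod_type, Fintype.sum_prod_type]
      have h1 : ∀ i : I, ∑ j : Fin k, (if P (t i + (j : ℕ) • s' + s') then 1 else 0) ≤
          ∑ j : Fin k, (if P (t i + (j : ℕ) • s') then 1 else 0) + 1 := by
        intro i
        set f : ℕ → ℕ := fun j => if P (t i + j • s') then 1 else 0 with hf
        have e1 : ∑ j : Fin k, (if P (t i + (j : ℕ) • s' + s') then 1 else 0) =
            ∑ j ∈ range k, f (j + 1) := by
          rw [← Fin.sum_univ_eq_sum_range fun j => f (j + 1)]
          refine sum_congr rfl fun j _ => ?_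
          simp only [hf]
          rw [succ_nsmul, add_assoc]
        have e2 : ∑ j : Fin k, (if P (t i + (j : ℕ) • s') then 1 else 0) =
            ∑ j ∈ range k, f j := (Fin.sum_univ_eq_sum_range f k)
        rw [e1, e2]
        have e3 := sum_range_succ f k
        rw [sum_range_succ'] at e3
        have e4 : f k ≤ 1 := by
          simp only [hf]
          split_ifs <;> omega
        omega
      have h2 := sum_le_sum fun i (_ : i ∈ (univ : Finset I)) => h1 i
      rw [sum_add_distrib, sum_const, card_univ, smul_eq_mul, mul_one] at h2
      have h3 := Nat.mul_le_mul_left k h2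
      rw [mul_add] at h3
      calc _ ≤ _ := h3
        _ = _ := by rw [mul_comm k (Fintype.card I)]
    · rw [Fintype.sum_prod_type_right, Fintype.sum_prod_type_right]
      have h1 : ∀ j : Fin k, k * ∑ i : I, (if P (t i + (j : ℕ) • s + s') then 1 else 0) ≤
          k * ∑ i : I, (if P (t i + (j : ℕ) • s) then 1 else 0) + Fintype.card I := by
        intro j
        have h2 := ht s' hs' fun x => P (x + (j : ℕ) • s)
        rw [card_filter, card_filter] at h2
        simpa only [add_right_comm] using h2
      have h2 := sum_le_sum fun j (_ : j ∈ (univ : Finset (Fin k))) => h1 j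
      rw [sum_add_distrib, ← mul_sum, ← mul_sum, sum_const, card_univ, Fintype.card_fin,
        smul_eq_mul] at h2
      calc _ ≤ _ := h2
        _ = _ := by rw [mul_comm k (Fintype.card I)]

end Pool.Agent.NIPFields.RB
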