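import Mathlib
import Pool.Agent.NIPFields.LS.Main

set_option autoImplicit false

/-!
# Theorem R for subgroups given by a formula
-/

namespace Pool.Agent.NIPFields.RB

open FirstOrder FirstOrder.Language FirstOrder.Ring Set
open Pool.Agent.NIPFields.LS

universe u

/-- **Theorem R for definable subgroups**, with a formula for the subgroup. -/
theorem theoremRS_of_formula {p : ℕ} [hp : Fact p.Prime] {K : Type u} [Field K] [Infinite K]
    [CompatibleRing K] (hK : NIP K) [CharP K p] {L : Type u} [Field L] [CompatibleRing L]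
    [Algebra K L] [FiniteDimensional K L] (T : Subgroup Lˣ) (hT : T ≠ ⊤) {n : ℕ}
    (hn : n.Coprime p) (hTn : ∀ x : Lˣ, x ^ n ∈ T) {m : ℕ}
    (ψ : Language.ring.Formula (Fin 1 ⊕ Fin m)) (c : Fin m → L)
    (hψ : ∀ x : Lˣ, x ∈ T ↔ ψ.Realize (Sum.elim (fun _ => (x : L)) c)) {B : Finset L}
    (hB : ∀ c : L, (∀ b ∈ B, c + b ≠ 0) →
      ∃ b ∈ B, ∃ b' ∈ B, b ≠ b' ∧ ∃ y ∈ T, (c + b) / (c + b') = ((y : Lˣ) : L)) :
    ∃ O : ValuationSubring K, O ≠ ⊤ ∧ HenselianLocalRing O ∧
      (univ : Set K).Definable₁ Language.ring {x | x ∈ O} := by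
  set S : Set L := {x | ∃ y ∈ T, x = ((y : Lˣ) : L)} with hS
  have : IsGrp S :=
    { one := ⟨1, T.one_mem, by simp⟩
      ne := by
        rintro _ ⟨y, _, rfl⟩
        exact y.ne_zero
      mul := by
        rintro _ ⟨y, hy, rfl⟩ _ ⟨z, hz, rfl⟩
        exact ⟨y * z, T.mul_mem hy hz, by simp⟩
      inv := by
        rintro _ ⟨y, hy, rfl⟩
        exact ⟨y⁻¹, T.inv_mem hy, by simp⟩ }
  have hSd : (univ : Set L).Definable₁ Language.ring S := by
    have h1 : (univ : Set L).Definable₁ Language.ring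
        {x : L | ψ.Realize (Sum.elim (fun _ => x) c)} :=
      LC.def_of_formula ψ c fun x => Iff.rfl
    have e0 : (univ : Set L).Definable Language.ring {v : Fin 1 → L | v 0 = 0} :=
      (dfun_var 0).ofPred_eq dfun_zero
    have h2 := e0.compl.inter h1
    unfold Definable₁
    convert h2 using 1
    ext v
    constructor
    · rintro ⟨y, hy, h⟩
      refine ⟨fun h0 => y.ne_zero ?_, ?_⟩
      · rw [← h]; exact h0
      · change ψ.Realize (Sum.elim (fun _ => v 0) c)
        rw [h]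
        exact (hψ y).1 hy
    · rintro ⟨h0, h⟩
      have h0' : v 0 ≠ 0 := h0
      exact ⟨Units.mk0 (v 0) h0', (hψ _).2 h, rfl⟩
  obtain ⟨x, hx⟩ : ∃ x : Lˣ, x ∉ T := by
    by_contra hcon
    push Not at hcon
    exact hT ((Subgroup.eq_top_iff' T).2 hcon)
  refine theoremRS (p := p) hK (T := S) hSd ⟨x, x.ne_zero, ?_⟩ hn ?_ (B := B) ?_
  · rintro ⟨y, hy, h⟩
    exact hx (by rwa [Units.ext h])
  · intro a ha
    exact ⟨Units.mk0 a ha ^ n, hTn _, by simp⟩
  · intro d hd
    obtain ⟨b, hb, b', hb', hne, y, hy, h⟩ := hB d hd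
    exact ⟨b, hb, b', hb', hne, y, hy, h⟩

end Pool.Agent.NIPFields.RB
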