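import Mathlib

set_option autoImplicit false

/-!
# Growth of vector spaces over a rational function field
-/

namespace Pool.Agent.NIPFields.RB

open Polynomial

/-- `F = k(t)` -/
structure RatGen (k F : Type*) [Field k] [Field F] [Algebra k F] (t : F) : Prop where
  tr : Transcendental k t
  gen : ∀ x : F, ∃ P Q : k[X], aeval t Q ≠ 0 ∧ x = aeval t P / aeval t Q

variable {k F E : Type*} [Field k] [Field F] [Algebra k F] [AddCommGroup E] [Module F E]
  [Module k E] [IsScalarTower k F E]

/-- the `k`-subspace generated by the elements `t ^ j u`, `j ≤ n`, `u ∈ U` -/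
def Tn (t : F) (n : ℕ) (U : Submodule k E) : Submodule k E :=
  Submodule.span k {x | ∃ j : ℕ, j ≤ n ∧ ∃ u ∈ U, x = t ^ j • u}

/-- common denominators -/
private theorem common_denom {t : F} (ht : RatGen k F t) {ι : Type*} [Finite ι] (c : ι → F) :
    ∃ (D : F) (C₀ : ℕ) (R : ι → k[X]), D ≠ 0 ∧ (∀ i, (R i).natDegree ≤ C₀) ∧
      ∀ i, D * c i = aeval t (R i) := by
  classical
  cases nonempty_fintype ι
  choose P Q hQ hc using fun i => ht.gen (c i)
  refine ⟨aeval t (∏ i, Q i), ∑ i, (P i * ∏ j ∈ Finset.univ.erase i, Q j).natDegree,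
    fun i => P i * ∏ j ∈ Finset.univ.erase i, Q j, ?_, ?_, ?_⟩
  · rw [map_prod]
    exact Finset.prod_ne_zero_iff.mpr fun i _ => hQ i
  · intro i
    exact Finset.single_le_sum (f := fun i => (P i * ∏ j ∈ Finset.univ.erase i, Q j).natDegree)
      (fun _ _ => Nat.zero_le _) (Finset.mem_univ i)
  · intro i
    rw [← Finset.mul_prod_erase Finset.univ Q (Finset.mem_univ i), map_mul, map_mul]
    conv_lhs => rw [hc i]
    field_simp [hQ i]

/-- Let `η` be a basis of `E` over `F`, `e` elements, and let `u_1, ..., u_m` generate `U` over `k`. There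
are a polynomial `D ≠ 0` and a number `C₀` such that all `D(t) u_i` are linear combinations of the
`η` with coefficients `P(t)`, `deg P ≤ C₀` (common denominator). So multiplication by `D(t)` maps
`Tn t n U` injectively into the span of the `t ^ j η`, `j ≤ n + C₀`, whose dimension is at most
`e (n + C₀ + 1)`. -/
theorem growth {t : F} (ht : RatGen k F t) [FiniteDimensional F E] (U : Submodule k E)
    [FiniteDimensional k U] : ∃ C : ℕ, ∀ n : ℕ, FiniteDimensional k (Tn t n U) ∧
      Module.finrank k (Tn t n U) ≤ Module.finrank F E * n + C := by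
  classical
  set e := Module.finrank F E with he
  let b : Module.Basis (Fin e) F E := Module.finBasis F E
  let v := Module.finBasis k U
  obtain ⟨D, C₀, R, hD, hR, hDR⟩ := common_denom ht
    (fun p : Fin (Module.finrank k U) × Fin e => b.repr (v p.1 : E) p.2)
  refine ⟨e * (C₀ + 1), fun n => ?_⟩
  set W : Submodule k E := Submodule.span k
    (Set.range (fun p : Fin (n + C₀ + 1) × Fin e => t ^ (p.1 : ℕ) • b p.2)) with hW
  have hWfin : FiniteDimensional k W := FiniteDimensional.span_of_finite k (Set.finite_range _)
  have hWdim : Module.finrank k W ≤ e * n + e * (C₀ + 1) := by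
    refine (finrank_range_le_card _).trans ?_
    simp only [Fintype.card_prod, Fintype.card_fin]
    apply le_of_eq
    ring
  have : SMulCommClass k F E := IsScalarTower.to_smulCommClass
  let f : E →ₗ[k] E :=
    { toFun := fun x => D • x
      map_add' := fun x y => smul_add D x y
      map_smul' := fun a x => (smul_comm a D x).symm }
  have hf : ∀ x, f x = D • x := fun _ => rfl
  have hinj : Function.Injective f := fun x y hxy => smul_right_injective E hD hxy
  have hmem : ∀ (P : k[X]) (l : Fin e), P.natDegree ≤ n + C₀ → aeval t P • b l ∈ W := by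
    intro P l hP
    rw [aeval_eq_sum_range, Finset.sum_smul]
    refine Submodule.sum_mem _ fun j hj => ?_
    rw [smul_assoc]
    refine Submodule.smul_mem _ _ (Submodule.subset_span ⟨(⟨j, ?_⟩, l), rfl⟩)
    have := Finset.mem_range.mp hj
    omega
  have hv : ∀ (i : Fin (Module.finrank k U)) (j : ℕ), j ≤ n → f (t ^ j • (v i : E)) ∈ W := by
    intro i j hj
    rw [hf]
    have h1 : D • t ^ j • (v i : E) = ∑ l, aeval t (X ^ j * R (i, l)) • b l := by
      conv_lhs => rw [← b.sum_repr (v i : E)]
      rw [Finset.smul_sum, Finset.smul_sum]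
      refine Finset.sum_congr rfl fun l _ => ?_
      rw [smul_smul, smul_smul, map_mul, map_pow, aeval_X, ← hDR (i, l)]
      congr 1
      ring
    rw [h1]
    refine Submodule.sum_mem _ fun l _ => hmem _ _ ?_
    refine natDegree_mul_le.trans ?_
    have := hR (i, l)
    have := natDegree_X_pow_le (R := k) j
    omega
  have hle : (Tn t n U).map f ≤ W := by
    rw [Tn, Submodule.map_span, Submodule.span_le]
    rintro _ ⟨_, ⟨j, hj, u, hu, rfl⟩, rfl⟩
    have hu' : u = ∑ i, v.repr ⟨u, hu⟩ i • (v i : E) := by
      have h2 := congrArg (U.subtype) (v.sum_repr ⟨u, hu⟩)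
      rw [map_sum] at h2
      simp only [map_smul, Submodule.subtype_apply] at h2
      exact h2.symm
    rw [hu', Finset.smul_sum, map_sum]
    refine Submodule.sum_mem _ fun i _ => ?_
    rw [smul_comm (t ^ j) _ (v i : E), map_smul]
    exact Submodule.smul_mem _ _ (hv i j hj)
  have hfd : FiniteDimensional k ((Tn t n U).map f) := Submodule.finiteDimensional_of_le hle
  let eqv := Submodule.equivMapOfInjective f hinj (Tn t n U)
  refine ⟨Module.Finite.equiv eqv.symm, ?_⟩
  rw [eqv.finrank_eq]
  exact (Submodule.finrank_mono hle).trans hWdim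

end Pool.Agent.NIPFields.RB
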