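import Pool.Agent.NIPFields.RB.Growth

set_option autoImplicit false

/-!
# Linear independence over the constants
-/

namespace Pool.Agent.NIPFields.RB

variable {k F E : Type*} [Field k] [Field F] [Algebra k F] [AddCommGroup E] [Module F E]
  [Module k E] [IsScalarTower k F E]

/-- The powers of a transcendental element are linearly independent over the constants. -/
private theorem li_pow {t : F} (ht : Transcendental k t) :
    LinearIndependent k fun n : ℕ => t ^ n := by
  have hinj : Function.Injective (Polynomial.aeval (R := k) t) :=
    transcendental_iff_injective.1 ht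
  have h := (Polynomial.basisMonomials k).linearIndependent.map'
    (Polynomial.aeval (R := k) t).toLinearMap (LinearMap.ker_eq_bot.2 hinj)
  have e : (⇑(Polynomial.aeval (R := k) t).toLinearMap ∘ ⇑(Polynomial.basisMonomials k)) =
      fun n : ℕ => t ^ n := by
    funext n
    simp only [Function.comp_apply, Polynomial.coe_basisMonomials, AlgHom.toLinearMap_apply,
      Polynomial.aeval_monomial, map_one, one_mul]
  rwa [e] at h

/-- The products of linearly independent vectors with powers of `t` are linearly independent over
`k` (a relation gives polynomials in `t` as coefficients, `t` is transcendental). -/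
theorem growth_li {t : F} (ht : Transcendental k t) {ι : Type*} {b : ι → E}
    (hb : LinearIndependent F b) (s : ℕ) :
    LinearIndependent k fun x : ι × Fin (s + 1) => (t ^ (x.2 : ℕ)) • b x.1 := by
  have h1 : LinearIndependent k fun n : Fin (s + 1) => t ^ (n : ℕ) :=
    (li_pow ht).comp (fun n : Fin (s + 1) => (n : ℕ)) Fin.val_injective
  have h2 := linearIndependent_smul h1 hb
  exact h2.comp (fun x : ι × Fin (s + 1) => (x.2, x.1)) (fun x y h => by
    rcases x with ⟨a, b⟩; rcases y with ⟨c, d⟩
    simp only [Prod.mk.injEq] at h ⊢
    exact ⟨h.2, h.1⟩)

end Pool.Agent.NIPFields.RB
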