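import Mathlib

set_option autoImplicit false

/-!
# Finite subfields

`Has p K n`: the field `K` of characteristic `p` contains the field with `p ^ n` elements.
-/

namespace Pool.Agent.NIPFields.RB

/-- `K` contains the field with `p ^ n` elements. -/
def Has (p : ℕ) [Fact p.Prime] (K : Type*) [Field K] (n : ℕ) : Prop :=
  Nonempty (GaloisField p n →+* K)

variable {p : ℕ} [hp : Fact p.Prime] {K : Type*} [Field K] [CharP K p]

theorem Has.one : Has p K 1 :=
  ⟨(ZMod.castHom (dvd_refl p) K).comp (GaloisField.equivZmodP p).toRingEquiv.toRingHom⟩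

/-- The solutions of `x ^ (p ^ N) = x` form a subfield. -/
private theorem closed_pow (N : ℕ) (s : Set K) (hs : ∀ x ∈ s, x ^ p ^ N = x) :
    letI := ZMod.algebra K p
    ∀ y ∈ IntermediateField.adjoin (ZMod p) s, y ^ p ^ N = y := by
  letI := ZMod.algebra K p
  intro y hy
  induction hy using IntermediateField.adjoin_induction with
  | mem x hx => exact hs x hx
  | algebraMap x => rw [← map_pow, ZMod.pow_card_pow]
  | add x y _ _ hx hy => rw [add_pow_char_pow, hx, hy]
  | inv x _ hx => rw [inv_pow, hx]
  | mul x y _ _ hx hy => rw [mul_pow, hx, hy]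

/-- A finite set of elements algebraic over the prime field generates a finite field. -/
private theorem exists_fin (s : Set K) (hsf : s.Finite)
    (hs : ∀ x ∈ s, ∃ m, m ≠ 0 ∧ x ^ p ^ m = x) :
    letI := ZMod.algebra K p
    ∃ F : IntermediateField (ZMod p) K, ∃ m, m ≠ 0 ∧ Nat.card F = p ^ m ∧ s ⊆ F ∧
      m = Module.finrank (ZMod p) F ∧ Finite F ∧
      ∀ N, (∀ x ∈ s, x ^ p ^ N = x) → ∀ y ∈ F, y ^ p ^ N = y := by
  letI := ZMod.algebra K p
  have hfd : FiniteDimensional (ZMod p) (IntermediateField.adjoin (ZMod p) s) := by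
    have := hsf.to_subtype
    refine IntermediateField.finiteDimensional_adjoin fun x hx => ?_
    obtain ⟨m, hm, hxm⟩ := hs x hx
    refine ⟨Polynomial.X ^ p ^ m - Polynomial.X, ?_, ?_⟩
    · refine Polynomial.monic_X_pow_sub ?_
      rw [Polynomial.degree_X]
      have : 1 < p ^ m := Nat.one_lt_pow hm hp.out.one_lt
      exact_mod_cast this
    · simp [hxm]
  have hfin : Finite (IntermediateField.adjoin (ZMod p) s) :=
    Module.finite_of_finite (ZMod p)
  refine ⟨IntermediateField.adjoin (ZMod p) s,
    Module.finrank (ZMod p) (IntermediateField.adjoin (ZMod p) s),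
    (Module.finrank_pos).ne', ?_, IntermediateField.subset_adjoin _ _, rfl, hfin,
    fun N hN => closed_pow N s hN⟩
  exact (FiniteField.pow_finrank_eq_natCard p _).symm

private theorem dvd_of_pow {F : Type*} [Field F] [Algebra (ZMod p) F] [Finite F] (N : ℕ)
    (h : ∀ y : F, y ^ p ^ N = y) : Module.finrank (ZMod p) F ∣ N := by
  rw [← FiniteField.orderOf_frobeniusAlgHom (ZMod p) F]
  refine orderOf_dvd_of_pow_eq_one ?_
  ext y
  rw [AlgHom.coe_pow, FiniteField.coe_frobeniusAlgHom, pow_iterate, ZMod.card]
  simpa using h y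

/-- The image of the field with `p ^ n` elements is the set of the solutions of `x ^ (p ^ n) = x`
(there are at most `p ^ n` solutions, and the elements of the image are solutions). -/
theorem mem_range_iff {n : ℕ} (hn : n ≠ 0) (σ : GaloisField p n →+* K) (x : K) :
    x ∈ σ.range ↔ x ^ p ^ n = x := by
  classical
  have hfin : Fintype (GaloisField p n) := Fintype.ofFinite _
  have hcard : Fintype.card (GaloisField p n) = p ^ n := by
    rw [← Nat.card_eq_fintype_card, GaloisField.card p n hn]
  have h1 : ∀ y : GaloisField p n, y ^ p ^ n = y := fun y => by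
    rw [← hcard]; exact FiniteField.pow_card y
  constructor
  · rintro ⟨y, rfl⟩
    rw [← map_pow, h1]
  · intro hx
    have hlt : 1 < p ^ n := Nat.one_lt_pow hn hp.out.one_lt
    have hne : (Polynomial.X ^ p ^ n - Polynomial.X : Polynomial K) ≠ 0 :=
      FiniteField.X_pow_card_sub_X_ne_zero K hlt
    have hdeg := FiniteField.X_pow_card_sub_X_natDegree_eq K hlt
    have hsub : Finset.univ.image σ ⊆
        (Polynomial.X ^ p ^ n - Polynomial.X : Polynomial K).roots.toFinset := by
      intro z hz
      obtain ⟨y, -, rfl⟩ := Finset.mem_image.1 hz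
      rw [Multiset.mem_toFinset, Polynomial.mem_roots hne]
      simp [← map_pow, h1]
    have hc : (Polynomial.X ^ p ^ n - Polynomial.X : Polynomial K).roots.toFinset.card ≤
        (Finset.univ.image σ).card := by
      rw [Finset.card_image_of_injective _ σ.injective, Finset.card_univ, hcard]
      calc _ ≤ (Polynomial.X ^ p ^ n - Polynomial.X : Polynomial K).roots.card :=
            Multiset.toFinset_card_le _
        _ ≤ (Polynomial.X ^ p ^ n - Polynomial.X : Polynomial K).natDegree :=
            Polynomial.card_roots' _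
        _ = p ^ n := hdeg
    have heq := Finset.eq_of_subset_of_card_le hsub hc
    have hmem : x ∈ (Polynomial.X ^ p ^ n - Polynomial.X : Polynomial K).roots.toFinset := by
      rw [Multiset.mem_toFinset, Polynomial.mem_roots hne]
      simp [hx]
    rw [← heq] at hmem
    obtain ⟨y, -, hy⟩ := Finset.mem_image.1 hmem
    exact ⟨y, hy⟩

theorem Has.of_dvd {m n : ℕ} (hm : m ≠ 0) (hn : n ≠ 0) (hnm : n ∣ m) (h : Has p K m) :
    Has p K n := by
  obtain ⟨σ⟩ := h
  have : Finite (GaloisField p m) := inferInstance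
  obtain ⟨f⟩ := FiniteField.nonempty_algHom_of_finrank_dvd (F := ZMod p)
    (K := GaloisField p n) (L := GaloisField p m)
    (by rw [GaloisField.finrank p hn, GaloisField.finrank p hm]; exact hnm)
  exact ⟨σ.comp f.toRingHom⟩

/-- Finitely many elements which are algebraic over the prime field are in a finite subfield. -/
theorem exists_has (s : Finset K) (hs : ∀ x ∈ s, ∃ m, m ≠ 0 ∧ x ^ p ^ m = x) :
    ∃ m, m ≠ 0 ∧ Has p K m ∧ ∀ x ∈ s, x ^ p ^ m = x := by
  letI := ZMod.algebra K p
  obtain ⟨F, m, hm, hc, hsF, -, hfin, -⟩ := exists_fin (p := p) (s : Set K) s.finite_toSet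
    (fun x hx => hs x (by simpa using hx))
  refine ⟨m, hm, ⟨F.val.toRingHom.comp
    (GaloisField.algEquivGaloisField p m hc).symm.toRingEquiv.toRingHom⟩, fun x hx => ?_⟩
  have : Fintype F := Fintype.ofFinite F
  have h1 := FiniteField.pow_card (⟨x, hsF hx⟩ : F)
  rw [← Nat.card_eq_fintype_card, hc] at h1
  exact congrArg Subtype.val h1

/-- The degree of an element over the field with `p ^ n` elements (contained in `K`): if
`x ^ (p ^ m) = x` for some `m ≠ 0`, and `q` is a prime number such that `x ^ (p ^ (n q)) = x` but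
`x ^ (p ^ n) ≠ x`, then `K` contains the field with `p ^ (n q)` elements (the finite field generated by
`x` and the field with `p ^ n` elements has `p ^ m'` elements with `n ∣ m'`, `m' ∣ n q`, `m' ≠ n`). -/
theorem Has.mul {n q : ℕ} (hn : n ≠ 0) (hq : q.Prime) (h : Has p K n) {x : K}
    (h1 : x ^ p ^ (n * q) = x) (h2 : x ^ p ^ n ≠ x) : Has p K (n * q) := by
  obtain ⟨σ⟩ := h
  letI := ZMod.algebra K p
  have hnq : n * q ≠ 0 := mul_ne_zero hn hq.ne_zero
  have hpow : ∀ z ∈ (σ.range : Set K) ∪ {x}, z ^ p ^ (n * q) = z := by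
    rintro z (hz | hz)
    · have hz' := (mem_range_iff hn σ z).1 hz
      have : ∀ k : ℕ, z ^ p ^ (n * k) = z := by
        intro k
        induction k with
        | zero => simp
        | succ k ih => rw [Nat.mul_succ, pow_add, pow_mul, ih, hz']
      exact this q
    · rw [Set.mem_singleton_iff] at hz
      rw [hz, h1]
  obtain ⟨F, m, hm, hc, hsF, hmf, hfin, hN⟩ := exists_fin (p := p) ((σ.range : Set K) ∪ {x})
    ((Set.toFinite (Set.range σ)).union (Set.finite_singleton x))
    (fun z hz => ⟨n * q, hnq, hpow z hz⟩)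
  have hdvd : m ∣ n * q := by
    rw [hmf]
    refine dvd_of_pow (F := F) (n * q) fun y => ?_
    exact Subtype.ext (hN _ hpow y.1 y.2)
  have hndvd : n ∣ m := by
    -- `GaloisField p n` embeds in `F`
    let τ : GaloisField p n →+* F := σ.codRestrict F.toSubfield.toSubring
      (fun y => hsF (Or.inl ⟨y, rfl⟩))
    have hτ : (τ.comp (algebraMap (ZMod p) (GaloisField p n))) = algebraMap (ZMod p) F :=
      Subsingleton.elim _ _
    let τ' : GaloisField p n →ₐ[ZMod p] F :=
      { τ with commutes' := fun r => congrArg (fun f => f r) hτ }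
    have := (FiniteField.nonempty_algHom_iff_finrank_dvd (F := ZMod p) (K := GaloisField p n)
      (L := F)).1 ⟨τ'⟩
    rwa [GaloisField.finrank p hn, ← hmf] at this
  have hmn : m ≠ n := by
    rintro rfl
    have : Fintype F := Fintype.ofFinite F
    have h3 := FiniteField.pow_card (⟨x, hsF (Or.inr rfl)⟩ : F)
    rw [← Nat.card_eq_fintype_card, hc] at h3
    exact h2 (congrArg Subtype.val h3)
  have hmnq : m = n * q := by
    obtain ⟨k, rfl⟩ := hndvd
    have hk : k ∣ q := Nat.dvd_of_mul_dvd_mul_left (Nat.pos_of_ne_zero hn) hdvd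
    rcases (Nat.dvd_prime hq).1 hk with hk | hk
    · exact absurd (by rw [hk, mul_one]) hmn
    · rw [hk]
  rw [hmnq] at hc
  exact ⟨F.val.toRingHom.comp
    (GaloisField.algEquivGaloisField p (n * q) hc).symm.toRingEquiv.toRingHom⟩

end Pool.Agent.NIPFields.RB
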