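import Pool.Agent.NIPFields.RB.Has

set_option autoImplicit false

/-!
# Finite subfields
-/

namespace Pool.Agent.NIPFields.RB

variable {p : ℕ} [hp : Fact p.Prime] {K : Type*} [Field K] [CharP K p]

/-- The Artin-Schreier map of a finite field is not surjective. -/
private theorem exists_not_as (n : ℕ) :
    ∃ a : GaloisField p n, ∀ u : GaloisField p n, u ^ p - u ≠ a := by
  have hfin : Finite (GaloisField p n) := inferInstance
  by_contra hcon
  push Not at hcon
  have hsurj : Function.Surjective fun u : GaloisField p n => u ^ p - u := hcon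
  have hinj := Finite.injective_iff_surjective.2 hsurj
  have h01 : (0 : GaloisField p n) = 1 := by
    apply hinj
    simp [zero_pow hp.out.ne_zero]
  exact zero_ne_one h01

private theorem as_iterate {n : ℕ} {y b : K} (hy : y ^ p - y = b) (hb : b ^ p ^ n = b) :
    y ^ p ^ (n * p) = y := by
  set φ := iterateFrobenius K p n with hφ
  have hφd : ∀ x : K, φ x = x ^ p ^ n := fun x => iterateFrobenius_def p n x
  obtain ⟨s, hs⟩ : ∃ s, s = φ y - y := ⟨_, rfl⟩
  have hsp : s ^ p = s := by
    have hyp : y ^ p = y + b := by rw [← hy]; ring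
    calc s ^ p = frobenius K p s := (frobenius_def p s).symm
      _ = φ (y ^ p) - y ^ p := by
        rw [hs, map_sub, frobenius_def, frobenius_def, map_pow]
      _ = s := by
        rw [hyp, map_add, hφd b, hb, hs]
        ring
  have hsn : ∀ k : ℕ, s ^ p ^ k = s := by
    intro k
    induction k with
    | zero => simp
    | succ k ih => rw [pow_succ, pow_mul, ih, hsp]
  have key : ∀ j : ℕ, y ^ p ^ (n * j) = y + j * s := by
    intro j
    induction j with
    | zero => simp
    | succ j ih =>
      rw [Nat.mul_succ, pow_add, pow_mul, ih, ← hφd, map_add, map_mul, map_natCast, hφd s, hsn n]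
      have e : φ y = y + s := by rw [hs]; ring
      rw [e]
      push_cast
      ring
  rw [key p, CharP.cast_eq_zero K p]
  ring

/-- Artin-Schreier: if `u ↦ u ^ p - u` is surjective on `K`, and the field `F` with `p ^ n` elements is
contained in `K`, choose `a ∈ F`, not of the form `u ^ p - u`, `u ∈ F` (the map is not injective on
`F`, so not surjective), and `y ∈ K` with `y ^ p - y = a`. So `y ∉ F`, i.e. `y ^ (p ^ n) ≠ y`. But
`y ^ (p ^ n) = y + s`, `s = a + a ^ p + ... + a ^ (p ^ (n-1))`, `s ^ p = s`, so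
`y ^ (p ^ (n j)) = y + j s` and `y ^ (p ^ (n p)) = y`. -/
theorem Has.mul_p (hAS : ∀ w : K, ∃ u : K, u ^ p - u = w) {n : ℕ} (hn : n ≠ 0) (h : Has p K n) :
    Has p K (n * p) := by
  obtain ⟨σ⟩ := h
  obtain ⟨a, ha⟩ := exists_not_as (p := p) n
  obtain ⟨y, hy⟩ := hAS (σ a)
  refine Has.mul hn hp.out ⟨σ⟩ (x := y) (as_iterate hy ?_) fun h2 => ?_
  · exact (mem_range_iff hn σ (σ a)).1 ⟨a, rfl⟩
  · obtain ⟨u, hu⟩ := (mem_range_iff hn σ y).2 h2
    refine ha u (σ.injective ?_)
    rw [map_sub, map_pow, hu, hy]

end Pool.Agent.NIPFields.RB
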