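import Pool.Agent.NIPFields.RB.Has

set_option autoImplicit false

/-!
# Finite subfields
-/

namespace Pool.Agent.NIPFields.RB

variable {p : ℕ} [hp : Fact p.Prime] {K : Type*} [Field K] [CharP K p]

/-- Kummer: if the field `F` with `p ^ n` elements is contained in `K`, but the field with
`p ^ (n r)` elements is not (`r` prime), then an element of `F` which is an `r`-th power in `K` is an
`r`-th power in `F`: if `x = y ^ r`, `y ∈ K`, and `x` is not an `r`-th power in `F`, then `X ^ r - x` is
irreducible over `F` (`X_pow_sub_C_irreducible_of_prime`), so `F(y)` has `p ^ (n r)` elements. -/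
theorem pow_mem_of_not_has {n r : ℕ} (hn : n ≠ 0) (hr : r.Prime) (hnr : ¬ Has p K (n * r))
    (σ : GaloisField p n →+* K) (x : GaloisField p n) (y : K) (hy : σ x = y ^ r) :
    ∃ z : GaloisField p n, x = z ^ r := by
  by_contra hz
  push Not at hz
  have hirr : Irreducible (Polynomial.X ^ r - Polynomial.C x) :=
    X_pow_sub_C_irreducible_of_prime hr fun b hb => hz b hb.symm
  set f : Polynomial (GaloisField p n) := Polynomial.X ^ r - Polynomial.C x with hf
  haveI : Fact (Irreducible f) := ⟨hirr⟩
  have hf0 : f ≠ 0 := hirr.ne_zero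
  have hfin : Module.Finite (GaloisField p n) (AdjoinRoot f) :=
    (AdjoinRoot.powerBasis hf0).finite
  haveI : Finite (AdjoinRoot f) := Module.finite_of_finite (GaloisField p n)
  have hrank : Module.finrank (GaloisField p n) (AdjoinRoot f) = r := by
    rw [(AdjoinRoot.powerBasis hf0).finrank, AdjoinRoot.powerBasis_dim, hf,
      Polynomial.natDegree_X_pow_sub_C]
  have hcard : Nat.card (AdjoinRoot f) = p ^ (n * r) := by
    rw [Module.natCard_eq_pow_finrank (K := GaloisField p n), hrank, GaloisField.card p n hn,
      ← pow_mul]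
  letI : Algebra (ZMod p) (AdjoinRoot f) :=
    ((algebraMap (GaloisField p n) (AdjoinRoot f)).comp
      (algebraMap (ZMod p) (GaloisField p n))).toAlgebra
  let e := GaloisField.algEquivGaloisField p (n * r) hcard
  let g : AdjoinRoot f →+* K := AdjoinRoot.lift σ y (by simp [hf, hy])
  exact hnr ⟨g.comp (e.symm : GaloisField p (n * r) →+* AdjoinRoot f)⟩

end Pool.Agent.NIPFields.RB
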