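import Pool.Agent.NIPFields.RB.Has

set_option autoImplicit false

/-!
# Finite subfields
-/

namespace Pool.Agent.NIPFields.RB

variable {p : ℕ} [hp : Fact p.Prime] {K : Type*} [Field K] [CharP K p]

/-- The field with `p ^ (n r)` elements has elements outside the field with `p ^ n` elements. -/
private theorem hasd_exists {n r : ℕ} (hn : n ≠ 0) (hr : r.Prime) {L : Type*} [Field L]
    (σ : GaloisField p (n * r) →+* L) : ∃ x : L, x ^ p ^ (n * r) = x ∧ x ^ p ^ n ≠ x := by
  classical
  have hq : n * r ≠ 0 := mul_ne_zero hn hr.ne_zero
  have hfin : Fintype (GaloisField p (n * r)) := Fintype.ofFinite _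
  have hcard : Fintype.card (GaloisField p (n * r)) = p ^ (n * r) := by
    rw [← Nat.card_eq_fintype_card, GaloisField.card p (n * r) hq]
  have h1 : ∀ y : GaloisField p (n * r), y ^ p ^ (n * r) = y := fun y => by
    rw [← hcard]; exact FiniteField.pow_card y
  by_contra hcon
  push Not at hcon
  have h2 : ∀ y : GaloisField p (n * r), y ^ p ^ n = y := by
    intro y
    apply σ.injective
    rw [map_pow]
    exact hcon (σ y) (by rw [← map_pow, h1])
  have hlt : 1 < p ^ n := Nat.one_lt_pow hn hp.out.one_lt
  have hne : (Polynomial.X ^ p ^ n - Polynomial.X : Polynomial (GaloisField p (n * r))) ≠ 0 :=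
    FiniteField.X_pow_card_sub_X_ne_zero _ hlt
  have hdeg := FiniteField.X_pow_card_sub_X_natDegree_eq (GaloisField p (n * r)) hlt
  have hsub : (Finset.univ : Finset (GaloisField p (n * r))) ⊆
      (Polynomial.X ^ p ^ n - Polynomial.X :
        Polynomial (GaloisField p (n * r))).roots.toFinset := by
    intro z _
    rw [Multiset.mem_toFinset, Polynomial.mem_roots hne]
    simp [h2]
  have h3 := Finset.card_le_card hsub
  have h4 := (Multiset.toFinset_card_le (Polynomial.X ^ p ^ n - Polynomial.X :
    Polynomial (GaloisField p (n * r))).roots).trans (Polynomial.card_roots' _)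
  rw [Finset.card_univ, hcard] at h3
  rw [hdeg] at h4
  have h5 : p ^ n < p ^ (n * r) := by
    refine Nat.pow_lt_pow_right hp.out.one_lt ?_
    have := hr.two_le
    have hn' : 0 < n := Nat.pos_of_ne_zero hn
    nlinarith
  omega

/-- The polynomial `X ^ (p ^ m) - X` splits over a field which contains the field with `p ^ m`
elements. -/
private theorem hasd_splits {m : ℕ} (hm : m ≠ 0) {L : Type*} [Field L]
    (σ : GaloisField p m →+* L) :
    (Polynomial.X ^ p ^ m - Polynomial.X : Polynomial L).Splits := by
  have hfin : Fintype (GaloisField p m) := Fintype.ofFinite _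
  have hcard : Fintype.card (GaloisField p m) = p ^ m := by
    rw [← Nat.card_eq_fintype_card, GaloisField.card p m hm]
  have h1 : (Polynomial.X ^ p ^ m - Polynomial.X : Polynomial (GaloisField p m)).Splits := by
    have h := FiniteField.splits_X_pow_card_sub_X (p := p) (K := GaloisField p m)
    rw [hcard, Polynomial.map_sub, Polynomial.map_pow, Polynomial.map_X] at h
    exact h
  have h2 := h1.map σ
  rw [Polynomial.map_sub, Polynomial.map_pow, Polynomial.map_X] at h2
  exact h2

/-- If `L` is an extension of `K` of degree less than the prime `r`, `K` contains the field `F` with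
`p ^ n` elements and `L` contains the field with `p ^ (n r)` elements, then `K` contains it:
let `x ∈ L` with `x ^ (p ^ (n r)) = x`, `x ^ (p ^ n) ≠ x`. The minimal polynomial of `x` over `K` is a
factor of the product of the `X - x ^ (p ^ (n j))`, `j < r`; these roots are permuted cyclically by
the map `z ↦ z ^ (p ^ n)`, which does not change the coefficients in `F`. If the minimal polynomial
over `K` has degree less than `r`, its coefficients are elements of `K` which are algebraic over
the prime field and are contained in the finite field `F(x)`, of degree `r` over `F`; if they were all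
in `F` then `x` would have degree less than `r` over `F`; so `K ∩ F(x) ≠ F`, and as the degree of `F(x)`
over `F` is prime, `F(x)` is contained in `K` (`Has.mul`). -/
theorem Has.of_extension {n r : ℕ} (hn : n ≠ 0) (hr : r.Prime) (h : Has p K n) {L : Type*}
    [Field L] [Algebra K L] [FiniteDimensional K L] (hd : Module.finrank K L < r)
    (hL : Has p L (n * r)) : Has p K (n * r) := by
  classical
  have hcL : CharP L p := charP_of_injective_algebraMap (algebraMap K L).injective p
  obtain ⟨σ⟩ := hL
  have hq : n * r ≠ 0 := mul_ne_zero hn hr.ne_zero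
  obtain ⟨x, hx1, hx2⟩ := hasd_exists (p := p) hn hr σ
  have hint : IsIntegral K x := IsIntegral.of_finite K x
  have hmon : ((minpoly K x).map (algebraMap K L)).Monic := (minpoly.monic hint).map _
  have hlt : 1 < p ^ (n * r) := Nat.one_lt_pow hq hp.out.one_lt
  have hne : (Polynomial.X ^ p ^ (n * r) - Polynomial.X : Polynomial L) ≠ 0 :=
    FiniteField.X_pow_card_sub_X_ne_zero L hlt
  have hdvd : (minpoly K x).map (algebraMap K L) ∣
      (Polynomial.X ^ p ^ (n * r) - Polynomial.X : Polynomial L) := by
    have h1 : minpoly K x ∣ (Polynomial.X ^ p ^ (n * r) - Polynomial.X : Polynomial K) := by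
      refine minpoly.dvd K x ?_
      simp [hx1]
    have h2 := Polynomial.map_dvd (algebraMap K L) h1
    rw [Polynomial.map_sub, Polynomial.map_pow, Polynomial.map_X] at h2
    exact h2
  have hsplit : ((minpoly K x).map (algebraMap K L)).Splits :=
    (hasd_splits (p := p) hq σ).of_dvd hne hdvd
  have hlift := hsplit.mem_lift_of_roots_mem_range hmon σ (by
    intro a ha
    rw [mem_range_iff hq σ]
    have h1 : (Polynomial.X ^ p ^ (n * r) - Polynomial.X : Polynomial L).IsRoot a :=
      (Polynomial.mem_roots'.1 ha).2.dvd hdvd
    rw [Polynomial.IsRoot.def] at h1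
    simp only [Polynomial.eval_sub, Polynomial.eval_pow, Polynomial.eval_X] at h1
    exact sub_eq_zero.1 h1)
  rw [Polynomial.lifts_iff_coeff_lifts] at hlift
  have hcoef : ∀ i, (minpoly K x).coeff i ^ p ^ (n * r) = (minpoly K x).coeff i := by
    intro i
    obtain ⟨y, hy⟩ := hlift i
    have h1 : (algebraMap K L ((minpoly K x).coeff i)) ^ p ^ (n * r) =
        algebraMap K L ((minpoly K x).coeff i) := by
      rw [← Polynomial.coeff_map, ← hy]
      exact (mem_range_iff hq σ _).1 ⟨y, rfl⟩
    apply (algebraMap K L).injective
    rw [map_pow]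
    exact h1
  by_cases hall : ∀ i, (minpoly K x).coeff i ^ p ^ n = (minpoly K x).coeff i
  · exfalso
    have hroot : ∀ y : L, Polynomial.aeval y (minpoly K x) = 0 →
        Polynomial.aeval (y ^ p ^ n) (minpoly K x) = 0 := by
      intro y hy
      have h1 : Polynomial.aeval (y ^ p ^ n) (minpoly K x) =
          (Polynomial.aeval y (minpoly K x)) ^ p ^ n := by
        rw [Polynomial.aeval_eq_sum_range, Polynomial.aeval_eq_sum_range, sum_pow_char_pow]
        refine Finset.sum_congr rfl fun i _ => ?_
        rw [Algebra.smul_def, Algebra.smul_def, mul_pow, ← map_pow, hall i, ← pow_mul,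
          ← pow_mul, mul_comm (p ^ n) i]
      rw [h1, hy, zero_pow (pow_ne_zero n hp.out.ne_zero)]
    have hiter : ∀ i : ℕ, Polynomial.aeval ((fun y : L => y ^ p ^ n)^[i] x) (minpoly K x) = 0 := by
      intro i
      induction i with
      | zero => exact minpoly.aeval K x
      | succ i ih =>
        rw [Function.iterate_succ_apply']
        exact hroot _ ih
    have hpow : ∀ i : ℕ, (fun y : L => y ^ p ^ n)^[i] x = x ^ p ^ (n * i) := by
      intro i
      induction i with
      | zero => simp
      | succ i ih =>
        rw [Function.iterate_succ_apply', ih, ← pow_mul, ← pow_add, Nat.mul_succ]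
    have hper : Function.IsPeriodicPt (fun y : L => y ^ p ^ n) r x := by
      change (fun y : L => y ^ p ^ n)^[r] x = x
      rw [hpow, hx1]
    have hmin : Function.minimalPeriod (fun y : L => y ^ p ^ n) x = r := by
      rcases (Nat.dvd_prime hr).1 hper.minimalPeriod_dvd with h1 | h1
      · exfalso
        apply hx2
        exact Function.minimalPeriod_eq_one_iff_isFixedPt.1 h1
      · exact h1
    have hinj : Set.InjOn (fun i : ℕ => (fun y : L => y ^ p ^ n)^[i] x) (Set.Iio r) := by
      have h1 := Function.iterate_injOn_Iio_minimalPeriod (f := fun y : L => y ^ p ^ n) (x := x)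
      rw [hmin] at h1
      exact h1
    have hsub : (Finset.range r).image (fun i : ℕ => (fun y : L => y ^ p ^ n)^[i] x) ⊆
        ((minpoly K x).map (algebraMap K L)).roots.toFinset := by
      intro z hz
      obtain ⟨i, -, rfl⟩ := Finset.mem_image.1 hz
      rw [Multiset.mem_toFinset, Polynomial.mem_roots hmon.ne_zero, Polynomial.IsRoot.def,
        Polynomial.eval_map_algebraMap]
      exact hiter i
    have h1 := Finset.card_le_card hsub
    rw [Finset.card_image_of_injOn (by
      intro a ha b hb hab
      exact hinj (by simpa using ha) (by simpa using hb) hab), Finset.card_range] at h1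
    have h2 := (Multiset.toFinset_card_le
      ((minpoly K x).map (algebraMap K L)).roots).trans (Polynomial.card_roots' _)
    rw [Polynomial.natDegree_map] at h2
    have h3 : (minpoly K x).natDegree ≤ Module.finrank K L := minpoly.natDegree_le x
    omega
  · push Not at hall
    obtain ⟨i, hi⟩ := hall
    exact Has.mul hn hr h (hcoef i) hi

end Pool.Agent.NIPFields.RB
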