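import Pool.Agent.NIPFields.LG.Germ

set_option autoImplicit false

/-!
# The VC dimension of the relation that a sum is a power
-/

namespace Pool.Agent.NIPFields.RB

open FirstOrder FirstOrder.Language FirstOrder.Ring Set
open Pool.Agent.NIPFields.FI Pool.Agent.NIPFields.LG

universe u

variable {K : Type u} [Field K] [CompatibleRing K]

/-- The VC dimension of the relation `x + y` is an `r`-th power (proof as for `NIP.vc_lin`). -/
theorem vc_add (hK : NIP K) (r : ℕ) : ∃ d : ℕ, ∀ y : Fin d → K, ∃ J : Finset (Fin d), ∀ x : K,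
    ∃ i, ¬ (x + y i ∈ Pw K r ↔ i ∈ J) := by
  let e : Module.Basis (Fin (Module.finrank K K)) K K := Module.finBasis K K
  have h0 : LDef e {v : (Fin 1 ⊕ Fin 1) ⊕ Fin 1 → K | v (Sum.inr 0) = 0} :=
    LFun.eq (LFun.var _) (LFun.const 0)
  have h1 : LDef e {v : (Fin 1 ⊕ Fin 1) ⊕ Fin 1 → K |
      v (Sum.inl (Sum.inr 0)) + v (Sum.inl (Sum.inl 0)) = v (Sum.inr 0) ^ r} :=
    LFun.eq ((LFun.var _).add (LFun.var _)) ((LFun.var _).pow r)
  obtain ⟨n, hn⟩ := hK.ldef (h0.compl.inter h1).exists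
  refine ⟨n, fun y => ?_⟩
  by_contra hcon
  push Not at hcon
  choose x hx using hcon
  obtain ⟨i, J, hiJ⟩ := hn (fun i _ => y i) (fun J _ => x J)
  apply hiJ
  rw [← hx J i]
  constructor
  · rintro ⟨u, hu1, hu2⟩
    exact ⟨u 0, hu1, hu2⟩
  · rintro ⟨z, hz1, hz2⟩
    exact ⟨fun _ => z, hz1, hz2⟩

end Pool.Agent.NIPFields.RB
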