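import Pool.Agent.NIPFields.RB.FinIP
import Pool.Agent.NIPFields.RB.HasB
import Pool.Agent.NIPFields.RB.HasC
import Pool.Agent.NIPFields.RB.VcAdd
import Pool.Agent.NIPFields.KSW

set_option autoImplicit false

/-!
# Kummer extensions of finite subfields of NIP fields
-/

namespace Pool.Agent.NIPFields.RB

open FirstOrder FirstOrder.Language FirstOrder.Ring Set
open Pool.Agent.NIPFields.FI Pool.Agent.NIPFields.LG

universe u

variable {p : ℕ} [hp : Fact p.Prime] {K : Type u} [Field K] [CompatibleRing K] [CharP K p]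
  [Infinite K]

/-- Let `r ≠ p` be a prime with `r ∣ p ^ n - 1`. Suppose that `K` does not contain the field with
`p ^ (n r)` elements. By `NIP.artinSchreier` (with `L = K`) and `Has.mul_p`, `K` contains the field
`F` with `Q = p ^ (n p ^ j)` elements for every `j`, and it does not contain the field with
`Q ^ r` elements (`Has.of_dvd`). So `F ∩ Pw K r = Pw F r` (`pow_mem_of_not_has`). Take `d` of `vc_add` and
`j` so large that `exists_patterns d r` applies to `F` (`r ∣ Q - 1`): contradiction. -/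
theorem has_mul_kummer (hK : NIP K) {n r : ℕ} (hn : n ≠ 0) (hr : r.Prime) (hrp : r ≠ p)
    (hdvd : r ∣ p ^ n - 1) (h : Has p K n) : Has p K (n * r) := by
  by_contra hnr
  have hp0 : p ≠ 0 := hp.out.ne_zero
  have hAS : ∀ w : K, ∃ u : K, u ^ p - u = w := fun w =>
    NIP.artinSchreier hK (Module.Basis.singleton (Fin 1) K) (p := p) w
  -- the towers
  have hpow : ∀ j : ℕ, n * p ^ j ≠ 0 := fun j => mul_ne_zero hn (pow_ne_zero j hp0)
  have hhas : ∀ j : ℕ, Has p K (n * p ^ j) := by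
    intro j
    induction j with
    | zero => simpa using h
    | succ j ih =>
      have h1 := Has.mul_p hAS (hpow j) ih
      rwa [mul_assoc, ← pow_succ] at h1
  have hnot : ∀ j : ℕ, ¬ Has p K (n * p ^ j * r) := by
    intro j hj
    exact hnr (Has.of_dvd (mul_ne_zero (hpow j) hr.ne_zero) (mul_ne_zero hn hr.ne_zero)
      ⟨p ^ j, by ring⟩ hj)
  obtain ⟨d, hd⟩ := vc_add hK r
  obtain ⟨N, hN⟩ := exists_patterns d r hr
  have hm := hpow N
  obtain ⟨σ⟩ := hhas N
  let _ : Fintype (GaloisField p (n * p ^ N)) := Fintype.ofFinite _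
  have hcard : Fintype.card (GaloisField p (n * p ^ N)) = p ^ (n * p ^ N) := by
    rw [← Nat.card_eq_fintype_card]
    exact GaloisField.card p _ hm
  have hN1 : N ≤ Fintype.card (GaloisField p (n * p ^ N)) := by
    rw [hcard]
    calc N ≤ p ^ N := (Nat.lt_pow_self hp.out.one_lt).le
      _ ≤ n * p ^ N := Nat.le_mul_of_pos_left _ (Nat.pos_of_ne_zero hn)
      _ ≤ p ^ (n * p ^ N) := (Nat.lt_pow_self hp.out.one_lt).le
  have hdv : r ∣ Fintype.card (GaloisField p (n * p ^ N)) - 1 := by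
    rw [hcard, pow_mul]
    refine hdvd.trans ?_
    have h1 := Nat.sub_dvd_pow_sub_pow (p ^ n) 1 (p ^ N)
    rwa [one_pow] at h1
  obtain ⟨b, hb⟩ := hN (GaloisField p (n * p ^ N)) hN1 hdv
  obtain ⟨J, hJ⟩ := hd (fun i => σ (b i))
  obtain ⟨x, hx⟩ := hb J
  obtain ⟨i, hi⟩ := hJ (σ x)
  apply hi
  rw [← hx i, ← map_add]
  constructor
  · rintro ⟨y, hy, hxy⟩
    obtain ⟨z, hz⟩ := pow_mem_of_not_has hm hr (hnot N) σ _ y hxy
    refine ⟨z, ?_, hz⟩
    rintro rfl
    rw [zero_pow hr.ne_zero] at hz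
    rw [hz, map_zero] at hxy
    exact hy ((pow_eq_zero_iff hr.ne_zero).1 hxy.symm)
  · rintro ⟨z, hz, hxz⟩
    exact ⟨σ z, (map_ne_zero σ).2 hz, by rw [hxz, map_pow]⟩

end Pool.Agent.NIPFields.RB
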