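import Pool.Agent.NIPFields.RB.HasD
import Pool.Agent.NIPFields.RB.HasK
import Pool.Agent.NIPFields.NipFinite

set_option autoImplicit false

/-!
# All finite fields are contained in infinite NIP fields
-/

namespace Pool.Agent.NIPFields.RB

open FirstOrder FirstOrder.Language FirstOrder.Ring Set
open Pool.Agent.NIPFields.FI Pool.Agent.NIPFields.LG

universe u

variable {p : ℕ} [hp : Fact p.Prime] {K : Type u} [Field K] [CompatibleRing K] [CharP K p]
  [Infinite K]

/-- Any prime `r`: for `r = p` use `Has.mul_p`. Otherwise let `L` be the extension of `K` generated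
by a primitive `r`-th root of unity, of degree less than `r` (e.g. `CyclotomicField r K`); `L` is
NIP (`NIP.finite`, `compatibleRingOfRing`). The finite field generated by the field with `p ^ n`
elements and the root of unity has `p ^ m` elements, `n ∣ m`, `r ∣ p ^ m - 1` (`exists_has`). So `L`
contains the field with `p ^ (m r)` elements (`has_mul_kummer`), so the field with `p ^ (n r)`
elements, and so does `K` (`Has.of_extension`). -/
theorem has_mul_prime (hK : NIP K) {n r : ℕ} (hn : n ≠ 0) (hr : r.Prime) (h : Has p K n) :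
    Has p K (n * r) := by
  classical
  by_cases hrp : r = p
  · rw [hrp]
    exact Has.mul_p (fun w => hK.artinSchreier (Module.finBasis K K) w) hn h
  have hrK : (r : K) ≠ 0 := by
    intro h0
    rw [CharP.cast_eq_zero_iff K p] at h0
    exact hrp ((Nat.prime_dvd_prime_iff_eq hp.out hr).1 h0).symm
  have hrΩ : NeZero (r : AlgebraicClosure K) := ⟨by
    intro h0
    apply hrK
    apply (algebraMap K (AlgebraicClosure K)).injective
    rw [map_natCast, h0, map_zero]⟩
  -- a primitive root of unity
  obtain ⟨ζ, hζ⟩ := IsAlgClosed.exists_root (Polynomial.cyclotomic r (AlgebraicClosure K))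
    (by
      have h1 := Polynomial.degree_cyclotomic_pos r (AlgebraicClosure K) hr.pos
      exact h1.ne')
  rw [Polynomial.isRoot_cyclotomic_iff] at hζ
  have hint : IsIntegral K ζ := Algebra.IsIntegral.isIntegral ζ
  let L := IntermediateField.adjoin K {ζ}
  have hfd : FiniteDimensional K L := IntermediateField.adjoin.finiteDimensional hint
  have hfr : Module.finrank K L < r := by
    have h1 : Module.finrank K L = (minpoly K ζ).natDegree := IntermediateField.adjoin.finrank hint
    have h2 : minpoly K ζ ∣ Polynomial.cyclotomic r K := by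
      refine minpoly.dvd K ζ ?_
      rw [Polynomial.aeval_def, Polynomial.eval₂_eq_eval_map, Polynomial.map_cyclotomic]
      exact (Polynomial.isRoot_cyclotomic_iff.2 hζ)
    have h3 := Polynomial.natDegree_le_of_dvd h2 (Polynomial.cyclotomic_ne_zero r K)
    rw [Polynomial.natDegree_cyclotomic, Nat.totient_prime hr] at h3
    have := hr.pos
    omega
  let _ : CompatibleRing L := compatibleRingOfRing L
  have hL : NIP L := NIP.finite (K := K) hK (Module.finBasis K L)
  have hch : CharP L p := charP_of_injective_algebraMap (algebraMap K L).injective p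
  have hinf : Infinite L := Infinite.of_injective _ (algebraMap K L).injective
  let z : L := ⟨ζ, IntermediateField.mem_adjoin_simple_self K ζ⟩
  have hz : IsPrimitiveRoot z r := by
    refine IsPrimitiveRoot.of_map_of_injective (f := algebraMap L (AlgebraicClosure K)) ?_
      (algebraMap L (AlgebraicClosure K)).injective
    exact hζ
  obtain ⟨σ⟩ := h
  let F := GaloisField p n
  have hcard : Nat.card F = p ^ n := GaloisField.card p n hn
  let _ : Fintype F := Fintype.ofFinite F
  let τ : F →+* L := (algebraMap K L).comp σ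
  have hFx : ∀ x : F, x ^ p ^ n = x := by
    intro x
    have h1 := FiniteField.pow_card x
    rwa [← Nat.card_eq_fintype_card, hcard] at h1
  obtain ⟨m, hm0, hm, hs⟩ := exists_has (p := p) (K := L) (insert z (Finset.univ.image τ)) (by
    intro x hx
    rcases Finset.mem_insert.1 hx with rfl | hx
    · -- a root of unity
      have hpr : p.Coprime r := (Nat.coprime_primes hp.out hr).2 (Ne.symm hrp)
      refine ⟨r.totient, (Nat.totient_pos.2 hr.pos).ne', ?_⟩
      have h1 : p ^ r.totient ≡ 1 [MOD r] := Nat.ModEq.pow_totient hpr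
      have h2 : r ∣ p ^ r.totient - 1 := (Nat.modEq_iff_dvd' (Nat.one_le_pow _ _ hp.out.pos)).1 h1.symm
      have h3 : z ^ (p ^ r.totient - 1) = 1 := (hz.pow_eq_one_iff_dvd _).2 h2
      have h4 : p ^ r.totient = (p ^ r.totient - 1) + 1 :=
        (Nat.sub_add_cancel (Nat.one_le_pow _ _ hp.out.pos)).symm
      calc z ^ p ^ r.totient = z ^ ((p ^ r.totient - 1) + 1) := by rw [← h4]
        _ = z := by rw [pow_succ, h3, one_mul]
    · obtain ⟨y, _, rfl⟩ := Finset.mem_image.1 hx
      exact ⟨n, hn, by rw [← map_pow, hFx]⟩)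
  -- `n ∣ m`
  have hpm : 1 ≤ p ^ m := Nat.one_le_pow _ _ hp.out.pos
  have hpn : 1 ≤ p ^ n := Nat.one_le_pow _ _ hp.out.pos
  have hnm : n ∣ m := by
    obtain ⟨g, hg⟩ := IsCyclic.exists_ofOrder_eq_natCard (α := Fˣ)
    rw [Nat.card_units, hcard] at hg
    have h1 : (g : F) ^ p ^ m = g := by
      apply τ.injective
      rw [map_pow]
      exact hs _ (Finset.mem_insert_of_mem (Finset.mem_image_of_mem τ (Finset.mem_univ _)))
    have h2 : g ^ (p ^ m - 1) = 1 := by
      have h3 : g ^ (p ^ m - 1) * g = 1 * g := by
        rw [← pow_succ, Nat.sub_add_cancel hpm, one_mul]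
        exact Units.ext (by rw [Units.val_pow_eq_pow_val]; exact h1)
      exact mul_right_cancel h3
    have h3 : p ^ n - 1 ∣ p ^ m - 1 := hg ▸ orderOf_dvd_of_pow_eq_one h2
    have h4 : Nat.gcd (p ^ n - 1) (p ^ m - 1) = p ^ Nat.gcd n m - 1 :=
      Nat.pow_sub_one_gcd_pow_sub_one p n m
    rw [Nat.gcd_eq_left h3] at h4
    have h5 : p ^ n = p ^ Nat.gcd n m := by
      have := Nat.one_le_pow (Nat.gcd n m) _ hp.out.pos
      omega
    have h6 := Nat.pow_right_injective hp.out.two_le h5
    rw [h6]
    exact Nat.gcd_dvd_right n m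
  -- `r ∣ p ^ m - 1`
  have hrm : r ∣ p ^ m - 1 := by
    refine hz.dvd_of_pow_eq_one _ ?_
    have h1 := hs z (Finset.mem_insert_self _ _)
    have h3 : z ^ (p ^ m - 1) * z = 1 * z := by
      rw [← pow_succ, Nat.sub_add_cancel hpm, one_mul]
      exact h1
    exact mul_right_cancel₀ (hz.ne_zero hr.ne_zero) h3
  have hk : Has p L (m * r) := has_mul_kummer hL hm0 hr hrp hrm hm
  have hk2 : Has p L (n * r) :=
    Has.of_dvd (mul_ne_zero hm0 hr.ne_zero) (mul_ne_zero hn hr.ne_zero)
      (mul_dvd_mul_right hnm r) hk
  exact Has.of_extension hn hr ⟨σ⟩ hfr hk2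

theorem has_all (hK : NIP K) {n : ℕ} (hn : n ≠ 0) : Has p K n := by
  induction n using Nat.recOnMul with
  | zero => exact absurd rfl hn
  | one => exact Has.one
  | prime q hq =>
    have h := has_mul_prime hK one_ne_zero hq (Has.one (p := p) (K := K))
    rwa [one_mul] at h
  | mul a b ha hb =>
    have ha0 : a ≠ 0 := left_ne_zero_of_mul hn
    have hb0 : b ≠ 0 := right_ne_zero_of_mul hn
    clear hb ha
    have key : ∀ b : ℕ, b ≠ 0 → ∀ a : ℕ, a ≠ 0 → Has p K a → Has p K (a * b) := by
      intro b
      induction b using Nat.recOnMul with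
      | zero => exact fun h => absurd rfl h
      | one => intro _ a _ h; rwa [mul_one]
      | prime q hq => exact fun _ a ha h => has_mul_prime hK ha hq h
      | mul c d hc hd =>
        intro hcd a ha h
        rw [← mul_assoc]
        exact hd (right_ne_zero_of_mul hcd) _ (mul_ne_zero ha (left_ne_zero_of_mul hcd))
          (hc (left_ne_zero_of_mul hcd) _ ha h)
    have h1 := key (a * b) hn 1 one_ne_zero Has.one
    rwa [one_mul] at h1

end Pool.Agent.NIPFields.RB
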