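import Pool.Agent.NIPFields.LZ.BddV
import Pool.Agent.NIPFields.LG.Germ

set_option autoImplicit false

/-!
# Two independent definable valuation rings: the character for a prime `q`
-/

namespace Pool.Agent.NIPFields.RB

open FirstOrder FirstOrder.Language FirstOrder.Ring Set IsLocalRing Filter
open Pool.Agent.NIPFields.LC Pool.Agent.NIPFields.LG Pool.Agent.NIPFields.FI
open Pool.Agent.NIPFields.LZ

universe u

attribute [local instance] germAlg

/-- the relation of the VC condition -/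
def iq_R (q : ℕ) (κ : Type u) [Field κ] {k : Type u} [Field k] [Algebra κ k]
    (A : ValuationSubring k) (F : Finset κ) (a f x c t : k) : Prop :=
  ∃ y : k, y ^ q = 1 + f * x ∧ (y - 1) / c ∈ US κ q k F ∧ A.valuation (y - a) < A.valuation t

theorem iq_US {q : ℕ} {κ : Type u} [Field κ] {F : Finset κ} {g : Finset κ → κ} :
    (↑g : Germ (UF κ : Filter (Finset κ)) κ) ∈ US κ q (Germ (UF κ : Filter (Finset κ)) κ) F ↔
      ∀ᶠ s in (UF κ : Filter (Finset κ)), g s ∈ US κ q κ F := by
  have h1 : (∀ᶠ s in (UF κ : Filter (Finset κ)), g s ∈ US κ q κ F) ↔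
      ∀ φ ∈ F, ∀ᶠ s in (UF κ : Filter (Finset κ)), 1 + φ * g s ∈ Pw κ q := by
    rw [← Filter.eventually_all_finset]
    rfl
  rw [h1]
  refine forall₂_congr fun φ _ => ?_
  rw [alg_apply, ← Germ.coe_mul, ← Germ.coe_one, ← Germ.coe_add, mem_Pw_germ]
  rfl

/-- the theorem of Łoś for the relation -/
theorem iq_los {q : ℕ} {κ : Type u} [Field κ] {A : ValuationSubring κ} {F : Finset κ}
    {f x : Finset κ → κ} {a c t : κ} :
    iq_R q κ (UV (UF κ) A) F (algebraMap κ _ a) (↑f : Germ (UF κ : Filter (Finset κ)) κ)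
      (↑x : Germ (UF κ : Filter (Finset κ)) κ) (algebraMap κ _ c) (algebraMap κ _ t) ↔
    ∀ᶠ s in (UF κ : Filter (Finset κ)), iq_R q κ A F a (f s) (x s) c t := by
  classical
  have key : ∀ y : Finset κ → κ,
      ((↑y : Germ (UF κ : Filter (Finset κ)) κ) ^ q = 1 + ↑f * ↑x ∧
      ((↑y : Germ (UF κ : Filter (Finset κ)) κ) - 1) / algebraMap κ _ c ∈
        US κ q (Germ (UF κ : Filter (Finset κ)) κ) F ∧
      (UV (UF κ) A).valuation ((↑y : Germ (UF κ : Filter (Finset κ)) κ) - algebraMap κ _ a) <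
        (UV (UF κ) A).valuation (algebraMap κ _ t)) ↔
      ∀ᶠ s in (UF κ : Filter (Finset κ)), (y s ^ q = 1 + f s * x s ∧
        (y s - 1) / c ∈ US κ q κ F ∧ A.valuation (y s - a) < A.valuation t) := by
    intro y
    rw [eventually_and, eventually_and, alg_apply, alg_apply, alg_apply, ← Germ.coe_pow,
      ← Germ.coe_mul, ← Germ.coe_one, ← Germ.coe_add, Germ.coe_eq, ← Germ.coe_sub,
      ← Germ.coe_div, iq_US, ← Germ.coe_sub, UV_lt]
    rfl
  constructor
  · rintro ⟨y, hy⟩
    induction y using Germ.inductionOn with | _ y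
    filter_upwards [(key y).1 hy] with s hs
    exact ⟨y s, hs⟩
  · intro h
    let y : Finset κ → κ := fun s => if hs : iq_R q κ A F a (f s) (x s) c t then hs.choose else 0
    refine ⟨↑y, (key y).2 ?_⟩
    filter_upwards [h] with s hs
    have h1 : y s = hs.choose := dif_pos hs
    rw [h1]
    exact hs.choose_spec

section roots

variable {κ k : Type*} [Field κ] [Field k] [Algebra κ k] {q : ℕ}

/-- the image of a root of unity -/
def rr (k : Type*) [Field k] [Algebra κ k] (ξ : rootsOfUnity q κ) : k :=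
  algebraMap κ k ((ξ : κˣ) : κ)

theorem rr_pow (ξ : rootsOfUnity q κ) : rr k ξ ^ q = 1 := by
  have h : (((ξ : κˣ) : κ)) ^ q = 1 := by
    have h1 := (mem_rootsOfUnity q (ξ : κˣ)).1 ξ.2
    rw [← Units.val_pow_eq_pow_val, h1, Units.val_one]
  rw [rr, ← map_pow, h, map_one]

theorem rr_mul (ξ η : rootsOfUnity q κ) : rr k (ξ * η) = rr k ξ * rr k η := by
  simp [rr]

theorem rr_one : rr k (1 : rootsOfUnity q κ) = 1 := by
  simp [rr]

theorem rr_ne (ξ : rootsOfUnity q κ) : rr k ξ ≠ 0 := by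
  rw [rr, Ne, map_eq_zero]
  exact (ξ : κˣ).ne_zero

theorem rr_surj {ζ : κ} (hq : 0 < q) (hζ : IsPrimitiveRoot ζ q) {ω : k} (hω : ω ^ q = 1) :
    ∃ ξ : rootsOfUnity q κ, rr k ξ = ω := by
  have h1 : IsPrimitiveRoot (algebraMap κ k ζ) q :=
    hζ.map_of_injective (algebraMap κ k).injective
  have : NeZero q := ⟨hq.ne'⟩
  obtain ⟨i, _, hi⟩ := h1.eq_pow_of_pow_eq_one hω
  have hζ0 : ζ ≠ 0 := hζ.ne_zero hq.ne'
  refine ⟨⟨Units.mk0 ζ hζ0 ^ i, ?_⟩, ?_⟩
  · rw [mem_rootsOfUnity]
    apply Units.ext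
    rw [Units.val_pow_eq_pow_val, Units.val_pow_eq_pow_val, Units.val_mk0, Units.val_one,
      ← pow_mul, mul_comm, pow_mul, hζ.pow_eq_one, one_pow]
  · rw [rr, ← hi]
    simp

theorem val_alg {S : ValuationSubring k} (hS : ∀ a : κ, algebraMap κ k a ∈ S) {a : κ}
    (ha : a ≠ 0) : S.valuation (algebraMap κ k a) = 1 := by
  refine le_antisymm ((S.valuation_le_one_iff _).2 (hS a)) ?_
  have e3 := (S.valuation_le_one_iff _).2 (hS a⁻¹)
  rw [map_inv₀, map_inv₀] at e3
  exact (inv_le_one₀ (zero_lt_iff.2 ((S.valuation).ne_zero_iff.2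
    ((map_ne_zero _).2 ha)))).1 e3

theorem rr_val {S : ValuationSubring k} (hS : ∀ a : κ, algebraMap κ k a ∈ S)
    (ξ : rootsOfUnity q κ) : S.valuation (rr k ξ) = 1 :=
  val_alg hS (ξ : κˣ).ne_zero

theorem rr_inj {S : ValuationSubring k} (hS : ∀ a : κ, algebraMap κ k a ∈ S)
    {ξ η : rootsOfUnity q κ} (h : S.valuation (rr k ξ - rr k η) < 1) : ξ = η := by
  by_contra hne
  have h1 : (((ξ : κˣ) : κ)) - (((η : κˣ) : κ)) ≠ 0 := by
    rw [sub_ne_zero]
    exact fun h => hne (Subtype.ext (Units.ext h))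
  have h2 := val_alg (k := k) hS h1
  rw [map_sub] at h2
  exact absurd h (not_lt.2 h2.ge)

/-- approximate roots of unity -/
theorem rr_class {ζ : κ} (hq : 0 < q) (hζ : IsPrimitiveRoot ζ q) {S : ValuationSubring k} {y : k}
    (h : S.valuation (y ^ q - 1) < 1) :
    ∃ ξ : rootsOfUnity q κ, S.valuation (y - rr k ξ) < 1 := by
  classical
  have : NeZero q := ⟨hq.ne'⟩
  have h1 : IsPrimitiveRoot (algebraMap κ k ζ) q :=
    hζ.map_of_injective (algebraMap κ k).injective
  have h2 : y ^ q - 1 = ∏ ω ∈ Polynomial.nthRootsFinset q (1 : k), (y - ω) := by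
    have h3 := congrArg (Polynomial.eval y) (Polynomial.X_pow_sub_one_eq_prod hq h1)
    rw [Polynomial.eval_prod] at h3
    simpa using h3
  rw [h2, map_prod] at h
  by_contra hcon
  push Not at hcon
  refine absurd h (not_lt.2 ?_)
  refine Finset.one_le_prod' fun ω hω => ?_
  obtain ⟨ξ, rfl⟩ := rr_surj (k := k) hq hζ ((Polynomial.mem_nthRootsFinset hq _).1 hω)
  exact hcon ξ

theorem val_mul_sub {S : ValuationSubring k} {y y' a a' : k} (h1 : S.valuation (y - a) < 1)
    (h2 : S.valuation (y' - a') < 1) (ha : S.valuation a = 1) (ha' : S.valuation a' = 1) :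
    S.valuation (y * y' - a * a') < 1 := by
  have e : y * y' - a * a' = (y - a) * (y' - a') + ((y - a) * a' + a * (y' - a')) := by ring
  rw [e]
  refine Valuation.map_add_lt _ ?_ (Valuation.map_add_lt _ ?_ ?_)
  · rw [map_mul]
    exact mul_lt_one_of_lt_of_le h1 h2.le
  · rw [map_mul, ha', mul_one]
    exact h1
  · rw [map_mul, ha, one_mul]
    exact h2

end roots

/-- Two independent valuation rings on a field `κ` with `κ ≠ κ ^ q`, such that the relevant
relation has finite VC dimension. -/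
theorem no_indep_of_val_q {κ : Type u} [Field κ] {q : ℕ} (hq : q.Prime) {ζ : κ}
    (hζ : IsPrimitiveRoot ζ q) {A : Bool → ValuationSubring κ}
    (hA : ∀ i, A i ≠ ⊤) (hind : A true ⊔ A false = ⊤)
    (D : LD κ (Germ (UF κ : Filter (Finset κ)) κ) q)
    (V : ValuationSubring (Germ (UF κ : Filter (Finset κ)) κ)) (hV : V ≠ ⊤)
    (hVK : ∀ a : κ, algebraMap κ (Germ (UF κ : Filter (Finset κ)) κ) a ∈ V)
    (hVJ : ∀ x, V.valuation x < 1 ↔ x ∈ Inf κ (Pw (Germ (UF κ : Filter (Finset κ)) κ) q))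
    (hVC : ∀ (i : Bool) (F : Finset κ) (a : κ), ∃ d : ℕ, ∀ (f : Fin d → κ) (c t : κ),
      ∃ J : Finset (Fin d), ∀ x : κ, ∃ j, ¬ ((∃ y, y ^ q = 1 + f j * x ∧
        (y - 1) / c ∈ US κ q κ F ∧ (A i).valuation (y - a) < (A i).valuation t) ↔ j ∈ J)) :
    False := by
  classical
  obtain ⟨i, hi⟩ := sup_bddV hA hind V
  set k := Germ (UF κ : Filter (Finset κ)) κ with hk
  set W := bddV (A i) with hW
  have hWK : ∀ a : κ, algebraMap κ k a ∈ W := fun a => alg_mem_bddV a
  have hWtop : W ≠ ⊤ := bddV_ne_top (hA i)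
  let O : Bool → ValuationSubring k := fun b => bif b then V else W
  let β : Bool → k := fun _ => 1
  have hB : ∀ x, x ∈ BSet O β ↔ V.valuation x < 1 ∧ W.valuation x < 1 := by
    intro x
    constructor
    · intro h
      have h1 := h true
      have h2 := h false
      rw [show β true = 1 from rfl, map_one] at h1
      rw [show β false = 1 from rfl, map_one] at h2
      exact ⟨h1, h2⟩
    · rintro ⟨h1, h2⟩ (_ | _)
      · rw [show β false = 1 from rfl, map_one]
        exact h2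
      · rw [show β true = 1 from rfl, map_one]
        exact h1
  let Q := rootsOfUnity q κ
  have _ : NeZero q := ⟨hq.ne_zero⟩
  let N : Q → k → Prop := fun ξ z => ∃ y, y ^ q = z ∧ V.valuation (y - 1) < 1 ∧
    W.valuation (y - rr k ξ) < 1
  have hex : ∀ x, V.valuation x < 1 → W.valuation x < 1 → ∃ ξ, N ξ (1 + x) := by
    intro x hx1 hx2
    have h1 := (hVJ x).1 hx1
    have h2 : 1 + x ∈ Pw k q := by
      have := h1 1
      rwa [map_one, one_mul] at this
    obtain ⟨y, hy0, hy⟩ := h2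
    have hyV : V.valuation (y ^ q - 1) < 1 := by rw [← hy, add_sub_cancel_left]; exact hx1
    obtain ⟨ξ₁, h3⟩ := rr_class (κ := κ) hq.pos hζ hyV
    have h4 : ∃ y', y' ^ q = 1 + x ∧ V.valuation (y' - 1) < 1 := by
      refine ⟨y * rr k ξ₁⁻¹, by rw [mul_pow, rr_pow, mul_one, hy], ?_⟩
      have h5 := val_mul_sub h3 (y' := rr k ξ₁⁻¹) (a' := rr k ξ₁⁻¹)
        (by rw [sub_self, map_zero]; exact zero_lt_one) (rr_val hVK _) (rr_val hVK _)
      rwa [← rr_mul, mul_inv_cancel, rr_one] at h5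
    obtain ⟨y', hy', hy'V⟩ := h4
    have hy'W : W.valuation (y' ^ q - 1) < 1 := by
      rw [hy', add_sub_cancel_left]; exact hx2
    obtain ⟨ξ₂, h5⟩ := rr_class (κ := κ) hq.pos hζ hy'W
    exact ⟨ξ₂, y', hy', hy'V, h5⟩
  -- uniqueness
  have hroot : ∀ y y' : k, y ≠ 0 → y' ^ q = y ^ q → ∃ ξ : Q, y' = y * rr k ξ := by
    intro y y' hy h
    obtain ⟨ξ, hξ⟩ := rr_surj (κ := κ) (k := k) (ω := y' / y) hq.pos hζ (by
      rw [div_pow, h, div_self (pow_ne_zero _ hy)])
    exact ⟨ξ, by rw [hξ, mul_div_cancel₀ _ hy]⟩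
  have hne : ∀ (S : ValuationSubring k) (y a : k), S.valuation a = 1 → S.valuation (y - a) < 1 →
      y ≠ 0 := by
    rintro S y a ha h rfl
    rw [zero_sub, Valuation.map_neg, ha] at h
    exact lt_irrefl _ h
  have huniq : ∀ (y y' : k), y' ^ q = y ^ q → V.valuation (y - 1) < 1 →
      V.valuation (y' - 1) < 1 → y = y' := by
    intro y y' h h1 h2
    obtain ⟨ξ, rfl⟩ := hroot y y' (hne V y 1 (map_one _) h1) h
    have h3 := val_mul_sub h1 (y' := rr k ξ) (a' := rr k ξ)
      (by rw [sub_self, map_zero]; exact zero_lt_one) (map_one _) (rr_val hVK _)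
    rw [one_mul] at h3
    have h4 := Valuation.map_sub_lt _ h2 h3
    have h5 : y * rr k ξ - 1 - (y * rr k ξ - rr k ξ) = rr k ξ - rr k (1 : Q) := by
      rw [rr_one]; ring
    rw [h5] at h4
    rw [rr_inj hVK h4, rr_one, mul_one]
  have hNuniq : ∀ (ξ η : Q) (z : k), N ξ z → N η z → ξ = η := by
    rintro ξ η z ⟨y, hy, h1, h2⟩ ⟨y', hy', h3, h4⟩
    have := huniq y y' (hy'.trans hy.symm) h1 h3
    subst this
    refine rr_inj (k := k) hWK ?_
    have h5 := Valuation.map_sub_lt _ h4 h2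
    have h6 : y - rr k η - (y - rr k ξ) = rr k ξ - rr k η := by ring
    rwa [h6] at h5
  have hNmul : ∀ (ξ η : Q) (z z' : k), N ξ z → N η z' → N (ξ * η) (z * z') := by
    rintro ξ η z z' ⟨y, hy, h1, h2⟩ ⟨y', hy', h3, h4⟩
    refine ⟨y * y', by rw [mul_pow, hy, hy'], ?_, ?_⟩
    · have := val_mul_sub h1 h3 (map_one _) (map_one _)
      rwa [mul_one] at this
    · have := val_mul_sub h2 h4 (rr_val hWK _) (rr_val hWK _)
      rwa [← rr_mul] at this
  -- the character
  let c : k → Q := fun z => if h : ∃ ξ, N ξ z then h.choose else 1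
  have hcN : ∀ {ξ z}, N ξ z → c z = ξ := by
    intro ξ z h
    have h1 : ∃ ξ, N ξ z := ⟨ξ, h⟩
    have h2 : c z = h1.choose := dif_pos h1
    rw [h2]
    exact hNuniq _ _ _ h1.choose_spec h
  have hc : ∀ x ∈ BSet O β, ∀ y ∈ BSet O β, c ((1 + x) * (1 + y)) = c (1 + x) * c (1 + y) := by
    intro x hx y hy
    rw [hB] at hx hy
    obtain ⟨ξ, hξ⟩ := hex x hx.1 hx.2
    obtain ⟨η, hη⟩ := hex y hy.1 hy.2
    rw [hcN hξ, hcN hη, hcN (hNmul _ _ _ _ hξ hη)]
  -- the VC condition in the ultrapower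
  obtain ⟨F, hF⟩ := D.exists_UGood
  have hWlt : ∀ u : k, W.valuation u < 1 ↔ ∀ a : κ, a ≠ 0 →
      (UV (UF κ) (A i)).valuation u < (UV (UF κ) (A i)).valuation (algebraMap κ _ a) :=
    fun u => bddV_lt_one
  have hVC' : ∀ ξ : Q, ∃ d : ℕ, ∀ f : Fin d → k, ∃ J : Finset (Fin d), ∀ x : k,
      (∀ i, f i * x ∈ BSet O β) → ∃ i, ¬ (c (1 + f i * x) = ξ ↔ i ∈ J) := by
    intro ξ
    obtain ⟨d, hd⟩ := hVC i F ((ξ : κˣ) : κ)
    refine ⟨d, fun f => ?_⟩
    by_contra hcon
    push Not at hcon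
    choose x hx1 hx2 using hcon
    -- roots
    have hrt : ∀ (j : Fin d) (J : Finset (Fin d)), ∃ y : k, y ≠ 0 ∧ y ^ q = 1 + f j * x J := by
      intro j J
      have h1 := (hB _).1 (hx1 J j)
      obtain ⟨η, y, hy, h2, -⟩ := hex _ h1.1 h1.2
      exact ⟨y, hne V y 1 (map_one _) h2, hy⟩
    choose y hy0 hy using hrt
    have _ : Fintype Q := Fintype.ofFinite Q
    let Z₁ : Finset k := Finset.univ.image fun p : (Fin d × Finset (Fin d)) × Q =>
      y p.1.1 p.1.2 * rr k p.2 - 1
    let Z₂ : Finset k := Finset.univ.image fun p : (Fin d × Finset (Fin d)) × Q =>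
      y p.1.1 p.1.2 * rr k p.2 - rr k ξ
    obtain ⟨cc, hcc, hscale⟩ := hF.exists_scale D Z₁
    obtain ⟨t, ht0, ht⟩ : ∃ t : κ, t ≠ 0 ∧ ∀ z ∈ Z₂, W.valuation z < 1 ↔
        (UV (UF κ) (A i)).valuation z < (UV (UF κ) (A i)).valuation (algebraMap κ k t) := by
      have h1 : ∀ z : k, ∃ a : κ, a ≠ 0 ∧ (¬ W.valuation z < 1 →
          (UV (UF κ) (A i)).valuation (algebraMap κ k a) ≤ (UV (UF κ) (A i)).valuation z) := by
        intro z
        by_cases hz : W.valuation z < 1
        · exact ⟨1, one_ne_zero, fun h => absurd hz h⟩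
        · rw [hWlt] at hz
          push Not at hz
          obtain ⟨a, ha, hle⟩ := hz
          exact ⟨a, ha, fun _ => hle⟩
      choose a ha0 ha using h1
      have h2 : ∀ Z : Finset k, ∃ t : κ, t ≠ 0 ∧ ∀ z ∈ Z,
          (UV (UF κ) (A i)).valuation (algebraMap κ k t) ≤
            (UV (UF κ) (A i)).valuation (algebraMap κ k (a z)) := by
        intro Z
        induction Z using Finset.induction_on with
        | empty => exact ⟨1, one_ne_zero, by simp⟩
        | insert z Z _ ih =>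
          obtain ⟨t, ht0, ht⟩ := ih
          rcases le_total ((UV (UF κ) (A i)).valuation (algebraMap κ k t))
            ((UV (UF κ) (A i)).valuation (algebraMap κ k (a z))) with h | h
          · refine ⟨t, ht0, fun w hw => ?_⟩
            rcases Finset.mem_insert.1 hw with rfl | hw
            · exact h
            · exact ht w hw
          · refine ⟨a z, ha0 z, fun w hw => ?_⟩
            rcases Finset.mem_insert.1 hw with rfl | hw
            · exact le_rfl
            · exact h.trans (ht w hw)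
      obtain ⟨t, ht0, ht⟩ := h2 Z₂
      refine ⟨t, ht0, fun z hz => ⟨fun h => (hWlt z).1 h t ht0, fun h => ?_⟩⟩
      by_contra hcon
      exact absurd (h.trans_le ((ht z hz).trans (ha z hcon))) (lt_irrefl _)
    -- the relation in the ultrapower
    have hPR : ∀ j J, N ξ (1 + f j * x J) ↔ iq_R q κ (UV (UF κ) (A i)) F (rr k ξ) (f j) (x J)
        (algebraMap κ k cc) (algebraMap κ k t) := by
      intro j J
      have hcase : ∀ w : k, w ^ q = 1 + f j * x J → w - 1 ∈ Z₁ ∧ w - rr k ξ ∈ Z₂ := by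
        intro w hw
        obtain ⟨η, rfl⟩ := hroot (y j J) w (hy0 j J) (hw.trans (hy j J).symm)
        exact ⟨Finset.mem_image.2 ⟨((j, J), η), Finset.mem_univ _, rfl⟩,
          Finset.mem_image.2 ⟨((j, J), η), Finset.mem_univ _, rfl⟩⟩
      constructor
      · rintro ⟨w, hw, hw1, hw2⟩
        obtain ⟨hm, hm'⟩ := hcase w hw
        exact ⟨w, hw, (hscale _ hm).1 ((hVJ _).1 hw1), (ht _ hm').1 hw2⟩
      · rintro ⟨w, hw, hw1, hw2⟩
        obtain ⟨hm, hm'⟩ := hcase w hw
        exact ⟨w, hw, (hVJ _).2 ((hscale _ hm).2 hw1), (ht _ hm').2 hw2⟩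
    have hcz : ∀ j J, c (1 + f j * x J) = ξ ↔ N ξ (1 + f j * x J) := by
      intro j J
      have h1 := (hB _).1 (hx1 J j)
      obtain ⟨η, hη⟩ := hex _ h1.1 h1.2
      constructor
      · intro h
        rw [hcN hη] at h
        rwa [← h]
      · exact fun h => hcN h
    -- representatives
    have hrep : ∀ z : k, ∃ g : Finset κ → κ, (↑g : k) = z := by
      intro z
      induction z using Germ.inductionOn with | _ g
      exact ⟨g, rfl⟩
    choose rep hreps using hrep
    have hlos : ∀ j J, ∀ᶠ s in (UF κ : Filter (Finset κ)),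
        (iq_R q κ (A i) F ((ξ : κˣ) : κ) (rep (f j) s) (rep (x J) s) cc t ↔ j ∈ J) := by
      intro j J
      have h2 := (hPR j J).symm.trans ((hcz j J).symm.trans (hx2 J j))
      rw [← hreps (f j), ← hreps (x J), rr, iq_los] at h2
      by_cases hj : j ∈ J
      · filter_upwards [h2.2 hj] with s hs
        exact ⟨fun _ => hj, fun _ => hs⟩
      · have h3 : ¬ ∀ᶠ s in (UF κ : Filter (Finset κ)),
            iq_R q κ (A i) F ((ξ : κˣ) : κ) (rep (f j) s) (rep (x J) s) cc t :=
          fun h => hj (h2.1 h)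
        rw [← Ultrafilter.eventually_not] at h3
        filter_upwards [h3] with s hs
        exact ⟨fun h => absurd h hs, fun h => absurd h hj⟩
    have hall : ∀ᶠ s in (UF κ : Filter (Finset κ)), ∀ j J,
        (iq_R q κ (A i) F ((ξ : κˣ) : κ) (rep (f j) s) (rep (x J) s) cc t ↔ j ∈ J) := by
      rw [eventually_all]
      intro j
      rw [eventually_all]
      exact fun J => hlos j J
    obtain ⟨s, hs⟩ := hall.exists
    obtain ⟨J, hJ⟩ := hd (fun j => rep (f j) s) cc t
    obtain ⟨j, hj⟩ := hJ (rep (x J) s)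
    exact hj (hs j J)
  -- the local character theorem
  have hOne : ∀ b, O b ≠ ⊤ := by
    rintro (_ | _)
    · exact hWtop
    · exact hV
  set z : k := algebraMap κ k ζ with hz
  have hzp : IsPrimitiveRoot z q := hζ.map_of_injective (algebraMap κ k).injective
  -- the polynomial
  obtain ⟨g, hg⟩ : ∃ g : Polynomial k, ∀ e : k, 1 + e * (1 - e) * g.eval e =
      (1 + (z - 1) * e) ^ q := by
    set P : Polynomial k := (1 + Polynomial.C (z - 1) * Polynomial.X) ^ q - 1 with hP
    have h0 : (Polynomial.X - Polynomial.C 0 : Polynomial k) ∣ P := by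
      rw [Polynomial.dvd_iff_isRoot, Polynomial.IsRoot, hP]
      simp
    have h1 : (Polynomial.X - Polynomial.C 1 : Polynomial k) ∣ P := by
      rw [Polynomial.dvd_iff_isRoot, Polynomial.IsRoot, hP]
      simp [hzp.pow_eq_one]
    have h2 : IsCoprime (Polynomial.X - Polynomial.C 0 : Polynomial k)
        (Polynomial.X - Polynomial.C 1) :=
      Polynomial.isCoprime_X_sub_C_of_isUnit_sub (by simp)
    obtain ⟨g, hg⟩ := h2.mul_dvd h0 h1
    refine ⟨-g, fun e => ?_⟩
    have h3 := congrArg (Polynomial.eval e) hg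
    simp only [hP, Polynomial.eval_sub, Polynomial.eval_pow, Polynomial.eval_add,
      Polynomial.eval_one, Polynomial.eval_mul, Polynomial.eval_C, Polynomial.eval_X] at h3
    rw [Polynomial.eval_neg]
    linear_combination -h3
  obtain ⟨e, he1, he2, -, he4⟩ := local_character (O := O) (β := β) hOne hi
    (fun _ => one_ne_zero) (fun b => by
      rw [show β b = 1 from rfl, map_one]) (c := c) hc hVC' (b := 1) one_ne_zero g
  rw [map_one] at he1 he2
  change V.valuation (e - 1) < 1 at he1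
  change W.valuation e < 1 at he2
  rw [hg] at he4
  have hz1V : V.valuation (z - 1) ≤ 1 := by
    rw [V.valuation_le_one_iff]
    exact V.sub_mem (hVK ζ) V.one_mem
  have hz1W : W.valuation (z - 1) ≤ 1 := by
    rw [W.valuation_le_one_iff]
    exact W.sub_mem (hWK ζ) W.one_mem
  have hy0V : V.valuation (1 + (z - 1) * e - z) < 1 := by
    have h1 : 1 + (z - 1) * e - z = (z - 1) * (e - 1) := by ring
    rw [h1, map_mul, mul_comm]
    exact mul_lt_one_of_lt_of_le he1 hz1V
  have hy0W : W.valuation (1 + (z - 1) * e - 1) < 1 := by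
    have h1 : 1 + (z - 1) * e - 1 = (z - 1) * e := by ring
    rw [h1, map_mul, mul_comm]
    exact mul_lt_one_of_lt_of_le he2 hz1W
  obtain ⟨η, hη⟩ := rr_surj (κ := κ) (k := k) hq.pos hζ hzp.pow_eq_one
  have hη1 : η ≠ 1 := by
    rintro rfl
    rw [rr_one] at hη
    exact hzp.ne_one hq.one_lt hη.symm
  have hzη : z * rr k η⁻¹ = 1 := by rw [← hη, ← rr_mul, mul_inv_cancel, rr_one]
  have hN : N η⁻¹ ((1 + (z - 1) * e) ^ q) := by
    refine ⟨(1 + (z - 1) * e) * rr k η⁻¹, by rw [mul_pow, rr_pow, mul_one], ?_, ?_⟩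
    · have := val_mul_sub (S := V) (y := 1 + (z - 1) * e) (a := z) hy0V (y' := rr k η⁻¹)
        (a' := rr k η⁻¹) (by rw [sub_self, map_zero]; exact zero_lt_one)
        (by rw [← hη]; exact rr_val hVK _) (rr_val hVK _)
      rwa [hzη] at this
    · have := val_mul_sub (S := W) (y := 1 + (z - 1) * e) (a := 1) hy0W (y' := rr k η⁻¹)
        (a' := rr k η⁻¹) (by rw [sub_self, map_zero]; exact zero_lt_one) (map_one _)
        (rr_val hWK _)
      rwa [one_mul] at this
  rw [hcN hN, inv_eq_one] at he4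
  exact hη1 he4

end Pool.Agent.NIPFields.RB
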