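import Pool.Agent.NIPFields.RB.ClsR

set_option autoImplicit false

/-!
# Kummer characters
-/

namespace Pool.Agent.NIPFields.RB

/-- `χ` is the character of the `ℓ`-th root `y`: `γ(y) = ζ ^ χ(γ) y`. -/
def IsChar {F Ω : Type*} [Field F] [Field Ω] [Algebra F Ω] {ℓ : ℕ} (ζ : F) (y : Ω)
    (χ : (Ω ≃ₐ[F] Ω) →* Multiplicative (ZMod ℓ)) : Prop :=
  ∀ γ : Ω ≃ₐ[F] Ω, γ y = algebraMap F Ω (ζ ^ (Multiplicative.toAdd (χ γ)).val) * y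

/-- `y ^ ℓ = a`; `(γ(y) / y) ^ ℓ = 1`, so `γ(y) / y = ζ ^ i`. `FL`: `Cls.root` for `M = ⊥`. -/
theorem exists_char {F Ω : Type*} [Field F] [Field Ω] [Algebra F Ω] [IsAlgClosed Ω] {ℓ : ℕ}
    (hℓ : ℓ.Prime) (hℓF : (ℓ : F) ≠ 0) {ζ : F} (hζ : IsPrimitiveRoot ζ ℓ) {a : F} (ha : a ≠ 0) :
    ∃ (y : Ω) (χ : (Ω ≃ₐ[F] Ω) →* Multiplicative (ZMod ℓ)), y ^ ℓ = algebraMap F Ω a ∧
      IsChar ζ y χ ∧ FL ℓ χ := by
  have hℓ0 : NeZero ℓ := ⟨hℓ.ne_zero⟩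
  obtain ⟨y, hy⟩ := IsAlgClosed.exists_pow_nat_eq (algebraMap F Ω a) hℓ.pos
  have hζ' : IsPrimitiveRoot (algebraMap F Ω ζ) ℓ :=
    hζ.map_of_injective (algebraMap F Ω).injective
  have hy0 : y ≠ 0 := by
    rintro rfl
    rw [zero_pow hℓ.ne_zero] at hy
    exact ha ((algebraMap F Ω).injective (by rw [← hy, map_zero]))
  have hex : ∀ γ : Ω ≃ₐ[F] Ω, ∃ i : ℕ, i < ℓ ∧ γ y = algebraMap F Ω ζ ^ i * y := by
    intro γ
    have h1 : (γ y / y) ^ ℓ = 1 := by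
      rw [div_pow, ← map_pow, hy, AlgEquiv.commutes, ← hy]
      exact div_self (pow_ne_zero _ hy0)
    obtain ⟨i, hi, hi'⟩ := hζ'.eq_pow_of_pow_eq_one h1
    exact ⟨i, hi, by rw [hi', div_mul_cancel₀ _ hy0]⟩
  choose f hf hfy using hex
  have hmod : ∀ {i j : ℕ}, algebraMap F Ω ζ ^ i * y = algebraMap F Ω ζ ^ j * y →
      (i : ZMod ℓ) = (j : ZMod ℓ) := by
    intro i j h
    have h1 := mul_right_cancel₀ hy0 h
    have hz0 : algebraMap F Ω ζ ≠ 0 := hζ'.ne_zero hℓ.ne_zero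
    have h2 : algebraMap F Ω ζ ^ ((i : ℤ) - j) = 1 := by
      rw [zpow_sub₀ hz0, zpow_natCast, zpow_natCast, h1, div_self (pow_ne_zero _ hz0)]
    rw [hζ'.zpow_eq_one_iff_dvd, ← ZMod.intCast_zmod_eq_zero_iff_dvd] at h2
    push_cast at h2
    exact sub_eq_zero.1 h2
  let χ : (Ω ≃ₐ[F] Ω) →* Multiplicative (ZMod ℓ) := MonoidHom.mk'
    (fun γ => Multiplicative.ofAdd ((f γ : ℕ) : ZMod ℓ)) (by
      intro γ γ'
      rw [← ofAdd_add, ← Nat.cast_add]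
      congr 1
      refine hmod ?_
      rw [← hfy (γ * γ'), AlgEquiv.mul_apply, hfy γ', map_mul, map_pow, AlgEquiv.commutes,
        hfy γ, pow_add]
      ring)
  have hχ : ∀ γ, χ γ = Multiplicative.ofAdd ((f γ : ℕ) : ZMod ℓ) := fun γ => rfl
  refine ⟨y, χ, hy, ?_, ?_⟩
  · intro γ
    rw [hχ, toAdd_ofAdd, ZMod.val_natCast_of_lt (hf γ), map_pow]
    exact hfy γ
  · obtain ⟨M, hM, -, hyM⟩ := Cls.root hℓ hℓF hζ (Cls.bot (F := F) (Ω := Ω) ℓ) (y := y)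
      (by
        rw [hy]
        exact (⊥ : IntermediateField F Ω).algebraMap_mem a)
    refine ⟨M, hM, fun γ hγ => ?_⟩
    have h1 : algebraMap F Ω ζ ^ (f γ) * y = algebraMap F Ω ζ ^ 0 * y := by
      rw [← hfy γ, hγ y hyM, pow_zero, one_mul]
    rw [hχ, hmod h1, Nat.cast_zero]
    rfl

end Pool.Agent.NIPFields.RB
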