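import Pool.Agent.NIPFields.RB.Crossed
import Pool.Agent.NIPFields.RB.ClsR

set_option autoImplicit false

/-!
# Embedding problems

Let `G = Gal(M/F)`; the elements `γ` of `Aut(Ω/F)` can be restricted to `M` (`AlgEquiv.restrictNormalHom`).
Let `Q₂` be the subgroup of `Q × G` of the pairs `(q, σ)` such that there is a `γ` with `γ|M = σ` and
`φ(γ) = q Z`, and let `π : Q₂ → G` be the projection. Its kernel consists of the pairs `(z, 1)`, `z ∈ Z`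
(if `γ|M = 1` then `φ(γ) = 1`), it is central and of order `ℓ`. `Q₂` is an `ℓ`-group. Let
`ι(z, 1) = ζ ^ i` for an isomorphism of `Z` with the group of the `ℓ`-th roots of unity of `F`. By
`exists_crossed` there is `g : Q₂ → Mˣ`, `g(a b) = g(a) π(a)(g(b))`, `g = ι` on `ker π`.

The function `g ^ ℓ` is a crossed homomorphism and `1` on `ker π`, so by `h90` there is `θ ≠ 0` in `M` with
`π(a)(θ) = g(a) ^ ℓ θ`. Let `y ∈ Ω`, `y ^ ℓ = θ`.

For `γ ∈ Aut(Ω/F)` there is exactly one `q ∈ Q` with `(q, γ|M) ∈ Q₂` and `γ(y) = g(q, γ|M) y`: there is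
some `q` with `q Z = φ(γ)`, and `(γ(y) / y) ^ ℓ = γ(θ) / θ = g(q, γ|M) ^ ℓ`, so `γ(y) / y = g(q, γ|M) ζ ^ i`, and
`g((q, γ|M) (z, 1)) = g(q, γ|M) ι(z, 1)` for `z ∈ Z` (the values of `ι` are fixed by `G`). Let `φ'(γ)` be this
`q`. By uniqueness `φ'` is a homomorphism:
`γ γ'(y) = γ(g(b) y) = π(a)(g(b)) g(a) y = g(a b) y` for `a = (φ'(γ), γ|M)`, `b = (φ'(γ'), γ'|M)`. If `γ` is the
identity on a field `M₂ ≥ M` with `y ∈ M₂` (`Cls.root`), then `φ'(γ) = 1`.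
-/

namespace Pool.Agent.NIPFields.RB

theorem exists_lift {F Ω : Type*} [Field F] [Field Ω] [Algebra F Ω] [IsAlgClosed Ω] {ℓ : ℕ}
    (hℓ : ℓ.Prime) (hℓF : (ℓ : F) ≠ 0) {ζ : F} (hζ : IsPrimitiveRoot ζ ℓ)
    (hNS : ∀ M : IntermediateField F Ω, Cls ℓ M → NormSurj F M ℓ) {Q : Type*} [Group Q]
    [Finite Q] (hQ : IsPGroup ℓ Q) (Z : Subgroup Q) [Z.Normal] (hZc : Z ≤ Subgroup.center Q)
    (hZ : Nat.card Z = ℓ) (φ : (Ω ≃ₐ[F] Ω) →* Q ⧸ Z) (hφ : FL ℓ φ) :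
    ∃ φ' : (Ω ≃ₐ[F] Ω) →* Q, FL ℓ φ' ∧ ∀ γ, (QuotientGroup.mk (φ' γ) : Q ⧸ Z) = φ γ := by
  classical
  have : Fact ℓ.Prime := ⟨hℓ⟩
  have : NeZero ℓ := ⟨hℓ.ne_zero⟩
  obtain ⟨M, hM, h1⟩ := hφ
  have hfin := hM.fin
  have hgal := hM.gal
  have hgrp := hM.grp
  have hfG : Finite (M ≃ₐ[F] M) := inferInstance
  -- the restriction
  let r : (Ω ≃ₐ[F] Ω) →* (M ≃ₐ[F] M) := AlgEquiv.restrictNormalHom M
  have hr : ∀ (γ : Ω ≃ₐ[F] Ω) (x : M), ((r γ x : M) : Ω) = γ x := fun γ x =>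
    AlgEquiv.restrictNormal_commutes γ M x
  have hr1' : ∀ γ : Ω ≃ₐ[F] Ω, (∀ x ∈ M, γ x = x) → r γ = 1 := by
    intro γ hγ
    ext x
    rw [hr γ x]
    exact hγ x x.2
  have hr1 : ∀ γ, r γ = 1 → φ γ = 1 := by
    intro γ hγ
    refine h1 γ fun x hx => ?_
    have h2 := hr γ ⟨x, hx⟩
    rw [hγ] at h2
    exact h2.symm
  -- the group
  let Q₂ : Subgroup (Q × (M ≃ₐ[F] M)) :=
    (φ.prod r).range.comap ((QuotientGroup.mk' Z).prodMap (MonoidHom.id (M ≃ₐ[F] M)))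
  have hQ₂ : ∀ x : Q × (M ≃ₐ[F] M), x ∈ Q₂ ↔
      ∃ γ, φ γ = (QuotientGroup.mk x.1 : Q ⧸ Z) ∧ r γ = x.2 := by
    intro x
    constructor
    · rintro ⟨γ, hγ⟩
      exact ⟨γ, congrArg Prod.fst hγ, congrArg Prod.snd hγ⟩
    · rintro ⟨γ, h2, h3⟩
      exact ⟨γ, Prod.ext h2 h3⟩
  let π : Q₂ →* (M ≃ₐ[F] M) := (MonoidHom.snd Q (M ≃ₐ[F] M)).comp Q₂.subtype
  have hker : ∀ a : Q₂, π a = 1 → a.1.1 ∈ Z := by
    intro a ha
    obtain ⟨γ, h2, h3⟩ := (hQ₂ a).1 a.2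
    have h4 : r γ = 1 := h3.trans ha
    rw [hr1 γ h4] at h2
    exact (QuotientGroup.eq_one_iff _).1 h2.symm
  have hP : IsPGroup ℓ Q₂ := by
    intro a
    obtain ⟨m, hm⟩ := hQ a.1.1
    obtain ⟨n, hn⟩ := hgrp a.1.2
    refine ⟨m + n, ?_⟩
    apply Subtype.ext
    apply Prod.ext
    · change a.1.1 ^ (ℓ ^ (m + n)) = 1
      rw [pow_add, pow_mul, hm, one_pow]
    · change a.1.2 ^ (ℓ ^ (m + n)) = 1
      rw [add_comm, pow_add, pow_mul, hn, one_pow]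
  have hcen : ∀ z ∈ π.ker, ∀ q : Q₂, q * z = z * q := by
    intro z hz q
    have h2 := hker z hz
    have h3 : z.1.2 = 1 := hz
    apply Subtype.ext
    apply Prod.ext
    · exact (Subgroup.mem_center_iff.1 (hZc h2) _)
    · change q.1.2 * z.1.2 = z.1.2 * q.1.2
      rw [h3, mul_one, one_mul]
  -- the roots of unity
  let j : Z ≃* rootsOfUnity ℓ F := mulEquivOfPrimeCardEq hZ hζ.card_rootsOfUnity
  let κ : π.ker →* Z :=
    { toFun := fun z => ⟨(z : Q₂).1.1, hker z z.2⟩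
      map_one' := rfl
      map_mul' := fun _ _ => rfl }
  let ι : π.ker →* Mˣ := (Units.map (algebraMap F M : F →* M)).comp
    ((rootsOfUnity ℓ F).subtype.comp (j.toMonoidHom.comp κ))
  have hιv : ∀ z : π.ker, (ι z : M) = algebraMap F M ((j (κ z) : Fˣ) : F) := fun z => rfl
  have hι : ∀ (z : π.ker) (σ : M ≃ₐ[F] M), σ (ι z : M) = ι z := by
    intro z σ
    rw [hιv, AlgEquiv.commutes]
  obtain ⟨g, hg, hgι⟩ := exists_crossed hℓ (hNS M hM) hP π hcen ι hι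
  have hιℓ : ∀ z : π.ker, (ι z : M) ^ ℓ = 1 := by
    intro z
    rw [hιv, ← map_pow, ← Units.val_pow_eq_pow_val, (mem_rootsOfUnity ℓ _).1 (j (κ z)).2,
      Units.val_one, map_one]
  -- Hilbert 90
  obtain ⟨θ, hθ0, hθ⟩ := h90 π (fun a => (g a : M) ^ ℓ) (fun a => pow_ne_zero _ (g a).ne_zero)
    (fun a b => by simp only [hg, mul_pow, map_pow])
    (fun a ha => by
      have h2 : g a = ι ⟨a, ha⟩ := hgι ⟨a, ha⟩
      simp only [h2]
      exact hιℓ _)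
  obtain ⟨y, hy⟩ := IsAlgClosed.exists_pow_nat_eq (θ : Ω) hℓ.pos
  have hθΩ : (θ : Ω) ≠ 0 := fun h => hθ0 (Subtype.ext h)
  have hy0 : y ≠ 0 := by
    rintro rfl
    rw [zero_pow hℓ.ne_zero] at hy
    exact hθΩ hy.symm
  -- uniqueness
  have huniq : ∀ a b : Q₂, π a = π b → (QuotientGroup.mk a.1.1 : Q ⧸ Z) = QuotientGroup.mk b.1.1 →
      (g a : M) = g b → a = b := by
    intro a b h2 _ h4
    have h5 : π (a⁻¹ * b) = 1 := by rw [map_mul, map_inv, h2, inv_mul_cancel]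
    have h6 := hg a (a⁻¹ * b)
    rw [mul_inv_cancel_left, ← h4, hgι ⟨a⁻¹ * b, h5⟩, hι] at h6
    have h7 : (ι ⟨a⁻¹ * b, h5⟩ : M) = 1 := by
      have h8 : (g a : M) * 1 = g a * ι ⟨a⁻¹ * b, h5⟩ := by rw [mul_one]; exact h6
      exact (mul_left_cancel₀ (g a).ne_zero h8).symm
    rw [hιv] at h7
    have h8 : ((j (κ ⟨a⁻¹ * b, h5⟩) : Fˣ) : F) = 1 := by
      apply (algebraMap F M).injective
      rw [h7, map_one]
    have h9 : j (κ ⟨a⁻¹ * b, h5⟩) = 1 := Subtype.ext (Units.ext h8)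
    have h10 : κ ⟨a⁻¹ * b, h5⟩ = 1 := by
      rw [← map_one j] at h9
      exact j.injective h9
    have h11 : (a⁻¹ * b).1.1 = 1 := congrArg Subtype.val h10
    have h12 : a⁻¹ * b = 1 := Subtype.ext (Prod.ext h11 h5)
    exact inv_mul_eq_one.1 h12
  -- existence
  have hex : ∀ γ : Ω ≃ₐ[F] Ω, ∃ a : Q₂, π a = r γ ∧ (QuotientGroup.mk a.1.1 : Q ⧸ Z) = φ γ ∧
      γ y = (g a : M) * y := by
    intro γ
    obtain ⟨q, hq⟩ := QuotientGroup.mk_surjective (φ γ)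
    have hmem : ((q, r γ) : Q × (M ≃ₐ[F] M)) ∈ Q₂ := (hQ₂ _).2 ⟨γ, hq.symm, rfl⟩
    set a : Q₂ := ⟨(q, r γ), hmem⟩ with ha
    have hga : ((g a : M) : Ω) ≠ 0 := fun h => (g a).ne_zero (Subtype.ext h)
    have h2 : γ (θ : Ω) = ((g a : M) : Ω) ^ ℓ * θ := by
      have h3 := hθ a
      have h4 := hr γ θ
      have h5 : π a = r γ := rfl
      rw [h5] at h3
      rw [← h4, h3]
      rfl
    have h3 : (γ y / y / ((g a : M) : Ω)) ^ ℓ = 1 := by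
      rw [div_pow, div_pow, ← map_pow, hy, h2, mul_div_assoc, div_self hθΩ, mul_one,
        div_self (pow_ne_zero _ hga)]
    have hζΩ : IsPrimitiveRoot (algebraMap F Ω ζ) ℓ :=
      hζ.map_of_injective (algebraMap F Ω).injective
    obtain ⟨i, -, hi⟩ := hζΩ.eq_pow_of_pow_eq_one h3
    rw [← map_pow] at hi
    have hu : (hζ.isUnit hℓ.ne_zero).unit ^ i ∈ rootsOfUnity ℓ F := by
      rw [mem_rootsOfUnity, ← pow_mul, mul_comm, pow_mul]
      have : (hζ.isUnit hℓ.ne_zero).unit ^ ℓ = 1 := by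
        ext
        rw [Units.val_pow_eq_pow_val, IsUnit.unit_spec, hζ.pow_eq_one, Units.val_one]
      rw [this, one_pow]
    obtain ⟨z, hz⟩ := j.surjective ⟨_, hu⟩
    have hzm : (((z : Q), 1) : Q × (M ≃ₐ[F] M)) ∈ Q₂ := by
      refine (hQ₂ _).2 ⟨1, ?_, ?_⟩
      · rw [map_one]
        exact ((QuotientGroup.eq_one_iff _).2 z.2).symm
      · rw [map_one]
    set c : Q₂ := ⟨((z : Q), 1), hzm⟩ with hc
    have hcker : π c = 1 := rfl
    have hκ : κ ⟨c, hcker⟩ = z := rfl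
    have hgc : (g c : M) = algebraMap F M (ζ ^ i) := by
      have h4 : g c = ι ⟨c, hcker⟩ := hgι ⟨c, hcker⟩
      rw [h4, hιv, hκ, hz]
      simp
    refine ⟨a * c, ?_, ?_, ?_⟩
    · rw [map_mul, hcker, mul_one]
      rfl
    · change (QuotientGroup.mk (q * z) : Q ⧸ Z) = φ γ
      rw [QuotientGroup.mk_mul, hq, (QuotientGroup.eq_one_iff (z : Q)).2 z.2, mul_one]
    · rw [hg, hgc, AlgEquiv.commutes]
      have h4 : ((algebraMap F M (ζ ^ i) : M) : Ω) = algebraMap F Ω (ζ ^ i) := rfl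
      rw [MulMemClass.coe_mul, h4, hi]
      field_simp
  choose s hs1 hs2 hs3 using hex
  -- characterization
  have hchar : ∀ (γ : Ω ≃ₐ[F] Ω) (a : Q₂), π a = r γ → (QuotientGroup.mk a.1.1 : Q ⧸ Z) = φ γ →
      γ y = (g a : M) * y → s γ = a := by
    intro γ a h2 h3 h4
    refine huniq _ _ ((hs1 γ).trans h2.symm) ((hs2 γ).trans h3.symm) ?_
    have h5 : ((g (s γ) : M) : Ω) * y = (g a : M) * y := (hs3 γ).symm.trans h4
    exact Subtype.ext (mul_right_cancel₀ hy0 h5)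
  have hg1 : (g 1 : M) = 1 := by
    have h2 := hg 1 1
    rw [mul_one, map_one] at h2
    have h3 : (g 1 : M) * 1 = g 1 * g 1 := by rw [mul_one]; exact h2
    exact (mul_left_cancel₀ (g 1).ne_zero h3).symm
  have hs_one : ∀ γ : Ω ≃ₐ[F] Ω, (∀ x ∈ M, γ x = x) → γ y = y → s γ = 1 := by
    intro γ h2 h3
    have h4 : r γ = 1 := hr1' γ h2
    refine hchar γ 1 ?_ ?_ ?_
    · rw [map_one, h4]
    · rw [hr1 γ h4]
      rfl
    · rw [h3, hg1]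
      simp
  have hs_mul : ∀ γ δ : Ω ≃ₐ[F] Ω, s (γ * δ) = s γ * s δ := by
    intro γ δ
    refine hchar _ _ ?_ ?_ ?_
    · rw [map_mul, map_mul, hs1, hs1]
    · change (QuotientGroup.mk ((s γ).1.1 * (s δ).1.1) : Q ⧸ Z) = φ (γ * δ)
      rw [QuotientGroup.mk_mul, hs2, hs2, map_mul]
    · rw [AlgEquiv.mul_apply, hs3 δ, map_mul, hs3 γ, hg, hs1 γ, MulMemClass.coe_mul,
        hr γ (g (s δ) : M)]
      ring
  let φ' : (Ω ≃ₐ[F] Ω) →* Q :=
    { toFun := fun γ => (s γ).1.1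
      map_one' := by
        rw [hs_one 1 (fun x _ => rfl) rfl]
        rfl
      map_mul' := fun γ δ => by
        rw [hs_mul]
        rfl }
  refine ⟨φ', ?_, hs2⟩
  obtain ⟨M₂, hM₂, hle, hyM₂⟩ := hM.root hℓ hℓF hζ (y := y) (by rw [hy]; exact θ.2)
  refine ⟨M₂, hM₂, fun γ hγ => ?_⟩
  change (s γ).1.1 = 1
  rw [hs_one γ (fun x hx => hγ x (hle hx)) (hγ y hyM₂)]
  rfl

end Pool.Agent.NIPFields.RB
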