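import Pool.Agent.NIPFields.RB.Crit
import Pool.Agent.NIPFields.LV.Down

set_option autoImplicit false

/-!
# The rainbow criterion in every characteristic: definable valuations
-/

namespace Pool.Agent.NIPFields.RB

open FirstOrder FirstOrder.Language FirstOrder.Ring Set Filter IsLocalRing
open Pool.Agent.NIPFields.FI Pool.Agent.NIPFields.LG Pool.Agent.NIPFields.LV

universe u

attribute [local instance] germAlg

section

variable {K k : Type*} [Field K] [Field k] [Algebra K k] {ℓ : ℕ} {D : LD K k ℓ} {G : Finset k}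
  {P : Ideal (D.E G)} {F' : Finset K} {e : D.E G}

theorem GS_div (J : JData D G P F' e) [P.IsPrime] {v w : D.E G} (hv : v ∉ P) (hw : w ∉ P)
    (h : ((bb e v : D.E G) : k) / ((bb e w : D.E G) : k) ∈ Pw k ℓ) :
    residue (locS (D.E G) P) (toLocS v) / residue (locS (D.E G) P) (toLocS w) ∈ GS ℓ P e := by
  have hv0 : residue (locS (D.E G) P) (toLocS v) ≠ 0 := fun h0 => hv (residue_toLocS.1 h0)
  have hw0 : residue (locS (D.E G) P) (toLocS w) ≠ 0 := fun h0 => hw (residue_toLocS.1 h0)
  obtain ⟨u, hu, huP⟩ := exists_lift J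
    (residue (locS (D.E G) P) (toLocS v) / residue (locS (D.E G) P) (toLocS w))
  have h1 := huP (div_ne_zero hv0 hw0)
  rw [← hu, mem_GS_iff J h1]
  obtain ⟨a1, a2⟩ := bb_unit J hv
  obtain ⟨b1, b2⟩ := bb_unit J hw
  have h3 : ((bb e u * bb e w - bb e v : D.E G) : k) ∈ D.I G := by
    have e1 := bb_mul J u w
    have e2 : ((bb e (u * w) - bb e v : D.E G) : k) ∈ D.I G := by
      refine bb_congr J (sub_mem_of_res (P := P) ?_)
      rw [map_mul, map_mul, hu, div_mul_cancel₀ _ hw0]
    have e3 := I_add e1 e2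
    have e4 : bb e u * bb e w - bb e (u * w) + (bb e (u * w) - bb e v) =
        bb e u * bb e w - bb e v := by
      ring
    rwa [e4] at e3
  have h4 := one_add_mem (D.I_le_J J.fam.one (a2 _ h3))
  have h5 : ((bb e u : D.E G) : k) =
      (((bb e v : D.E G) : k) / ((bb e w : D.E G) : k)) *
        (1 + ((bb e v : D.E G) : k)⁻¹ * ((bb e u * bb e w - bb e v : D.E G) : k)) := by
    push_cast
    field_simp
    ring
  rw [h5]
  exact Pw_mul h h4

end

theorem NoRainbow.gs {L : Type u} [Field L] {ℓ : ℕ} {B : Finset L}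
    (hB : NoRainbow (Pw L ℓ) B) (D : LD L (Germ (UF L : Filter (Finset L)) L) ℓ)
    {G : Finset (Germ (UF L : Filter (Finset L)) L)} {P : Ideal (D.E G)} {F' : Finset L}
    {e : D.E G} (J : JData D G P F' e) [P.IsPrime]
    [DecidableEq (ResidueField (locS (D.E G) P))] :
    NoRainbow (GS ℓ P e) (B.image fun b => IsLocalRing.residue (locS (D.E G) P)
      (toLocS ⟨algebraMap L (Germ (UF L : Filter (Finset L)) L) b, D.algebraMap_mem G b⟩)) := by
  classical
  intro c hc
  let E := Germ (UF L : Filter (Finset L)) L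
  let φ : L →+* D.E G := (algebraMap L E).codRestrict (D.E G) (D.algebraMap_mem G)
  let ψ : L →+* ResidueField (locS (D.E G) P) := ((IsLocalRing.residue (locS (D.E G) P)).comp toLocS).comp φ
  obtain ⟨v, hv, -⟩ := exists_lift J c
  have h1 : ∀ b ∈ B, v + φ b ∉ P := by
    intro b hb h
    apply hc _ (Finset.mem_image_of_mem _ hb)
    rw [← hv, ← map_add, ← map_add]
    exact residue_toLocS.2 h
  have he : (e : E) ≠ 0 := by
    intro h
    apply J.e_notMem
    have : e = 0 := Subtype.ext h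
    rw [this]
    exact P.zero_mem
  have h2 : ∀ b, ((bb e v : D.E G) : E) / e + algebraMap L E b =
      ((bb e (v + φ b) : D.E G) : E) / e := by
    intro b
    have h3 : ((bb e (v + φ b) : D.E G) : E) = (bb e v : D.E G) + algebraMap L E b * e := by
      have h4 : bb e (v + φ b) = bb e v + φ b * e := by
        unfold bb; ring
      rw [h4]
      rfl
    rw [h3]
    field_simp
  obtain ⟨x, hx, x', hx', hxx, h⟩ := hB.germ (((bb e v : D.E G) : E) / e) (by
    intro x hx
    obtain ⟨b, hb, rfl⟩ := Finset.mem_image.1 hx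
    rw [h2]
    exact div_ne_zero (bb_unit J (h1 b hb)).1 he)
  obtain ⟨b, hb, rfl⟩ := Finset.mem_image.1 hx
  obtain ⟨b', hb', rfl⟩ := Finset.mem_image.1 hx'
  refine ⟨_, Finset.mem_image_of_mem _ hb, _, Finset.mem_image_of_mem _ hb', ?_, ?_⟩
  · intro h3
    apply hxx
    have h4 : ψ b = ψ b' := h3
    rw [ψ.injective h4]
  · rw [h2, h2, div_div_div_cancel_right₀ he] at h
    rw [← hv, ← map_add, ← map_add, ← map_add, ← map_add]
    exact GS_div J (h1 b hb) (h1 b' hb') h

theorem noJ_of_noRainbow {L : Type u} [Field L] [Infinite L] [CompatibleRing L] (hL : NIP L)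
    {ℓ : ℕ} {B : Finset L} (hB : NoRainbow (Pw L ℓ) B)
    (D : LD L (Germ (UF L : Filter (Finset L)) L) ℓ) : NoJ D := by
  classical
  intro G P F' e J
  have : P.IsPrime := J.max.isPrime
  let φ : L →+* ResidueField (locS (D.E G) P) := ((residue (locS (D.E G) P)).comp toLocS).comp
    ((algebraMap L (Germ (UF L : Filter (Finset L)) L)).codRestrict (D.E G)
      (D.algebraMap_mem G))
  have hinf : Infinite (ResidueField (locS (D.E G) P)) := Infinite.of_injective φ φ.injective
  let _ : CompatibleRing (Germ (UF L : Filter (Finset L)) L) := germCompat (UF L) L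
  have hE : NIP (Germ (UF L : Filter (Finset L)) L) := NIP.germ hL
  obtain ⟨d, hd, hTr⟩ := trLe_nip hE ℓ
  have h1 : Small d fun m => (∑ k ∈ Finset.range d, m.choose k) + m :=
    Small.add hd (PQ.tendsto_binom d)
  exact not_TLS J (tls_of_noRainbow (fun x hx => hx.1) (by
      have h2 := GS_pow (ℓ := ℓ) J (one_ne_zero (α := ResidueField (locS (D.E G) P)))
      rwa [one_pow] at h2) (fun x hx y hy => GS_mul J hx hy)
    (fun x hx => GS_inv J hx) (hB.gs D J) (by omega) h1 (trLe_GS J hTr))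

/-- **Theorem R for definable valuations.** -/
theorem exists_definable_of_noRainbow {L : Type u} [Field L] [Infinite L] [CompatibleRing L]
    (hL : NIP L) {ℓ : ℕ} (hℓp : ℓ.Prime) (hℓ : (ℓ : L) ≠ 0) {ζ : L} (hζ : IsPrimitiveRoot ζ ℓ)
    (hi : ∃ i : L, i ^ 2 = -1) (ha : ∃ a : L, ∀ y, a ≠ y ^ ℓ) {B : Finset L}
    (hB : NoRainbow (Pw L ℓ) B) :
    ∃ O : ValuationSubring L, O ≠ ⊤ ∧ (univ : Set L).Definable₁ Language.ring {x | x ∈ O} := by
  obtain ⟨d, hd, hTr⟩ := trLe_nip hL ℓ
  exact LU.exists_definable_of_noJ hL hℓp hℓ hζ hi (tls_of_noRainbow (fun _ hx => Pw_ne hx) Pw_one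
    (fun _ hx _ hy => Pw_mul hx hy) (fun _ hx => Pw_inv hx) hB (by omega) (PQ.tendsto_binom d) hTr)
    (fun D => noJ_of_noRainbow hL hB D) ha

end Pool.Agent.NIPFields.RB
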