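import Pool.Agent.ZIso.Krull

set_option autoImplicit false

/-!
# Polynomial equations with coefficients in a larger ring
-/

namespace Pool.Agent.NIPFields.RB

open MvPolynomial

/-- Choose a basis `w_1, ..., w_r` of `W`, and let `g_i` be the polynomial over `k` whose coefficient
at `m` is the `i`-th coordinate of `π (coeff m g)`. For `u` with values in `k` we have
`π (g(u)) = ∑ g_i(u) w_i`. There are `r < #ι` polynomials `g_i`, and they vanish at `0`, so
`ZIso.exists_ne_zero` applies. -/
theorem exists_zero {k M E : Type*} [Field k] [IsAlgClosed k] [CommRing M] [Algebra k M]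
    [AddCommGroup E] [Module k E] {ι : Type} [Fintype ι] (g : MvPolynomial ι M) (π : M →ₗ[k] E)
    (W : Submodule k E) [FiniteDimensional k W] (hW : ∀ m, π (coeff m g) ∈ W)
    (h0 : coeff 0 g = 0) (hcard : Module.finrank k W < Fintype.card ι) :
    ∃ u : ι → k, u ≠ 0 ∧ π (eval (fun i => algebraMap k M (u i)) g) = 0 := by
  classical
  let b := Module.finBasis k W
  let c : (ι →₀ ℕ) → Fin (Module.finrank k W) → k := fun m i =>
    b.repr ⟨π (coeff m g), hW m⟩ i
  have hc : ∀ m, π (coeff m g) = ∑ i, c m i • (b i : E) := by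
    intro m
    have h1 := congrArg (Submodule.subtype W) (b.sum_repr ⟨π (coeff m g), hW m⟩)
    rw [map_sum] at h1
    simp only [map_smul, Submodule.subtype_apply] at h1
    exact h1.symm
  have hc0 : ∀ i, c 0 i = 0 := by
    intro i
    have h1 : (⟨π (coeff 0 g), hW 0⟩ : W) = 0 := by
      apply Subtype.ext
      change π (coeff 0 g) = 0
      rw [h0, map_zero]
    change b.repr ⟨π (coeff 0 g), hW 0⟩ i = 0
    rw [h1, map_zero]
    rfl
  let G : Fin (Module.finrank k W) → MvPolynomial ι k := fun i =>
    ∑ m ∈ g.support, monomial m (c m i)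
  have hG : ∀ (u : ι → k) i, eval u (G i) = ∑ m ∈ g.support, c m i * ∏ j, u j ^ m j := by
    intro u i
    simp only [G, map_sum]
    refine Finset.sum_congr rfl fun m _ => ?_
    rw [eval_monomial, Finsupp.prod_fintype _ _ fun j => pow_zero _]
  obtain ⟨u, hu, hz⟩ := ZIso.exists_ne_zero (K := k) (ι := ι)
    (κ := Fin (Module.finrank k W)) (by rwa [Fintype.card_fin]) G (by
      intro i
      rw [hG]
      refine Finset.sum_eq_zero fun m _ => ?_
      by_cases hm : m = 0
      · rw [hm, hc0, zero_mul]
      · obtain ⟨j, hj⟩ := Finsupp.ne_iff.1 hm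
        rw [Finset.prod_eq_zero (Finset.mem_univ j), mul_zero]
        exact zero_pow hj)
  refine ⟨u, hu, ?_⟩
  have h2 : ∀ m, π (coeff m g * ∏ j, algebraMap k M (u j) ^ m j) =
      ∑ i, (c m i * ∏ j, u j ^ m j) • (b i : E) := by
    intro m
    have h3 : coeff m g * ∏ j, algebraMap k M (u j) ^ m j = (∏ j, u j ^ m j) • coeff m g := by
      rw [Algebra.smul_def, map_prod, mul_comm]
      simp only [map_pow]
    rw [h3, map_smul, hc m, Finset.smul_sum]
    refine Finset.sum_congr rfl fun i _ => ?_
    rw [smul_smul, mul_comm]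
  rw [eval_eq', map_sum, Finset.sum_congr rfl fun m _ => h2 m, Finset.sum_comm]
  refine Finset.sum_eq_zero fun i _ => ?_
  rw [← Finset.sum_smul, ← hG, hz, zero_smul]

end Pool.Agent.NIPFields.RB
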