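import Pool.Agent.NIPFields.RB.Growth

set_option autoImplicit false

/-!
# The coefficients of products of linear forms
-/

namespace Pool.Agent.NIPFields.RB

open MvPolynomial

variable {k F M : Type*} [Field k] [Field F] [Algebra k F] [Field M] [Algebra F M] [Algebra k M]
  [IsScalarTower k F M]

/-- `t ^ j u * t ^ j' u' = t ^ (j + j') (u u')` -/
theorem tn_mul (t : F) (n n' : ℕ) (U U' : Submodule k M) :
    Tn t n U * Tn t n' U' ≤ Tn t (n + n') (U * U') := by
  unfold Tn
  rw [Submodule.span_mul_span, Submodule.span_le]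
  rintro _ ⟨x, ⟨j, hj, u, hu, rfl⟩, x', ⟨j', hj', u', hu', rfl⟩, rfl⟩
  refine Submodule.subset_span ⟨j + j', Nat.add_le_add hj hj', u * u', Submodule.mul_mem_mul hu hu', ?_⟩
  simp only [smul_mul_smul_comm, pow_add]

private theorem coeff_mul_mem {ι : Type} (V V' : Submodule k M) {P P' : MvPolynomial ι M}
    (hP : ∀ m, coeff m P ∈ V) (hP' : ∀ m, coeff m P' ∈ V') (m : ι →₀ ℕ) :
    coeff m (P * P') ∈ V * V' := by
  classical
  rw [coeff_mul]
  exact Submodule.sum_mem _ fun x _ => Submodule.mul_mem_mul (hP _) (hP' _)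

/-- Let `v r x` be in `Tn t s (U r)`. The coefficients of the product of the `ℓ` linear forms
`∑ v r x X_x`, `r < ℓ`, are in `Tn t (ℓ s) (∏ U r)`. (First: if the coefficients of `P`, `P'` are in `V`, `V'`
then those of `P * P'` are in `V * V'`.) -/
theorem coeff_prod {ι : Type} [Fintype ι] (t : F) (s ℓ : ℕ) (U : ℕ → Submodule k M)
    (v : ℕ → ι → M) (hv : ∀ r x, v r x ∈ Tn t s (U r)) (m : ι →₀ ℕ) :
    coeff m (∏ r ∈ Finset.range ℓ, ∑ x, C (v r x) * (X x : MvPolynomial ι M)) ∈
      Tn t (ℓ * s) (∏ r ∈ Finset.range ℓ, U r) := by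
  classical
  induction ℓ generalizing m with
  | zero =>
    simp only [Finset.range_zero, Finset.prod_empty, coeff_one]
    split_ifs with h
    · exact Submodule.subset_span ⟨0, Nat.zero_le _, 1, Submodule.one_le.mp le_rfl, by simp⟩
    · exact Submodule.zero_mem _
  | succ ℓ ih =>
    rw [Finset.prod_range_succ, Finset.prod_range_succ, Nat.succ_mul]
    refine tn_mul t _ _ _ _ (coeff_mul_mem _ _ ih (fun m' => ?_) m)
    rw [coeff_sum]
    refine Submodule.sum_mem _ fun x _ => ?_
    rw [coeff_C_mul, coeff_X]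
    split_ifs with h
    · rw [mul_one]
      exact hv ℓ x
    · rw [mul_zero]
      exact Submodule.zero_mem _

end Pool.Agent.NIPFields.RB
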