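import Pool.Agent.NIPFields.RB.GrowthLi
import Pool.Agent.NIPFields.RB.TsenA
import Pool.Agent.NIPFields.RB.TsenB

set_option autoImplicit false

/-!
# Norms over the field of rational functions over an algebraically closed field (Tsen)
-/

namespace Pool.Agent.NIPFields.RB

open Finset

/-- The norms in the steps of degree `ℓ` of the extension `M` of `F` are surjective: `N' ≤ N` are
subgroups of the group of automorphisms, `N` is generated by `N'` and `ν`, and `N'` is normal of
index `ℓ` in `N`. -/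
def NormSurj (F M : Type*) [Field F] [Field M] [Algebra F M] (ℓ : ℕ) : Prop :=
  ∀ (N' N : Subgroup (M ≃ₐ[F] M)) (ν : M ≃ₐ[F] M), N' ≤ N → ν ∈ N →
    (∀ n ∈ N', ν * n * ν⁻¹ ∈ N') → (∀ σ ∈ N, ∃ j < ℓ, ∃ n ∈ N', σ = n * ν ^ j) →
    Nat.card N = ℓ * Nat.card N' → ∀ a : M, a ≠ 0 → (∀ σ ∈ N, σ a = a) →
      ∃ x : M, x ≠ 0 ∧ (∀ σ ∈ N', σ x = x) ∧ ∏ j ∈ range ℓ, (ν ^ j) x = a

section Group

variable {F M : Type*} [Field F] [Field M] [Algebra F M]

/-- the power `ν ^ ℓ` is in the smaller group -/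
private theorem nu_pow_mem [FiniteDimensional F M] {N' N : Subgroup (M ≃ₐ[F] M)} {ν : M ≃ₐ[F] M}
    {ℓ : ℕ} (hle : N' ≤ N) (hν : ν ∈ N) (hcov : ∀ σ ∈ N, ∃ j < ℓ, ∃ n ∈ N', σ = n * ν ^ j)
    (hcard : Nat.card N = ℓ * Nat.card N') : ν ^ ℓ ∈ N' := by
  classical
  let f : Fin ℓ × N' → N := fun x => ⟨x.2 * ν ^ (x.1 : ℕ), N.mul_mem (hle x.2.2) (N.pow_mem hν _)⟩
  have hf : Function.Surjective f := by
    rintro ⟨σ, hσ⟩
    obtain ⟨j, hj, n, hn, rfl⟩ := hcov σ hσ
    exact ⟨(⟨j, hj⟩, ⟨n, hn⟩), rfl⟩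
  have hfb : Function.Bijective f := by
    rw [Nat.bijective_iff_surjective_and_card]
    refine ⟨hf, ?_⟩
    rw [Nat.card_prod, Nat.card_fin, hcard]
  obtain ⟨j, hj, n, hn, h⟩ := hcov _ (N.pow_mem hν ℓ)
  have h1 : ν ^ (ℓ - j) = n := by
    have h2 : ν ^ (ℓ - j) * ν ^ j = n * ν ^ j := by
      rw [← pow_add, Nat.sub_add_cancel hj.le, h]
    exact mul_right_cancel h2
  by_cases hj0 : j = 0
  · rw [hj0, Nat.sub_zero] at h1
    rw [h1]
    exact hn
  · exfalso
    have hm : ℓ - j < ℓ := by omega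
    have h3 : f (⟨ℓ - j, hm⟩, 1) = f (⟨0, by omega⟩, ⟨n, hn⟩) := by
      apply Subtype.ext
      change (1 : M ≃ₐ[F] M) * ν ^ (ℓ - j) = n * ν ^ 0
      rw [one_mul, pow_zero, mul_one, h1]
    have h4 := hfb.1 h3
    have h5 : ℓ - j = 0 := congrArg (fun x => (x.1 : ℕ)) h4
    omega

/-- the norm of an element of the larger field is in the smaller one -/
private theorem norm_fixed [FiniteDimensional F M] {N' N : Subgroup (M ≃ₐ[F] M)} {ν : M ≃ₐ[F] M}
    {ℓ : ℕ} (hℓ : ν ^ ℓ ∈ N') (hnorm : ∀ n ∈ N', ν * n * ν⁻¹ ∈ N')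
    (hcov : ∀ σ ∈ N, ∃ j < ℓ, ∃ n ∈ N', σ = n * ν ^ j) {x : M} (hx : ∀ σ ∈ N', σ x = x)
    {σ : M ≃ₐ[F] M} (hσ : σ ∈ N) : σ (∏ r ∈ range ℓ, (ν ^ r) x) = ∏ r ∈ range ℓ, (ν ^ r) x := by
  classical
  have hinv : ∀ n ∈ N', ν⁻¹ * n * ν ∈ N' := by
    let g : N' → N' := fun n => ⟨ν * n * ν⁻¹, hnorm n n.2⟩
    have hg : Function.Injective g := by
      intro n m h
      have h1 : ν * (n : M ≃ₐ[F] M) * ν⁻¹ = ν * m * ν⁻¹ := congrArg Subtype.val h
      exact Subtype.ext (mul_left_cancel (mul_right_cancel h1))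
    have hgs : Function.Surjective g := Finite.surjective_of_injective hg
    intro n hn
    obtain ⟨m, hm⟩ := hgs ⟨n, hn⟩
    have h1 : ν * (m : M ≃ₐ[F] M) * ν⁻¹ = n := congrArg Subtype.val hm
    rw [← h1]
    have h2 : ν⁻¹ * (ν * (m : M ≃ₐ[F] M) * ν⁻¹) * ν = m := by group
    rw [h2]
    exact m.2
  have hpow : ∀ (r : ℕ), ∀ n ∈ N', (ν ^ r)⁻¹ * n * ν ^ r ∈ N' := by
    intro r
    induction r with
    | zero =>
      intro n hn
      simpa using hn
    | succ r ih =>
      intro n hn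
      have h1 := hinv _ (ih n hn)
      have h2 : ν⁻¹ * ((ν ^ r)⁻¹ * n * ν ^ r) * ν = (ν ^ (r + 1))⁻¹ * n * ν ^ (r + 1) := by
        rw [pow_succ]
        group
      rwa [h2] at h1
  have hfixN' : ∀ n ∈ N', n (∏ r ∈ range ℓ, (ν ^ r) x) = ∏ r ∈ range ℓ, (ν ^ r) x := by
    intro n hn
    rw [map_prod]
    refine prod_congr rfl fun r _ => ?_
    have h1 : n * ν ^ r = ν ^ r * ((ν ^ r)⁻¹ * n * ν ^ r) := by group
    rw [← AlgEquiv.mul_apply, h1, AlgEquiv.mul_apply, hx _ (hpow r n hn)]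
  have hfixν : ν (∏ r ∈ range ℓ, (ν ^ r) x) = ∏ r ∈ range ℓ, (ν ^ r) x := by
    rw [map_prod]
    have h1 : ∀ r, ν ((ν ^ r) x) = (ν ^ (r + 1)) x := by
      intro r
      rw [pow_succ', AlgEquiv.mul_apply]
    rw [prod_congr rfl fun r _ => h1 r]
    by_cases hx0 : x = 0
    · rw [hx0]
      simp
    have h2 := prod_range_succ' (fun r => (ν ^ r) x) ℓ
    have h3 := prod_range_succ (fun r => (ν ^ r) x) ℓ
    rw [hx _ hℓ] at h3
    rw [pow_zero, AlgEquiv.one_apply] at h2
    exact mul_right_cancel₀ hx0 (h2.symm.trans h3)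
  have hfixpow : ∀ j : ℕ, (ν ^ j) (∏ r ∈ range ℓ, (ν ^ r) x) = ∏ r ∈ range ℓ, (ν ^ r) x := by
    intro j
    induction j with
    | zero => rw [pow_zero, AlgEquiv.one_apply]
    | succ j ih => rw [pow_succ, AlgEquiv.mul_apply, hfixν, ih]
  obtain ⟨j, _, n, hn, rfl⟩ := hcov σ hσ
  rw [AlgEquiv.mul_apply, hfixpow, hfixN' n hn]

/-- the degrees of the fixed fields -/
private theorem finrank_fixed [FiniteDimensional F M] [IsGalois F M]
    {N' N : Subgroup (M ≃ₐ[F] M)} {ℓ : ℕ} (hcard : Nat.card N = ℓ * Nat.card N') :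
    Module.finrank F (IntermediateField.fixedField N') =
      ℓ * Module.finrank F (IntermediateField.fixedField N) := by
  have h1 := Module.finrank_mul_finrank F (IntermediateField.fixedField N') M
  have h2 := Module.finrank_mul_finrank F (IntermediateField.fixedField N) M
  rw [IntermediateField.finrank_fixedField_eq_card] at h1 h2
  rw [hcard] at h2
  have h3 : 0 < Nat.card N' := Nat.card_pos
  refine Nat.eq_of_mul_eq_mul_right h3 ?_
  rw [h1, ← h2]
  ring

end Group

section Spaces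

variable {k F M : Type*} [Field k] [Field F] [Algebra k F] [Field M] [Algebra F M] [Algebra k M]
  [IsScalarTower k F M]

omit [Algebra F M] [Field F] [Algebra k F] [IsScalarTower k F M] in
private theorem fg_prod (U : ℕ → Submodule k M) (hU : ∀ r, (U r).FG) (ℓ : ℕ) :
    (∏ r ∈ range ℓ, U r).FG := by
  induction ℓ with
  | zero =>
    rw [prod_range_zero]
    exact ⟨{1}, by rw [coe_singleton]; exact Submodule.one_eq_span.symm⟩
  | succ ℓ ih =>
    rw [prod_range_succ]
    exact ih.mul (hU ℓ)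

omit [Algebra k F] in
private theorem tn_mono {E : Type*} [AddCommGroup E] [Module F E] [Module k E]
    (t : F) (n : ℕ) {U U' : Submodule k E} (h : U ≤ U') : Tn t n U ≤ Tn t n U' := by
  unfold Tn
  refine Submodule.span_mono ?_
  rintro _ ⟨j, hj, u, hu, rfl⟩
  exact ⟨j, hj, u, h hu, rfl⟩

omit [Algebra k F] in
private theorem tn_map {E E' : Type*} [AddCommGroup E] [Module F E] [Module k E]
    [AddCommGroup E'] [Module F E'] [Module k E'] (t : F) (n : ℕ) (U : Submodule k E)
    (π : E →ₗ[k] E') (hπ : ∀ (j : ℕ) (x : E), π (t ^ j • x) = t ^ j • π x) {x : E}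
    (hx : x ∈ Tn t n U) : π x ∈ Tn t n (U.map π) := by
  unfold Tn at hx ⊢
  refine Submodule.span_induction (p := fun x _ => π x ∈ Submodule.span k
    {x | ∃ j : ℕ, j ≤ n ∧ ∃ u ∈ U.map π, x = t ^ j • u}) ?_ ?_ ?_ ?_ hx
  · rintro _ ⟨j, hj, u, hu, rfl⟩
    rw [hπ]
    exact Submodule.subset_span ⟨j, hj, π u, ⟨u, hu, rfl⟩, rfl⟩
  · rw [map_zero]
    exact Submodule.zero_mem _
  · intro x y _ _ hx hy
    rw [map_add]
    exact Submodule.add_mem _ hx hy
  · intro c x _ hx
    rw [map_smul]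
    exact Submodule.smul_mem _ c hx

end Spaces

/-- TSEN. Let `E` and `E'` be the fixed fields of `N` and `N'`, `e = [E : F]`, so `[E' : F] = ℓ e`
(`IntermediateField.finrank_fixedField_eq_card`). Let `ω_i` be a basis of `E'` and `η_i` a basis
of `E` over `F`. For a number `s` consider the unknowns `u_(i,j)` (`i < ℓ e`, `j ≤ s`) and
`w_(i,j)` (`i < e`, `j ≤ s`), altogether `(ℓ + 1) e (s + 1)` of them, and the polynomial with
coefficients in `M`

`g = ∏_(r < ℓ) (∑ u_(i,j) t ^ j ν ^ r (ω_i)) - a (∑ w_(i,j) t ^ j η_i) ^ ℓ`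

in these unknowns. For values of the unknowns in `k` the value of `g` is `∏ ν ^ r (x) - a x₀ ^ ℓ`,
for `x = ∑ u_(i,j) t ^ j ω_i ∈ E'` and `x₀ = ∑ w_(i,j) t ^ j η_i ∈ E`; it is in `E`: it is
invariant under `N'` (`N'` is normalised by `ν`) and under `ν` (`ν ^ ℓ ∈ N'`: the powers `ν ^ j`,
`j < ℓ`, represent `N / N'`, which has `ℓ` elements). Let `π : M → E` be an `F`-linear map, the
identity on `E`. The images under `π` of the coefficients of `g` are in `Tn t (ℓ s) U` for a
finite dimensional `k`-subspace `U` of `E`, which does not depend on `s` (the images under `π` of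
the products `∏_r ν ^ r (ω_(i_r))` and `a ∏_r η_(i_r)` generate `U`; `coeff_prod`, `map_smul`). By
`growth` the dimension of `Tn t (ℓ s) U` is at most `e ℓ s + C`. With a basis of this space the
equation `π(g) = 0` becomes a system of at most `e ℓ s + C` polynomial equations over `k`, which
have the solution `0`. If `(ℓ + 1) e (s + 1) > e ℓ s + C`, there is another solution
(`exists_zero`). So we have `x`, `x₀`, not both `0` (`growth_li`), with `∏ ν ^ r (x) = a x₀ ^ ℓ`.
If `x₀ = 0` then `x = 0`. So `x₀ ≠ 0`, and `x / x₀` is what we want. -/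
theorem normSurj {k F M : Type*} [Field k] [IsAlgClosed k] [Field F] [Algebra k F] [Field M]
    [Algebra F M] [FiniteDimensional F M] [IsGalois F M] {t : F} (ht : RatGen k F t) {ℓ : ℕ}
    (hℓ : 0 < ℓ) : NormSurj F M ℓ := by
  classical
  intro N' N ν hle hνN hnorm hcov hcard a ha0 haN
  let _ : Algebra k M := ((algebraMap F M).comp (algebraMap k F)).toAlgebra
  have : IsScalarTower k F M := IsScalarTower.of_algebraMap_eq fun _ => rfl
  have hℓN : ν ^ ℓ ∈ N' := nu_pow_mem hle hνN hcov hcard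
  set E := IntermediateField.fixedField N with hE
  set E' := IntermediateField.fixedField N' with hE'
  have hmemE : ∀ x : M, x ∈ E ↔ ∀ σ ∈ N, σ x = x := fun x => by
    rw [hE, IntermediateField.mem_fixedField_iff]
  have hmemE' : ∀ x : M, x ∈ E' ↔ ∀ σ ∈ N', σ x = x := fun x => by
    rw [hE', IntermediateField.mem_fixedField_iff]
  set e := Module.finrank F E with he
  have he' : Module.finrank F E' = ℓ * e := finrank_fixed hcard
  have hepos : 0 < e := Module.finrank_pos
  let ω := Module.finBasis F E'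
  let η := Module.finBasis F E
  -- the projection
  obtain ⟨π, hπ⟩ := (E.val.toLinearMap).exists_leftInverse_of_injective
    (LinearMap.ker_eq_bot.mpr E.val.injective)
  have hπE : ∀ x : E, π (x : M) = x := fun x => LinearMap.congr_fun hπ x
  let πk : M →ₗ[k] E := π.restrictScalars k
  have hπk : ∀ (j : ℕ) (x : M), πk (t ^ j • x) = t ^ j • πk x := fun j x => π.map_smul _ _
  -- the spaces
  let U : ℕ → Submodule k M := fun r => Submodule.span k (Set.range fun i => (ν ^ r) (ω i : M))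
  let U' : ℕ → Submodule k M := fun _ => Submodule.span k (Set.range fun i => (η i : M))
  let ma : M →ₗ[k] M := LinearMap.mulLeft k a
  let V : Submodule k M := (∏ r ∈ range ℓ, U r) ⊔ (∏ r ∈ range ℓ, U' r).map ma
  have hVfg : V.FG := by
    refine Submodule.FG.sup (fg_prod U (fun r => ?_) ℓ) ((fg_prod U' (fun r => ?_) ℓ).map ma)
    · exact Submodule.fg_span (Set.finite_range _)
    · exact Submodule.fg_span (Set.finite_range _)
  have hUE : (V.map πk).FG := hVfg.map πk
  have : FiniteDimensional k (V.map πk) := Module.Finite.iff_fg.mpr hUE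
  obtain ⟨C, hC⟩ := growth (E := E) ht (V.map πk)
  -- the unknowns
  let ι := (Fin (Module.finrank F E') × Fin (C + 1)) ⊕ (Fin e × Fin (C + 1))
  let v : ℕ → ι → M := fun r => Sum.elim (fun x => t ^ (x.2 : ℕ) • (ν ^ r) (ω x.1 : M)) 0
  let v' : ℕ → ι → M := fun _ => Sum.elim 0 (fun x => t ^ (x.2 : ℕ) • (η x.1 : M))
  let P : MvPolynomial ι M := ∏ r ∈ range ℓ, ∑ x, MvPolynomial.C (v r x) * MvPolynomial.X x
  let P' : MvPolynomial ι M := ∏ r ∈ range ℓ, ∑ x, MvPolynomial.C (v' r x) * MvPolynomial.X x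
  have hv : ∀ r x, v r x ∈ Tn t C (U r) := by
    rintro r (x | x)
    · exact Submodule.subset_span ⟨x.2, by omega, _, Submodule.subset_span ⟨x.1, rfl⟩, rfl⟩
    · exact Submodule.zero_mem _
  have hv' : ∀ r x, v' r x ∈ Tn t C (U' r) := by
    rintro r (x | x)
    · exact Submodule.zero_mem _
    · exact Submodule.subset_span ⟨x.2, by omega, _, Submodule.subset_span ⟨x.1, rfl⟩, rfl⟩
  have hcoef : ∀ m, πk (MvPolynomial.coeff m (P - MvPolynomial.C a * P')) ∈
      Tn t (ℓ * C) (V.map πk) := by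
    intro m
    refine tn_map t (ℓ * C) V πk hπk ?_
    rw [MvPolynomial.coeff_sub, MvPolynomial.coeff_C_mul]
    refine Submodule.sub_mem _ ?_ ?_
    · exact tn_mono t _ le_sup_left (coeff_prod t C ℓ U v hv m)
    · refine tn_mono t _ le_sup_right ?_
      exact tn_map t (ℓ * C) (∏ r ∈ range ℓ, U' r) ma
        (fun j x => by rw [LinearMap.mulLeft_apply, LinearMap.mulLeft_apply, mul_smul_comm])
        (coeff_prod t C ℓ U' v' hv' m)
  have hc0 : ∀ w : ℕ → ι → M, MvPolynomial.coeff 0 (∏ r ∈ range ℓ,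
      ∑ x, MvPolynomial.C (w r x) * (MvPolynomial.X x : MvPolynomial ι M)) = 0 := by
    intro w
    rw [← MvPolynomial.constantCoeff_eq, map_prod]
    refine prod_eq_zero (mem_range.mpr hℓ) ?_
    rw [map_sum]
    refine sum_eq_zero fun x _ => ?_
    rw [map_mul, MvPolynomial.constantCoeff_X, mul_zero]
  have := (hC (ℓ * C)).1
  obtain ⟨u, hu0, hu⟩ := exists_zero (P - MvPolynomial.C a * P') πk (Tn t (ℓ * C) (V.map πk))
    hcoef (by rw [MvPolynomial.coeff_sub, MvPolynomial.coeff_C_mul, hc0, hc0, mul_zero, sub_zero])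
    (by
      refine lt_of_le_of_lt (hC (ℓ * C)).2 ?_
      rw [Fintype.card_sum, Fintype.card_prod, Fintype.card_prod, Fintype.card_fin,
        Fintype.card_fin, Fintype.card_fin, he', ← he]
      nlinarith [Nat.zero_le (ℓ * e), Nat.zero_le C, Nat.mul_le_mul_right C hepos])
  -- the two elements
  let x : M := ∑ i, algebraMap k M (u (Sum.inl i)) * (t ^ (i.2 : ℕ) • (ω i.1 : M))
  let y : M := ∑ i, algebraMap k M (u (Sum.inr i)) * (t ^ (i.2 : ℕ) • (η i.1 : M))
  have halg : ∀ (σ : M ≃ₐ[F] M) (c : k), σ (algebraMap k M c) = algebraMap k M c := fun σ c => by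
    rw [IsScalarTower.algebraMap_apply k F M]
    exact σ.commutes _
  have hxE' : x ∈ E' := by
    refine sum_mem fun i _ => mul_mem ?_ ?_
    · rw [IsScalarTower.algebraMap_apply k F M]
      exact E'.algebraMap_mem _
    · exact E'.smul_mem (ω i.1).2
  have hyE : y ∈ E := by
    refine sum_mem fun i _ => mul_mem ?_ ?_
    · rw [IsScalarTower.algebraMap_apply k F M]
      exact E.algebraMap_mem _
    · exact E.smul_mem (η i.1).2
  have hevP : MvPolynomial.eval (fun i => algebraMap k M (u i)) P =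
      ∏ r ∈ range ℓ, (ν ^ r) x := by
    rw [map_prod]
    refine prod_congr rfl fun r _ => ?_
    rw [map_sum, Fintype.sum_sum_type, map_sum]
    have h2 : ∑ i, MvPolynomial.eval (fun i => algebraMap k M (u i))
        (MvPolynomial.C (v r (Sum.inr i)) * MvPolynomial.X (Sum.inr i)) = 0 := by
      refine sum_eq_zero fun i _ => ?_
      simp [v]
    rw [h2, add_zero]
    refine sum_congr rfl fun i _ => ?_
    rw [map_mul, MvPolynomial.eval_C, MvPolynomial.eval_X, map_mul, halg, map_smul, mul_comm]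
    rfl
  have hevP' : MvPolynomial.eval (fun i => algebraMap k M (u i)) P' = y ^ ℓ := by
    rw [map_prod]
    have h1 : ∀ r ∈ range ℓ, MvPolynomial.eval (fun i => algebraMap k M (u i))
        (∑ x, MvPolynomial.C (v' r x) * MvPolynomial.X x) = y := by
      intro r _
      rw [map_sum, Fintype.sum_sum_type]
      have h2 : ∑ i, MvPolynomial.eval (fun i => algebraMap k M (u i))
          (MvPolynomial.C (v' r (Sum.inl i)) * MvPolynomial.X (Sum.inl i)) = 0 := by
        refine sum_eq_zero fun i _ => ?_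
        simp [v']
      rw [h2, zero_add]
      refine sum_congr rfl fun i _ => ?_
      rw [map_mul, MvPolynomial.eval_C, MvPolynomial.eval_X, mul_comm]
      rfl
    rw [prod_congr rfl h1, prod_const, card_range]
  rw [map_sub, map_mul, MvPolynomial.eval_C, hevP, hevP'] at hu
  have hx' : ∀ σ ∈ N', σ x = x := (hmemE' x).mp hxE'
  have hy' : ∀ σ ∈ N, σ y = y := (hmemE y).mp hyE
  have hzE : ∏ r ∈ range ℓ, (ν ^ r) x - a * y ^ ℓ ∈ E := by
    refine sub_mem ((hmemE _).mpr fun σ hσ => norm_fixed hℓN hnorm hcov hx' hσ) ?_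
    exact mul_mem ((hmemE a).mpr haN) (pow_mem hyE ℓ)
  have hz : ∏ r ∈ range ℓ, (ν ^ r) x = a * y ^ ℓ := by
    have h1 := hπE ⟨_, hzE⟩
    have h2 : π (∏ r ∈ range ℓ, (ν ^ r) x - a * y ^ ℓ) = 0 := hu
    rw [h2] at h1
    exact sub_eq_zero.mp (congrArg Subtype.val h1).symm
  have hliω : LinearIndependent F fun i => (ω i : M) :=
    ω.linearIndependent.map' E'.val.toLinearMap (LinearMap.ker_eq_bot.mpr E'.val.injective)
  have hliη : LinearIndependent F fun i => (η i : M) :=
    η.linearIndependent.map' E.val.toLinearMap (LinearMap.ker_eq_bot.mpr E.val.injective)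
  have hx0 : x = 0 → ∀ i, u (Sum.inl i) = 0 := by
    intro h
    refine Fintype.linearIndependent_iff.mp (growth_li (k := k) ht.tr hliω C)
      (fun i => u (Sum.inl i)) ?_
    rw [← h]
    refine sum_congr rfl fun i _ => ?_
    rw [Algebra.smul_def]
  have hy0 : y = 0 → ∀ i, u (Sum.inr i) = 0 := by
    intro h
    refine Fintype.linearIndependent_iff.mp (growth_li (k := k) ht.tr hliη C)
      (fun i => u (Sum.inr i)) ?_
    rw [← h]
    refine sum_congr rfl fun i _ => ?_
    rw [Algebra.smul_def]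
  have hyne : y ≠ 0 := by
    intro h
    have h1 : ∏ r ∈ range ℓ, (ν ^ r) x = 0 := by
      rw [hz, h, zero_pow hℓ.ne', mul_zero]
    obtain ⟨r, _, hr⟩ := prod_eq_zero_iff.mp h1
    have h2 : x = 0 := (map_eq_zero_iff _ (ν ^ r).injective).mp hr
    apply hu0
    funext i
    rcases i with i | i
    · exact hx0 h2 i
    · exact hy0 h i
  have hxne : x ≠ 0 := by
    intro h
    have h1 : ∏ r ∈ range ℓ, (ν ^ r) x = 0 := by
      refine prod_eq_zero (mem_range.mpr hℓ) ?_
      rw [h, map_zero]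
    rw [hz] at h1
    rcases mul_eq_zero.mp h1 with h2 | h2
    · exact ha0 h2
    · exact hyne (pow_eq_zero_iff hℓ.ne' |>.mp h2)
  refine ⟨x / y, div_ne_zero hxne hyne, ?_, ?_⟩
  · intro σ hσ
    rw [map_div₀, hx' σ hσ, hy' σ (hle hσ)]
  · have h1 : ∀ r ∈ range ℓ, (ν ^ r) (x / y) = (ν ^ r) x / y := by
      intro r _
      rw [map_div₀, hy' _ (N.pow_mem hνN r)]
    rw [prod_congr rfl h1, prod_div_distrib, hz, prod_const, card_range]
    field_simp

end Pool.Agent.NIPFields.RB
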