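import Pool.Agent.NIPFields.LZ.Indep0
import Pool.Agent.NIPFields.RB.IndepQ
import Pool.Agent.NIPFields.RB.NoJR

set_option autoImplicit false

/-!
# Incomparable definable valuation rings: a prime `q`
-/

namespace Pool.Agent.NIPFields.RB

open FirstOrder FirstOrder.Language FirstOrder.Ring Set IsLocalRing Filter
open Pool.Agent.NIPFields.LC Pool.Agent.NIPFields.LG Pool.Agent.NIPFields.FI
open Pool.Agent.NIPFields.LZ

universe u

attribute [local instance] germAlg

section

variable {K : Type u} [Field K] [CompatibleRing K] {L : Type u} [Field L] [Algebra K L] {d : ℕ}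
  {e : Module.Basis (Fin d) K L}

/-- The finite VC dimension of the relation on the residue field of the join. -/
theorem iq_vc (q : ℕ) (hK : NIP K) {A U : ValuationSubring L} (hdA : LDef₁ e {x | x ∈ A})
    (hdU : LDef₁ e {x | x ∈ U}) (hu : A ≤ U) (F : Finset (ResidueField U))
    (a : ResidueField U) :
    ∃ d : ℕ, ∀ (f : Fin d → ResidueField U) (c t : ResidueField U),
      ∃ J : Finset (Fin d), ∀ x : ResidueField U, ∃ j, ¬ ((∃ y, y ^ q = 1 + f j * x ∧
        (y - 1) / c ∈ US (ResidueField U) q (ResidueField U) F ∧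
        (resVal hu).valuation (y - a) < (resVal hu).valuation t) ↔ j ∈ J) := by
  classical
  have hlift : ∀ y : ResidueField U, ∃ x : U, residue U x = y := residue_surjective
  choose lift hl using hlift
  set m := F.card with hm
  let φ : Fin m → ResidueField U := fun j => (F.equivFin.symm j : ResidueField U)
  have hφ : ∀ z ∈ F, ∃ j, φ j = z := by
    intro z hz
    exact ⟨F.equivFin ⟨z, hz⟩, by simp [φ]⟩
  have hφ' : ∀ j, φ j ∈ F := fun j => (F.equivFin.symm j).2
  have hMA := ldef_max hdA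
  have hMU : LDef₁ e {x | U.valuation x < 1} := ldef_max hdU
  have h1 : LDef e {v : (Fin 3 ⊕ Fin 1) ⊕ Fin (m + 1) → L |
      v (Sum.inr 0) ∈ {x | A.valuation x < 1}} := LDef₁.mem hMA (LFun.var _)
  have h2 : LDef e {v : (Fin 3 ⊕ Fin 1) ⊕ Fin (m + 1) → L |
      ((lift a : L) + v (Sum.inl (Sum.inl 2)) * v (Sum.inr 0)) ^ q -
        (1 + v (Sum.inl (Sum.inl 0)) * v (Sum.inl (Sum.inr 0))) ∈ {x | U.valuation x < 1}} := by
    refine LDef₁.mem hMU (LFun.sub (LFun.pow (LFun.add (LFun.const _)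
      (LFun.mul (LFun.var _) (LFun.var _))) _) (LFun.add (LFun.const 1)
      (LFun.mul (LFun.var _) (LFun.var _))))
  have h3 : ∀ j : Fin m, LDef e {v : (Fin 3 ⊕ Fin 1) ⊕ Fin (m + 1) → L |
      1 + (lift (φ j) : L) * ((((lift a : L) - 1) +
        v (Sum.inl (Sum.inl 2)) * v (Sum.inr 0)) *
        v (Sum.inl (Sum.inl 1))) - v (Sum.inr j.succ) ^ q ∈ {x | U.valuation x < 1}} := by
    intro j
    refine LDef₁.mem hMU (LFun.sub (LFun.add (LFun.const 1) (LFun.mul (LFun.const _)
      (LFun.mul (LFun.add (LFun.const _) (LFun.mul (LFun.var _) (LFun.var _))) (LFun.var _))))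
      (LFun.pow (LFun.var _) _))
  have h4 : ∀ j : Fin m, LDef e {v : (Fin 3 ⊕ Fin 1) ⊕ Fin (m + 1) → L |
      v (Sum.inr j.succ) ∈ {x | x ∈ U}} := fun j => LDef₁.mem hdU (LFun.var _)
  have h5 : ∀ j : Fin m, LDef e {v : (Fin 3 ⊕ Fin 1) ⊕ Fin (m + 1) → L |
      v (Sum.inr j.succ) ∈ {x | U.valuation x < 1}}ᶜ := fun j =>
    (LDef₁.mem hMU (LFun.var _)).compl
  have h6 := ((h1.inter h2).inter (LDef.iInter fun j => ((h3 j).inter (h4 j)).inter (h5 j))).exists
  obtain ⟨n, hn⟩ := hK.ldef h6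
  have hn0 : Nonempty (Fin n) := ⟨(hn (fun _ _ => 0) (fun _ _ => 0)).choose⟩
  refine ⟨n, fun f c t => ?_⟩
  by_cases ht0 : t = 0
  · refine ⟨Finset.univ, fun x => ⟨hn0.some, ?_⟩⟩
    rintro ⟨-, h⟩
    obtain ⟨y, -, -, h7⟩ := h (Finset.mem_univ _)
    rw [ht0, map_zero] at h7
    exact absurd h7 not_lt_zero
  by_contra hcon
  push Not at hcon
  choose x hx using hcon
  obtain ⟨i, J, hiJ⟩ := hn (fun i => ![(lift (f i) : L), (lift c⁻¹ : L), (lift t : L)])
    (fun J _ => (lift (x J) : L))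
  apply hiJ
  rw [← hx J i]
  clear hiJ
  simp only [mem_ofPred_eq, mem_inter_iff, mem_iInter, mem_compl_iff, Sum.elim_inl, Sum.elim_inr,
    Matrix.cons_val_zero, Matrix.cons_val_one, Matrix.cons_val]
  have htv : 0 < (resVal hu).valuation t :=
    zero_lt_iff.2 (((resVal hu).valuation).ne_zero_iff.2 ht0)
  -- the key equivalences
  have key2 : ∀ w : U, U.valuation (((lift a : L) + (lift t : L) * (w : L)) ^ q -
        (1 + (lift (f i) : L) * (lift (x J) : L))) < 1 ↔
      (a + t * residue U w) ^ q = 1 + f i * x J := by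
    intro w
    have e1 : ((lift a : L) + (lift t : L) * (w : L)) ^ q - (1 + (lift (f i) : L) *
        (lift (x J) : L)) =
        (((lift a + lift t * w) ^ q - (1 + lift (f i) * lift (x J)) : U) : L) := by
      push_cast
      rfl
    rw [e1, i0_res_lt, map_sub, map_pow, map_add, map_mul, map_add, map_mul, map_one,
      hl, hl, hl, hl, sub_eq_zero]
  have key3 : ∀ (j : Fin m) (w b : U), U.valuation (1 + (lift (φ j) : L) *
        ((((lift a : L) - 1) + (lift t : L) * (w : L)) * (lift c⁻¹ : L)) - (b : L) ^ q) < 1 ↔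
      1 + φ j * (((a - 1) + t * residue U w) * c⁻¹) = residue U b ^ q := by
    intro j w b
    have e1 : 1 + (lift (φ j) : L) * ((((lift a : L) - 1) + (lift t : L) * (w : L)) *
        (lift c⁻¹ : L)) - (b : L) ^ q =
        ((1 + lift (φ j) * (((lift a - 1) + lift t * w) * lift c⁻¹) - b ^ q : U) : L) := by
      push_cast
      rfl
    rw [e1, i0_res_lt, map_sub, map_pow, map_add, map_mul, map_mul, map_add, map_sub, map_mul,
      map_one, hl, hl, hl, hl, sub_eq_zero]
  constructor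
  · rintro ⟨v, ⟨hv1, hv2⟩, hv3⟩
    have hvU : v 0 ∈ U := hu ((A.valuation_le_one_iff _).1 hv1.le)
    refine ⟨a + t * residue U ⟨v 0, hvU⟩, (key2 ⟨v 0, hvU⟩).1 hv2, ?_, ?_⟩
    · intro z hz
      obtain ⟨j, rfl⟩ := hφ z hz
      obtain ⟨⟨h7, h8⟩, h9⟩ := hv3 j
      refine ⟨residue U ⟨v j.succ, h8⟩, ?_, ?_⟩
      · intro h0
        exact h9 ((i0_res_lt (⟨v j.succ, h8⟩ : U)).2 h0)
      · have h10 := (key3 j ⟨v 0, hvU⟩ ⟨v j.succ, h8⟩).1 h7
        rw [← h10, div_eq_mul_inv, show a + t * residue U ⟨v 0, hvU⟩ - 1 =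
          (a - 1) + t * residue U ⟨v 0, hvU⟩ by ring]
        rfl
    · rw [add_sub_cancel_left, map_mul]
      refine mul_lt_of_lt_one_right htv ?_
      exact (resVal_val_lt_one _).2 hv1
  · rintro ⟨y, hy1, hy2, hy3⟩
    obtain ⟨w, hw⟩ := residue_surjective ((y - a) / t)
    have hyw : y = a + t * residue U w := by
      rw [hw]; field_simp; ring
    have hwA : A.valuation (w : L) < 1 := by
      refine (resVal_val_lt_one hu).1 ?_
      rw [hw, map_div₀]
      exact (div_lt_one₀ htv).2 hy3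
    have hb : ∀ j : Fin m, ∃ b : U, residue U b ≠ 0 ∧
        1 + φ j * (((a - 1) + t * residue U w) * c⁻¹) = residue U b ^ q := by
      intro j
      obtain ⟨b, hb0, hb⟩ := hy2 (φ j) (hφ' j)
      refine ⟨lift b, by rw [hl]; exact hb0, ?_⟩
      rw [hl, ← hb, hyw, div_eq_mul_inv, show a + t * residue U w - 1 =
          (a - 1) + t * residue U w by ring]
      rfl
    choose b hb0 hb using hb
    refine ⟨Fin.cons (w : L) (fun j => (b j : L)), ⟨⟨?_, ?_⟩, fun j => ⟨⟨?_, ?_⟩, ?_⟩⟩⟩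
    · rw [Fin.cons_zero]
      exact hwA
    · rw [Fin.cons_zero]
      exact (key2 w).2 (by rw [← hyw]; exact hy1)
    · rw [Fin.cons_zero, Fin.cons_succ]
      exact (key3 j w (b j)).2 (hb j)
    · rw [Fin.cons_succ]
      exact (b j).2
    · rw [Fin.cons_succ]
      intro h
      exact hb0 j ((i0_res_lt (b j)).1 h)

end

/-- Transfer to the residue field of a valuation ring. -/
theorem NoRainbow.resfield {L : Type*} [Field L] {q : ℕ} (hq : 0 < q) {B : Finset L}
    (hB : NoRainbow (Pw L q) B) (U : ValuationSubring L) [DecidableEq (ResidueField U)]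
    (hBU : ∀ b ∈ B, b ∈ U)
    (hBB : ∀ b ∈ B, ∀ b' ∈ B, b ≠ b' → U.valuation (b - b') = 1) :
    ∃ B' : Finset (ResidueField U), NoRainbow (Pw (ResidueField U) q) B' := by
  classical
  refine ⟨B.attach.image fun b => IsLocalRing.residue U ⟨b.1, hBU _ b.2⟩, ?_⟩
  intro c hc
  obtain ⟨c, rfl⟩ := residue_surjective c
  have h0 : ∀ b (hb : b ∈ B), IsLocalRing.residue U (c + ⟨b, hBU b hb⟩) ≠ 0 := by
    intro b hb h
    apply hc _ (Finset.mem_image_of_mem _ (Finset.mem_attach B ⟨b, hb⟩))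
    rw [← map_add]
    exact h
  have h1 : ∀ b (hb : b ∈ B), (c : L) + b ≠ 0 := by
    intro b hb h
    apply h0 b hb
    have : c + ⟨b, hBU b hb⟩ = 0 := Subtype.ext h
    rw [this, map_zero]
  obtain ⟨b, hb, b', hb', hne, y, hy0, hy⟩ := hB (c : L) h1
  refine ⟨_, Finset.mem_image_of_mem _ (Finset.mem_attach B ⟨b, hb⟩), _,
    Finset.mem_image_of_mem _ (Finset.mem_attach B ⟨b', hb'⟩), ?_, ?_⟩
  · intro h
    have h2 : IsLocalRing.residue U (⟨b, hBU b hb⟩ - ⟨b', hBU b' hb'⟩) = 0 := by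
      rw [map_sub, sub_eq_zero]
      exact h
    have h3 := (i0_res_lt _).2 h2
    have h4 := hBB b hb b' hb' hne
    exact absurd (h4 ▸ h3 : (1 : U.ValueGroup) < 1) (lt_irrefl _)
  · have hu : ∀ b (hb : b ∈ B), U.valuation ((c : L) + b) = 1 := by
      intro b hb
      have h2 := h0 b hb
      refine le_antisymm ((U.valuation_le_one_iff _).2 (U.add_mem _ _ c.2 (hBU b hb))) ?_
      by_contra h3
      push Not at h3
      exact h2 ((i0_res_lt (E := c + ⟨b, hBU b hb⟩)).1 h3)
    have hyv : U.valuation y = 1 := by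
      have h2 := congrArg U.valuation hy
      rw [map_div₀, hu b hb, hu b' hb', div_one, map_pow] at h2
      exact (pow_eq_one_iff_of_nonneg zero_le hq.ne').1 h2.symm
    have hyU : y ∈ U := (U.valuation_le_one_iff _).1 hyv.le
    refine ⟨IsLocalRing.residue U ⟨y, hyU⟩, ?_, ?_⟩
    · intro h
      have := (i0_res_lt _).2 h
      exact absurd (hyv ▸ this : (1 : U.ValueGroup) < 1) (lt_irrefl _)
    · rw [← map_add, ← map_add, div_eq_iff (h0 b' hb'), ← map_pow, ← map_mul]
      congr 1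
      apply Subtype.ext
      have h2 : (c : L) + b = y ^ q * ((c : L) + b') := by
        rw [← hy, div_mul_cancel₀ _ (h1 b' hb')]
      exact h2

end Pool.Agent.NIPFields.RB
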