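import Pool.Agent.NIPFields.RB.VcQ
import Pool.Agent.NIPFields.RB.FinalS
import Pool.Agent.NIPFields.LZ.Hens0
import Pool.Agent.NIPFields.LC.Final

set_option autoImplicit false

/-!
# Theorems R and S in characteristic zero
-/

namespace Pool.Agent.NIPFields.RB

open FirstOrder FirstOrder.Language FirstOrder.Ring Set IsLocalRing Filter Polynomial
open Pool.Agent.NIPFields.LC Pool.Agent.NIPFields.LG Pool.Agent.NIPFields.FI
open Pool.Agent.NIPFields.LZ

universe u

attribute [local instance] germAlg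

/-- Incomparable definable valuation rings and the rainbow condition on the residue field of the
join. -/
theorem no_incomparable_q {K : Type u} [Field K] [CompatibleRing K] (hK : NIP K) {L : Type u}
    [Field L] [Algebra K L] [FiniteDimensional K L]
    (O₁ O₂ : ValuationSubring L)
    (h₁ : ¬ O₁ ≤ O₂) (h₂ : ¬ O₂ ≤ O₁) (hd₁ : LDef₁ (Module.finBasis K L) {x | x ∈ O₁})
    (hd₂ : LDef₁ (Module.finBasis K L) {x | x ∈ O₂}) {q : ℕ} (hq : q.Prime)
    (hinf : Infinite (ResidueField (O₁ ⊔ O₂ : ValuationSubring L)))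
    (hq0 : (q : ResidueField (O₁ ⊔ O₂ : ValuationSubring L)) ≠ 0)
    {ζ : ResidueField (O₁ ⊔ O₂ : ValuationSubring L)} (hζ : IsPrimitiveRoot ζ q)
    {B : Finset (ResidueField (O₁ ⊔ O₂ : ValuationSubring L))}
    (hB : NoRainbow (Pw (ResidueField (O₁ ⊔ O₂ : ValuationSubring L)) q) B) : False := by
  classical
  set U : ValuationSubring L := O₁ ⊔ O₂ with hU
  have hdU : LDef₁ (Module.finBasis K L) {x | x ∈ U} := ldef_sup hd₁ hd₂
  have hu₁ : O₁ ≤ U := le_sup_left
  have hu₂ : O₂ ≤ U := le_sup_right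
  have hn₁ : resVal hu₁ ≠ ⊤ := resVal_ne_top hu₁ (fun h => h₂ (hu₂.trans h))
  have hn₂ : resVal hu₂ ≠ ⊤ := resVal_ne_top hu₂ (fun h => h₁ (hu₁.trans h))
  have hsup : resVal hu₁ ⊔ resVal hu₂ = ⊤ := resVal_sup O₁ O₂
  by_cases hsq : ∃ a : ResidueField U, ∀ y, a ≠ y ^ q
  · let _ : CompatibleRing (ResidueField U) := compatibleRingOfRing (ResidueField U)
    have hNIP : NIP (ResidueField U) := nip_residue hK U hdU
    obtain ⟨d, hd, hTr⟩ := trLe_nip hNIP q
    have hTL : TL (ResidueField U) q := tls_of_noRainbow (fun _ hx => Pw_ne hx) Pw_one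
      (fun _ hx _ hy => Pw_mul hx hy) (fun _ hx => Pw_inv hx) hB (by omega)
      (PQ.tendsto_binom d) hTr
    have D := exists_LD hNIP hq hTL hsq
    obtain ⟨V, hV, hVK, hVJ⟩ := exists_val_of_noJ hNIP hq hq0 hζ D (noJ_of_noRainbow hNIP hB D)
    let A : Bool → ValuationSubring (ResidueField U) :=
      fun b => bif b then resVal hu₁ else resVal hu₂
    refine no_indep_of_val_q hq hζ (A := A) ?_ hsup D V hV hVK hVJ ?_
    · rintro (_ | _)
      · exact hn₂
      · exact hn₁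
    · rintro (_ | _) F a
      · exact iq_vc q hK hd₂ hdU hu₂ F a
      · exact iq_vc q hK hd₁ hdU hu₁ F a
  · push Not at hsq
    refine LC.TT hn₁ hn₂ hsup hq.two_le hq0 hζ ?_ (vc_res hK hd₁ hd₂ hdU hu₁ hu₂ q hq0)
    have htop : (powMonoidHom q : (ResidueField U)ˣ →* (ResidueField U)ˣ).range = ⊤ := by
      rw [eq_top_iff]
      intro z _
      obtain ⟨y, hy⟩ := hsq (z : ResidueField U)
      have hy0 : y ≠ 0 := by
        rintro rfl
        rw [zero_pow hq.ne_zero] at hy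
        exact z.ne_zero hy
      refine ⟨Units.mk0 y hy0, Units.ext ?_⟩
      simp only [powMonoidHom_apply, Units.val_pow_eq_pow_val, Units.val_mk0]
      exact hy.symm
    rw [htop]
    infer_instance

/-- Definable valuation rings are henselian in characteristic zero, if for a prime `q` all finite
extensions `E` have a finite set of algebraic numbers without rainbow translates modulo the `q`-th
powers. -/
theorem henselian_of_definable_q {K : Type u} [Field K] [CompatibleRing K] (hK : NIP K)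
    [CharZero K] {q : ℕ} (hq : q.Prime)
    (hB : ∀ (E : Type u) [Field E] [Algebra K E] [FiniteDimensional K E],
      ∃ B : Finset E, (∀ b ∈ B, IsAlgebraic ℤ b) ∧ NoRainbow (Pw E q) B)
    {O : ValuationSubring K} (hO : (univ : Set K).Definable₁ Language.ring {x | x ∈ O}) :
    HenselianLocalRing O := by
  classical
  by_contra hnh
  obtain ⟨L, _, _, _, hsplit, O₁, O₂, h₁, h₂, hd₁, hd₂⟩ :=
    exists_incomparable_of_not_henselian hO hnh (cyclotomic q K) (cyclotomic_ne_zero q K)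
  have hL0 : CharZero L := charZero_of_injective_algebraMap (algebraMap K L).injective
  obtain ⟨p, hp⟩ := CharP.exists (ResidueField (O₁ ⊔ O₂ : ValuationSubring L))
  rcases CharP.char_is_prime_or_zero (ResidueField (O₁ ⊔ O₂ : ValuationSubring L)) p with
    hpp | rfl
  · exact no_incomparable_charP hK O₁ O₂ h₁ h₂ hd₁ hd₂ p hpp hp
  have h0 : CharZero (ResidueField (O₁ ⊔ O₂ : ValuationSubring L)) :=
    CharP.charP_to_charZero _
  have hm0 : (q : ResidueField (O₁ ⊔ O₂ : ValuationSubring L)) ≠ 0 :=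
    Nat.cast_ne_zero.2 hq.ne_zero
  -- the root of unity
  rw [map_cyclotomic] at hsplit
  have hdeg : (cyclotomic q L).degree ≠ 0 := by
    have h1 := degree_cyclotomic_pos q L hq.pos
    exact h1.ne'
  obtain ⟨ζ, hζ⟩ := hsplit.exists_eval_eq_zero hdeg
  have hζU : ζ ∈ (O₁ ⊔ O₂ : ValuationSubring L) := by
    have h1 : IsIntegral (O₁ ⊔ O₂ : ValuationSubring L) ζ := by
      refine ⟨cyclotomic q _, cyclotomic.monic q _, ?_⟩
      rw [eval₂_eq_eval_map, map_cyclotomic]
      exact hζ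
    obtain ⟨z, hz⟩ := IsIntegrallyClosed.isIntegral_iff.1 h1
    rw [← hz]
    exact z.2
  have hζ' : IsPrimitiveRoot (residue (O₁ ⊔ O₂ : ValuationSubring L) ⟨ζ, hζU⟩) q := by
    have hne : NeZero (q : ResidueField (O₁ ⊔ O₂ : ValuationSubring L)) := ⟨hm0⟩
    rw [← isRoot_cyclotomic_iff, IsRoot.def, ← map_cyclotomic q (residue _), eval_map,
      eval₂_hom]
    have h2 : eval (⟨ζ, hζU⟩ : (O₁ ⊔ O₂ : ValuationSubring L)) (cyclotomic q _) = 0 := by
      apply Subtype.ext
      have h3 := eval_map_algebraMap (B := L) (cyclotomic q (O₁ ⊔ O₂ : ValuationSubring L))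
        (algebraMap (O₁ ⊔ O₂ : ValuationSubring L) L ⟨ζ, hζU⟩)
      rw [aeval_algebraMap_apply, map_cyclotomic] at h3
      have h4 : algebraMap (O₁ ⊔ O₂ : ValuationSubring L) L ⟨ζ, hζU⟩ = ζ := rfl
      rw [h4, hζ] at h3
      exact h3.symm
    rw [h2, map_zero]
  obtain ⟨B, hBa, hB⟩ := hB L
  obtain ⟨B', hB'⟩ := hB.resfield hq.pos (O₁ ⊔ O₂ : ValuationSubring L)
    (fun b hb => mem_of_isAlgebraic _ (hBa b hb)) (by
      intro b hb b' hb' hne
      have h1 : IsAlgebraic ℤ (b - b') := (hBa b hb).sub (hBa b' hb')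
      have h2 : b - b' ∈ (O₁ ⊔ O₂ : ValuationSubring L) := mem_of_isAlgebraic _ h1
      have h3 : (b - b')⁻¹ ∈ (O₁ ⊔ O₂ : ValuationSubring L) := mem_of_isAlgebraic _ h1.inv
      have e1 := ((O₁ ⊔ O₂ : ValuationSubring L).valuation_le_one_iff _).2 h2
      have e2 := ((O₁ ⊔ O₂ : ValuationSubring L).valuation_le_one_iff _).2 h3
      refine le_antisymm e1 ?_
      rw [map_inv₀] at e2
      exact (inv_le_one₀ (zero_lt_iff.2
        (((O₁ ⊔ O₂ : ValuationSubring L).valuation).ne_zero_iff.2 (sub_ne_zero.2 hne)))).1 e2)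
  exact no_incomparable_q hK O₁ O₂ h₁ h₂ hd₁ hd₂ hq (CharZero.infinite _) hm0 hζ' hB'

/-- Fields in which all finite sets have rainbow translates. -/
theorem exists_group' {L : Type u} [Field L] {k : Subfield L} [IsAlgClosed k] {ℓ : ℕ}
    (hℓ : ℓ.Prime) (hℓL : (ℓ : L) ≠ 0)
    (hL : ∀ B : Finset L, (∀ b ∈ B, b ∈ k) → ¬ NoRainbow (Pw L ℓ) B) {Q : Type} [Group Q]
    [Finite Q] (hQ : IsPGroup ℓ Q) :
    ∃ (M : Type u) (_ : Field M) (_ : Algebra L M), FiniteDimensional L M ∧ IsGalois L M ∧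
      Nonempty (Q ≃* (M ≃ₐ[L] M)) := by
  classical
  have hinf : Infinite k := IsAlgClosed.instInfinite
  set m : ℕ := ℓ ^ Nat.card Q + 2 with hm
  obtain ⟨B, hB⟩ := Infinite.exists_subset_card_eq k m
  have h1 := hL (B.image (algebraMap k L)) (by
    intro b hb
    obtain ⟨b, _, rfl⟩ := Finset.mem_image.1 hb
    exact b.2)
  rw [NoRainbow] at h1
  push Not at h1
  obtain ⟨c, hc0, hc⟩ := h1
  have hcB : ∀ b ∈ B, c + algebraMap k L b ≠ 0 := fun b hb => hc0 _ (Finset.mem_image_of_mem _ hb)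
  have hcc : ∀ b ∈ B, ∀ b' ∈ B, b ≠ b' →
      (c + algebraMap k L b) / (c + algebraMap k L b') ∉ Pw L ℓ := by
    intro b hb b' hb' hne
    exact hc _ (Finset.mem_image_of_mem _ hb) _ (Finset.mem_image_of_mem _ hb')
      fun h => hne ((algebraMap k L).injective h)
  -- `c` is transcendental
  have hctr : Transcendental k c := by
    intro halg
    obtain ⟨b, hb, b', hb', hne⟩ := Finset.one_lt_card.1 (by rw [hB]; omega : 1 < B.card)
    apply hcc b hb b' hb' hne
    obtain ⟨c', rfl⟩ : ∃ c' : k, algebraMap k L c' = c :=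
      minpoly.mem_range_of_degree_eq_one k _
        (IsAlgClosed.degree_eq_one_of_irreducible k (minpoly.irreducible halg.isIntegral))
    have e1 := hcB b hb
    have e2 := hcB b' hb'
    rw [← map_add] at e1 e2
    obtain ⟨w, hw⟩ := IsAlgClosed.exists_pow_nat_eq ((c' + b) / (c' + b')) hℓ.pos
    refine ⟨algebraMap k L w, ?_, ?_⟩
    · rw [Ne, map_eq_zero]
      rintro rfl
      rw [zero_pow hℓ.ne_zero, eq_comm, div_eq_zero_iff] at hw
      rcases hw with hw | hw
      · exact e1 (by rw [hw, map_zero])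
      · exact e2 (by rw [hw, map_zero])
    · rw [← map_pow, hw, map_div₀, map_add, map_add]
  -- the field `k(c)`
  have hℓk : (ℓ : k) ≠ 0 := by
    intro h
    apply hℓL
    rw [← map_natCast (algebraMap k L), h, map_zero]
  have hne : NeZero (ℓ : k) := ⟨hℓk⟩
  obtain ⟨ζ, hζ⟩ := HasEnoughRootsOfUnity.exists_primitiveRoot k ℓ
  let F := IntermediateField.adjoin k {c}
  let Ω := AlgebraicClosure L
  let t : F := IntermediateField.AdjoinSimple.gen k c
  have ht : RatGen k F t := ratGen_adjoin hctr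
  have hℓF : (ℓ : F) ≠ 0 := by
    rw [← map_natCast (algebraMap k F)]
    exact fun h => hℓk ((map_eq_zero _).1 h)
  have hζF : IsPrimitiveRoot (algebraMap k F ζ) ℓ :=
    hζ.map_of_injective (algebraMap k F).injective
  have hNS : ∀ M : IntermediateField F Ω, Cls ℓ M → NormSurj F M ℓ := by
    intro M hM
    have := hM.fin
    have := hM.gal
    exact normSurj ht hℓ.pos
  let e : Fin m ≃ B := (B.equivFinOfCardEq hB).symm
  have haF : ∀ i, algebraMap F L (t + algebraMap k F (e i)) = c + algebraMap k L (e i) := fun i => rfl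
  have ha0 : ∀ i, t + algebraMap k F (e i) ≠ 0 := by
    intro i h
    apply hcB _ (e i).2
    rw [← haF, h, map_zero]
  have hch : ∀ i, ∃ (y : Ω) (χ : (Ω ≃ₐ[F] Ω) →* Multiplicative (ZMod ℓ)),
      y ^ ℓ = algebraMap F Ω (t + algebraMap k F (e i)) ∧
      IsChar (algebraMap k F ζ) y χ ∧ FL ℓ χ := fun i => exists_char hℓ hℓF hζF (ha0 i)
  choose y χ hy hχ hFL using hch
  obtain ⟨φ, hφ, hsurj⟩ := exists_surj hℓ hℓF hζF hNS
    (AlgEquiv.restrictScalarsHom F : (Ω ≃ₐ[L] Ω) →* (Ω ≃ₐ[F] Ω)).range χ hFL (by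
      intro i j hij
      obtain ⟨γ, hγ⟩ := char_ne (L := L) hℓ hℓF (ha0 i) (ha0 j) (hy i) (hy j) (hχ i) (hχ j) (by
        rw [haF, haF]
        exact hcc _ (e i).2 _ (e j).2 fun h => hij (e.injective (Subtype.ext h)))
      exact ⟨_, ⟨γ, rfl⟩, hγ⟩) (Nat.card Q) Q rfl hQ (by omega)
  obtain ⟨M, h1, h2, h3⟩ := exists_galois (L := L) φ hφ (by
    intro q
    obtain ⟨_, ⟨γ, rfl⟩, hγ⟩ := hsurj q
    exact ⟨γ, hγ⟩)
  exact ⟨M, inferInstance, inferInstance, h1, h2, h3⟩

/-- **Theorem R in characteristic zero.** -/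
theorem theoremR0 {K : Type u} [Field K] [CompatibleRing K] (hK : NIP K) [CharZero K]
    {L : Type u} [Field L] [Algebra K L] [FiniteDimensional K L] {ℓ : ℕ} (hℓ : ℓ.Prime)
    (hi : ∃ i : L, i ^ 2 = -1) (hζ : ∃ ζ : L, IsPrimitiveRoot ζ ℓ) (ha : ∃ a : L, ∀ y, a ≠ y ^ ℓ)
    {B : Finset L} (hB : NoRainbow (Pw L ℓ) B) {q : ℕ} (hq : q.Prime)
    (hE : ∀ (E : Type u) [Field E] [Algebra K E] [FiniteDimensional K E],
      ∃ B : Finset E, (∀ b ∈ B, IsAlgebraic ℤ b) ∧ NoRainbow (Pw E q) B) :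
    ∃ O : ValuationSubring K, O ≠ ⊤ ∧ HenselianLocalRing O ∧
      (univ : Set K).Definable₁ Language.ring {x | x ∈ O} := by
  have _ : Infinite K := CharZero.infinite K
  let _ : CompatibleRing L := compatibleRingOfRing L
  have hL : NIP L := hK.finite (Module.finBasis K L)
  have hL0 : CharZero L := charZero_of_injective_algebraMap (algebraMap K L).injective
  have hinf : Infinite L := CharZero.infinite L
  obtain ⟨ζ, hζ⟩ := hζ
  obtain ⟨O', h1, hd⟩ := exists_definable_of_noRainbow hL hℓ (Nat.cast_ne_zero.2 hℓ.ne_zero) hζ hi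
    ha hB
  obtain ⟨O, hO1, hO2⟩ := LC.exists_definable_restrict (K := K) h1 hd
  exact ⟨O, hO1, henselian_of_definable_q hK hq hE hO2, hO2⟩

/-- An algebraically closed subfield of algebraic numbers. -/
theorem exists_algNum {E : Type u} [Field E] (φ : AlgebraicClosure ℚ →+* E) :
    ∃ k : Subfield E, IsAlgClosed k ∧ ∀ b ∈ k, IsAlgebraic ℤ b := by
  refine ⟨φ.fieldRange, ?_, ?_⟩
  · have e : AlgebraicClosure ℚ ≃+* φ.fieldRange := φ.rangeRestrictFieldEquiv
    refine IsAlgClosed.of_exists_root _ fun f _ hf => ?_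
    have hdeg : (f.map (e.symm : φ.fieldRange →+* AlgebraicClosure ℚ)).degree ≠ 0 := by
      rw [degree_map]
      exact (degree_pos_of_irreducible hf).ne'
    obtain ⟨x, hx⟩ := IsAlgClosed.exists_root _ hdeg
    refine ⟨e x, ?_⟩
    rw [IsRoot.def, eval_map] at hx
    have h1 := congrArg e hx
    rw [map_zero, ← RingEquiv.coe_toRingHom, hom_eval₂] at h1
    have h2 : ((e : AlgebraicClosure ℚ →+* φ.fieldRange).comp
        (e.symm : φ.fieldRange →+* AlgebraicClosure ℚ)) = RingHom.id _ := by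
      ext x
      simp
    rw [h2] at h1
    exact h1
  · rintro _ ⟨x, rfl⟩
    have h1 : IsAlgebraic ℚ x := by
      convert (AlgebraicClosure.isAlgebraic ℚ).isAlgebraic x
      · rfl
      · exact Subsingleton.elim _ _
    have h2 : IsAlgebraic ℤ x := (IsFractionRing.isAlgebraic_iff ℤ ℚ (AlgebraicClosure ℚ)).2 h1
    exact h2.algHom (RingHom.toIntAlgHom φ)

/-- If some finite `q`-group is not a Galois group over `E`, there is a set of algebraic numbers
without rainbow translates. -/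
theorem noRainbow_of_group {E : Type u} [Field E] [CharZero E] (φ : AlgebraicClosure ℚ →+* E)
    {q : ℕ} (hq : q.Prime) {Q : Type} [Group Q] [Finite Q] (hQ : IsPGroup q Q)
    (hno : ∀ (M : Type u) [Field M] [Algebra E M], FiniteDimensional E M → IsGalois E M →
      IsEmpty (Q ≃* (M ≃ₐ[E] M))) :
    ∃ B : Finset E, (∀ b ∈ B, IsAlgebraic ℤ b) ∧ NoRainbow (Pw E q) B := by
  obtain ⟨k, hk, hka⟩ := exists_algNum φ
  by_contra hcon
  push Not at hcon
  obtain ⟨M, _, _, h1, h2, ⟨h3⟩⟩ := exists_group' (k := k) hq (Nat.cast_ne_zero.2 hq.ne_zero)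
    (fun B hB => hcon B fun b hb => hka b (hB b hb)) hQ
  exact (hno M h1 h2).false h3

/-- **Theorem S in characteristic zero.** -/
theorem theoremS0' {K : Type u} [Field K] [CompatibleRing K] (hK : NIP K)
    (φ : AlgebraicClosure ℚ →+* K) {L : Type u} [Field L] [Algebra K L] [FiniteDimensional K L]
    {ℓ : ℕ} (hℓ : ℓ.Prime) (ha : ∃ a : L, ∀ y, a ≠ y ^ ℓ)
    (hL : (∃ B : Finset L, NoRainbow (Pw L ℓ) B) ∨
      ∃ (Q : Type) (_ : Group Q), Finite Q ∧ IsPGroup ℓ Q ∧
        ∀ (M : Type u) [Field M] [Algebra L M], FiniteDimensional L M → IsGalois L M →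
          IsEmpty (Q ≃* (M ≃ₐ[L] M))) {q : ℕ} (hq : q.Prime)
    (hE : ∀ (E : Type u) [Field E] [Algebra K E] [FiniteDimensional K E],
      (∃ B : Finset E, (∀ b ∈ B, IsAlgebraic ℤ b) ∧ NoRainbow (Pw E q) B) ∨
      ∃ (Q : Type) (_ : Group Q), Finite Q ∧ IsPGroup q Q ∧
        ∀ (M : Type u) [Field M] [Algebra E M], FiniteDimensional E M → IsGalois E M →
          IsEmpty (Q ≃* (M ≃ₐ[E] M))) :
    ∃ O : ValuationSubring K, O ≠ ⊤ ∧ HenselianLocalRing O ∧
      (univ : Set K).Definable₁ Language.ring {x | x ∈ O} := by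
  have _ : CharZero K := charZero_of_injective_ringHom φ.injective
  have hL0 : CharZero L := charZero_of_injective_algebraMap (algebraMap K L).injective
  obtain ⟨B, hB⟩ : ∃ B : Finset L, NoRainbow (Pw L ℓ) B := by
    rcases hL with h | ⟨Q, _, _, hQ, hno⟩
    · exact h
    · obtain ⟨B, -, hB⟩ := noRainbow_of_group ((algebraMap K L).comp φ) hℓ hQ hno
      exact ⟨B, hB⟩
  refine theoremR0 hK hℓ ?_ ?_ ha hB hq fun E _ _ _ => ?_
  · obtain ⟨i, hi⟩ := IsAlgClosed.exists_pow_nat_eq (-1 : AlgebraicClosure ℚ) (n := 2) two_pos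
    exact ⟨algebraMap K L (φ i), by rw [← map_pow, ← map_pow, hi, map_neg, map_neg, map_one,
      map_one]⟩
  · have hne : NeZero (ℓ : AlgebraicClosure ℚ) := ⟨Nat.cast_ne_zero.2 hℓ.ne_zero⟩
    obtain ⟨ζ, hζ⟩ := HasEnoughRootsOfUnity.exists_primitiveRoot (AlgebraicClosure ℚ) ℓ
    exact ⟨_, hζ.map_of_injective ((algebraMap K L).comp φ).injective⟩
  · have hE0 : CharZero E := charZero_of_injective_algebraMap (algebraMap K E).injective
    rcases hE E with h | ⟨Q, _, _, hQ, hno⟩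
    · exact h
    · exact noRainbow_of_group ((algebraMap K E).comp φ) hq hQ hno

/-- **Theorem S in characteristic zero.** -/
theorem theoremS0 {K : Type u} [Field K] [CompatibleRing K] (hK : NIP K)
    (φ : AlgebraicClosure ℚ →+* K) {L : Type u} [Field L] [Algebra K L] [FiniteDimensional K L]
    {ℓ : ℕ} (hℓ : ℓ.Prime) (ha : ∃ a : L, ∀ y, a ≠ y ^ ℓ) {Q : Type} [Group Q] [Finite Q]
    (hQ : IsPGroup ℓ Q)
    (hno : ∀ (M : Type u) [Field M] [Algebra L M], FiniteDimensional L M → IsGalois L M →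
      IsEmpty (Q ≃* (M ≃ₐ[L] M))) {q : ℕ} (hq : q.Prime)
    (hE : ∀ (E : Type u) [Field E] [Algebra K E] [FiniteDimensional K E],
      ∃ (Q : Type) (_ : Group Q), Finite Q ∧ IsPGroup q Q ∧
        ∀ (M : Type u) [Field M] [Algebra E M], FiniteDimensional E M → IsGalois E M →
          IsEmpty (Q ≃* (M ≃ₐ[E] M))) :
    ∃ O : ValuationSubring K, O ≠ ⊤ ∧ HenselianLocalRing O ∧
      (univ : Set K).Definable₁ Language.ring {x | x ∈ O} :=
  theoremS0' hK φ hℓ ha (Or.inr ⟨Q, inferInstance, inferInstance, hQ, hno⟩) hq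
    fun E _ _ _ => Or.inr (hE E)

end Pool.Agent.NIPFields.RB
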